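import Pool.Agent.H675R3.Transfer

set_option autoImplicit false
set_option linter.unusedVariables false

namespace Pool.Agent.H675R3

open Finset Matrix

section
variable {hh : ℕ} (c : Fin hh → Fin hh → Fin hh → ℤ)

/-- matrix of the left bracket with a basis vector -/
def AdM (F : Type*) [CommRing F] (a : Fin hh) : Matrix (Fin hh) (Fin hh) F :=
  Matrix.of fun r b => (c a b r : F)

lemma AdM_map {F F' : Type*} [CommRing F] [CommRing F'] (f : F →+* F') (a : Fin hh) :
    (AdM c F a).map f = AdM c F' a := by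
  ext r b
  simp [AdM, Matrix.map_apply]

lemma AdM_mulVec {F : Type*} [CommRing F] (y x : Fin hh → F) :
    brk c y x = ∑ a, y a • (AdM c F a *ᵥ x) := by
  funext r
  rw [Finset.sum_apply]
  unfold brk
  refine Finset.sum_congr rfl fun a _ => ?_
  rw [Pi.smul_apply, Matrix.mulVec, dotProduct, smul_eq_mul, Finset.mul_sum]
  refine Finset.sum_congr rfl fun b _ => ?_
  rw [AdM, Matrix.of_apply]
  ring

/-- the kernel of `L` is an ideal, in matrix form -/
def LT {k : ℕ} {F : Type*} [CommRing F] (L : Matrix (Fin k) (Fin hh) F) : Prop :=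
  ∃ T : Fin hh → Matrix (Fin k) (Fin k) F, ∀ a, L * AdM c F a = T a * L

variable {c}

lemma LT.map {k : ℕ} {F F' : Type*} [CommRing F] [CommRing F'] {L : Matrix (Fin k) (Fin hh) F}
    (h : LT c L) (f : F →+* F') : LT c (L.map f) := by
  obtain ⟨T, hT⟩ := h
  refine ⟨fun a => (T a).map f, fun a => ?_⟩
  have := congrArg (fun M => Matrix.map M f) (hT a)
  simp only [Matrix.map_mul] at this
  rwa [AdM_map] at this

lemma LT.isCI {k : ℕ} {F : Type*} [CommRing F] {L : Matrix (Fin k) (Fin hh) F} (h : LT c L) :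
    IsCI c (LinearMap.ker L.mulVecLin : Set (Fin hh → F)) := by
  obtain ⟨T, hT⟩ := h
  intro x hx y
  rw [SetLike.mem_coe, LinearMap.mem_ker, Matrix.mulVecLin_apply] at hx ⊢
  rw [AdM_mulVec, Matrix.mulVec_sum]
  refine Finset.sum_eq_zero fun a _ => ?_
  rw [Matrix.mulVec_smul, Matrix.mulVec_mulVec, hT, ← Matrix.mulVec_mulVec, hx, Matrix.mulVec_zero,
    smul_zero]

lemma finrank_ker_le {k : ℕ} {F : Type*} [Field F] (L : Matrix (Fin k) (Fin hh) F) :
    Module.finrank F ((Fin hh → F) ⧸ LinearMap.ker L.mulVecLin) ≤ k := by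
  rw [LinearEquiv.finrank_eq (L.mulVecLin.quotKerEquivRange)]
  have := Submodule.finrank_le (LinearMap.range L.mulVecLin)
  rwa [Module.finrank_fin_fun] at this

lemma card_ker_le {k : ℕ} (p : ℕ) [Fact p.Prime] (L : Matrix (Fin k) (Fin hh) (ZMod p)) :
    Nat.card ((Fin hh → ZMod p) ⧸ LinearMap.ker L.mulVecLin) ≤ p ^ k := by
  rw [Nat.card_congr (L.mulVecLin.quotKerEquivRange).toEquiv]
  have := Nat.card_le_card_of_injective (Subtype.val : LinearMap.range L.mulVecLin → (Fin k → ZMod p))
    Subtype.val_injective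
  refine this.trans ?_
  rw [Nat.card_eq_fintype_card, Fintype.card_fun, ZMod.card, Fintype.card_fin]

/-- factoring linear maps -/
lemma exists_factor {F V W U : Type*} [Field F] [AddCommGroup V] [Module F V] [AddCommGroup W]
    [Module F W] [AddCommGroup U] [Module F U] (f : V →ₗ[F] W) (g : V →ₗ[F] U)
    (h : LinearMap.ker f ≤ LinearMap.ker g) : ∃ t : W →ₗ[F] U, t ∘ₗ f = g := by
  obtain ⟨l, hl⟩ := LinearMap.exists_leftInverse_of_injective
    ((LinearMap.ker f).liftQ f le_rfl) (by
      rw [Submodule.ker_liftQ, Submodule.mkQ_map_self])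
  refine ⟨((LinearMap.ker f).liftQ g h) ∘ₗ l, ?_⟩
  ext x
  have h1 := LinearMap.congr_fun hl ((LinearMap.ker f).mkQ x)
  rw [LinearMap.comp_apply, LinearMap.id_apply, Submodule.mkQ_apply, Submodule.liftQ_apply] at h1
  rw [LinearMap.comp_apply, LinearMap.comp_apply, h1, Submodule.liftQ_apply]

/-- every ideal of small codimension is the kernel of a matrix -/
theorem exists_LT {k : ℕ} {F : Type*} [Field F] (I : Submodule F (Fin hh → F))
    (hI : IsCI c (I : Set (Fin hh → F))) (hk : Module.finrank F ((Fin hh → F) ⧸ I) ≤ k) :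
    ∃ L : Matrix (Fin k) (Fin hh) F, LT c L ∧ ∀ x, x ∈ I ↔ L *ᵥ x = 0 := by
  classical
  set m := Module.finrank F ((Fin hh → F) ⧸ I) with hm
  let e : ((Fin hh → F) ⧸ I) ≃ₗ[F] (Fin m → F) := (Module.finBasis F ((Fin hh → F) ⧸ I)).equivFun
  let j : (Fin m → F) →ₗ[F] (Fin k → F) :=
    { toFun := fun x t => if h : (t : ℕ) < m then x ⟨t, h⟩ else 0
      map_add' := fun x y => by
        funext t
        by_cases h : (t : ℕ) < m <;> simp [h]
      map_smul' := fun r x => by
        funext t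
        by_cases h : (t : ℕ) < m <;> simp [h] }
  have hj : ∀ x, j x = 0 → x = 0 := by
    intro x hx
    funext t
    have h1 := congrFun hx ⟨t, lt_of_lt_of_le t.2 hk⟩
    have h2 : j x ⟨t, lt_of_lt_of_le t.2 hk⟩ = x t := by
      change (if h : (t : ℕ) < m then x ⟨t, h⟩ else 0) = x t
      rw [dif_pos t.2]
    rw [h2] at h1
    exact h1
  let Lm : (Fin hh → F) →ₗ[F] (Fin k → F) := j ∘ₗ e.toLinearMap ∘ₗ I.mkQ
  have hLm : ∀ x, Lm x = 0 ↔ x ∈ I := by
    intro x
    constructor
    · intro h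
      have h1 := hj _ h
      have h2 : I.mkQ x = 0 := by
        have := e.map_eq_zero_iff.mp h1
        exact this
      exact (Submodule.Quotient.mk_eq_zero I).mp h2
    · intro h
      have h2 : I.mkQ x = 0 := (Submodule.Quotient.mk_eq_zero I).mpr h
      change j (e (I.mkQ x)) = 0
      rw [h2, map_zero, map_zero]
  set L := LinearMap.toMatrix' Lm with hL
  have hLx : ∀ x, L *ᵥ x = Lm x := fun x => LinearMap.toMatrix'_mulVec Lm x
  refine ⟨L, ?_, fun x => by rw [hLx, hLm]⟩
  have hfac : ∀ a, ∃ t : (Fin k → F) →ₗ[F] (Fin k → F), t ∘ₗ Lm = Lm ∘ₗ (AdM c F a).mulVecLin := by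
    intro a
    apply exists_factor
    intro x hx
    rw [LinearMap.mem_ker, hLm] at hx
    rw [LinearMap.mem_ker, LinearMap.comp_apply, hLm, Matrix.mulVecLin_apply]
    have h1 := hI x hx (Pi.single a 1)
    have h2 : brk c (Pi.single a (1 : F)) x = AdM c F a *ᵥ x := by
      rw [AdM_mulVec, Finset.sum_eq_single a]
      · rw [Pi.single_eq_same, one_smul]
      · intro b _ hb
        rw [Pi.single_eq_of_ne hb, zero_smul]
      · intro h; exact absurd (Finset.mem_univ a) h
    rw [← h2]
    exact h1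
  choose t ht using hfac
  refine ⟨fun a => LinearMap.toMatrix' (t a), fun a => ?_⟩
  have h3 := congrArg LinearMap.toMatrix' (ht a)
  have h4 : LinearMap.toMatrix' (AdM c F a).mulVecLin = AdM c F a := LinearMap.toMatrix'_toLin' _
  rw [LinearMap.toMatrix'_comp (t a) Lm, LinearMap.toMatrix'_comp Lm (AdM c F a).mulVecLin, h4] at h3
  exact h3.symm

end

end Pool.Agent.H675R3
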