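import Pool.Agent.H675R3.AlgA

set_option autoImplicit false
set_option linter.unusedVariables false

namespace Pool.Agent.H675R3

open Finset Matrix

section
variable {hh : ℕ} (c : Fin hh → Fin hh → Fin hh → ℤ) (k r m q : ℕ)
  (V : Matrix (Fin hh) (Fin q) ℤ) (W : Matrix (Fin m) (Fin q) ℤ)

/-- the finite system of polynomial equations -/
structure IData (F : Type*) [CommRing F] where
  L : Fin r → Matrix (Fin k) (Fin hh) F
  T : Fin r → Fin hh → Matrix (Fin k) (Fin k) F
  M : Fin r → Matrix (Fin m) (Fin k) F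
  eq1 : ∀ j a, L j * AdM c F a = T j a * L j
  eq2 : ∑ j, M j * L j * V.map (Int.castRingHom F) = W.map (Int.castRingHom F)

variable {c k r m q V W}

lemma intMap_map {F F' : Type*} [CommRing F] [CommRing F'] (f : F →+* F') {a b : ℕ}
    (V : Matrix (Fin a) (Fin b) ℤ) :
    (V.map (Int.castRingHom F)).map f = V.map (Int.castRingHom F') := by
  ext i j
  simp [Matrix.map_apply]

lemma mat_map_sum {F F' : Type*} [CommRing F] [CommRing F'] (f : F →+* F') {a b : ℕ} {ι : Type*}
    (s : Finset ι) (A : ι → Matrix (Fin a) (Fin b) F) :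
    (∑ j ∈ s, A j).map f = ∑ j ∈ s, (A j).map f := by
  ext i j
  rw [Matrix.map_apply, Matrix.sum_apply, Matrix.sum_apply, map_sum]
  rfl

/-- base change -/
def IData.map {F F' : Type*} [CommRing F] [CommRing F'] (d : IData c k r m q V W F) (f : F →+* F') :
    IData c k r m q V W F' where
  L j := (d.L j).map f
  T j a := (d.T j a).map f
  M j := (d.M j).map f
  eq1 j a := by
    have := congrArg (fun M => Matrix.map M f) (d.eq1 j a)
    simp only [Matrix.map_mul] at this
    rwa [AdM_map] at this
  eq2 := by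
    have := congrArg (fun M => Matrix.map M f) d.eq2
    simp only [intMap_map] at this
    rw [← this, mat_map_sum]
    refine Finset.sum_congr rfl fun j _ => ?_
    rw [Matrix.map_mul, Matrix.map_mul, intMap_map]

/-- descent to a finitely generated ring -/
theorem IData.descend {F : Type} [CommRing F] (d : IData c k r m q V W F) :
    ∃ A : Subalgebra ℤ F, A.FG ∧ Nonempty (IData c k r m q V W A) := by
  classical
  let S : Set F := (⋃ j, ⋃ a, ⋃ b, {d.L j a b}) ∪ (⋃ j, ⋃ i, ⋃ a, ⋃ b, {d.T j i a b}) ∪
    (⋃ j, ⋃ a, ⋃ b, {d.M j a b})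
  have hS : S.Finite := by
    refine ((Set.finite_iUnion fun _ => Set.finite_iUnion fun _ => Set.finite_iUnion fun _ =>
      Set.finite_singleton _).union (Set.finite_iUnion fun _ => Set.finite_iUnion fun _ =>
      Set.finite_iUnion fun _ => Set.finite_iUnion fun _ => Set.finite_singleton _)).union
      (Set.finite_iUnion fun _ => Set.finite_iUnion fun _ => Set.finite_iUnion fun _ =>
      Set.finite_singleton _)
  let A := Algebra.adjoin ℤ S
  have hL : ∀ j a b, d.L j a b ∈ A := fun j a b => Algebra.subset_adjoin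
    (Or.inl (Or.inl (by simp only [Set.mem_iUnion, Set.mem_singleton_iff]; exact ⟨j, a, b, rfl⟩)))
  have hT : ∀ j i a b, d.T j i a b ∈ A := fun j i a b => Algebra.subset_adjoin
    (Or.inl (Or.inr (by simp only [Set.mem_iUnion, Set.mem_singleton_iff]; exact ⟨j, i, a, b, rfl⟩)))
  have hM : ∀ j a b, d.M j a b ∈ A := fun j a b => Algebra.subset_adjoin
    (Or.inr (by simp only [Set.mem_iUnion, Set.mem_singleton_iff]; exact ⟨j, a, b, rfl⟩))
  have hinj : Function.Injective (A.val.toRingHom) := Subtype.val_injective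
  let L' : Fin r → Matrix (Fin k) (Fin hh) A := fun j => Matrix.of fun a b => ⟨d.L j a b, hL j a b⟩
  let T' : Fin r → Fin hh → Matrix (Fin k) (Fin k) A :=
    fun j i => Matrix.of fun a b => ⟨d.T j i a b, hT j i a b⟩
  let M' : Fin r → Matrix (Fin m) (Fin k) A := fun j => Matrix.of fun a b => ⟨d.M j a b, hM j a b⟩
  have eL : ∀ j, (L' j).map A.val.toRingHom = d.L j := fun j => by ext a b; rfl
  have eT : ∀ j i, (T' j i).map A.val.toRingHom = d.T j i := fun j i => by ext a b; rfl
  have eM : ∀ j, (M' j).map A.val.toRingHom = d.M j := fun j => by ext a b; rfl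
  refine ⟨A, Subalgebra.fg_def.mpr ⟨S, hS, rfl⟩, ⟨⟨L', T', M', ?_, ?_⟩⟩⟩
  · intro j a
    apply Matrix.map_injective hinj
    change (L' j * AdM c A a).map A.val.toRingHom = (T' j a * L' j).map A.val.toRingHom
    rw [Matrix.map_mul, Matrix.map_mul, AdM_map, eL, eT]
    exact d.eq1 j a
  · apply Matrix.map_injective hinj
    change (∑ j, M' j * L' j * V.map (Int.castRingHom A)).map A.val.toRingHom =
      (W.map (Int.castRingHom A)).map A.val.toRingHom
    rw [mat_map_sum, intMap_map, ← d.eq2]
    refine Finset.sum_congr rfl fun j _ => ?_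
    rw [Matrix.map_mul, Matrix.map_mul, intMap_map, eL, eM]

lemma IData.lt {F : Type*} [CommRing F] (d : IData c k r m q V W F) (j : Fin r) : LT c (d.L j) :=
  ⟨d.T j, d.eq1 j⟩

end

/-- every finitely generated ring with a point in characteristic zero has a point in a number field -/
theorem exists_numberField (A : Type) [CommRing A] [Algebra.FiniteType ℤ A] {F : Type} [Field F]
    [CharZero F] (f : A →+* F) :
    ∃ (K : Type) (_ : Field K) (_ : NumberField K), Nonempty (A →+* K) := by
  let B := TensorProduct ℤ ℚ A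
  have hB : Nontrivial B := by
    let fq : ℚ →ₐ[ℤ] F := (algebraMap ℚ F).toIntAlgHom
    let fa : A →ₐ[ℤ] F := f.toIntAlgHom
    let g : B →ₐ[ℤ] F := Algebra.TensorProduct.lift fq fa (fun _ _ => Commute.all _ _)
    exact g.toRingHom.domain_nontrivial
  obtain ⟨m, hm⟩ := Ideal.exists_maximal B
  letI : Field (B ⧸ m) := Ideal.Quotient.field m
  have hft : @Algebra.FiniteType ℚ (B ⧸ m) _ _ (Ideal.Quotient.algebra ℚ) := inferInstance
  have hfin := @finite_of_finite_type_of_isJacobsonRing ℚ (B ⧸ m) _ _ (Ideal.Quotient.algebra ℚ) _ hft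
  have hchar : CharZero (B ⧸ m) := charZero_of_injective_algebraMap (algebraMap ℚ (B ⧸ m)).injective
  have key : ∀ (a : Algebra ℚ (B ⧸ m)), @Module.Finite ℚ (B ⧸ m) _ _ a.toModule := by
    intro a
    have e : a = Ideal.Quotient.algebra ℚ := Subsingleton.elim _ _
    rw [e]
    exact hfin
  have hnf : NumberField (B ⧸ m) :=
    { to_charZero := hchar
      to_finiteDimensional := key _ }
  refine ⟨B ⧸ m, inferInstance, hnf, ⟨?_⟩⟩
  exact (Ideal.Quotient.mk m).comp (Algebra.TensorProduct.includeRight : A →ₐ[ℤ] B).toRingHom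

end Pool.Agent.H675R3
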