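import Pool.Agent.H675R3.AlgB

set_option autoImplicit false
set_option linter.unusedVariables false

namespace Pool.Agent.H675R3

open Finset NumberField

/-- points of finitely generated rings modulo primes of degree one -/
theorem exists_zmod (A : Type) [CommRing A] [hA : Algebra.FiniteType ℤ A] {F : Type} [Field F]
    [CharZero F] (f : A →+* F) :
    ∃ (K : Type) (_ : Field K) (_ : NumberField K) (D : ℕ), 0 < D ∧ ∀ p : ℕ, p.Prime → ¬ p ∣ D →
      Nonempty (𝓞 K →+* ZMod p) → Nonempty (A →+* ZMod p) := by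
  classical
  obtain ⟨K, hK, hNF, ⟨g⟩⟩ := exists_numberField A f
  obtain ⟨s, hs⟩ := hA.out
  obtain ⟨y, hy, hint⟩ := exists_integral_multiples ℤ ℚ (s.image g)
  set D := y.natAbs with hD
  have hD0 : 0 < D := Int.natAbs_pos.mpr hy
  have hint' : ∀ a ∈ s, ∃ x : 𝓞 K, algebraMap (𝓞 K) K x = (D : K) * g a := by
    intro a ha
    have h1 := hint (g a) (Finset.mem_image_of_mem g ha)
    rw [zsmul_eq_mul] at h1
    have h2 : IsIntegral ℤ ((D : K) * g a) := by
      rcases Int.natAbs_eq y with h | h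
      · have e : (D : K) = (y : K) := by rw [h, ← hD]; simp
        rw [e]; exact h1
      · have e : (D : K) = - (y : K) := by rw [h, ← hD]; simp
        rw [e, neg_mul]; exact h1.neg
    exact ⟨⟨_, h2⟩, rfl⟩
  refine ⟨K, hK, hNF, D, hD0, fun p hp hpD ⟨φ⟩ => ?_⟩
  let O := Localization.Away ((D : ℕ) : 𝓞 K)
  have hDK : IsUnit ((algebraMap (𝓞 K) K) ((D : ℕ) : 𝓞 K)) := by
    rw [map_natCast, isUnit_iff_ne_zero]
    exact_mod_cast hD0.ne'
  let ι : O →+* K := IsLocalization.Away.lift (S := O) ((D : ℕ) : 𝓞 K) hDK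
  have hι0 : ∀ x : 𝓞 K, ι (algebraMap (𝓞 K) O x) = algebraMap (𝓞 K) K x := fun x =>
    IsLocalization.Away.lift_eq _ hDK x
  have hιinj : Function.Injective ι := by
    rw [injective_iff_map_eq_zero]
    intro x hx
    obtain ⟨a, t, rfl⟩ := IsLocalization.exists_mk'_eq (Submonoid.powers ((D : ℕ) : 𝓞 K)) x
    have h1 := IsLocalization.mk'_spec O a t
    have h2 := congrArg ι h1
    rw [map_mul, hx, zero_mul, hι0] at h2
    have h3 : a = 0 := by
      apply FaithfulSMul.algebraMap_injective (𝓞 K) K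
      rw [← h2, map_zero]
    rw [h3, IsLocalization.mk'_zero]
  -- the image of `A` lies in the range
  have hrange : ∀ a : A, g a ∈ ι.range := by
    have h1 : ∀ a ∈ s, g a ∈ ι.range := by
      intro a ha
      obtain ⟨x, hx⟩ := hint' a ha
      refine ⟨IsLocalization.mk' O x (⟨_, Submonoid.mem_powers ((D : ℕ) : 𝓞 K)⟩ :
        Submonoid.powers ((D : ℕ) : 𝓞 K)), ?_⟩
      have h2 := IsLocalization.mk'_spec O x (⟨_, Submonoid.mem_powers ((D : ℕ) : 𝓞 K)⟩ :
        Submonoid.powers ((D : ℕ) : 𝓞 K))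
      have h3 := congrArg ι h2
      rw [map_mul, hι0, hι0, hx] at h3
      have h4 : (algebraMap (𝓞 K) K) ((D : ℕ) : 𝓞 K) = (D : K) := map_natCast _ _
      have h5 : (D : K) ≠ 0 := by exact_mod_cast hD0.ne'
      change _ * (algebraMap (𝓞 K) K) ((D : ℕ) : 𝓞 K) = _ at h3
      rw [h4, mul_comm] at h3
      exact mul_left_cancel₀ h5 h3
    intro a
    have h2 : a ∈ Algebra.adjoin ℤ (s : Set A) := by rw [hs]; trivial
    induction h2 using Algebra.adjoin_induction with
    | mem x hx => exact h1 x hx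
    | algebraMap r => rw [eq_intCast, map_intCast]; exact intCast_mem _ r
    | add x y _ _ hx hy => rw [map_add]; exact add_mem hx hy
    | mul x y _ _ hx hy => rw [map_mul]; exact mul_mem hx hy
  let e : O ≃+* ι.range := RingEquiv.ofBijective ι.rangeRestrict
    ⟨fun x y h => hιinj (congrArg Subtype.val h), ι.rangeRestrict_surjective⟩
  let g' : A →+* ι.range := g.codRestrict ι.range hrange
  have hDp : IsUnit (φ ((D : ℕ) : 𝓞 K)) := by
    rw [map_natCast, ZMod.isUnit_iff_coprime]
    exact ((Nat.Prime.coprime_iff_not_dvd hp).mpr hpD).symm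
  let ψ : O →+* ZMod p := IsLocalization.Away.lift (S := O) ((D : ℕ) : 𝓞 K) hDp
  exact ⟨ψ.comp (e.symm.toRingHom.comp g')⟩

/-- points of finitely generated rings in the algebraic numbers -/
theorem exists_algclosure (A : Type) [CommRing A] [hA : Algebra.FiniteType ℤ A] {F : Type} [Field F]
    [CharZero F] (f : A →+* F) : Nonempty (A →+* AlgebraicClosure ℚ) := by
  obtain ⟨K, hK, hNF, ⟨g⟩⟩ := exists_numberField A f
  let j : K →ₐ[ℚ] AlgebraicClosure ℚ := IsAlgClosed.lift
  exact ⟨j.toRingHom.comp g⟩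

end Pool.Agent.H675R3
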