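import Pool.Agent.H675R3.AlgC

set_option autoImplicit false
set_option linter.unusedVariables false

namespace Pool.Agent.H675R3

open Finset NumberField Matrix

section
variable {hh : ℕ} {c : Fin hh → Fin hh → Fin hh → ℤ} {k : ℕ}

/-- separation of vectors by ideals of codimension at most `k` -/
def Sep (c : Fin hh → Fin hh → Fin hh → ℤ) (k : ℕ) (F : Type) [Field F] : Prop :=
  ∀ x : Fin hh → F, (∀ I : Submodule F (Fin hh → F), IsCI c (I : Set (Fin hh → F)) →
    Module.finrank F ((Fin hh → F) ⧸ I) ≤ k → x ∈ I) → x = 0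

lemma Sep.exists_L {F : Type} [Field F] (h : Sep c k F) (x : Fin hh → F) (hx : x ≠ 0) :
    ∃ L : Matrix (Fin k) (Fin hh) F, LT c L ∧ L *ᵥ x ≠ 0 := by
  by_contra hcon
  push Not at hcon
  apply hx
  apply h x
  intro I hI hk
  obtain ⟨L, hL, hLI⟩ := exists_LT I hI hk
  exact (hLI x).mpr (hcon L hL)

lemma exists_finite_family {F : Type} [Field F]
    (h : ∀ x : Fin hh → F, x ≠ 0 → ∃ L : Matrix (Fin k) (Fin hh) F, LT c L ∧ L *ᵥ x ≠ 0) :
    ∃ (r : ℕ) (L : Fin r → Matrix (Fin k) (Fin hh) F), (∀ j, LT c (L j)) ∧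
      ∀ x, (∀ j, L j *ᵥ x = 0) → x = 0 := by
  let S : Set (Submodule F (Fin hh → F)) := {W | ∃ (r : ℕ) (L : Fin r → Matrix (Fin k) (Fin hh) F),
    (∀ j, LT c (L j)) ∧ W = ⨅ j, LinearMap.ker (L j).mulVecLin}
  have hS : S.Nonempty := ⟨_, 0, Fin.elim0, fun j => j.elim0, rfl⟩
  obtain ⟨W, ⟨r, L, hL, hW⟩, hmin⟩ := WellFounded.has_min
    (wellFounded_lt (α := Submodule F (Fin hh → F))) S hS
  refine ⟨r, L, hL, fun x hx => ?_⟩
  by_contra hx0
  obtain ⟨L', hL', hL'x⟩ := h x hx0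
  have hxW : x ∈ W := by
    rw [hW, Submodule.mem_iInf]
    intro j
    rw [LinearMap.mem_ker, Matrix.mulVecLin_apply]
    exact hx j
  apply hmin (⨅ j, LinearMap.ker ((Fin.cons L' L : Fin (r + 1) → Matrix (Fin k) (Fin hh) F) j).mulVecLin)
  · refine ⟨r + 1, Fin.cons L' L, ?_, rfl⟩
    intro j
    refine Fin.cases ?_ (fun j => ?_) j
    · rw [Fin.cons_zero]; exact hL'
    · rw [Fin.cons_succ]; exact hL j
  · refine lt_of_le_of_ne ?_ ?_
    · rw [hW]
      intro y hy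
      rw [Submodule.mem_iInf] at hy ⊢
      intro j
      have := hy j.succ
      rwa [Fin.cons_succ] at this
    · intro e
      rw [← e, Submodule.mem_iInf] at hxW
      have := hxW 0
      rw [Fin.cons_zero, LinearMap.mem_ker, Matrix.mulVecLin_apply] at this
      exact hL'x this

lemma exists_IData {F : Type} [Field F]
    (h : ∀ x : Fin hh → F, x ≠ 0 → ∃ L : Matrix (Fin k) (Fin hh) F, LT c L ∧ L *ᵥ x ≠ 0) :
    ∃ r : ℕ, Nonempty (IData c k r hh hh 1 1 F) := by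
  classical
  obtain ⟨r, L, hL, hL0⟩ := exists_finite_family h
  choose T hT using hL
  let Φ : (Fin hh → F) →ₗ[F] (Fin r → Fin k → F) := LinearMap.pi fun j => (L j).mulVecLin
  obtain ⟨G, hG⟩ := LinearMap.exists_leftInverse_of_injective Φ (by
    rw [LinearMap.ker_eq_bot']
    intro x hx
    apply hL0
    intro j
    exact congrFun hx j)
  let M : Fin r → Matrix (Fin hh) (Fin k) F := fun j =>
    LinearMap.toMatrix' (G ∘ₗ LinearMap.single F (fun _ : Fin r => Fin k → F) j)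
  refine ⟨r, ⟨⟨L, T, M, hT, ?_⟩⟩⟩
  have e1 : (1 : Matrix (Fin hh) (Fin hh) ℤ).map (Int.castRingHom F) = 1 := by
    rw [Matrix.map_one _ (map_zero _) (map_one _)]
  rw [e1]
  simp only [Matrix.mul_one]
  apply Matrix.toLin'.injective
  apply LinearMap.ext
  intro x
  rw [Matrix.toLin'_one, LinearMap.id_apply, Matrix.toLin'_apply, Matrix.sum_mulVec]
  have h2 : ∀ j, (M j * L j) *ᵥ x = G (Pi.single j (L j *ᵥ x)) := by
    intro j
    rw [← Matrix.mulVec_mulVec]
    change LinearMap.toMatrix' _ *ᵥ _ = _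
    rw [LinearMap.toMatrix'_mulVec]
    rfl
  simp only [h2]
  rw [← map_sum, Finset.univ_sum_single]
  exact LinearMap.congr_fun hG x

lemma IData.sep {r : ℕ} {F : Type} [CommRing F] (d : IData c k r hh hh 1 1 F) (x : Fin hh → F)
    (hx : x ≠ 0) : ∃ j, d.L j *ᵥ x ≠ 0 := by
  by_contra hcon
  push Not at hcon
  apply hx
  have h1 := d.eq2
  have e1 : (1 : Matrix (Fin hh) (Fin hh) ℤ).map (Int.castRingHom F) = 1 := by
    rw [Matrix.map_one _ (map_zero _) (map_one _)]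
  rw [e1] at h1
  simp only [Matrix.mul_one] at h1
  have h2 := congrArg (fun M => M *ᵥ x) h1
  simp only [Matrix.one_mulVec, Matrix.sum_mulVec] at h2
  rw [← h2]
  refine Finset.sum_eq_zero fun j _ => ?_
  rw [← Matrix.mulVec_mulVec, hcon j, Matrix.mulVec_zero]

/-- **Upper bound, algebraic part** -/
theorem ub_alg (h : Sep c k ℂ) : ∃ (K : Type) (_ : Field K) (_ : NumberField K) (D : ℕ), 0 < D ∧
    ∀ p : ℕ, p.Prime → ¬ p ∣ D → Nonempty (𝓞 K →+* ZMod p) → ∀ x : Fin hh → ZMod p, x ≠ 0 →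
      ∃ I : Submodule (ZMod p) (Fin hh → ZMod p), IsCI c (I : Set (Fin hh → ZMod p)) ∧
        Nat.card ((Fin hh → ZMod p) ⧸ I) ≤ p ^ k ∧ x ∉ I := by
  obtain ⟨r, ⟨d⟩⟩ := exists_IData (fun x hx => h.exists_L x hx)
  obtain ⟨A, hA, ⟨dA⟩⟩ := d.descend
  have hft : Algebra.FiniteType ℤ A := A.fg_iff_finiteType.mp hA
  obtain ⟨K, hK, hNF, D, hD, hhom⟩ := exists_zmod A (A.val.toRingHom)
  refine ⟨K, hK, hNF, D, hD, fun p hp hpD hne x hx => ?_⟩
  obtain ⟨φ⟩ := hhom p hp hpD hne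
  have : Fact p.Prime := ⟨hp⟩
  let dp := dA.map φ
  obtain ⟨j, hj⟩ := dp.sep x hx
  refine ⟨LinearMap.ker (dp.L j).mulVecLin, (dp.lt j).isCI, card_ker_le p (dp.L j), ?_⟩
  rw [LinearMap.mem_ker, Matrix.mulVecLin_apply]
  exact hj

/-- vectors killed by all ideals of small codimension -/
def VV (c : Fin hh → Fin hh → Fin hh → ℤ) (k : ℕ) : Submodule (AlgebraicClosure ℚ) (Fin hh → AlgebraicClosure ℚ) where
  carrier := {x | ∀ L : Matrix (Fin k) (Fin hh) (AlgebraicClosure ℚ), LT c L → L *ᵥ x = 0}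
  add_mem' := fun {x y} hx hy L hL => by rw [Matrix.mulVec_add, hx L hL, hy L hL, add_zero]
  zero_mem' := fun L _ => Matrix.mulVec_zero L
  smul_mem' := fun r x hx L hL => by rw [Matrix.mulVec_smul, hx L hL, smul_zero]

lemma mem_VV {x : Fin hh → AlgebraicClosure ℚ} : x ∈ VV c k ↔
    ∀ L : Matrix (Fin k) (Fin hh) (AlgebraicClosure ℚ), LT c L → L *ᵥ x = 0 := Iff.rfl

theorem algQ : Algebra.IsAlgebraic ℚ (AlgebraicClosure ℚ) := AlgebraicClosure.isAlgebraic ℚ

theorem galQ : IsGalois ℚ (AlgebraicClosure ℚ) := by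
  have := algQ
  have : IsAlgClosure ℚ (AlgebraicClosure ℚ) := ⟨inferInstance, algQ⟩
  have : Normal ℚ (AlgebraicClosure ℚ) := IsAlgClosure.normal ℚ _
  exact ⟨⟩

lemma VV_ne_bot (h : ¬ Sep c k ℂ) : ∃ x ∈ VV c k, x ≠ 0 := by
  by_contra hcon
  push Not at hcon
  apply h
  obtain ⟨r, ⟨d⟩⟩ := exists_IData (c := c) (k := k) (F := AlgebraicClosure ℚ) (fun x hx => by
    by_contra hc
    push Not at hc
    exact hx (hcon x (mem_VV.mpr hc)))
  have := algQ
  let j : AlgebraicClosure ℚ →ₐ[ℚ] ℂ := IsAlgClosed.lift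
  let dC := d.map j.toRingHom
  intro x hx
  by_contra hx0
  obtain ⟨j, hj⟩ := dC.sep x hx0
  have := hx (LinearMap.ker (dC.L j).mulVecLin) (dC.lt j).isCI (finrank_ker_le _)
  rw [LinearMap.mem_ker, Matrix.mulVecLin_apply] at this
  exact hj this

lemma mulVec_map' {F F' : Type*} [CommRing F] [CommRing F'] (f : F →+* F') {a b : ℕ}
    (L : Matrix (Fin a) (Fin b) F) (x : Fin b → F) :
    (fun i => f ((L *ᵥ x) i)) = L.map f *ᵥ (fun i => f (x i)) := by
  funext i
  simp [Matrix.mulVec, dotProduct, map_sum]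

lemma VV_galois (τ : AlgebraicClosure ℚ ≃ₐ[ℚ] AlgebraicClosure ℚ) {x : Fin hh → AlgebraicClosure ℚ}
    (hx : x ∈ VV c k) : (fun i => τ (x i)) ∈ VV c k := by
  rw [mem_VV] at hx ⊢
  intro L hL
  have h1 := hx (L.map (τ.symm : AlgebraicClosure ℚ →+* AlgebraicClosure ℚ)) (hL.map _)
  have h2 := mulVec_map' (τ : AlgebraicClosure ℚ →+* AlgebraicClosure ℚ)
    (L.map (τ.symm : AlgebraicClosure ℚ →+* AlgebraicClosure ℚ)) x
  rw [h1] at h2
  have h3 : (L.map (τ.symm : AlgebraicClosure ℚ →+* AlgebraicClosure ℚ)).map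
      (τ : AlgebraicClosure ℚ →+* AlgebraicClosure ℚ) = L := by
    ext i j
    simp [Matrix.map_apply]
  rw [h3] at h2
  have h4 : (fun i => (τ : AlgebraicClosure ℚ →+* AlgebraicClosure ℚ) ((0 : Fin k → AlgebraicClosure ℚ) i)) = 0 := by
    funext i; simp
  rw [h4] at h2
  exact h2.symm

/-- the space of killed vectors contains a rational vector -/
theorem rational_in_VV (h : ¬ Sep c k ℂ) : ∃ z0 : Fin hh → ℤ, z0 ≠ 0 ∧
    (fun i => (z0 i : AlgebraicClosure ℚ)) ∈ VV c k := by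
  classical
  obtain ⟨x0, hx0, hx0'⟩ := VV_ne_bot h
  have hex : ∃ m : ℕ, ∃ x ∈ VV c k, x ≠ 0 ∧ (univ.filter (fun i => x i ≠ 0)).card = m :=
    ⟨_, x0, hx0, hx0', rfl⟩
  obtain ⟨x, hx, hxne, hxcard⟩ := Nat.find_spec hex
  have hmin := fun m (hm : m < Nat.find hex) => Nat.find_min hex hm
  obtain ⟨i, hi⟩ : ∃ i, x i ≠ 0 := by
    by_contra hc
    push Not at hc
    exact hxne (funext hc)
  set y : Fin hh → AlgebraicClosure ℚ := (x i)⁻¹ • x with hy
  have hyV : y ∈ VV c k := Submodule.smul_mem _ _ hx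
  have hyi : y i = 1 := by
    rw [hy, Pi.smul_apply, smul_eq_mul, inv_mul_cancel₀ hi]
  have hy0 : ∀ j, x j = 0 → y j = 0 := by
    intro j hj
    rw [hy, Pi.smul_apply, hj, smul_zero]
  have hfix : ∀ τ : AlgebraicClosure ℚ ≃ₐ[ℚ] AlgebraicClosure ℚ, ∀ j, τ (y j) = y j := by
    intro τ
    by_contra hc
    push Not at hc
    obtain ⟨j, hj⟩ := hc
    set w : Fin hh → AlgebraicClosure ℚ := (fun i => τ (y i)) - y with hw
    have hwV : w ∈ VV c k := Submodule.sub_mem _ (VV_galois τ hyV) hyV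
    have hw0 : w ≠ 0 := by
      intro e
      apply hj
      have := congrFun e j
      rw [hw, Pi.sub_apply, Pi.zero_apply, sub_eq_zero] at this
      exact this
    apply hmin _ _ ⟨w, hwV, hw0, rfl⟩
    rw [← hxcard]
    apply Finset.card_lt_card
    rw [Finset.ssubset_iff_of_subset]
    · refine ⟨i, by simp [hi], ?_⟩
      simp only [mem_filter, mem_univ, true_and, not_not]
      rw [hw, Pi.sub_apply, hyi, map_one, sub_self]
    · intro j hj
      simp only [mem_filter, mem_univ, true_and] at hj ⊢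
      intro hxj
      apply hj
      rw [hw, Pi.sub_apply, hy0 j hxj, map_zero, sub_zero]
  have := galQ
  have hrat : ∀ j, ∃ q : ℚ, algebraMap ℚ (AlgebraicClosure ℚ) q = y j := by
    intro j
    exact (InfiniteGalois.mem_range_algebraMap_iff_fixed (k := ℚ) (y j)).mpr fun τ => hfix τ j
  choose q hq using hrat
  obtain ⟨D, hD, hDq⟩ := exists_common_den q
  choose z0 hz0 using hDq
  have hz1 : (fun j => (z0 j : AlgebraicClosure ℚ)) = (D : AlgebraicClosure ℚ) • y := by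
    funext j
    rw [Pi.smul_apply, ← hq j, smul_eq_mul]
    have h1 := congrArg (algebraMap ℚ (AlgebraicClosure ℚ)) (hz0 j)
    rw [map_mul, map_natCast, map_intCast] at h1
    exact h1
  refine ⟨z0, ?_, ?_⟩
  · intro e
    have h1 := congrFun hz1 i
    rw [e, Pi.smul_apply, hyi, smul_eq_mul, mul_one] at h1
    simp only [Pi.zero_apply, Int.cast_zero] at h1
    have h2 : (D : AlgebraicClosure ℚ) ≠ 0 := by exact_mod_cast hD.ne'
    exact h2 h1.symm
  · rw [hz1]
    exact Submodule.smul_mem _ _ hyV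

/-- **Lower bound, algebraic part** -/
theorem rational_vector (h : ¬ Sep c k ℂ) : ∃ z0 : Fin hh → ℤ, z0 ≠ 0 ∧
    ∀ (F₀ : Type) [Field F₀] [CharZero F₀] (I : Submodule F₀ (Fin hh → F₀)),
      IsCI c (I : Set (Fin hh → F₀)) → Module.finrank F₀ ((Fin hh → F₀) ⧸ I) ≤ k →
      (fun i => (z0 i : F₀)) ∈ I := by
  classical
  obtain ⟨z0, hz0, hzV⟩ := rational_in_VV h
  refine ⟨z0, hz0, fun F₀ _ _ I hI hk => ?_⟩
  obtain ⟨L, ⟨T, hT⟩, hLI⟩ := exists_LT I hI hk
  rw [hLI]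
  by_contra hne
  obtain ⟨t, ht⟩ : ∃ t, (L *ᵥ (fun i => (z0 i : F₀))) t ≠ 0 := by
    by_contra hc
    push Not at hc
    exact hne (funext hc)
  let V : Matrix (Fin hh) (Fin 1) ℤ := Matrix.of fun i _ => z0 i
  let M : Matrix (Fin 1) (Fin k) F₀ := Matrix.of fun _ s =>
    if s = t then ((L *ᵥ (fun i => (z0 i : F₀))) t)⁻¹ else 0
  let d : IData c k 1 1 1 V 1 F₀ :=
    { L := fun _ => L
      T := fun _ => T
      M := fun _ => M
      eq1 := fun _ => hT
      eq2 := by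
        rw [Fin.sum_univ_one]
        ext a b
        rw [Matrix.mul_assoc, Matrix.mul_apply, Finset.sum_eq_single t]
        · have e1 : (L * V.map (Int.castRingHom F₀)) t b = (L *ᵥ (fun i => (z0 i : F₀))) t := rfl
          rw [e1]
          change (if t = t then ((L *ᵥ (fun i => (z0 i : F₀))) t)⁻¹ else 0) * _ = _
          rw [if_pos rfl, inv_mul_cancel₀ ht, Matrix.map_one _ (map_zero _) (map_one _),
            Subsingleton.elim a b, Matrix.one_apply_eq]
        · intro s _ hs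
          change (if s = t then ((L *ᵥ (fun i => (z0 i : F₀))) t)⁻¹ else 0) * _ = _
          rw [if_neg hs, zero_mul]
        · intro h; exact absurd (Finset.mem_univ t) h }
  obtain ⟨A, hA, ⟨dA⟩⟩ := d.descend
  have hft : Algebra.FiniteType ℤ A := A.fg_iff_finiteType.mp hA
  obtain ⟨φ⟩ := exists_algclosure A (A.val.toRingHom)
  let d' := dA.map φ
  have h1 := mem_VV.mp hzV (d'.L 0) (d'.lt 0)
  have h2 := d'.eq2
  rw [Fin.sum_univ_one, Matrix.mul_assoc] at h2
  have h3 : d'.L 0 * V.map (Int.castRingHom (AlgebraicClosure ℚ)) = 0 := by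
    ext a b
    exact congrFun h1 a
  rw [h3, Matrix.mul_zero, Matrix.map_one _ (map_zero _) (map_one _)] at h2
  have h4 := congrFun (congrFun h2 0) 0
  simp at h4

end

end Pool.Agent.H675R3
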