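import Pool.Agent.H675R3.Der

set_option autoImplicit false
set_option linter.unusedVariables false

namespace Pool.Agent.H675R3

open Finset Polynomial

section
variable {k A : Type*} [CommRing k] [Ring A] [Algebra k A] {N : ℕ}

/-- polynomials with coefficients in `W` -/
noncomputable def PW (W : Submodule k A) : Submodule k A[X] where
  carrier := {p | ∀ j, p.coeff j ∈ W}
  add_mem' := fun {a b} ha hb j => by rw [coeff_add]; exact W.add_mem (ha j) (hb j)
  zero_mem' := fun j => by rw [coeff_zero]; exact W.zero_mem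
  smul_mem' := fun c a ha j => by rw [coeff_smul]; exact W.smul_mem c (ha j)

lemma mem_PW {W : Submodule k A} {p : A[X]} : p ∈ PW W ↔ ∀ j, p.coeff j ∈ W := Iff.rfl

lemma PW_mono {W W' : Submodule k A} (h : W ≤ W') : PW W ≤ PW W' := fun _ hp j => h (hp j)

/-- the induced filtration on polynomials -/
noncomputable def NF.poly (F : NF k A N) : NF k A[X] N where
  U i := PW (F.U i)
  anti h := PW_mono (F.anti h)
  one := fun j => by
    rw [coeff_one]
    split
    · exact F.one
    · exact Submodule.zero_mem _
  mul := fun {i j x y} hx hy n => by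
    rw [coeff_mul]
    exact Submodule.sum_mem _ fun ij _ => F.mul (hx _) (hy _)
  bot := fun p hp => by
    ext j
    rw [coeff_zero]
    exact F.bot _ (hp j)
  pos := F.pos

lemma C_mem_PW {W : Submodule k A} {a : A} (ha : a ∈ W) : C a ∈ PW W := fun j => by
  rw [coeff_C]
  split
  · exact ha
  · exact W.zero_mem

lemma XC_mem_PW {W : Submodule k A} {a : A} (ha : a ∈ W) : X * C a ∈ PW W := fun j => by
  rcases j with _ | j
  · rw [coeff_X_mul_zero]; exact W.zero_mem
  · rw [coeff_X_mul]; exact C_mem_PW ha j

lemma bracket_PW {W1 W2 W3 : Submodule k A} (h : ∀ x ∈ W1, ∀ y ∈ W2, x * y - y * x ∈ W3)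
    {a b : A[X]} (ha : a ∈ PW W1) (hb : b ∈ PW W2) : a * b - b * a ∈ PW W3 := fun n => by
  rw [coeff_sub, coeff_mul, coeff_mul]
  have : ∑ ij ∈ HasAntidiagonal.antidiagonal n, b.coeff ij.1 * a.coeff ij.2 =
      ∑ ij ∈ HasAntidiagonal.antidiagonal n, b.coeff ij.2 * a.coeff ij.1 := by
    refine Finset.sum_bij' (fun ij _ => ij.swap) (fun ij _ => ij.swap) ?_ ?_ ?_ ?_ ?_
    · intro ij h; simpa [add_comm] using h
    · intro ij h; simpa [add_comm] using h
    · intro ij _; simp
    · intro ij _; simp
    · intro ij _; simp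
  rw [this, ← Finset.sum_sub_distrib]
  exact Submodule.sum_mem _ fun ij _ => h _ (ha _) _ (hb _)

lemma integ (hk : Good k N) {W : Submodule k A} {Z : A[X]} (h0 : Z.coeff 0 ∈ W)
    (hd : Z.natDegree ≤ 4 * N * N + 4) (hZ : derivative Z ∈ PW W) : Z ∈ PW W := fun j => by
  rcases j with _ | j
  · exact h0
  · by_cases hj : j + 1 ≤ 4 * N * N + 4
    · have h1 := hZ j
      rw [coeff_derivative] at h1
      have h2 := W.smul_mem (inv k (j + 1)) h1
      have h3 := hk.inv_mul (j + 1) (by omega) hj
      have h4 : inv k (j + 1) • (Z.coeff (j + 1) * ((j : A) + 1)) = Z.coeff (j + 1) := by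
        have h5 : ((j : A) + 1) = algebraMap k A ((j + 1 : ℕ) : k) := by
          rw [map_natCast]; push_cast; rfl
        rw [h5, ← Algebra.commutes, ← Algebra.smul_def, smul_smul, h3, one_smul]
      rwa [h4] at h2
    · rw [coeff_eq_zero_of_natDegree_lt (by omega)]
      exact W.zero_mem

/-- evaluation at one -/
noncomputable def ev1 (A : Type*) [Ring A] : A[X] →+* A :=
  eval₂RingHom' (RingHom.id A) 1 (fun a => Commute.one_right _)

lemma ev1_C (a : A) : ev1 A (C a) = a := by simp [ev1, eval₂RingHom']

lemma ev1_X : ev1 A X = 1 := by simp [ev1, eval₂RingHom']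

lemma ev1_mem {W : Submodule k A} {p : A[X]} (hp : p ∈ PW W) : ev1 A p ∈ W := by
  have : ev1 A p = ∑ j ∈ range (p.natDegree + 1), p.coeff j := by
    show eval₂ (RingHom.id A) 1 p = _
    rw [eval₂_eq_sum_range]
    simp
  rw [this]
  exact Submodule.sum_mem _ fun j _ => hp j

/-- the derivative as a `k`-linear map -/
noncomputable def der (k A : Type*) [CommRing k] [Ring A] [Algebra k A] : A[X] →ₗ[k] A[X] where
  toFun := derivative
  map_add' := fun a b => derivative_add
  map_smul' := fun c a => by rw [derivative_smul]; rfl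

lemma der_apply (p : A[X]) : der k A p = derivative p := rfl

lemma ad_pow_succ_mem {W : Submodule k A[X]} {Z v : A[X]} (h1 : ad k Z v ∈ W)
    (h2 : ∀ w ∈ W, ad k Z w ∈ W) (m : ℕ) : ((ad k Z) ^ (m + 1)) v ∈ W := by
  induction m with
  | zero => simpa using h1
  | succ m ih =>
    rw [pow_succ', Module.End.mul_apply]
    exact h2 _ ih

end

section main
variable {k A : Type*} [CommRing k] [Ring A] [Algebra k A] {N : ℕ}

/-- Baker-Campbell-Hausdorff modulo an ideal. -/
theorem bch (hk : Good k N) (F : NF k A N) (L I : Submodule k A) (hL1 : L ≤ F.U 1)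
    (hLL : ∀ x ∈ L, ∀ y ∈ L, x * y - y * x ∈ L) (hIL : I ≤ L)
    (hLI : ∀ x ∈ L, ∀ y ∈ I, x * y - y * x ∈ I) {x y : A} (hx : x ∈ L) (hy : y ∈ L)
    (hxy : x * y - y * x ∈ I) : Lg k N (E k N x * E k N y) - x - y ∈ I := by
  have hFB := F.poly
  set FB := F.poly with hFBdef
  have hCsmul : ∀ (c : k) (a : A), (C : A →+* A[X]) (c • a) = (RingHom.id k) c • C a := by
    intro c a
    rw [RingHom.id_apply, ← smul_C]
  set w : A[X] := X * C y with hw
  set u : A[X] := C (E k N x) * E k N w with hu
  have hx1 := hL1 hx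
  have hy1 := hL1 hy
  have hCx : C x ∈ FB.U 1 := C_mem_PW hx1
  have hw1 : w ∈ FB.U 1 := XC_mem_PW hy1
  have hEx : E k N (C x) = C (E k N x) := (map_E hk (RingHom.id k) C hCsmul x).symm
  have hu1 : u - 1 ∈ FB.U 1 := by
    have h1 := E_sub_one_mem hk FB le_rfl hCx
    have h2 := E_sub_one_mem hk FB le_rfl hw1
    have h3 : u - 1 = (E k N (C x) - 1) * (E k N w - 1) + (E k N (C x) - 1) + (E k N w - 1) := by
      rw [hu, hEx]; noncomm_ring
    rw [h3]
    exact Submodule.add_mem _ (Submodule.add_mem _ (FB.anti (by omega) (FB.mul h1 h2)) h1) h2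
  set Z : A[X] := Lg k N u with hZ
  have hZ1 : Z ∈ FB.U 1 := Lg_mem FB le_rfl hu1
  have hEZ : E k N Z = u := E_Lg hk FB hu1
  have hD : ∀ a b : A[X], der k A (a * b) = der k A a * b + a * der k A b := fun a b => derivative_mul
  -- derivative of `w`
  have hDw : der k A w = C y := by
    rw [der_apply, hw, derivative_mul, derivative_X, derivative_C, one_mul, mul_zero, add_zero]
  have hadw : ad k w (C y) = 0 := by
    rw [ad_apply, hw, mul_assoc, ← C_mul, ← mul_assoc, ← X_mul_C, mul_assoc, ← C_mul, sub_self]
  have hDEw : der k A (E k N w) = E k N w * C y := by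
    have h1 := E_deriv (der k A) hk FB hD hw1
    rw [hDw, Finset.sum_eq_single 0] at h1
    · rw [pow_zero, one_mul, zero_add, ifac_one, one_smul, pow_zero, Module.End.one_apply] at h1
      rw [← h1, ← mul_assoc, E_mul_neg hk FB hw1, one_mul]
    · intro m _ hm
      obtain ⟨m, rfl⟩ := Nat.exists_eq_succ_of_ne_zero hm
      rw [Nat.succ_eq_add_one, pow_succ (ad k w), Module.End.mul_apply, hadw, map_zero, smul_zero]
    · intro h
      exact absurd (mem_range.mpr (by have := F.pos; omega)) h
  have hDu : der k A u = u * C y := by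
    rw [hu, hD, hDEw, der_apply, derivative_C, zero_mul, zero_add, mul_assoc]
  -- the differential equation
  have hode : C y = ∑ m ∈ range (2 * N), ((-1) ^ m * ifac k (m + 1)) • ((ad k Z) ^ m) (der k A Z) := by
    rw [← E_deriv (der k A) hk FB hD hZ1, hEZ, hDu, ← mul_assoc, ← hEZ, E_neg_mul hk FB hZ1, one_mul]
  have hode' : C y = der k A Z + ∑ m ∈ range (2 * N - 1),
      ((-1) ^ (m + 1) * ifac k (m + 1 + 1)) • ((ad k Z) ^ (m + 1)) (der k A Z) := by
    have h1 : 2 * N = (2 * N - 1) + 1 := by have := F.pos; omega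
    rw [hode, h1, Finset.sum_range_succ', add_comm]
    simp [ifac_one]
  -- the constant term
  have hZ0 : Z.coeff 0 = x := by
    have h1 : constantCoeff Z = Lg k N (constantCoeff u) :=
      map_Lg hk (RingHom.id k) (constantCoeff : A[X] →+* A) (fun c a => by simp) u
    have h2 : constantCoeff (E k N w) = E k N (constantCoeff w) :=
      map_E hk (RingHom.id k) (constantCoeff : A[X] →+* A) (fun c a => by simp) w
    have h3 : constantCoeff w = 0 := by simp [hw]
    have h4 : constantCoeff u = E k N x := by
      rw [hu, map_mul, h2, h3, E_zero hk F, mul_one]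
      simp
    rw [h4, Lg_E hk F hx1] at h1
    exact h1
  -- degree
  have hdeg : Z.natDegree ≤ 4 * N * N + 4 := by
    have h1 : (E k N w).natDegree ≤ N := by
      unfold E
      refine natDegree_sum_le_of_forall_le _ _ fun m hm => ?_
      refine (natDegree_smul_le _ _).trans ?_
      refine (natDegree_pow_le).trans ?_
      have h2 : w.natDegree ≤ 1 := by
        rw [hw]
        refine (natDegree_mul_le).trans ?_
        rw [natDegree_C, add_zero]
        exact natDegree_X_le
      have := mem_range.mp hm
      nlinarith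
    have h2 : (u - 1).natDegree ≤ N := by
      refine (natDegree_sub_le _ _).trans ?_
      rw [natDegree_one]
      refine max_le ?_ (Nat.zero_le _)
      rw [hu]
      refine (natDegree_mul_le).trans ?_
      rw [natDegree_C, zero_add]
      exact h1
    have h3 : Z.natDegree ≤ N * N := by
      rw [hZ]
      unfold Lg
      refine natDegree_sum_le_of_forall_le _ _ fun m hm => ?_
      refine (natDegree_smul_le _ _).trans ?_
      refine (natDegree_pow_le).trans ?_
      have := (mem_Ico.mp hm).2
      exact Nat.mul_le_mul (by omega) h2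
    nlinarith
  have hZtop : der k A Z ∈ PW (F.U 1) := by
    intro j
    rw [der_apply, coeff_derivative]
    have h1 : Z.coeff (j + 1) ∈ F.U 1 := hZ1 (j + 1)
    have h5 : ((j : A) + 1) = algebraMap k A ((j + 1 : ℕ) : k) := by
      rw [map_natCast]; push_cast; rfl
    rw [h5, ← Algebra.commutes, ← Algebra.smul_def]
    exact Submodule.smul_mem _ _ h1
  -- first claim
  have hA : ∀ i, der k A Z ∈ PW (L ⊔ F.U (i + 1)) := by
    intro i
    induction i with
    | zero => exact PW_mono le_sup_right hZtop
    | succ i ih =>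
      have hZW : Z ∈ PW (L ⊔ F.U (i + 1)) :=
        integ hk (by rw [hZ0]; exact Submodule.mem_sup_left hx) hdeg ih
      have hbr : ∀ a ∈ L ⊔ F.U (i + 1), ∀ b ∈ L ⊔ F.U (i + 1), a * b - b * a ∈ L ⊔ F.U (i + 1 + 1) := by
        intro a ha b hb
        obtain ⟨l, hl, v, hv, rfl⟩ := Submodule.mem_sup.mp ha
        obtain ⟨l', hl', v', hv', rfl⟩ := Submodule.mem_sup.mp hb
        have e : (l + v) * (l' + v') - (l' + v') * (l + v) = (l * l' - l' * l) +
            ((l * v' - v' * l) + (v * l' - l' * v) + (v * v' - v' * v)) := by noncomm_ring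
        rw [e]
        refine Submodule.add_mem_sup (hLL l hl l' hl') ?_
        have hl1 := hL1 hl
        have hl1' := hL1 hl'
        refine Submodule.add_mem _ (Submodule.add_mem _ (Submodule.sub_mem _ ?_ ?_)
          (Submodule.sub_mem _ ?_ ?_)) (Submodule.sub_mem _ ?_ ?_)
        · exact F.anti (by omega) (F.mul hl1 hv')
        · exact F.anti (by omega) (F.mul hv' hl1)
        · exact F.anti (by omega) (F.mul hv hl1')
        · exact F.anti (by omega) (F.mul hl1' hv)
        · exact F.anti (by omega) (F.mul hv hv')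
        · exact F.anti (by omega) (F.mul hv' hv)
      have h1 : der k A Z = C y - ∑ m ∈ range (2 * N - 1),
          ((-1) ^ (m + 1) * ifac k (m + 1 + 1)) • ((ad k Z) ^ (m + 1)) (der k A Z) := by
        rw [eq_sub_iff_add_eq]; exact hode'.symm
      rw [h1]
      refine Submodule.sub_mem _ (C_mem_PW (Submodule.mem_sup_left hy)) ?_
      refine Submodule.sum_mem _ fun m _ => Submodule.smul_mem _ _ ?_
      refine ad_pow_succ_mem ?_ ?_ m
      · exact bracket_PW hbr hZW ih
      · intro v hv
        exact bracket_PW hbr hZW (PW_mono (sup_le_sup_left (F.anti (by omega)) _) hv)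
  have hLbot : L ⊔ F.U (N + 1) = L := by
    rw [sup_eq_left]
    intro v hv
    rw [F.zero_of_le hv (by omega)]
    exact L.zero_mem
  have hDZL : der k A Z ∈ PW L := by
    have := hA N
    rwa [hLbot] at this
  have hZL : Z ∈ PW L := integ hk (by rw [hZ0]; exact hx) hdeg hDZL
  -- second claim
  have hB : ∀ i, der k A Z - C y ∈ PW (I ⊔ (L ⊓ F.U (i + 1))) := by
    intro i
    induction i with
    | zero =>
      refine PW_mono le_sup_right ?_
      have h1 : der k A Z - C y ∈ PW L := Submodule.sub_mem _ hDZL (C_mem_PW hy)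
      intro j
      exact ⟨h1 j, hL1 (h1 j)⟩
    | succ i ih =>
      have hWL : I ⊔ (L ⊓ F.U (i + 1)) ≤ L := sup_le hIL inf_le_left
      set e1 := Z - C x - X * C y with he1
      have he1W : e1 ∈ PW (I ⊔ (L ⊓ F.U (i + 1))) := by
        refine integ hk ?_ ?_ ?_
        · rw [he1, coeff_sub, coeff_sub, hZ0, coeff_C_zero, coeff_X_mul_zero, sub_self, sub_zero]
          exact Submodule.zero_mem _
        · refine (natDegree_sub_le _ _).trans (max_le ((natDegree_sub_le _ _).trans
            (max_le hdeg (by rw [natDegree_C]; omega))) ?_)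
          refine (natDegree_mul_le).trans ?_
          rw [natDegree_C, add_zero]
          exact natDegree_X_le.trans (by omega)
        · rw [he1, derivative_sub, derivative_sub, derivative_C, sub_zero, derivative_mul,
            derivative_X, derivative_C, one_mul, mul_zero, add_zero]
          exact ih
      have hbrW : ∀ a ∈ L, ∀ b ∈ I ⊔ (L ⊓ F.U (i + 1)), a * b - b * a ∈ I ⊔ (L ⊓ F.U (i + 1 + 1)) := by
        intro a ha b hb
        obtain ⟨c, hc, v, hv, rfl⟩ := Submodule.mem_sup.mp hb
        have e : a * (c + v) - (c + v) * a = (a * c - c * a) + (a * v - v * a) := by noncomm_ring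
        rw [e]
        refine Submodule.add_mem_sup (hLI a ha c hc) ⟨hLL a ha v hv.1, ?_⟩
        have ha1 := hL1 ha
        exact Submodule.sub_mem _ (F.anti (by omega) (F.mul ha1 hv.2))
          (F.anti (by omega) (F.mul hv.2 ha1))
      have hmono : I ⊔ (L ⊓ F.U (i + 1 + 1)) ≤ I ⊔ (L ⊓ F.U (i + 1)) :=
        sup_le_sup_left (inf_le_inf_left _ (F.anti (by omega))) _
      have hDd : der k A Z = C y + (der k A Z - C y) := by abel
      have hZd : Z = C x + X * C y + e1 := by rw [he1]; abel
      have hfirst : ad k Z (der k A Z) ∈ PW (I ⊔ (L ⊓ F.U (i + 1 + 1))) := by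
        have e : ad k Z (der k A Z) = ((C x + X * C y) * C y - C y * (C x + X * C y)) +
            (e1 * C y - C y * e1) + (Z * (der k A Z - C y) - (der k A Z - C y) * Z) := by
          rw [ad_apply]
          have : e1 = Z - (C x + X * C y) := by rw [he1]; abel
          rw [this]
          noncomm_ring
        rw [e]
        refine Submodule.add_mem _ (Submodule.add_mem _ ?_ ?_) ?_
        · have e2 : (C x + X * C y) * C y - C y * (C x + X * C y) = C (x * y - y * x) := by
            have h2 : X * C y * C y = C y * (X * C y) := by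
              rw [mul_assoc, ← C_mul, ← mul_assoc, ← X_mul_C, mul_assoc, ← C_mul]
            rw [add_mul, mul_add, h2, C_sub, C_mul, C_mul]
            abel
          rw [e2]
          exact C_mem_PW (Submodule.mem_sup_left hxy)
        · have h3 := bracket_PW hbrW (C_mem_PW hy) he1W
          have e3 : e1 * C y - C y * e1 = - (C y * e1 - e1 * C y) := by abel
          rw [e3]
          exact Submodule.neg_mem _ h3
        · exact bracket_PW hbrW hZL ih
      have h1 : der k A Z - C y = - ∑ m ∈ range (2 * N - 1),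
          ((-1) ^ (m + 1) * ifac k (m + 1 + 1)) • ((ad k Z) ^ (m + 1)) (der k A Z) := by
        rw [sub_eq_iff_eq_add, ← sub_eq_neg_add, eq_sub_iff_add_eq]; exact hode'.symm
      rw [h1]
      refine Submodule.neg_mem _ ?_
      refine Submodule.sum_mem _ fun m _ => Submodule.smul_mem _ _ ?_
      refine ad_pow_succ_mem hfirst ?_ m
      intro v hv
      exact bracket_PW hbrW hZL (PW_mono hmono hv)
  have hIbot : I ⊔ (L ⊓ F.U (N + 1)) = I := by
    rw [sup_eq_left]
    intro v hv
    rw [F.zero_of_le hv.2 (by omega)]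
    exact I.zero_mem
  have hDZI : der k A Z - C y ∈ PW I := by
    have := hB N
    rwa [hIbot] at this
  have hfin : Z - C x - X * C y ∈ PW I := by
    refine integ hk ?_ ?_ ?_
    · rw [coeff_sub, coeff_sub, hZ0, coeff_C_zero, coeff_X_mul_zero, sub_self, sub_zero]
      exact Submodule.zero_mem _
    · refine (natDegree_sub_le _ _).trans (max_le ((natDegree_sub_le _ _).trans
        (max_le hdeg (by rw [natDegree_C]; omega))) ?_)
      refine (natDegree_mul_le).trans ?_
      rw [natDegree_C, add_zero]
      exact natDegree_X_le.trans (by omega)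
    · rw [derivative_sub, derivative_sub, derivative_C, sub_zero, derivative_mul,
        derivative_X, derivative_C, one_mul, mul_zero, add_zero]
      exact hDZI
  have h1 := ev1_mem hfin
  have hsm : ∀ (c : k) (a : A[X]), ev1 A (c • a) = (RingHom.id k) c • ev1 A a := by
    intro c a
    show eval₂ (RingHom.id A) 1 (c • a) = c • eval₂ (RingHom.id A) 1 a
    rw [Algebra.smul_def, Algebra.smul_def, Polynomial.algebraMap_apply,
      eval₂_mul_noncomm _ _ (fun _ => Commute.one_right _), eval₂_C, RingHom.id_apply]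
  have h2 : ev1 A Z = Lg k N (E k N x * E k N y) := by
    rw [hZ, map_Lg hk (RingHom.id k) (ev1 A) hsm u, hu, map_mul, ev1_C,
      map_E hk (RingHom.id k) (ev1 A) hsm w, hw, map_mul, ev1_X, ev1_C, one_mul]
  rw [map_sub, map_sub, h2, ev1_C, map_mul, ev1_X, ev1_C, one_mul] at h1
  exact h1

end main

end Pool.Agent.H675R3
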