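import Pool.Agent.H675R3.GrpUB

set_option autoImplicit false
set_option linter.unusedVariables false

namespace Pool.Agent.H675R3

open Finset

section
variable {Γ : Type*} [Group Γ] {n : ℕ} {ρ : Γ →* Matrix (Fin n) (Fin n) ℤ}

/-- integral coordinates -/
def Dat.a (d : Dat ρ) (g : Γ) (i : Fin d.h) : ℤ :=
  ∑ a, ∑ b, d.lam i a b * ∑ m ∈ Ico 1 (n + 1),
    ((-1) ^ (m + 1) * (((n + 1).factorial / m : ℕ) : ℤ)) * ((ρ g - 1) ^ m) a b

variable {d : Dat ρ}

lemma rk_sub_one_pow (k : Type*) [CommRing k] (g : Γ) (m : ℕ) (a b : Fin n) :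
    ((rk ρ k g - 1) ^ m) a b = (((ρ g - 1) ^ m) a b : ℤ) := by
  have h : (Int.castRingHom k).mapMatrix ((ρ g - 1) ^ m) = (rk ρ k g - 1) ^ m := by
    rw [map_pow, map_sub, map_one]
    rfl
  rw [← h, RingHom.mapMatrix_apply, Matrix.map_apply]
  rfl

lemma fac_mul_inv {k : Type*} [CommRing k] (hk : Good k (n + 1)) (m : ℕ) (h1 : 1 ≤ m)
    (h2 : m < n + 1) : (((n + 1).factorial : ℕ) : k) * inv k m = (((n + 1).factorial / m : ℕ) : k) := by
  have h3 : m ∣ (n + 1).factorial := Nat.dvd_factorial (by omega) (by omega)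
  obtain ⟨q, hq⟩ := h3
  rw [hq, Nat.mul_div_cancel_left _ (by omega), Nat.cast_mul]
  have h4 := hk.inv_mul m (by omega) (le_bd (by omega))
  calc (m : k) * q * inv k m = q * (inv k m * m) := by ring
    _ = q := by rw [h4, mul_one]

lemma Dat.a_eq {k : Type*} [CommRing k] (h : d.Ok k) (g : Γ) (i : Fin d.h) :
    ((d.M * (n + 1).factorial : ℕ) : k) * d.zeta k g i = (d.a g i : k) := by
  unfold Dat.zeta Dat.a
  rw [Nat.cast_mul]
  have e1 : (d.M : k) * (((n + 1).factorial : ℕ) : k) * (Ring.inverse ((d.M : ℕ) : k) *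
      ∑ a, ∑ b, (d.lam i a b : k) * lgk ρ k g a b) =
      ∑ a, ∑ b, (d.lam i a b : k) * ((((n + 1).factorial : ℕ) : k) * lgk ρ k g a b) := by
    have h2 := Ring.inverse_mul_cancel _ h.M
    have h3 : (d.M : k) * (((n + 1).factorial : ℕ) : k) * (Ring.inverse ((d.M : ℕ) : k) *
      ∑ a, ∑ b, (d.lam i a b : k) * lgk ρ k g a b) =
      (Ring.inverse ((d.M : ℕ) : k) * (d.M : k)) * ((((n + 1).factorial : ℕ) : k) *
        ∑ a, ∑ b, (d.lam i a b : k) * lgk ρ k g a b) := by ring
    rw [h3, h2, one_mul, Finset.mul_sum]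
    refine sum_congr rfl fun a _ => ?_
    rw [Finset.mul_sum]
    refine sum_congr rfl fun b _ => by ring
  rw [e1, Int.cast_sum]
  refine sum_congr rfl fun a _ => ?_
  rw [Int.cast_sum]
  refine sum_congr rfl fun b _ => ?_
  rw [Int.cast_mul]
  congr 1
  unfold lgk lg Lg
  rw [Matrix.sum_apply, Finset.mul_sum, Int.cast_sum]
  refine sum_congr rfl fun m hm => ?_
  obtain ⟨h1, h2⟩ := mem_Ico.mp hm
  rw [Matrix.smul_apply, rk_sub_one_pow, smul_eq_mul, Int.cast_mul, Int.cast_mul, Int.cast_natCast,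
    ← fac_mul_inv h.good m h1 h2, Int.cast_pow, Int.cast_neg, Int.cast_one]
  ring

/-- the integral coordinates of a nontrivial element do not all vanish -/
lemma Dat.a_ne (hρ : UniTri ρ) (hinj : Function.Injective ρ) {g : Γ} (hg : g ≠ 1) :
    ∃ i, d.a g i ≠ 0 := by
  by_contra hcon
  push Not at hcon
  apply hg
  have h1 : d.zeta ℚ g = 0 := by
    funext i
    have h2 := Dat.a_eq (d := d) d.ok_rat g i
    rw [hcon i, Int.cast_zero] at h2
    have h3 : ((d.M * (n + 1).factorial : ℕ) : ℚ) ≠ 0 := by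
      have := Nat.mul_pos d.hM (Nat.factorial_pos (n + 1))
      exact_mod_cast this.ne'
    exact (mul_eq_zero.mp h2).resolve_left h3
  have h2 : lgk ρ ℚ g = 0 := by
    rw [Dat.lg_mat d.ok_rat, h1, map_zero]
  have h3 : rk ρ ℚ g = 1 := by
    rw [← E_lg (matNF ℚ n) (good_rat (n + 1)) (hρ.rk ℚ) g]
    have : lg ℚ (n + 1) (rk ρ ℚ) g = 0 := h2
    rw [this, E_zero (good_rat (n + 1)) (matNF ℚ n)]
  apply hinj
  rw [map_one]
  ext a b
  have h4 := congrFun (congrFun h3 a) b
  rw [rk_apply] at h4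
  rw [Matrix.one_apply] at h4 ⊢
  split_ifs at h4 ⊢ <;> exact_mod_cast h4

lemma pow_entry_le {A : Matrix (Fin n) (Fin n) ℤ} {B : ℕ} (hA : ∀ a b, (A a b).natAbs ≤ B) (m : ℕ) :
    ∀ a b, ((A ^ m) a b).natAbs ≤ (n * B) ^ m := by
  induction m with
  | zero =>
    intro a b
    rw [pow_zero, pow_zero, Matrix.one_apply]
    split_ifs <;> simp
  | succ m ih =>
    intro a b
    rw [pow_succ, Matrix.mul_apply]
    refine (Int.natAbs_sum_le _ _).trans ?_
    calc ∑ j, ((A ^ m) a j * A j b).natAbs ≤ ∑ j : Fin n, (n * B) ^ m * B := by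
          refine sum_le_sum fun j _ => ?_
          rw [Int.natAbs_mul]
          exact Nat.mul_le_mul (ih a j) (hA j b)
      _ = (n * B) ^ (m + 1) := by
          rw [sum_const, card_univ, Fintype.card_fin, smul_eq_mul, pow_succ]; ring

/-- the coordinates are bounded polynomially in the entries -/
lemma Dat.a_le (d : Dat ρ) : ∃ C : ℕ, ∀ (g : Γ) (B : ℕ), (∀ a b, (ρ g a b).natAbs ≤ B) → ∀ i,
    (d.a g i).natAbs ≤ C * (n * (B + 1) + 1) ^ (n + 1) := by
  refine ⟨∑ i, ∑ a, ∑ b, (d.lam i a b).natAbs * ((n + 1) * (n + 1).factorial), fun g B hB i => ?_⟩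
  have hA : ∀ a b, ((ρ g - 1) a b).natAbs ≤ B + 1 := by
    intro a b
    rw [Matrix.sub_apply]
    refine (Int.natAbs_sub_le _ _).trans (Nat.add_le_add (hB a b) ?_)
    rw [Matrix.one_apply]
    split_ifs <;> simp
  have hm : ∀ m ∈ Ico 1 (n + 1), ∀ a b, (((ρ g - 1) ^ m) a b).natAbs ≤ (n * (B + 1) + 1) ^ (n + 1) := by
    intro m hm a b
    refine (pow_entry_le hA m a b).trans ?_
    refine (Nat.pow_le_pow_left (Nat.le_succ _) m).trans ?_
    exact Nat.pow_le_pow_right (by omega) (mem_Ico.mp hm).2.le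
  set X := (n * (B + 1) + 1) ^ (n + 1) with hX
  have h1 : ∀ a b, (∑ m ∈ Ico 1 (n + 1),
      ((-1) ^ (m + 1) * (((n + 1).factorial / m : ℕ) : ℤ)) * ((ρ g - 1) ^ m) a b).natAbs ≤
      (n + 1) * (n + 1).factorial * X := by
    intro a b
    refine (Int.natAbs_sum_le _ _).trans ?_
    calc ∑ m ∈ Ico 1 (n + 1), (((-1) ^ (m + 1) * (((n + 1).factorial / m : ℕ) : ℤ)) *
          ((ρ g - 1) ^ m) a b).natAbs
        ≤ ∑ m ∈ Ico 1 (n + 1), (n + 1).factorial * X := by
          refine sum_le_sum fun m hm' => ?_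
          rw [Int.natAbs_mul, Int.natAbs_mul, Int.natAbs_pow, Int.natAbs_neg, Int.natAbs_one, one_pow,
            one_mul, Int.natAbs_natCast]
          exact Nat.mul_le_mul (Nat.div_le_self _ _) (hm m hm' a b)
      _ ≤ (n + 1) * (n + 1).factorial * X := by
          rw [sum_const, Nat.card_Ico, smul_eq_mul, mul_assoc]
          exact Nat.mul_le_mul_right _ (by omega)
  unfold Dat.a
  refine (Int.natAbs_sum_le _ _).trans ?_
  have h2 : ∀ a, (∑ b, d.lam i a b * ∑ m ∈ Ico 1 (n + 1),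
      ((-1) ^ (m + 1) * (((n + 1).factorial / m : ℕ) : ℤ)) * ((ρ g - 1) ^ m) a b).natAbs ≤
      ∑ b, (d.lam i a b).natAbs * ((n + 1) * (n + 1).factorial) * X := by
    intro a
    refine (Int.natAbs_sum_le _ _).trans (sum_le_sum fun b _ => ?_)
    rw [Int.natAbs_mul, mul_assoc]
    exact Nat.mul_le_mul_left _ (h1 a b)
  refine (sum_le_sum fun a _ => h2 a).trans ?_
  simp only [← Finset.sum_mul]
  refine Nat.mul_le_mul_right _ (Nat.mul_le_mul_right _ ?_)
  exact Finset.single_le_sum (f := fun i => ∑ a, ∑ b, (d.lam i a b).natAbs)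
    (fun _ _ => Nat.zero_le _) (mem_univ i)

lemma UniTri.diag (hρ : UniTri ρ) (g : Γ) (a : Fin n) : ρ g a a = 1 := by
  have := hρ g a a (by omega)
  rw [Matrix.sub_apply, Matrix.one_apply_eq, sub_eq_zero] at this
  exact this

lemma UniTri.low (hρ : UniTri ρ) (g : Γ) {a b : Fin n} (h : b < a) : ρ g a b = 0 := by
  have := hρ g a b (by have : (b : ℕ) < a := h; omega)
  rw [Matrix.sub_apply, Matrix.one_apply_ne h.ne', sub_zero] at this
  exact this

/-- entries of a product of `l` generators -/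
lemma word_entry (hρ : UniTri ρ) (D : ℕ) (hD : 1 ≤ D) (l : List Γ)
    (hl : ∀ x ∈ l, ∀ a b, n * (ρ x a b).natAbs ≤ D) :
    ∀ a b : Fin n, (ρ l.prod a b).natAbs ≤ (D * (l.length + 1)) ^ ((b : ℕ) - a) := by
  induction l with
  | nil =>
    intro a b
    rw [List.prod_nil, map_one, Matrix.one_apply]
    split_ifs
    · exact Nat.one_le_pow _ _ (by simp; omega)
    · simp
  | cons x l ih =>
    intro a b
    have ih' := ih (fun y hy => hl y (List.mem_cons_of_mem _ hy))
    rcases lt_trichotomy (a : ℕ) b with h | h | h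
    · rw [List.prod_cons, map_mul, Matrix.mul_apply, List.length_cons]
      set P := ρ l.prod with hP
      set Y := D * (l.length + 1) with hY
      have hY1 : 1 ≤ Y := by rw [hY]; exact Nat.mul_pos hD (by omega)
      obtain ⟨t, ht⟩ : ∃ t, (b : ℕ) - a = t + 1 := ⟨(b : ℕ) - a - 1, by omega⟩
      have h1 : ∀ j : Fin n, (ρ x a j * P j b).natAbs ≤
          (if j = a then Y ^ (t + 1) else (ρ x a j).natAbs * Y ^ t) := by
        intro j
        by_cases hj : j = a
        · rw [if_pos hj, hj, hρ.diag, one_mul]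
          have := ih' a b
          rwa [ht] at this
        · rw [if_neg hj, Int.natAbs_mul]
          by_cases hj2 : j < a
          · rw [hρ.low x hj2]; simp
          · refine Nat.mul_le_mul_left _ ((ih' j b).trans ?_)
            refine Nat.pow_le_pow_right hY1 ?_
            have h3 : (a : ℕ) < j := lt_of_le_of_ne (not_lt.mp hj2) (fun e => hj (Fin.ext e.symm))
            omega
      refine (Int.natAbs_sum_le _ _).trans ((sum_le_sum fun j _ => h1 j).trans ?_)
      have h2 : ∀ j : Fin n, (if j = a then Y ^ (t + 1) else (ρ x a j).natAbs * Y ^ t) ≤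
          (if j = a then Y ^ (t + 1) else 0) + (ρ x a j).natAbs * Y ^ t := by
        intro j
        split_ifs
        · exact Nat.le_add_right _ _
        · simp
      refine (sum_le_sum fun j _ => h2 j).trans ?_
      rw [sum_add_distrib, Finset.sum_ite_eq' univ a, if_pos (mem_univ a), ← Finset.sum_mul]
      have h4 : ∑ j, (ρ x a j).natAbs ≤ D := by
        rcases Nat.eq_zero_or_pos n with h0 | h0
        · subst h0; exact a.elim0
        · have h5 : n * ∑ j, (ρ x a j).natAbs ≤ n * D := by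
            rw [Finset.mul_sum]
            refine (sum_le_sum fun j _ => hl x (List.mem_cons_self) a j).trans ?_
            rw [sum_const, card_univ, Fintype.card_fin, smul_eq_mul]
          exact Nat.le_of_mul_le_mul_left h5 h0
      rw [ht]
      calc Y ^ (t + 1) + (∑ j, (ρ x a j).natAbs) * Y ^ t ≤ Y ^ (t + 1) + D * Y ^ t := by
            exact Nat.add_le_add_left (Nat.mul_le_mul_right _ h4) _
        _ = (D * (l.length + 1 + 1)) * Y ^ t := by rw [pow_succ, hY]; ring
        _ ≤ (D * (l.length + 1 + 1)) * (D * (l.length + 1 + 1)) ^ t := by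
            refine Nat.mul_le_mul_left _ (Nat.pow_le_pow_left ?_ t)
            rw [hY]
            exact Nat.mul_le_mul_left _ (by omega)
        _ = (D * (l.length + 1 + 1)) ^ (t + 1) := by rw [pow_succ]; ring
    · have : a = b := Fin.ext h
      rw [this, hρ.diag, Nat.sub_self, pow_zero]; simp
    · rw [hρ.low _ h]; simp

/-- the coordinates of a product of `l` generators are polynomially bounded -/
theorem Dat.word_bound (hρ : UniTri ρ) (d : Dat ρ) (S : Set Γ) (hS : S.Finite) :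
    ∃ C e : ℕ, 0 < C ∧ ∀ l : List Γ, (∀ x ∈ l, x ∈ S ∨ x⁻¹ ∈ S) → ∀ i,
      (d.a l.prod i).natAbs ≤ C * (l.length + 1) ^ e := by
  classical
  obtain ⟨C, hC⟩ := d.a_le
  obtain ⟨D, hD1, hD⟩ : ∃ D : ℕ, 1 ≤ D ∧ ∀ x, (x ∈ S ∨ x⁻¹ ∈ S) → ∀ a b, n * (ρ x a b).natAbs ≤ D := by
    let f : Γ → ℕ := fun x => ∑ a, ∑ b, n * (ρ x a b).natAbs
    have hf : ∀ x a b, n * (ρ x a b).natAbs ≤ f x := by
      intro x a b
      refine (Finset.single_le_sum (f := fun b => n * (ρ x a b).natAbs) (fun _ _ => Nat.zero_le _)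
        (mem_univ b)).trans ?_
      exact Finset.single_le_sum (f := fun a => ∑ b, n * (ρ x a b).natAbs) (fun _ _ => Nat.zero_le _)
        (mem_univ a)
    have hS' : (S ∪ S⁻¹).Finite := hS.union hS.inv
    refine ⟨∑ x ∈ hS'.toFinset, f x + 1, by omega, fun x hx a b => (hf x a b).trans ?_⟩
    have hx' : x ∈ hS'.toFinset := by
      rw [Set.Finite.mem_toFinset]
      rcases hx with h | h
      · exact Or.inl h
      · exact Or.inr (Set.mem_inv.mpr h)
    have := Finset.single_le_sum (f := f) (fun _ _ => Nat.zero_le _) hx'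
    omega
  refine ⟨C * (n * D ^ n + n + 1) ^ (n + 1) + 1, n * (n + 1), by omega, fun l hl i => ?_⟩
  have h1 : ∀ a b, (ρ l.prod a b).natAbs ≤ (D * (l.length + 1)) ^ n := by
    intro a b
    refine (word_entry hρ D hD1 l (fun x hx => hD x (hl x hx)) a b).trans ?_
    refine Nat.pow_le_pow_right (Nat.mul_pos hD1 (by omega)) ?_
    have := b.2
    omega
  refine (hC l.prod _ h1 i).trans ?_
  have h2 : n * ((D * (l.length + 1)) ^ n + 1) + 1 ≤ (n * D ^ n + n + 1) * (l.length + 1) ^ n := by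
    have h3 : 1 ≤ (l.length + 1) ^ n := Nat.one_le_pow _ _ (by omega)
    rw [mul_pow]
    calc n * (D ^ n * (l.length + 1) ^ n + 1) + 1 = n * D ^ n * (l.length + 1) ^ n + (n + 1) * 1 := by ring
      _ ≤ n * D ^ n * (l.length + 1) ^ n + (n + 1) * (l.length + 1) ^ n :=
          Nat.add_le_add_left (Nat.mul_le_mul_left _ h3) _
      _ = _ := by ring
  calc C * (n * ((D * (l.length + 1)) ^ n + 1) + 1) ^ (n + 1)
      ≤ C * ((n * D ^ n + n + 1) * (l.length + 1) ^ n) ^ (n + 1) :=
        Nat.mul_le_mul_left _ (Nat.pow_le_pow_left h2 _)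
    _ = C * (n * D ^ n + n + 1) ^ (n + 1) * (l.length + 1) ^ (n * (n + 1)) := by
        rw [mul_pow, ← pow_mul]; ring
    _ ≤ _ := Nat.mul_le_mul_right _ (by omega)

end

end Pool.Agent.H675R3
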