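import Pool.Agent.H675R3.Delta

set_option autoImplicit false
set_option linter.unusedVariables false

namespace Pool.Agent.H675R3

open Finset TensorProduct

attribute [local instance 100] LieRing.ofAssociativeRing

lemma dominated_of_bounds {f h : ℕ → ℕ} {a b : ℕ} (hab : a ≤ b) (hf0 : f 0 = 0) (hfm : Monotone f)
    {C C' : ℝ} (hC : 0 < C) (hC' : 0 < C') (hf : ∀ n : ℕ, 2 ≤ n → (f n : ℝ) ≤ C * (Real.log n) ^ a)
    (hh : ∀ n : ℕ, 2 ≤ n → (Real.log n) ^ b ≤ C' * h n) : Dominated f h := by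
  set K : ℕ := ⌈C * C'⌉₊ + 3 with hK
  refine ⟨K, by omega, fun n => ?_⟩
  rcases Nat.eq_zero_or_pos n with h0 | hn
  · rw [h0, hf0]
    exact Nat.zero_le _
  have h1 : f n ≤ f (2 * n) := hfm (by omega)
  have h2 := hf (2 * n) (by omega)
  have hKn : 3 ≤ K * n := by
    calc 3 ≤ K := by omega
      _ ≤ K * n := Nat.le_mul_of_pos_right _ hn
  have h3 := hh (K * n) (by omega)
  have hlog1 : 1 ≤ Real.log ((K * n : ℕ) : ℝ) := by
    rw [Real.le_log_iff_exp_le (by exact_mod_cast (by omega : 0 < K * n))]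
    have h4 : (3 : ℝ) ≤ ((K * n : ℕ) : ℝ) := by exact_mod_cast hKn
    have := Real.exp_one_lt_d9
    linarith
  have hlog2 : Real.log ((2 * n : ℕ) : ℝ) ≤ Real.log ((K * n : ℕ) : ℝ) := by
    apply Real.log_le_log (by exact_mod_cast (by omega : 0 < 2 * n))
    exact_mod_cast Nat.mul_le_mul_right n (by omega : 2 ≤ K)
  have hlog0 : 0 ≤ Real.log ((2 * n : ℕ) : ℝ) := Real.log_natCast_nonneg _
  have h4 : (Real.log ((2 * n : ℕ) : ℝ)) ^ a ≤ (Real.log ((K * n : ℕ) : ℝ)) ^ b :=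
    (pow_le_pow_left₀ hlog0 hlog2 a).trans (pow_le_pow_right₀ hlog1 hab)
  have h5 : (f n : ℝ) ≤ C * C' * h (K * n) := by
    have h6 : (f n : ℝ) ≤ f (2 * n) := by exact_mod_cast h1
    have h7 : C * (Real.log ((2 * n : ℕ) : ℝ)) ^ a ≤ C * (C' * h (K * n)) :=
      mul_le_mul_of_nonneg_left (h4.trans h3) hC.le
    linarith
  have h6 : (f n : ℝ) ≤ (K : ℝ) * h (K * n) := by
    refine h5.trans (mul_le_mul_of_nonneg_right ?_ (Nat.cast_nonneg _))
    have h7 := Nat.le_ceil (C * C')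
    have h8 : ((⌈C * C'⌉₊ : ℕ) : ℝ) ≤ K := by exact_mod_cast (by omega)
    linarith
  exact_mod_cast h6

lemma le_of_dominated {f h : ℕ → ℕ} {a b : ℕ} {C C' : ℝ} (hC : 0 < C) (hC' : 0 < C')
    (hf : ∀ n : ℕ, 2 ≤ n → (Real.log n) ^ a ≤ C * f n)
    (hh : ∀ n : ℕ, 2 ≤ n → (h n : ℝ) ≤ C' * (Real.log n) ^ b) (hd : Dominated f h) : a ≤ b := by
  by_contra hab
  push Not at hab
  obtain ⟨K, hK, hfh⟩ := hd
  set D : ℝ := C * K * C' * 2 ^ b with hD
  have hKp : (0 : ℝ) < K := by exact_mod_cast hK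
  have hDp : 0 < D := by positivity
  set n : ℕ := ⌈Real.exp D⌉₊ + K + 3 with hn
  have hn1 : Real.exp D < n := by
    have h1 := Nat.le_ceil (Real.exp D)
    have h2 : ((⌈Real.exp D⌉₊ : ℕ) : ℝ) + 1 ≤ n := by exact_mod_cast (by omega)
    linarith
  have hnpos : (0 : ℝ) < n := lt_trans (Real.exp_pos _) hn1
  have hlogD : D < Real.log n := by rwa [Real.lt_log_iff_exp_lt hnpos]
  have hlog1 : 1 ≤ Real.log n := by
    rw [Real.le_log_iff_exp_le hnpos]
    have h4 : (3 : ℝ) ≤ n := by exact_mod_cast (by omega)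
    have := Real.exp_one_lt_d9
    linarith
  have h1 := hf n (by omega)
  have h2 : (f n : ℝ) ≤ K * h (K * n) := by exact_mod_cast hfh n
  have hKn : 2 ≤ K * n := by
    calc 2 ≤ n := by omega
      _ ≤ K * n := Nat.le_mul_of_pos_left _ hK
  have h3 := hh (K * n) hKn
  have h4 : Real.log ((K * n : ℕ) : ℝ) ≤ 2 * Real.log n := by
    rw [Nat.cast_mul, Real.log_mul hKp.ne' hnpos.ne']
    have h5 : Real.log (K : ℝ) ≤ Real.log n := by
      apply Real.log_le_log hKp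
      exact_mod_cast (by omega : K ≤ n)
    linarith
  have h5 : (Real.log ((K * n : ℕ) : ℝ)) ^ b ≤ 2 ^ b * (Real.log n) ^ b := by
    rw [← mul_pow]
    exact pow_le_pow_left₀ (Real.log_natCast_nonneg _) h4 b
  have h6 : (Real.log n) ^ a ≤ D * (Real.log n) ^ b := by
    calc (Real.log n) ^ a ≤ C * f n := h1
      _ ≤ C * (K * h (K * n)) := mul_le_mul_of_nonneg_left h2 hC.le
      _ ≤ C * (K * (C' * (Real.log ((K * n : ℕ) : ℝ)) ^ b)) :=
          mul_le_mul_of_nonneg_left (mul_le_mul_of_nonneg_left h3 hKp.le) hC.le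
      _ ≤ C * (K * (C' * (2 ^ b * (Real.log n) ^ b))) :=
          mul_le_mul_of_nonneg_left (mul_le_mul_of_nonneg_left
            (mul_le_mul_of_nonneg_left h5 hC'.le) hKp.le) hC.le
      _ = D * (Real.log n) ^ b := by rw [hD]; ring
  have h7 : (Real.log n) ^ (b + 1) ≤ (Real.log n) ^ a := pow_le_pow_right₀ hlog1 (by omega)
  have h8 : 0 < (Real.log n) ^ b := by positivity
  rw [pow_succ] at h7
  nlinarith

/-- growth functions of groups with two-sided bounds -/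
theorem equiv_iff_of_GB {G₁ G₂ : Type*} [Group G₁] [Group G₂] {S₁ : Set G₁} {S₂ : Set G₂}
    (hgen₁ : Subgroup.closure S₁ = ⊤) (hgen₂ : Subgroup.closure S₂ = ⊤) {a b : ℕ}
    (h₁ : GB S₁ a) (h₂ : GB S₂ b) (hp₁ : 1 ≤ RF S₁ 1) (hp₂ : 1 ≤ RF S₂ 1) :
    (Dominated (RF S₁) (RF S₂) ∧ Dominated (RF S₂) (RF S₁)) ↔ a = b := by
  obtain ⟨C₁, hC₁, hb₁⟩ := GB.explicit hgen₁ h₁ hp₁
  obtain ⟨C₂, hC₂, hb₂⟩ := GB.explicit hgen₂ h₂ hp₂
  obtain ⟨D₁, hD₁, hub₁⟩ := h₁.ub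
  obtain ⟨D₂, hD₂, hub₂⟩ := h₂.ub
  constructor
  · rintro ⟨hd₁, hd₂⟩
    exact le_antisymm (le_of_dominated hC₁ hC₂ (fun n hn => (hb₁ n hn).1) (fun n hn => (hb₂ n hn).2) hd₁)
      (le_of_dominated hC₂ hC₁ (fun n hn => (hb₂ n hn).1) (fun n hn => (hb₁ n hn).2) hd₂)
  · intro hab
    exact ⟨dominated_of_bounds hab.le (RF_zero hgen₁) (fun _ _ h => RF_mono hD₁ hub₁ h) hC₁ hC₂
        (fun n hn => (hb₁ n hn).2) (fun n hn => (hb₂ n hn).1),
      dominated_of_bounds hab.ge (RF_zero hgen₂) (fun _ _ h => RF_mono hD₂ hub₂ h) hC₂ hC₁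
        (fun n hn => (hb₂ n hn).2) (fun n hn => (hb₁ n hn).1)⟩

/-- logarithm of a power -/
lemma matLog_pow {G : Type*} [Group G] {n : ℕ} (ρ : G →* Matrix (Fin n) (Fin n) ℚ)
    (huni : ∀ g, IsUnitri (ρ g)) (g : G) (m : ℕ) : matLog (ρ (g ^ m)) = m • matLog (ρ g) := by
  rw [matLog_eq, matLog_eq]
  exact lg_pow (matNF ℚ n) (good_rat _) (fun g => matNF_mem_of_unitri (huni g)) g m

/-- passing to a finite index subgroup and dividing by a finite normal subgroup -/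
theorem IsMal.of_section {G : Type} [Group G] {L : Type} [LieRing L] [LieAlgebra ℚ L]
    (h : IsMal G L) (H : Subgroup G) (hH : H.FiniteIndex) {P : Type} [Group P] (f : H →* P)
    (hf : Function.Surjective f) (hk : Finite f.ker) : IsMal P L := by
  obtain ⟨n, ρ, huni, hker, ⟨e⟩⟩ := h
  have htor : ∀ x : H, f x = 1 → Tor x := by
    intro x hx
    refine ⟨Nat.card f.ker, Nat.card_pos, ?_⟩
    have h1 : (⟨x, hx⟩ : f.ker) ^ Nat.card f.ker = 1 := pow_card_eq_one'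
    exact congrArg Subtype.val h1
  have htorH : ∀ x : H, Tor (x : G) ↔ Tor x := by
    intro x
    constructor
    · rintro ⟨m, hm, h1⟩
      exact ⟨m, hm, Subtype.ext h1⟩
    · rintro ⟨m, hm, h1⟩
      exact ⟨m, hm, congrArg Subtype.val h1⟩
  have hwd : ∀ x y : H, f x = f y → ρ x = ρ y := by
    intro x y hxy
    have h1 : f (x⁻¹ * y) = 1 := by rw [map_mul, map_inv, hxy, inv_mul_cancel]
    have h2 : ρ ((x⁻¹ * y : H) : G) = 1 := (hker _).mpr ((htorH _).mpr (htor _ h1))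
    have h3 : (y : G) = x * ((x⁻¹ * y : H) : G) := by
      rw [← Subgroup.coe_mul, mul_inv_cancel_left]
    rw [h3, map_mul, h2, mul_one]
  have hinv : ∀ p, f (Function.surjInv hf p) = p := Function.surjInv_eq hf
  let σ : P →* Matrix (Fin n) (Fin n) ℚ :=
    { toFun := fun p => ρ (Function.surjInv hf p : H)
      map_one' := by
        rw [hwd _ 1 (by rw [hinv, map_one])]
        exact map_one ρ
      map_mul' := fun p q => by
        rw [hwd _ (Function.surjInv hf p * Function.surjInv hf q) (by rw [hinv, map_mul, hinv, hinv]),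
          Subgroup.coe_mul, map_mul] }
  have hσ : ∀ x : H, σ (f x) = ρ x := fun x => hwd _ _ (hinv _)
  refine ⟨n, σ, fun p => huni _, ?_, ?_⟩
  · intro p
    obtain ⟨x, rfl⟩ := hf p
    rw [hσ, hker, htorH]
    constructor
    · rintro ⟨m, hm, h1⟩
      exact ⟨m, hm, by rw [← map_pow, h1, map_one]⟩
    · rintro ⟨m, hm, h1⟩
      rw [← map_pow] at h1
      obtain ⟨k, hk', h2⟩ := htor _ h1
      exact ⟨m * k, Nat.mul_pos hm hk', by rw [pow_mul]; exact h2⟩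
  · have h1 : malcevLie σ = malcevLie ρ := by
      apply le_antisymm
      · unfold malcevLie
        rw [LieSubalgebra.lieSpan_le]
        rintro _ ⟨p, rfl⟩
        exact LieSubalgebra.subset_lieSpan ⟨(Function.surjInv hf p : H), rfl⟩
      · have h2 : Set.range (fun g => matLog (ρ g)) ⊆ (malcevLie σ : Set (Matrix (Fin n) (Fin n) ℚ)) := by
          rintro _ ⟨g, rfl⟩
          obtain ⟨m, hm, _, hgm⟩ := Subgroup.exists_pow_mem_of_index_ne_zero hH.index_ne_zero g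
          have h3 : matLog (ρ g) = (m : ℚ)⁻¹ • matLog (σ (f ⟨g ^ m, hgm⟩)) := by
            rw [hσ, matLog_pow ρ huni, ← Nat.cast_smul_eq_nsmul ℚ, smul_smul, inv_mul_cancel₀, one_smul]
            exact_mod_cast hm.ne'
          change matLog (ρ g) ∈ malcevLie σ
          rw [h3]
          exact (malcevLie σ).smul_mem _ (LieSubalgebra.subset_lieSpan ⟨_, rfl⟩)
        unfold malcevLie at h2 ⊢
        rw [LieSubalgebra.lieSpan_le]
        exact h2
    rw [h1]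
    exact ⟨e⟩

/-- commensurability up to finite kernels -/
def CommFin (G₁ G₂ : Type) [Group G₁] [Group G₂] : Prop :=
  ∃ (H₁ : Subgroup G₁) (H₂ : Subgroup G₂) (P : Type) (_ : Group P) (f₁ : H₁ →* P) (f₂ : H₂ →* P),
    H₁.FiniteIndex ∧ H₂.FiniteIndex ∧ Function.Surjective f₁ ∧ Function.Surjective f₂ ∧
    Finite f₁.ker ∧ Finite f₂.ker

lemma IsMal.congr {G : Type} [Group G] {L L' : Type} [LieRing L] [LieAlgebra ℚ L]
    [LieRing L'] [LieAlgebra ℚ L'] (e : L' ≃ₗ⁅ℚ⁆ L) (h : IsMal G L) : IsMal G L' := by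
  obtain ⟨n, ρ, hu, hk, ⟨e'⟩⟩ := h
  exact ⟨n, ρ, hu, hk, ⟨e.trans e'⟩⟩

theorem CommFin.isMal {G₁ G₂ : Type} [Group G₁] [Group G₂] (h : CommFin G₁ G₂)
    {L₁ L₂ : Type} [LieRing L₁] [LieAlgebra ℚ L₁] [LieRing L₂] [LieAlgebra ℚ L₂]
    (h₁ : IsMal G₁ L₁) (h₂ : IsMal G₂ L₂) : IsMal G₂ L₁ := by
  obtain ⟨H₁, H₂, P, _, f₁, f₂, hH₁, hH₂, hf₁, hf₂, hk₁, hk₂⟩ := h
  obtain ⟨e⟩ := (h₁.of_section H₁ hH₁ f₁ hf₁ hk₁).unique (h₂.of_section H₂ hH₂ f₂ hf₂ hk₂)
  exact h₂.congr e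

end Pool.Agent.H675R3
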