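import Pool.Agent.H675R3.MatNF

set_option autoImplicit false
set_option linter.unusedVariables false

namespace Pool.Agent.H675R3

open Finset

section
variable {Γ : Type*} [Group Γ] {n : ℕ}

/-- the rational span of the logarithms -/
noncomputable def WQ (ρ : Γ →* Matrix (Fin n) (Fin n) ℤ) : Submodule ℚ (Matrix (Fin n) (Fin n) ℚ) :=
  Submodule.span ℚ (Set.range (lgk ρ ℚ))

/-- An integral structure on the Malcev Lie algebra -/
structure Dat (ρ : Γ →* Matrix (Fin n) (Fin n) ℤ) where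
  h : ℕ
  g : Fin h → Γ
  c : Fin h → Fin h → Fin h → ℤ
  lam : Fin h → Fin n → Fin n → ℤ
  M : ℕ
  hM : 0 < M
  span_eq : Submodule.span ℚ (Set.range fun i => lgk ρ ℚ (g i)) = WQ ρ
  br : ∀ i j, lgk ρ ℚ (g i) * lgk ρ ℚ (g j) - lgk ρ ℚ (g j) * lgk ρ ℚ (g i) =
    ∑ r, (c i j r : ℚ) • lgk ρ ℚ (g r)
  lam_x : ∀ i j, ∑ a, ∑ b, (lam i a b : ℚ) * lgk ρ ℚ (g j) a b = if i = j then (M : ℚ) else 0

variable {ρ : Γ →* Matrix (Fin n) (Fin n) ℤ}

lemma WQ_eq (hρ : UniTri ρ) : WQ ρ = Wi (matNF ℚ n) (rk ρ ℚ) ⊤ 1 := by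
  unfold WQ Wi
  congr 1
  ext x
  constructor
  · rintro ⟨g, rfl⟩
    exact ⟨g, Subgroup.mem_top g, hρ.rk ℚ g, rfl⟩
  · rintro ⟨g, _, _, rfl⟩
    exact ⟨g, rfl⟩

lemma exists_common_den {ι : Type*} [Fintype ι] (q : ι → ℚ) :
    ∃ D : ℕ, 0 < D ∧ ∀ i, ∃ z : ℤ, (z : ℚ) = D * q i := by
  classical
  refine ⟨∏ i, (q i).den, Finset.prod_pos fun i _ => (q i).den_pos, fun i => ?_⟩
  refine ⟨(∏ j ∈ Finset.univ.erase i, (q j).den : ℕ) * (q i).num, ?_⟩
  rw [← Finset.mul_prod_erase _ _ (Finset.mem_univ i)]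
  have h := Rat.mul_den_eq_num (q i)
  push_cast
  rw [← h]
  ring

theorem exists_Dat (hρ : UniTri ρ) : Nonempty (Dat ρ) := by
  classical
  have hk := good_rat (n + 1)
  obtain ⟨h, f, hf, hspan, hli⟩ : ∃ h : ℕ, ∃ f : Fin h → Matrix (Fin n) (Fin n) ℚ,
      (∀ i, f i ∈ Set.range (lgk ρ ℚ)) ∧
      Submodule.span ℚ (Set.range f) = Submodule.span ℚ (Set.range (lgk ρ ℚ)) ∧
      LinearIndependent ℚ f :=
    ⟨_, Submodule.exists_fun_fin_finrank_span_eq ℚ (Set.range (lgk ρ ℚ))⟩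
  choose g hg using hf
  -- brackets
  have hbr : ∀ i j, ∃ q : Fin h → ℚ, f i * f j - f j * f i = ∑ r, q r • f r := by
    intro i j
    have h1 : f i * f j - f j * f i ∈ Submodule.span ℚ (Set.range f) := by
      rw [hspan]
      change _ ∈ WQ ρ
      rw [WQ_eq hρ]
      refine bracket_WW (matNF ℚ n) hk (hρ.rk ℚ) inferInstance le_rfl _ ?_ _ ?_
      · rw [← hg i]; exact mem_Wi _ (Subgroup.mem_top _) (hρ.rk ℚ _)
      · rw [← hg j]; exact mem_Wi _ (Subgroup.mem_top _) (hρ.rk ℚ _)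
    obtain ⟨q, hq⟩ := (Submodule.mem_span_range_iff_exists_fun ℚ).mp h1
    exact ⟨q, hq.symm⟩
  choose q hq using hbr
  obtain ⟨D, hD, hDq⟩ := exists_common_den (fun t : Fin h × Fin h × Fin h => q t.1 t.2.1 t.2.2)
  choose c hc using hDq
  -- the new elements
  have hlgD : ∀ i, lgk ρ ℚ (g i ^ D) = D • f i := by
    intro i
    rw [← hg i]
    exact lg_pow (matNF ℚ n) hk (hρ.rk ℚ) (g i) D
  -- left inverse
  have hD0 : (D : ℚ) ≠ 0 := by exact_mod_cast hD.ne'
  have hli' : LinearIndependent ℚ (fun i => (D : ℚ) • f i) := by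
    have := hli.units_smul (fun _ => Units.mk0 (D : ℚ) hD0)
    exact this
  obtain ⟨Lm, hLm⟩ := LinearMap.exists_leftInverse_of_injective
    (Fintype.linearCombination ℚ (fun i => (D : ℚ) • f i))
    (LinearMap.ker_eq_bot.mpr (hli'.fintypeLinearCombination_injective))
  have hL1 : ∀ i j, Lm ((D : ℚ) • f j) i = if i = j then 1 else 0 := by
    intro i j
    have h1 := LinearMap.congr_fun hLm (Pi.single j 1)
    rw [LinearMap.comp_apply, Fintype.linearCombination_apply_single, one_smul, LinearMap.id_apply] at h1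
    rw [h1, Pi.single_apply]
  obtain ⟨M, hM, hMl⟩ := exists_common_den
    (fun t : Fin h × Fin n × Fin n => Lm (Matrix.single t.2.1 t.2.2 1) t.1)
  choose lam hlam using hMl
  refine ⟨⟨h, fun i => g i ^ D, fun i j r => c (i, j, r), fun i a b => lam (i, a, b), M, hM, ?_, ?_, ?_⟩⟩
  · change _ = WQ ρ
    have : WQ ρ = Submodule.span ℚ (Set.range f) := by rw [hspan]; rfl
    rw [this]
    apply le_antisymm
    · rw [Submodule.span_le]
      rintro _ ⟨i, rfl⟩
      change lgk ρ ℚ (g i ^ D) ∈ _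
      rw [hlgD]
      exact Submodule.smul_of_tower_mem _ D (Submodule.subset_span ⟨i, rfl⟩)
    · rw [Submodule.span_le]
      rintro _ ⟨i, rfl⟩
      have h1 : f i = (D : ℚ)⁻¹ • lgk ρ ℚ (g i ^ D) := by
        rw [hlgD, ← Nat.cast_smul_eq_nsmul ℚ, smul_smul, inv_mul_cancel₀ hD0, one_smul]
      rw [h1]
      exact Submodule.smul_mem _ _ (Submodule.subset_span ⟨i, rfl⟩)
  · intro i j
    simp only [hlgD]
    simp only [← Nat.cast_smul_eq_nsmul ℚ, smul_mul_smul_comm]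
    rw [← smul_sub, hq, Finset.smul_sum]
    refine Finset.sum_congr rfl fun r _ => ?_
    rw [hc, smul_smul, smul_smul]
    congr 1
    ring
  · intro i j
    simp only [hlgD, ← Nat.cast_smul_eq_nsmul ℚ, hlam]
    have h1 : (M : ℚ) * Lm ((D : ℚ) • f j) i = if i = j then (M : ℚ) else 0 := by
      rw [hL1]; split_ifs <;> simp
    rw [← h1]
    conv_rhs => rw [Matrix.matrix_eq_sum_single ((D : ℚ) • f j)]
    rw [map_sum, Finset.sum_apply, Finset.mul_sum]
    refine Finset.sum_congr rfl fun a _ => ?_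
    rw [map_sum, Finset.sum_apply, Finset.mul_sum]
    refine Finset.sum_congr rfl fun b _ => ?_
    have : Matrix.single a b (((D : ℚ) • f j) a b) = (((D : ℚ) • f j) a b) • Matrix.single a b (1 : ℚ) := by
      rw [Matrix.smul_single, smul_eq_mul, mul_one]
    rw [this, map_smul, Pi.smul_apply, smul_eq_mul]
    ring

end

end Pool.Agent.H675R3
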