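import Pool.Agent.H675R3.Trc

set_option autoImplicit false
set_option linter.unusedVariables false

namespace Pool.Agent.H675R3

open Finset TensorProduct

attribute [local instance 100] LieRing.ofAssociativeRing

/-- the ideals of codimension at most `k` intersect trivially -/
def SepLie (M : Type*) [LieRing M] [LieAlgebra ℂ M] (k : ℕ) : Prop :=
  ∀ x : M, (∀ I : LieIdeal ℂ M, Module.finrank ℂ (M ⧸ I.toSubmodule) ≤ k → x ∈ I) → x = 0

/-- the least such `k` -/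
noncomputable def delta (M : Type*) [LieRing M] [LieAlgebra ℂ M] : ℕ := sInf {k | SepLie M k}

lemma SepLie.transport {M M' : Type*} [LieRing M] [LieAlgebra ℂ M] [LieRing M'] [LieAlgebra ℂ M']
    (e : M ≃ₗ⁅ℂ⁆ M') {k : ℕ} (h : SepLie M k) : SepLie M' k := by
  intro x' hx'
  have h1 : e.symm x' = 0 := by
    apply h
    intro I hI
    let J : LieIdeal ℂ M' :=
      { I.toSubmodule.map (e.toLinearEquiv : M →ₗ[ℂ] M') with
        lie_mem := by
          rintro x _ ⟨y, hy, rfl⟩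
          refine ⟨⁅e.symm x, y⁆, I.lie_mem hy, ?_⟩
          change e ⁅e.symm x, y⁆ = ⁅x, e y⁆
          rw [LieEquiv.map_lie, LieEquiv.apply_symm_apply] }
    have h2 : x' ∈ J := by
      apply hx'
      rw [← LinearEquiv.finrank_eq (Submodule.Quotient.equiv I.toSubmodule J.toSubmodule
        e.toLinearEquiv rfl)]
      exact hI
    obtain ⟨y, hy, hyx⟩ := h2
    have h3 : x' = e y := hyx.symm
    rw [h3, LieEquiv.symm_apply_apply]
    exact hy
  have h2 := congrArg e h1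
  rw [LieEquiv.apply_symm_apply] at h2
  rw [h2]
  exact map_zero e.toLinearEquiv

lemma delta_congr {M M' : Type*} [LieRing M] [LieAlgebra ℂ M] [LieRing M'] [LieAlgebra ℂ M']
    (e : M ≃ₗ⁅ℂ⁆ M') : delta M = delta M' := by
  unfold delta
  congr 1
  ext k
  exact ⟨SepLie.transport e, SepLie.transport e.symm⟩

lemma sepLie_iff {M : Type*} [LieRing M] [LieAlgebra ℂ M] {h : ℕ} (c : Fin h → Fin h → Fin h → ℤ)
    (Ψ : (Fin h → ℂ) ≃ₗ[ℂ] M) (hΨ : ∀ x y, Ψ (brk c x y) = ⁅Ψ x, Ψ y⁆) (k : ℕ) :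
    SepLie M k ↔ Sep c k ℂ := by
  constructor
  · intro hM x hx
    have h1 : Ψ x = 0 := by
      apply hM
      intro I hI
      let J : Submodule ℂ (Fin h → ℂ) := I.toSubmodule.map (Ψ.symm : M →ₗ[ℂ] (Fin h → ℂ))
      have h2 : x ∈ J := by
        apply hx J
        · rintro _ ⟨z, hz, rfl⟩ y
          refine ⟨⁅Ψ y, z⁆, I.lie_mem hz, ?_⟩
          change Ψ.symm ⁅Ψ y, z⁆ = brk c y (Ψ.symm z)
          rw [LinearEquiv.symm_apply_eq, hΨ, LinearEquiv.apply_symm_apply]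
        · rw [← LinearEquiv.finrank_eq (Submodule.Quotient.equiv I.toSubmodule J Ψ.symm rfl)]
          exact hI
      obtain ⟨z, hz, hzx⟩ := h2
      have h3 : x = Ψ.symm z := hzx.symm
      rw [h3, LinearEquiv.apply_symm_apply]
      exact hz
    rw [← Ψ.symm_apply_apply x, h1, map_zero]
  · intro hS x hx
    have h1 : Ψ.symm x = 0 := by
      apply hS
      intro J hJ hk
      let I : LieIdeal ℂ M :=
        { J.map (Ψ : (Fin h → ℂ) →ₗ[ℂ] M) with
          lie_mem := by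
            rintro x _ ⟨y, hy, rfl⟩
            refine ⟨brk c (Ψ.symm x) y, hJ y hy _, ?_⟩
            change Ψ (brk c (Ψ.symm x) y) = ⁅x, Ψ y⁆
            rw [hΨ, LinearEquiv.apply_symm_apply] }
      have h2 : x ∈ I := by
        apply hx
        rw [← LinearEquiv.finrank_eq (Submodule.Quotient.equiv J I.toSubmodule Ψ rfl)]
        exact hk
      obtain ⟨y, hy, hyx⟩ := h2
      have h3 : x = Ψ y := hyx.symm
      rw [h3, LinearEquiv.symm_apply_apply]
      exact hy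
    rw [← Ψ.apply_symm_apply x, h1, map_zero]

/-- torsion elements -/
def Tor {G : Type*} [Group G] (g : G) : Prop := ∃ m : ℕ, 0 < m ∧ g ^ m = 1

/-- `L` is the rational Malcev Lie algebra of `G` modulo torsion -/
def IsMal (G : Type) [Group G] (L : Type) [LieRing L] [LieAlgebra ℚ L] : Prop :=
  ∃ (n : ℕ) (ρ : G →* Matrix (Fin n) (Fin n) ℚ), (∀ g, IsUnitri (ρ g)) ∧
    (∀ g, ρ g = 1 ↔ Tor g) ∧ Nonempty (L ≃ₗ⁅ℚ⁆ malcevLie ρ)

lemma malcevLie_comp {G K : Type*} [Group G] [Group K] {n : ℕ} (f : G →* K)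
    (hf : Function.Surjective f) (ρ : K →* Matrix (Fin n) (Fin n) ℚ) :
    malcevLie (ρ.comp f) = malcevLie ρ := by
  unfold malcevLie
  congr 1
  ext x
  constructor
  · rintro ⟨g, rfl⟩
    exact ⟨f g, rfl⟩
  · rintro ⟨k, rfl⟩
    obtain ⟨g, rfl⟩ := hf k
    exact ⟨g, rfl⟩

section desc
variable {G : Type} [Group G] {n : ℕ} (ρ : G →* Matrix (Fin n) (Fin n) ℚ)

/-- the induced representation -/
def kerL : G ⧸ ρ.ker →* Matrix (Fin n) (Fin n) ℚ := QuotientGroup.lift ρ.ker ρ le_rfl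

lemma kerL_comp : (kerL ρ).comp (QuotientGroup.mk' ρ.ker) = ρ := by
  ext g : 1
  rfl

lemma kerL_inj : Function.Injective (kerL ρ) := by
  rw [injective_iff_map_eq_one]
  intro q hq
  obtain ⟨g, rfl⟩ := QuotientGroup.mk'_surjective _ q
  exact (QuotientGroup.eq_one_iff g).mpr hq

theorem malcev_unique' {n₂ : ℕ} (ρ₂ : G →* Matrix (Fin n₂) (Fin n₂) ℚ)
    (huni₁ : ∀ g, IsUnitri (ρ g)) (huni₂ : ∀ g, IsUnitri (ρ₂ g))
    (hker : ∀ g, ρ g = 1 ↔ ρ₂ g = 1) : Nonempty (malcevLie ρ ≃ₗ⁅ℚ⁆ malcevLie ρ₂) := by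
  let π := QuotientGroup.mk' ρ.ker
  have hπ : Function.Surjective π := QuotientGroup.mk'_surjective _
  let σ₁ := kerL ρ
  let σ₂ : G ⧸ ρ.ker →* Matrix (Fin n₂) (Fin n₂) ℚ :=
    QuotientGroup.lift ρ.ker ρ₂ (fun g hg => (hker g).mp hg)
  have h1 : σ₁.comp π = ρ := by ext g : 1; rfl
  have h2 : σ₂.comp π = ρ₂ := by ext g : 1; rfl
  have hinj₂ : Function.Injective σ₂ := by
    rw [injective_iff_map_eq_one]
    intro q hq
    obtain ⟨g, rfl⟩ := hπ q
    have h3 : ρ₂ g = 1 := by rw [← h2]; exact hq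
    exact (QuotientGroup.eq_one_iff g).mpr ((hker g).mpr h3)
  obtain ⟨e⟩ := malcev_unique σ₁ σ₂
    (fun q => by obtain ⟨g, rfl⟩ := hπ q; exact huni₁ g)
    (fun q => by obtain ⟨g, rfl⟩ := hπ q; exact huni₂ g) (kerL_inj ρ) hinj₂
  have h3 := malcevLie_comp π hπ σ₁
  have h4 := malcevLie_comp π hπ σ₂
  rw [h1] at h3
  rw [h2] at h4
  rw [h3, h4]
  exact ⟨e⟩

end desc

theorem IsMal.unique {G : Type} [Group G] {L L' : Type} [LieRing L] [LieAlgebra ℚ L]
    [LieRing L'] [LieAlgebra ℚ L'] (h : IsMal G L) (h' : IsMal G L') : Nonempty (L ≃ₗ⁅ℚ⁆ L') := by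
  obtain ⟨n, ρ, hu, hk, ⟨e⟩⟩ := h
  obtain ⟨n', ρ', hu', hk', ⟨e'⟩⟩ := h'
  obtain ⟨f⟩ := malcev_unique' ρ ρ' hu hu' (fun g => (hk g).trans (hk' g).symm)
  exact ⟨(e.trans f).trans e'.symm⟩

theorem isMal_exists (G : Type) [Group G] (hfg : Group.FG G) (hnil : Group.IsNilpotent G) :
    ∃ (L : Type) (_ : LieRing L) (_ : LieAlgebra ℚ L), IsMal G L := by
  have hl : Pool.Agent.Helper28.LCN.LocNilp G := fun s => inferInstance
  have := Pool.Agent.Helper28.LCN.tor_normal hl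
  let π := QuotientGroup.mk' (Pool.Agent.Helper28.LCN.tor hl)
  have hπ : Function.Surjective π := QuotientGroup.mk'_surjective _
  obtain ⟨n, ρ, hinj, huni⟩ := Emb.exists_unitri (G ⧸ Pool.Agent.Helper28.LCN.tor hl)
    (Group.fg_of_surjective hπ) (Group.nilpotent_of_surjective π hπ)
    (Pool.Agent.Helper28.LCN.tf_quot hl)
  refine ⟨malcevLie (ρ.comp π), inferInstance, inferInstance, n, ρ.comp π, fun g => huni _, ?_,
    ⟨LieEquiv.refl⟩⟩
  intro g
  constructor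
  · intro h
    have h1 : π g = 1 := hinj (by rw [map_one]; exact h)
    exact (QuotientGroup.eq_one_iff g).mp h1
  · intro h
    have h1 : π g = 1 := (QuotientGroup.eq_one_iff g).mpr h
    rw [MonoidHom.comp_apply, h1, map_one]

/-- torsion-free case -/
theorem gb_tf {G : Type} [Group G] [Nontrivial G] {n : ℕ} (ρ : G →* Matrix (Fin n) (Fin n) ℚ)
    (huni : ∀ g, IsUnitri (ρ g)) (hinj : Function.Injective ρ) {L : Type} [LieRing L]
    [LieAlgebra ℚ L] (f : L ≃ₗ⁅ℚ⁆ malcevLie ρ) {S : Set G} (hS : S.Finite)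
    (hgen : Subgroup.closure S = ⊤) :
    1 ≤ delta (ℂ ⊗[ℚ] L) ∧ GB S (delta (ℂ ⊗[ℚ] L)) ∧
    ∀ q : G, q ≠ 1 → ∃ N : Subgroup G, N.Normal ∧ N.index ≠ 0 ∧ q ∉ N := by
  obtain ⟨ρ', D, hD, hu, hi, he⟩ := exists_integral S hS hgen ρ huni hinj
  obtain ⟨d⟩ := exists_Dat hu
  obtain ⟨b, hb⟩ := exists_basis ρ ρ' D hD hu he d
  have hb' : ∀ i j, ⁅(b.map f.symm.toLinearEquiv) i, (b.map f.symm.toLinearEquiv) j⁆ =
      ∑ r, (d.c i j r : ℚ) • (b.map f.symm.toLinearEquiv) r := by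
    intro i j
    have h1 := congrArg f.symm (hb i j)
    rw [LieEquiv.map_lie] at h1
    have h2 : f.symm (∑ r, (d.c i j r : ℚ) • b r) = ∑ r, (d.c i j r : ℚ) • f.symm (b r) := by
      have := map_sum f.symm.toLinearEquiv (fun r => (d.c i j r : ℚ) • b r) Finset.univ
      simp only [map_smul] at this
      exact this
    rw [h2] at h1
    exact h1
  obtain ⟨Ψ, hΨ⟩ := exists_coord d.c _ hb'
  have hex : ∀ q : G, q ≠ 1 → ∃ N : Subgroup G, N.Normal ∧ N.index ≠ 0 ∧ q ∉ N :=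
    fun q hq => exists_normal hu hi d hq
  have hset : {k | SepLie (ℂ ⊗[ℚ] L) k} = {k | Sep d.c k ℂ} := by
    ext k
    exact sepLie_iff d.c Ψ hΨ k
  have hne : {k | Sep d.c k ℂ}.Nonempty := ⟨_, sep_self d.c⟩
  have hδ : Sep d.c (delta (ℂ ⊗[ℚ] L)) ℂ := by
    unfold delta
    rw [hset]
    exact Nat.sInf_mem hne
  have hmin : ∀ k, k < delta (ℂ ⊗[ℚ] L) → ¬ Sep d.c k ℂ := by
    intro k hk
    unfold delta at hk
    rw [hset] at hk
    exact Nat.notMem_of_lt_sInf hk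
  set δ := delta (ℂ ⊗[ℚ] L)
  have hub := ub_depth hu hi d δ hδ S hS hgen
  have hδ1 : 1 ≤ δ := by
    by_contra h0
    have h0' : δ = 0 := by omega
    obtain ⟨g, hg⟩ := exists_ne (1 : G)
    obtain ⟨C, hC, h1⟩ := hub
    have h2 := h1 g hg
    rw [h0', pow_zero] at h2
    have h3 : depth g ≤ 1 := by exact_mod_cast h2
    obtain ⟨N, hN1, hN2, hN3, hN4⟩ := depth_spec (hex g hg)
    have h4 : N.index = 1 := by omega
    rw [Subgroup.index_eq_one] at h4
    rw [h4] at hN3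
    exact hN3 (Subgroup.mem_top g)
  refine ⟨hδ1, ⟨hub, ?_⟩, hex⟩
  obtain ⟨k, hk⟩ : ∃ k, δ = k + 1 := ⟨δ - 1, by omega⟩
  have h1 := lb_depth hu hi d k (hmin k (by omega)) S hgen
  rw [← hk] at h1
  exact h1

/-- **The residual finiteness growth of finitely generated nilpotent groups** -/
theorem growth {G : Type} [Group G] (hfg : Group.FG G) (hnil : Group.IsNilpotent G)
    (hinf : Infinite G) {L : Type} [LieRing L] [LieAlgebra ℚ L] (hL : IsMal G L) {S : Set G}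
    (hS : S.Finite) (hgen : Subgroup.closure S = ⊤) :
    1 ≤ delta (ℂ ⊗[ℚ] L) ∧ GB S (delta (ℂ ⊗[ℚ] L)) ∧ 1 ≤ RF S 1 := by
  obtain ⟨n, ρ, huni, hker, ⟨e⟩⟩ := hL
  let π := QuotientGroup.mk' ρ.ker
  have hπ : Function.Surjective π := QuotientGroup.mk'_surjective _
  have hπk : π.ker = ρ.ker := QuotientGroup.ker_mk' _
  -- the kernel is finite
  have hfinρ : Finite ρ.ker := by
    obtain ⟨T, hT, hT'⟩ := Pool.Agent.H798R2.EP.tor_finite G
    exact (hT.subset (fun x hx => hT' x ((hker x).mp hx))).to_subtype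
  have hfin : Finite π.ker := by rw [hπk]; exact hfinρ
  have htf : ∀ (q : G ⧸ ρ.ker) (m : ℕ), 0 < m → q ^ m = 1 → q = 1 := by
    intro q m hm hq
    obtain ⟨g, rfl⟩ := hπ q
    have h1 : π (g ^ m) = 1 := by rw [map_pow]; exact hq
    have h2 : ρ (g ^ m) = 1 := (QuotientGroup.eq_one_iff (g ^ m)).mp h1
    obtain ⟨k, hk, h3⟩ := (hker _).mp h2
    have h4 : ρ g = 1 := (hker g).mpr ⟨m * k, Nat.mul_pos hm hk, by rw [pow_mul]; exact h3⟩
    exact (QuotientGroup.eq_one_iff g).mpr h4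
  -- a generator which is not torsion
  obtain ⟨s, hs, hs1⟩ : ∃ s ∈ S, ρ s ≠ 1 := by
    by_contra hcon
    push Not at hcon
    have h1 : Subgroup.closure S ≤ ρ.ker := by
      rw [Subgroup.closure_le]
      exact fun x hx => hcon x hx
    rw [hgen] at h1
    have h2 : (Set.univ : Set G).Finite := (Set.toFinite (ρ.ker : Set G)).subset (fun x _ => h1 (Subgroup.mem_top x))
    exact Set.infinite_univ h2
  have hπs : π s ≠ 1 := fun h => hs1 ((QuotientGroup.eq_one_iff s).mp h)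
  have hnt : Nontrivial (G ⧸ ρ.ker) := ⟨π s, 1, hπs⟩
  have hml : malcevLie (kerL ρ) = malcevLie ρ := by
    rw [← malcevLie_comp π hπ (kerL ρ), kerL_comp]
  have e' : L ≃ₗ⁅ℚ⁆ malcevLie (kerL ρ) := by rw [hml]; exact e
  obtain ⟨h1, h2, h3⟩ := gb_tf (kerL ρ) (fun q => by obtain ⟨g, rfl⟩ := hπ q; exact huni g)
    (kerL_inj ρ) e' (hS.image π) (image_closure π hπ hgen)
  have h4 := GB.lift π hπ hgen h1 h3 htf h2
  refine ⟨h1, h4, ?_⟩
  obtain ⟨N, hN1, hN2, hN3⟩ := h3 _ hπs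
  obtain ⟨N', hN'1, hN'2, hN'3, hN'4⟩ := depth_spec (g := s) ⟨N.comap π, hN1.comap π, by
    rw [Subgroup.index_comap_of_surjective N hπ]; exact hN2, hN3⟩
  obtain ⟨C, hC, hub⟩ := h4.ub
  have h5 : depth s ≤ RF S 1 := le_RF hC hub (fun h => hs1 (by rw [h, map_one]))
    (wordLen_le [s] (by intro x hx; rw [List.mem_singleton] at hx; rw [hx]; exact Or.inl hs)
      (List.prod_singleton))
  omega

end Pool.Agent.H675R3
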