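import Pool.Agent.H484R2.Pit

set_option autoImplicit false
set_option linter.unusedVariables false

open Filter Topology NumberField Finset

namespace Pool.Agent.H675R3

/-- primes of degree one are dense enough -/
theorem prime_lemma (K : Type) [Field K] [NumberField K] (D : ℕ) (hD : 0 < D) :
    ∃ C : ℝ, 0 < C ∧ ∀ a : ℕ, 0 < a → ∃ p : ℕ, p.Prime ∧ ¬ p ∣ a ∧ ¬ p ∣ D ∧
      Nonempty (𝓞 K →+* ZMod p) ∧ (p : ℝ) ≤ C * (Real.log a + 1) := by
  classical
  have h1 := H332.PIT.TT_tendsto (Pool.Agent.H484R2.continuation K)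
  have h2 : ∀ᶠ N : ℕ in atTop, (1 / 2 : ℝ) < H332.PIT.TT K N / N :=
    h1.eventually_const_lt (by norm_num)
  obtain ⟨N₀, hN₀⟩ := eventually_atTop.mp h2
  set d : ℝ := (Module.finrank ℚ K : ℝ) with hd
  have hd0 : 0 < d := by
    rw [hd]; exact_mod_cast Module.finrank_pos
  have hlogD : 0 ≤ Real.log D := Real.log_natCast_nonneg D
  refine ⟨N₀ + 2 * d * (1 + Real.log D) + 2, by positivity, fun a ha => ?_⟩
  have hloga : 0 ≤ Real.log a := Real.log_natCast_nonneg a
  set N : ℕ := N₀ + ⌊2 * d * (Real.log a + Real.log D)⌋₊ + 1 with hN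
  have hNle : (N : ℝ) ≤ (N₀ + 2 * d * (1 + Real.log D) + 2) * (Real.log a + 1) := by
    have h3 : (⌊2 * d * (Real.log a + Real.log D)⌋₊ : ℝ) ≤ 2 * d * (Real.log a + Real.log D) :=
      Nat.floor_le (by positivity)
    rw [hN]
    push_cast
    have h4 : (0 : ℝ) ≤ N₀ := Nat.cast_nonneg _
    nlinarith [mul_nonneg hloga h4, mul_nonneg hloga hlogD, mul_nonneg hd0.le hloga,
      mul_nonneg (mul_nonneg hd0.le hloga) hlogD]
  have hNgt : 2 * d * (Real.log a + Real.log D) < N := by
    have h3 := Nat.lt_floor_add_one (2 * d * (Real.log a + Real.log D))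
    rw [hN]
    push_cast
    have h4 : (0 : ℝ) ≤ N₀ := Nat.cast_nonneg _
    linarith
  by_contra hcon
  push Not at hcon
  have hN0 : (0 : ℝ) < N := by rw [hN]; positivity
  have h3 := hN₀ N (by omega)
  rw [lt_div_iff₀ hN0] at h3
  -- good primes divide `a * D`
  set S := ((range (N + 1)).filter Nat.Prime).filter (fun p => Nonempty (𝓞 K →+* ZMod p)) with hS
  have h4 : H332.PIT.TT K N ≤ d * ∑ p ∈ S, Real.log p := by
    unfold H332.PIT.TT
    rw [← sum_filter_add_sum_filter_not ((range (N + 1)).filter Nat.Prime)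
      (fun p => Nonempty (𝓞 K →+* ZMod p))]
    rw [← hS, sum_eq_zero (s := ((range (N + 1)).filter Nat.Prime).filter
      (fun p => ¬ Nonempty (𝓞 K →+* ZMod p))), add_zero, mul_sum]
    · refine sum_le_sum fun p hp => ?_
      have hp' := (mem_filter.mp (mem_filter.mp hp).1).2
      exact mul_le_mul_of_nonneg_right (H332.PIT.hc_cast_le hp') (Real.log_natCast_nonneg p)
    · intro p hp
      have h5 := (mem_filter.mp hp).2
      rw [not_nonempty_iff] at h5
      rw [Nat.card_of_isEmpty, Nat.cast_zero, zero_mul]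
  have h5 : ∏ p ∈ S, p ∣ a * D := by
    refine Finset.prod_primes_dvd _ (fun p hp => ?_) (fun p hp => ?_)
    · exact (mem_filter.mp (mem_filter.mp hp).1).2.prime
    · have hp1 := mem_filter.mp hp
      have hp2 := mem_filter.mp hp1.1
      by_contra hnd
      have h6 := hcon p hp2.2 (fun h => hnd (h.mul_right D)) (fun h => hnd (h.mul_left a)) hp1.2
      have h7 : (p : ℝ) ≤ N := by
        have := mem_range.mp hp2.1
        exact_mod_cast (by omega : p ≤ N)
      linarith
  have h6 : ∑ p ∈ S, Real.log p ≤ Real.log a + Real.log D := by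
    rw [← Real.log_prod (fun p hp => by
      have := (mem_filter.mp (mem_filter.mp hp).1).2.pos
      exact_mod_cast this.ne'), ← Real.log_mul (by exact_mod_cast ha.ne') (by exact_mod_cast hD.ne')]
    apply Real.log_le_log
    · exact Finset.prod_pos fun p hp => by
        have := (mem_filter.mp (mem_filter.mp hp).1).2.pos
        exact_mod_cast this
    · have h8 := Nat.le_of_dvd (Nat.mul_pos ha hD) h5
      have h9 : ((∏ p ∈ S, p : ℕ) : ℝ) ≤ ((a * D : ℕ) : ℝ) := Nat.cast_le.mpr h8
      rw [Nat.cast_prod, Nat.cast_mul] at h9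
      exact h9
  have h7 : d * ∑ p ∈ S, Real.log p ≤ d * (Real.log a + Real.log D) :=
    mul_le_mul_of_nonneg_left h6 hd0.le
  linarith

end Pool.Agent.H675R3
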