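import Pool.Agent.H675R3.Bound
import Pool.Agent.H675R3.AlgD
import Pool.Agent.H675R3.PL

set_option autoImplicit false
set_option linter.unusedVariables false

namespace Pool.Agent.H675R3

open Finset NumberField

section defs
variable {G : Type*} [Group G]

/-- word length -/
noncomputable def wordLen (S : Set G) (g : G) : ℕ :=
  sInf {m | ∃ l : List G, l.length = m ∧ (∀ x ∈ l, x ∈ S ∨ x⁻¹ ∈ S) ∧ l.prod = g}

/-- the least index of a finite index normal subgroup missing `g` -/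
noncomputable def depth (g : G) : ℕ :=
  sInf {m | ∃ N : Subgroup G, N.Normal ∧ N.FiniteIndex ∧ g ∉ N ∧ N.index = m}

/-- residual finiteness growth -/
noncomputable def RF (S : Set G) (n : ℕ) : ℕ :=
  sSup {m | ∃ g : G, g ≠ 1 ∧ wordLen S g ≤ n ∧ depth g = m}

lemma wordLen_spec {S : Set G} (hS : Subgroup.closure S = ⊤) (g : G) :
    ∃ l : List G, l.length = wordLen S g ∧ (∀ x ∈ l, x ∈ S ∨ x⁻¹ ∈ S) ∧ l.prod = g := by
  have h : g ∈ Subgroup.closure S := by rw [hS]; trivial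
  rw [← Subgroup.mem_toSubmonoid, Subgroup.closure_toSubmonoid] at h
  obtain ⟨l, hl', hg⟩ := Submonoid.exists_list_of_mem_closure h
  have hl : ∀ x ∈ l, x ∈ S ∨ x⁻¹ ∈ S := fun x hx => by
    rcases hl' x hx with h1 | h1
    · exact Or.inl h1
    · exact Or.inr (Set.mem_inv.mp h1)
  exact Nat.sInf_mem (s := {m | ∃ l : List G, l.length = m ∧ (∀ x ∈ l, x ∈ S ∨ x⁻¹ ∈ S) ∧ l.prod = g})
    ⟨_, l, rfl, hl, hg⟩

lemma wordLen_le {S : Set G} {g : G} (l : List G) (hl : ∀ x ∈ l, x ∈ S ∨ x⁻¹ ∈ S)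
    (hg : l.prod = g) : wordLen S g ≤ l.length := Nat.sInf_le ⟨l, rfl, hl, hg⟩

lemma depth_le {g : G} (N : Subgroup G) (h1 : N.Normal) (h2 : N.index ≠ 0) (h3 : g ∉ N) :
    depth g ≤ N.index := Nat.sInf_le ⟨N, h1, ⟨h2⟩, h3, rfl⟩

lemma depth_spec {g : G} (h : ∃ N : Subgroup G, N.Normal ∧ N.index ≠ 0 ∧ g ∉ N) :
    ∃ N : Subgroup G, N.Normal ∧ N.index ≠ 0 ∧ g ∉ N ∧ N.index = depth g := by
  obtain ⟨N, h1, h2, h3⟩ := h
  obtain ⟨N', h1', h2', h3', h4'⟩ := Nat.sInf_mem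
    (s := {m | ∃ N : Subgroup G, N.Normal ∧ N.FiniteIndex ∧ g ∉ N ∧ N.index = m}) ⟨_, N, h1, ⟨h2⟩, h3, rfl⟩
  exact ⟨N', h1', h2'.index_ne_zero, h3', h4'⟩

end defs

section
variable {Γ : Type*} [Group Γ] {n : ℕ} {ρ : Γ →* Matrix (Fin n) (Fin n) ℤ}

lemma Dat.ok_zmod {d : Dat ρ} {p : ℕ} (hp : p.Prime) (hpQ : ¬ p ∣ d.Q) : d.Ok (ZMod p) := by
  unfold Dat.Ok
  rw [ZMod.isUnit_iff_coprime]
  exact ((Nat.Prime.coprime_iff_not_dvd hp).mpr hpQ).symm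

lemma zeta_ne (d : Dat ρ) {p : ℕ} (h : d.Ok (ZMod p)) (g : Γ) (i : Fin d.h)
    (hpa : ¬ p ∣ (d.a g i).natAbs) : d.zeta (ZMod p) g ≠ 0 := by
  intro e
  have h1 := Dat.a_eq h g i
  rw [e, Pi.zero_apply, mul_zero] at h1
  have h2 := (ZMod.intCast_zmod_eq_zero_iff_dvd _ _).mp h1.symm
  exact hpa (Int.natCast_dvd.mp h2)

/-- residual finiteness -/
lemma exists_normal (hρ : UniTri ρ) (hinj : Function.Injective ρ) (d : Dat ρ) {g : Γ} (hg : g ≠ 1) :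
    ∃ N : Subgroup Γ, N.Normal ∧ N.index ≠ 0 ∧ g ∉ N := by
  obtain ⟨i, hi⟩ := Dat.a_ne (d := d) hρ hinj hg
  obtain ⟨p, hp1, hp⟩ := Nat.exists_infinite_primes ((d.a g i).natAbs + d.Q + 1)
  have h1 : ¬ p ∣ d.Q := fun h => by
    have := Nat.le_of_dvd d.Q_pos h; omega
  have h2 : ¬ p ∣ (d.a g i).natAbs := fun h => by
    have := Nat.le_of_dvd (Int.natAbs_pos.mpr hi) h; omega
  have hok := d.ok_zmod hp h1
  have : Fact p.Prime := ⟨hp⟩
  obtain ⟨P, hP1, hP2, _, hP4⟩ := ub_group (d := d) (k := ZMod p) (I := ⊥) hok hρ (by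
      intro x hx y
      have hx : x = 0 := hx
      have e : brk d.c y x = 0 := by
        funext r
        unfold brk
        refine sum_eq_zero fun i _ => sum_eq_zero fun j _ => ?_
        rw [hx, Pi.zero_apply, mul_zero, zero_mul]
      rw [e]
      exact Submodule.zero_mem _) g (by
      rw [Submodule.mem_bot]
      exact zeta_ne d hok g i h2)
  exact ⟨P, hP1, hP2, hP4⟩

/-- **Upper bound for the depth** -/
theorem ub_depth (hρ : UniTri ρ) (hinj : Function.Injective ρ) (d : Dat ρ) (k : ℕ)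
    (hSep : Sep d.c k ℂ) (S : Set Γ) (hS : S.Finite) (hgen : Subgroup.closure S = ⊤) :
    ∃ C : ℝ, 0 < C ∧ ∀ g : Γ, g ≠ 1 → (depth g : ℝ) ≤ (C * (Real.log (wordLen S g + 1) + 1)) ^ k := by
  obtain ⟨K, hK, hNF, D, hD, hub⟩ := ub_alg hSep
  obtain ⟨C1, hC1, hpl⟩ := prime_lemma K (D * d.Q) (Nat.mul_pos hD d.Q_pos)
  obtain ⟨C, e, hC, hwb⟩ := Dat.word_bound hρ d S hS
  have hlogC : 0 ≤ Real.log C := Real.log_natCast_nonneg C
  refine ⟨C1 * (Real.log C + e + 1), by positivity, fun g hg => ?_⟩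
  obtain ⟨i, hi⟩ := Dat.a_ne (d := d) hρ hinj hg
  obtain ⟨p, hp, hpa, hpD, hne, hple⟩ := hpl (d.a g i).natAbs (Int.natAbs_pos.mpr hi)
  have hpD' : ¬ p ∣ D := fun h => hpD (h.mul_right _)
  have hpQ : ¬ p ∣ d.Q := fun h => hpD (h.mul_left _)
  have hok := d.ok_zmod hp hpQ
  have : Fact p.Prime := ⟨hp⟩
  obtain ⟨I, hI, hIcard, hIz⟩ := hub p hp hpD' hne _ (zeta_ne d hok g i hpa)
  obtain ⟨P, hP1, hP2, hP3, hP4⟩ := ub_group hok hρ hI g hIz
  have h1 : depth g ≤ p ^ k := (depth_le P hP1 hP2 hP4).trans (hP3.trans hIcard)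
  obtain ⟨l, hl1, hl2, hl3⟩ := wordLen_spec hgen g
  have h2 := hwb l hl2 i
  rw [hl3, hl1] at h2
  have h3 : Real.log ((d.a g i).natAbs : ℝ) ≤ Real.log C + e * Real.log (wordLen S g + 1) := by
    have h4 : ((d.a g i).natAbs : ℝ) ≤ C * ((wordLen S g : ℝ) + 1) ^ e := by exact_mod_cast h2
    have h5 : (0 : ℝ) < (d.a g i).natAbs := by exact_mod_cast Int.natAbs_pos.mpr hi
    have h6 := Real.log_le_log h5 h4
    rw [Real.log_mul (by exact_mod_cast hC.ne') (by positivity), Real.log_pow] at h6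
    exact h6
  have hL : 0 ≤ Real.log ((wordLen S g : ℝ) + 1) := Real.log_nonneg (by
    have : (0 : ℝ) ≤ wordLen S g := Nat.cast_nonneg _
    linarith)
  have h4 : (p : ℝ) ≤ C1 * (Real.log C + e + 1) * (Real.log (wordLen S g + 1) + 1) := by
    refine hple.trans ?_
    rw [mul_assoc]
    refine mul_le_mul_of_nonneg_left ?_ hC1.le
    have he : (0 : ℝ) ≤ e := Nat.cast_nonneg _
    nlinarith [mul_nonneg hlogC hL]
  calc (depth g : ℝ) ≤ ((p ^ k : ℕ) : ℝ) := Nat.cast_le.mpr h1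
    _ = (p : ℝ) ^ k := by push_cast; rfl
    _ ≤ _ := pow_le_pow_left₀ (Nat.cast_nonneg _) h4 k

end

end Pool.Agent.H675R3
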