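import Pool.Agent.H675R3.Log

set_option autoImplicit false
set_option linter.unusedVariables false

namespace Pool.Agent.H675R3

open Finset

section
variable {k B : Type*} [CommRing k] [Ring B] [Algebra k B] {N : ℕ}

lemma sum_anti2 {M : Type*} [AddCommMonoid M] (N K : ℕ) (hK : 2 * N ≤ K) (f : ℕ → ℕ → M)
    (h1 : ∀ i j, N ≤ i → f i j = 0) (h2 : ∀ i j, N ≤ j → f i j = 0) :
    ∑ i ∈ range N, ∑ j ∈ range N, f i j =
      ∑ m ∈ range K, ∑ ij ∈ antidiagonal m, f ij.1 ij.2 := by
  rw [← sum_anti K f (fun i j h => by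
    rcases Nat.lt_or_ge i N with h3 | h3
    · exact h2 i j (by omega)
    · exact h1 i j h3)]
  have hs : range N ⊆ range K := range_subset_range.mpr (by omega)
  rw [← sum_subset hs (f := fun i => ∑ j ∈ range K, f i j) (fun i _ hi =>
    sum_eq_zero fun j _ => h1 i j (by simpa using hi))]
  refine sum_congr rfl fun i _ => ?_
  rw [← sum_subset hs (fun j _ hj => h2 i j (by simpa using hj))]

lemma S_id (z w : B) (m : ℕ) :
    ∑ ij ∈ antidiagonal m, m.choose ij.1 • ((-z) ^ ij.1 * w * z ^ ij.2) =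
      ((-1 : k) ^ m) • ((ad k z) ^ m) w := by
  have hc : Commute (LinearMap.mulLeft k (-z)) (LinearMap.mulRight k z) :=
    LinearMap.commute_mulLeft_right _ _
  have h := hc.add_pow' m
  have h1 : LinearMap.mulLeft k (-z) + LinearMap.mulRight k z = (-1 : k) • ad k z := by
    ext y
    simp [ad]
    abel
  rw [h1, smul_pow] at h
  have h2 := congrArg (fun T : Module.End k B => T w) h
  simp only [LinearMap.smul_apply, LinearMap.sum_apply] at h2
  rw [h2]
  refine sum_congr rfl fun ij _ => ?_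
  rw [LinearMap.pow_mulLeft, LinearMap.pow_mulRight, Module.End.mul_apply]
  simp [mul_assoc]

variable (D : B →ₗ[k] B)

lemma T_id (hD : ∀ a b : B, D (a * b) = D a * b + a * D b) (z : B) (m : ℕ) :
    ∑ ij ∈ antidiagonal (m + 1), (m + 1).choose ij.1 • ((-z) ^ ij.1 * D (z ^ ij.2)) =
      ((-1 : k) ^ m) • ((ad k z) ^ m) (D z) := by
  rw [sum_antidiagonal_choose_succ_nsmul (fun i j => (-z) ^ i * D (z ^ j)), ← S_id]
  have h1 : ∑ ij ∈ antidiagonal m, m.choose ij.2 • ((-z) ^ (ij.1 + 1) * D (z ^ ij.2)) =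
      ∑ ij ∈ antidiagonal m, m.choose ij.1 • ((-z) ^ (ij.1 + 1) * D (z ^ ij.2)) := by
    refine sum_congr rfl fun ij hij => ?_
    rw [Nat.choose_symm_of_eq_add (HasAntidiagonal.mem_antidiagonal.mp hij).symm]
  rw [h1, ← sum_add_distrib]
  refine sum_congr rfl fun ij _ => ?_
  rw [← smul_add]
  congr 1
  rw [pow_succ' z, hD, pow_succ (-z)]
  noncomm_ring

lemma D_one (hD : ∀ a b : B, D (a * b) = D a * b + a * D b) : D 1 = 0 := by
  have := hD 1 1
  simpa using this

/-- derivative of the exponential -/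
lemma E_deriv (hk : Good k N) (F : NF k B N) (hD : ∀ a b : B, D (a * b) = D a * b + a * D b)
    {z : B} (hz : z ∈ F.U 1) :
    E k N (-z) * D (E k N z) =
      ∑ m ∈ range (2 * N), ((-1) ^ m * ifac k (m + 1)) • ((ad k z) ^ m) (D z) := by
  have hz' : -z ∈ F.U 1 := Submodule.neg_mem _ hz
  have h1 : E k N (-z) * D (E k N z) =
      ∑ i ∈ range N, ∑ j ∈ range N, (ifac k i * ifac k j) • ((-z) ^ i * D (z ^ j)) := by
    unfold E
    rw [map_sum, Finset.sum_mul_sum]
    refine sum_congr rfl fun i _ => sum_congr rfl fun j _ => ?_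
    rw [map_smul, smul_mul_smul_comm]
  rw [h1, sum_anti2 N (2 * N + 1) (by omega)
    (fun i j => (ifac k i * ifac k j) • ((-z) ^ i * D (z ^ j)))
    (fun i j h => by rw [F.pow_eq_zero hz' h, zero_mul, smul_zero])
    (fun i j h => by rw [F.pow_eq_zero hz h, map_zero, mul_zero, smul_zero])]
  rw [Finset.sum_range_succ']
  have h0 : ∑ ij ∈ antidiagonal 0, (ifac k ij.1 * ifac k ij.2) • ((-z) ^ ij.1 * D (z ^ ij.2)) = 0 := by
    simp [D_one D hD]
  rw [h0, add_zero]
  refine sum_congr rfl fun m hm => ?_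
  have h3 := mem_range.mp hm
  rw [mul_comm ((-1 : k) ^ m), mul_smul, ← T_id D hD, Finset.smul_sum]
  refine sum_congr rfl fun ij hij => ?_
  have h4 := HasAntidiagonal.mem_antidiagonal.mp hij
  rw [← choose_fac hk (m + 1) ij.1 ij.2 h4 (le_bd (by omega)), mul_smul, Nat.cast_smul_eq_nsmul]

/-- conjugation by an exponential -/
lemma E_conj (hk : Good k N) (F : NF k B N) {x : B} (hx : x ∈ F.U 1) (y : B) :
    E k N x * y * E k N (-x) = ∑ m ∈ range (2 * N), ifac k m • ((ad k x) ^ m) y := by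
  have hx' : -x ∈ F.U 1 := Submodule.neg_mem _ hx
  have h1 : E k N x * y * E k N (-x) =
      ∑ i ∈ range N, ∑ j ∈ range N, (ifac k i * ifac k j) • (x ^ i * y * (-x) ^ j) := by
    unfold E
    rw [Finset.sum_mul, Finset.sum_mul_sum]
    refine sum_congr rfl fun i _ => sum_congr rfl fun j _ => ?_
    rw [smul_mul_assoc, smul_mul_smul_comm]
  rw [h1, sum_anti2 N (2 * N) (by omega)
    (fun i j => (ifac k i * ifac k j) • (x ^ i * y * (-x) ^ j))
    (fun i j h => by rw [F.pow_eq_zero hx h, zero_mul, zero_mul, smul_zero])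
    (fun i j h => by rw [F.pow_eq_zero hx' h, mul_zero, smul_zero])]
  refine sum_congr rfl fun m hm => ?_
  have h3 := mem_range.mp hm
  have h2 := S_id (k := k) (-x) y m
  rw [neg_neg] at h2
  have h5 : ad k (-x) = (-1 : k) • ad k x := by
    ext w; simp [ad]; abel
  rw [h5, smul_pow, LinearMap.smul_apply, smul_smul, ← mul_pow, neg_one_mul, neg_neg, one_pow,
    one_smul] at h2
  rw [← h2, Finset.smul_sum]
  refine sum_congr rfl fun ij hij => ?_
  have h4 := HasAntidiagonal.mem_antidiagonal.mp hij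
  rw [← choose_fac hk m ij.1 ij.2 h4 (le_bd (by omega)), mul_smul, Nat.cast_smul_eq_nsmul]

lemma E_conj_E (hk : Good k N) (F : NF k B N) {x : B} (hx : x ∈ F.U 1) (y : B) :
    E k N x * E k N y * E k N (-x) = E k N (E k N x * y * E k N (-x)) := by
  have h1 := E_neg_mul hk F hx
  have h2 := E_mul_neg hk F hx
  have hp : ∀ m, (E k N x * y * E k N (-x)) ^ m = E k N x * y ^ m * E k N (-x) := by
    intro m
    induction m with
    | zero => rw [pow_zero, pow_zero, mul_one, h2]
    | succ m ih =>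
      rw [pow_succ, ih, pow_succ]
      calc E k N x * y ^ m * E k N (-x) * (E k N x * y * E k N (-x))
          = E k N x * y ^ m * (E k N (-x) * E k N x) * y * E k N (-x) := by noncomm_ring
        _ = _ := by rw [h1]; noncomm_ring
  conv_rhs => unfold E
  conv_lhs => enter [1, 2]; unfold E
  rw [Finset.mul_sum, Finset.sum_mul]
  refine sum_congr rfl fun m _ => ?_
  have := hp m
  unfold E at this
  rw [this, mul_smul_comm, smul_mul_assoc]
  rfl

end

end Pool.Agent.H675R3
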