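import Pool.Agent.H675R3.LieA

set_option autoImplicit false
set_option linter.unusedVariables false

namespace Pool.Agent.H675R3

open Finset TensorProduct

attribute [local instance 100] LieRing.ofAssociativeRing

section
variable {n : ℕ}

/-- upper unitriangular matrices -/
def IsUnitri (A : Matrix (Fin n) (Fin n) ℚ) : Prop :=
  (∀ i, A i i = 1) ∧ ∀ i j, j < i → A i j = 0

/-- the logarithm of a unitriangular matrix -/
noncomputable def matLog (A : Matrix (Fin n) (Fin n) ℚ) : Matrix (Fin n) (Fin n) ℚ :=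
  ∑ m ∈ Finset.range n, ((-1 : ℚ) ^ m / (m + 1)) • (A - 1) ^ (m + 1)

/-- the rational Malcev Lie algebra attached to a representation -/
noncomputable def malcevLie {G : Type*} [Group G] (ρ : G →* Matrix (Fin n) (Fin n) ℚ) :
    LieSubalgebra ℚ (Matrix (Fin n) (Fin n) ℚ) :=
  LieSubalgebra.lieSpan ℚ (Matrix (Fin n) (Fin n) ℚ) (Set.range fun g => matLog (ρ g))

lemma matLog_eq (A : Matrix (Fin n) (Fin n) ℚ) : matLog A = Lg ℚ (n + 1) A := by
  unfold matLog Lg
  rw [Finset.sum_Ico_eq_sum_range, Nat.add_sub_cancel]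
  refine sum_congr rfl fun m _ => ?_
  rw [add_comm 1 m]
  congr 1
  unfold inv
  rw [Ring.inverse_eq_inv', pow_add, pow_add]
  push_cast
  ring

/-- rescaling by a diagonal matrix -/
noncomputable def Phi (D : ℕ) (hD : 0 < D) : Matrix (Fin n) (Fin n) ℚ →+* Matrix (Fin n) (Fin n) ℚ where
  toFun A := Matrix.of fun a b => (D : ℚ) ^ (b : ℕ) / (D : ℚ) ^ (a : ℕ) * A a b
  map_one' := by
    have hD0 : (D : ℚ) ≠ 0 := by exact_mod_cast hD.ne'
    ext a b
    rw [Matrix.of_apply]
    by_cases h : a = b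
    · rw [h, Matrix.one_apply_eq, mul_one, div_self (pow_ne_zero _ hD0)]
    · rw [Matrix.one_apply_ne h, mul_zero]
  map_mul' A B := by
    have hD0 : (D : ℚ) ≠ 0 := by exact_mod_cast hD.ne'
    ext a b
    rw [Matrix.of_apply, Matrix.mul_apply, Matrix.mul_apply, Finset.mul_sum]
    refine sum_congr rfl fun l _ => ?_
    rw [Matrix.of_apply, Matrix.of_apply]
    field_simp
  map_zero' := by
    ext a b
    simp
  map_add' A B := by
    ext a b
    simp [mul_add]

lemma Phi_apply (D : ℕ) (hD : 0 < D) (A : Matrix (Fin n) (Fin n) ℚ) (a b : Fin n) :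
    Phi D hD A a b = (D : ℚ) ^ (b : ℕ) / (D : ℚ) ^ (a : ℕ) * A a b := rfl

lemma Phi_smul (D : ℕ) (hD : 0 < D) (c : ℚ) (A : Matrix (Fin n) (Fin n) ℚ) :
    Phi D hD (c • A) = c • Phi D hD A := by
  ext a b
  rw [Phi_apply, Matrix.smul_apply, Matrix.smul_apply, Phi_apply, smul_eq_mul, smul_eq_mul]
  ring

lemma Phi_inj (D : ℕ) (hD : 0 < D) : Function.Injective (Phi (n := n) D hD) := by
  intro A B h
  have hD0 : (D : ℚ) ≠ 0 := by exact_mod_cast hD.ne'
  ext a b
  have h1 := congrFun (congrFun h a) b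
  rw [Phi_apply, Phi_apply] at h1
  exact mul_left_cancel₀ (div_ne_zero (pow_ne_zero _ hD0) (pow_ne_zero _ hD0)) h1

/-- passing to an integral representation -/
theorem exists_integral {G : Type*} [Group G] (S : Set G) (hS : S.Finite)
    (hgen : Subgroup.closure S = ⊤) (ρ : G →* Matrix (Fin n) (Fin n) ℚ)
    (huni : ∀ g, IsUnitri (ρ g)) (hinj : Function.Injective ρ) :
    ∃ (ρ' : G →* Matrix (Fin n) (Fin n) ℤ) (D : ℕ) (hD : 0 < D), UniTri ρ' ∧ Function.Injective ρ' ∧
      ∀ g, rk ρ' ℚ g = Phi D hD (ρ g) := by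
  classical
  have hS' : (S ∪ S⁻¹).Finite := hS.union hS.inv
  have : Fintype ↥(S ∪ S⁻¹) := hS'.fintype
  obtain ⟨D, hD, hDz⟩ := exists_common_den (fun t : ↥(S ∪ S⁻¹) × Fin n × Fin n => ρ t.1 t.2.1 t.2.2)
  have hD0 : (D : ℚ) ≠ 0 := by exact_mod_cast hD.ne'
  have hint : ∀ g, ∀ a b, ∃ z : ℤ, (z : ℚ) = Phi D hD (ρ g) a b := by
    intro g
    have h : g ∈ Subgroup.closure S := by rw [hgen]; trivial
    rw [← Subgroup.mem_toSubmonoid, Subgroup.closure_toSubmonoid] at h
    induction h using Submonoid.closure_induction with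
    | mem x hx =>
      intro a b
      rcases lt_trichotomy a b with hab | hab | hab
      · obtain ⟨z, hz⟩ := hDz ⟨⟨x, hx⟩, a, b⟩
        refine ⟨z * D ^ ((b : ℕ) - a - 1), ?_⟩
        have hab' : (a : ℕ) < b := hab
        have e : (D : ℚ) ^ (b : ℕ) = D ^ ((b : ℕ) - a - 1) * D * D ^ (a : ℕ) := by
          rw [← pow_succ, ← pow_add]; congr 1; omega
        rw [Phi_apply, e, mul_div_assoc, div_self (pow_ne_zero _ hD0), mul_one]
        push_cast
        rw [hz]
        ring
      · subst hab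
        refine ⟨1, ?_⟩
        rw [Phi_apply, (huni x).1, div_self (pow_ne_zero _ hD0)]
        simp
      · exact ⟨0, by rw [Phi_apply, (huni x).2 a b hab]; simp⟩
    | one =>
      intro a b
      refine ⟨(1 : Matrix (Fin n) (Fin n) ℤ) a b, ?_⟩
      rw [map_one, map_one, Matrix.one_apply, Matrix.one_apply]
      split_ifs <;> simp
    | mul x y _ _ hx hy =>
      intro a b
      choose u hu using hx
      choose v hv using hy
      refine ⟨∑ l, u a l * v l b, ?_⟩
      rw [map_mul, map_mul, Matrix.mul_apply]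
      push_cast
      refine sum_congr rfl fun l _ => ?_
      rw [hu, hv]
  choose z hz using hint
  have hcast : Function.Injective ((Int.castRingHom ℚ).mapMatrix : Matrix (Fin n) (Fin n) ℤ →+* _) := by
    intro A B h
    ext a b
    have := congrFun (congrFun h a) b
    simp only [RingHom.mapMatrix_apply, Matrix.map_apply] at this
    exact Int.cast_injective this
  have hz' : ∀ g, (Int.castRingHom ℚ).mapMatrix (Matrix.of (z g)) = Phi D hD (ρ g) := by
    intro g
    ext a b
    rw [RingHom.mapMatrix_apply, Matrix.map_apply, Matrix.of_apply]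
    exact hz g a b
  let ρ' : G →* Matrix (Fin n) (Fin n) ℤ :=
    { toFun := fun g => Matrix.of (z g)
      map_one' := by
        apply hcast
        rw [hz', map_one, map_one, map_one]
      map_mul' := fun x y => by
        apply hcast
        rw [hz', map_mul, map_mul, map_mul, hz', hz'] }
  have hρ' : ∀ g, rk ρ' ℚ g = Phi D hD (ρ g) := hz'
  refine ⟨ρ', D, hD, ?_, ?_, hρ'⟩
  · intro g a b hab
    rw [Matrix.sub_apply]
    have h1 : ((ρ' g a b : ℤ) : ℚ) = Phi D hD (ρ g) a b := hz g a b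
    rw [sub_eq_zero]
    have h2 : ((ρ' g a b : ℤ) : ℚ) = (((1 : Matrix (Fin n) (Fin n) ℤ) a b : ℤ) : ℚ) := by
      rw [h1, Phi_apply]
      by_cases h : a = b
      · subst h
        rw [(huni g).1, Matrix.one_apply_eq, div_self (pow_ne_zero _ hD0)]; simp
      · have hlt : b < a := by
          have : (b : ℕ) ≠ a := fun e => h (Fin.ext e.symm)
          exact Fin.lt_def.mpr (by omega)
        rw [(huni g).2 a b hlt, Matrix.one_apply_ne h]; simp
    exact_mod_cast h2
  · intro x y hxy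
    apply hinj
    apply Phi_inj D hD
    rw [← hρ', ← hρ']
    unfold rk
    rw [MonoidHom.comp_apply, MonoidHom.comp_apply, hxy]

/-- an adapted basis of the Malcev Lie algebra -/
theorem exists_basis {G : Type*} [Group G] (ρ : G →* Matrix (Fin n) (Fin n) ℚ)
    (ρ' : G →* Matrix (Fin n) (Fin n) ℤ) (D : ℕ) (hD : 0 < D) (hρ' : UniTri ρ')
    (he : ∀ g, rk ρ' ℚ g = Phi D hD (ρ g)) (d : Dat ρ') :
    ∃ b : Module.Basis (Fin d.h) ℚ (malcevLie ρ), ∀ i j, ⁅b i, b j⁆ = ∑ r, (d.c i j r : ℚ) • b r := by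
  have hlog : ∀ g, lgk ρ' ℚ g = Phi D hD (matLog (ρ g)) := by
    intro g
    unfold lgk lg
    rw [he, matLog_eq]
    exact (map_Lg (good_rat (n + 1)) (RingHom.id ℚ) (Phi D hD) (fun c a => Phi_smul D hD c a) (ρ g)).symm
  let y : Fin d.h → Matrix (Fin n) (Fin n) ℚ := fun i => matLog (ρ (d.g i))
  have hy : ∀ i, Phi D hD (y i) = d.X ℚ i := fun i => (hlog _).symm
  have hsum : ∀ q : Fin d.h → ℚ, Phi D hD (∑ i, q i • y i) = ∑ i, q i • d.X ℚ i := by
    intro q
    rw [map_sum]
    refine sum_congr rfl fun i _ => ?_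
    rw [Phi_smul, hy]
  have hbr : ∀ i j, y i * y j - y j * y i = ∑ r, (d.c i j r : ℚ) • y r := by
    intro i j
    apply Phi_inj D hD
    rw [map_sub, map_mul, map_mul, hy, hy, hsum, d.X_br d.ok_rat]
  have hmem : ∀ g, matLog (ρ g) ∈ Submodule.span ℚ (Set.range y) := by
    intro g
    have h1 : matLog (ρ g) = ∑ i, d.zeta ℚ g i • y i := by
      apply Phi_inj D hD
      rw [hsum, ← hlog, d.lg_sum d.ok_rat]
    rw [h1]
    exact Submodule.sum_mem _ fun i _ => Submodule.smul_mem _ _ (Submodule.subset_span ⟨i, rfl⟩)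
  have hclosed : ∀ u ∈ Submodule.span ℚ (Set.range y), ∀ v ∈ Submodule.span ℚ (Set.range y),
      ⁅u, v⁆ ∈ Submodule.span ℚ (Set.range y) := by
    intro u hu v hv
    obtain ⟨p, rfl⟩ := (Submodule.mem_span_range_iff_exists_fun ℚ).mp hu
    obtain ⟨q, rfl⟩ := (Submodule.mem_span_range_iff_exists_fun ℚ).mp hv
    rw [sum_lie]
    refine Submodule.sum_mem _ fun i _ => ?_
    rw [lie_sum]
    refine Submodule.sum_mem _ fun j _ => ?_
    rw [smul_lie, lie_smul]
    refine Submodule.smul_mem _ _ (Submodule.smul_mem _ _ ?_)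
    rw [Ring.lie_def, hbr]
    exact Submodule.sum_mem _ fun r _ => Submodule.smul_mem _ _ (Submodule.subset_span ⟨r, rfl⟩)
  let L' : LieSubalgebra ℚ (Matrix (Fin n) (Fin n) ℚ) :=
    { Submodule.span ℚ (Set.range y) with lie_mem' := fun {u v} hu hv => hclosed u hu v hv }
  have hle : malcevLie ρ ≤ L' := by
    unfold malcevLie
    rw [LieSubalgebra.lieSpan_le]
    rintro _ ⟨g, rfl⟩
    exact hmem g
  have hymem : ∀ i, y i ∈ malcevLie ρ := fun i =>
    LieSubalgebra.subset_lieSpan ⟨d.g i, rfl⟩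
  let b0 : Fin d.h → malcevLie ρ := fun i => ⟨y i, hymem i⟩
  have hb0 : ∀ i, ((b0 i : malcevLie ρ) : Matrix (Fin n) (Fin n) ℚ) = y i := fun i => rfl
  have hcoe : ∀ q : Fin d.h → ℚ, ((∑ i, q i • b0 i : malcevLie ρ) : Matrix (Fin n) (Fin n) ℚ) =
      ∑ i, q i • y i := by
    intro q
    have h1 := map_sum (malcevLie ρ).toSubmodule.subtype (fun i => q i • b0 i) Finset.univ
    exact h1
  have hli : LinearIndependent ℚ b0 := by
    rw [Fintype.linearIndependent_iff]
    intro q hq
    have h1 := congrArg (fun v : malcevLie ρ => (v : Matrix (Fin n) (Fin n) ℚ)) hq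
    simp only [hcoe] at h1
    have h2 := congrArg (Phi D hD) h1
    rw [hsum] at h2
    have h3 : d.mat ℚ q = 0 := by
      rw [Dat.mat_apply, h2]
      exact map_zero _
    have h4 := Dat.mat_inj d.ok_rat (h3.trans (map_zero _).symm)
    exact fun i => congrFun h4 i
  have hsp : ⊤ ≤ Submodule.span ℚ (Set.range b0) := by
    rintro v -
    have h1 : (v : Matrix (Fin n) (Fin n) ℚ) ∈ Submodule.span ℚ (Set.range y) := hle v.2
    obtain ⟨q, hq⟩ := (Submodule.mem_span_range_iff_exists_fun ℚ).mp h1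
    have h2 : v = ∑ i, q i • b0 i := by
      apply Subtype.ext
      rw [hcoe, hq]
    rw [h2]
    exact Submodule.sum_mem _ fun i _ => Submodule.smul_mem _ _ (Submodule.subset_span ⟨i, rfl⟩)
  refine ⟨Module.Basis.mk hli hsp, fun i j => ?_⟩
  simp only [Module.Basis.mk_apply]
  apply Subtype.ext
  rw [hcoe]
  change ⁅y i, y j⁆ = _
  rw [Ring.lie_def, hbr]

end

end Pool.Agent.H675R3
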