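import Pool.Agent.H675R3.USep
import Pool.Agent.H675R3.LieB

/-!
Finitely generated torsion-free nilpotent groups embed into groups of rational unitriangular
matrices.
-/

set_option autoImplicit false
set_option linter.unusedVariables false

namespace Pool.Agent.H675R3.Emb

open Subgroup Pool.Agent.H44R2.WrN

/-- polynomial functions of bounded degree form a finite dimensional space -/
theorem P_fin {N : Type} [Group N] (S : Set N) (hSf : S.Finite) (hS : Subgroup.closure S = ⊤) :
    ∀ k, FiniteDimensional ℚ (P (⊤ : Subgroup N) k) := by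
  intro k
  induction k with
  | zero =>
    have h0 : P (⊤ : Subgroup N) 0 = ⊥ := by
      rw [eq_bot_iff]
      intro l hl
      rw [Submodule.mem_bot]
      funext x
      exact hl x (Subgroup.mem_top x)
    rw [h0]
    infer_instance
  | succ k ih =>
    have hfin : Finite S := hSf
    have : Fintype S := Fintype.ofFinite S
    let F : P (⊤ : Subgroup N) (k + 1) →ₗ[ℚ] (S → P (⊤ : Subgroup N) k) × ℚ :=
      { toFun := fun l => (fun s => ⟨dl (s : N) l.1, mem_P_succ.1 l.2 s (Subgroup.mem_top _)⟩, l.1 1)
        map_add' := fun l l' => by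
          ext1
          · funext s
            apply Subtype.ext
            exact map_add (dl (s : N)) l.1 l'.1
          · rfl
        map_smul' := fun c l => by
          ext1
          · funext s
            apply Subtype.ext
            exact map_smul (dl (s : N)) c l.1
          · rfl }
    apply Module.Finite.of_injective F
    rw [← LinearMap.ker_eq_bot, LinearMap.ker_eq_bot']
    intro l hl
    have h1 : ∀ s ∈ S, dl s l.1 = 0 := by
      intro s hs
      have h2 := congrArg (fun t => (t.1 ⟨s, hs⟩ : N → ℚ)) hl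
      exact h2
    have h2 : l.1 1 = 0 := congrArg Prod.snd hl
    have h3 : ∀ g : N, ∀ x, l.1 (x * g) = l.1 x := by
      intro g
      have hg : g ∈ Subgroup.closure S := by rw [hS]; trivial
      induction hg using Subgroup.closure_induction with
      | mem s hs =>
        intro x
        have := congrFun (h1 s hs) x
        rw [dl_apply] at this
        exact sub_eq_zero.1 this
      | one => intro x; rw [mul_one]
      | mul a b _ _ ha hb => intro x; rw [← mul_assoc, hb, ha]
      | inv a _ ha =>
        intro x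
        have := ha (x * a⁻¹)
        rw [inv_mul_cancel_right] at this
        exact this.symm
    apply Subtype.ext
    funext x
    have := h3 x 1
    rw [one_mul] at this
    rw [this, h2]
    rfl

/-- an adapted basis for a unipotent action -/
theorem exists_adapted {N V : Type} [Group N] [AddCommGroup V] [Module ℚ V]
    [FiniteDimensional ℚ V] (T : N →* Module.End ℚ V)
    (hU : ∀ W : Submodule ℚ V, W ≠ ⊥ → (∀ g, ∀ w ∈ W, T g w ∈ W) →
      ∃ W' : Submodule ℚ V, W' < W ∧ ∀ g, ∀ w ∈ W, T g w - w ∈ W') :
    ∀ W : Submodule ℚ V, (∀ g, ∀ w ∈ W, T g w ∈ W) → ∃ (n : ℕ) (b : Fin n → V),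
      LinearIndependent ℚ b ∧ Submodule.span ℚ (Set.range b) = W ∧
      ∀ g j, T g (b j) - b j ∈ Submodule.span ℚ (b '' {i | i < j}) := by
  intro W
  induction W using WellFoundedLT.induction with
  | ind W ih =>
    intro hW
    by_cases hW0 : W = ⊥
    · refine ⟨0, Fin.elim0, linearIndependent_empty_type, ?_, fun g j => j.elim0⟩
      rw [hW0, Set.range_eq_empty, Submodule.span_empty]
    · obtain ⟨W', hW', hTW'⟩ := hU W hW0 hW
      obtain ⟨w, hwW, hwW'⟩ := SetLike.exists_of_lt hW'
      obtain ⟨φ, hφw, hφW'⟩ := Submodule.exists_le_ker_of_notMem hwW'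
      set H : Submodule ℚ V := W ⊓ LinearMap.ker φ with hH
      have hHlt : H < W := by
        refine lt_of_le_of_ne inf_le_left (fun e => hφw ?_)
        have : w ∈ H := by rw [e]; exact hwW
        exact this.2
      have hHinv : ∀ g, ∀ v ∈ H, T g v ∈ H := by
        intro g v hv
        have h1 : T g v - v ∈ W' := hTW' g v hv.1
        have h2 : T g v = (T g v - v) + v := by abel
        rw [h2]
        exact H.add_mem ⟨hW'.le h1, hφW' h1⟩ hv
      obtain ⟨n, b, hb1, hb2, hb3⟩ := ih H hHlt hHinv
      have hrange : Set.range (Fin.snoc b w : Fin (n + 1) → V) = insert w (Set.range b) := by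
        rw [Fin.range_snoc]
      have hlast : (Fin.snoc b w : Fin (n + 1) → V) '' {i | i < Fin.last n} = Set.range b := by
        ext v
        constructor
        · rintro ⟨i, hi, rfl⟩
          obtain ⟨i', rfl⟩ := Fin.exists_castSucc_eq.mpr (ne_of_lt hi)
          exact ⟨i', by rw [Fin.snoc_castSucc]⟩
        · rintro ⟨i, rfl⟩
          exact ⟨i.castSucc, Fin.castSucc_lt_last i, by rw [Fin.snoc_castSucc]⟩
      refine ⟨n + 1, Fin.snoc b w, ?_, ?_, ?_⟩
      · rw [linearIndependent_finSnoc]
        refine ⟨hb1, ?_⟩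
        rw [hb2]
        intro h
        exact hφw h.2
      · rw [hrange, Submodule.span_insert, hb2]
        apply le_antisymm
        · refine sup_le ?_ hHlt.le
          rw [Submodule.span_singleton_le_iff_mem]
          exact hwW
        · intro u hu
          have hφw' : φ w ≠ 0 := hφw
          have h1 : u - (φ u / φ w) • w ∈ H := by
            refine ⟨W.sub_mem hu (W.smul_mem _ hwW), ?_⟩
            rw [SetLike.mem_coe, LinearMap.mem_ker, map_sub, map_smul, smul_eq_mul, div_mul_cancel₀ _ hφw', sub_self]
          have h2 : u = (φ u / φ w) • w + (u - (φ u / φ w) • w) := by abel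
          rw [h2]
          exact Submodule.add_mem_sup (Submodule.smul_mem _ _ (Submodule.mem_span_singleton_self w)) h1
      · intro g j
        refine Fin.lastCases ?_ (fun j => ?_) j
        · rw [hlast, Fin.snoc_last, hb2]
          have h1 := hTW' g w hwW
          exact ⟨hW'.le h1, hφW' h1⟩
        · rw [Fin.snoc_castSucc]
          refine Submodule.span_mono ?_ (hb3 g j)
          rintro _ ⟨i, hi, rfl⟩
          exact ⟨i.castSucc, Fin.castSucc_lt_castSucc_iff.mpr hi, by rw [Fin.snoc_castSucc]⟩

/-- **Embedding theorem**: a finitely generated torsion-free nilpotent group has a faithful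
rational unitriangular representation. -/
theorem exists_unitri (N : Type) [Group N] (hfg : Group.FG N) (hn : Group.IsNilpotent N)
    (htf : ∀ g : N, ∀ n : ℕ, 0 < n → g ^ n = 1 → g = 1) :
    ∃ (n : ℕ) (ρ : N →* Matrix (Fin n) (Fin n) ℚ), Function.Injective ρ ∧ ∀ g, IsUnitri (ρ g) := by
  classical
  obtain ⟨k, hk⟩ := usep_top hn htf
  obtain ⟨S, hS⟩ := hfg.out
  have hfd := P_fin (S : Set N) S.finite_toSet hS k
  let V : Submodule ℚ (N → ℚ) := P (⊤ : Subgroup N) k
  have hfd' : FiniteDimensional ℚ V := hfd
  -- difference operators lower the degree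
  have hdl : ∀ i, ∀ l ∈ P (⊤ : Subgroup N) i, ∀ g, dl g l ∈ P (⊤ : Subgroup N) (i - 1) := by
    intro i l hl g
    rcases i with _ | i
    · intro x hx
      rw [dl_apply, hl _ (Subgroup.mem_top _), hl _ (Subgroup.mem_top _), sub_zero]
    · exact mem_P_succ.1 hl g (Subgroup.mem_top g)
  have hrt : ∀ i, ∀ l ∈ P (⊤ : Subgroup N) i, ∀ g, rt g l ∈ P (⊤ : Subgroup N) i := by
    intro i l hl g
    have h1 : rt g l = dl g l + l := by rw [dl_eq]; abel
    rw [h1]
    exact Submodule.add_mem _ (P_mono _ (by omega) (hdl i l hl g)) hl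
  let T : N →* Module.End ℚ V :=
    { toFun := fun g => (rt g).restrict (fun l hl => hrt k l hl g)
      map_one' := by
        apply LinearMap.ext
        intro l
        apply Subtype.ext
        funext x
        change (l : N → ℚ) (x * 1) = (l : N → ℚ) x
        rw [mul_one]
      map_mul' := fun g h => by
        apply LinearMap.ext
        intro l
        apply Subtype.ext
        funext x
        change (l : N → ℚ) (x * (g * h)) = (l : N → ℚ) (x * g * h)
        rw [mul_assoc] }
  have hT : ∀ g (l : V) x, (T g l : N → ℚ) x = (l : N → ℚ) (x * g) := fun g l x => rfl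
  have hTrt : ∀ g (l : V), (T g l : N → ℚ) = rt g (l : N → ℚ) := fun g l => rfl
  have hU : ∀ W : Submodule ℚ V, W ≠ ⊥ → (∀ g, ∀ w ∈ W, T g w ∈ W) →
      ∃ W' : Submodule ℚ V, W' < W ∧ ∀ g, ∀ w ∈ W, T g w - w ∈ W' := by
    intro W hW0 hW
    have hex : ∃ i, W ≤ (P (⊤ : Subgroup N) i).comap V.subtype := ⟨k, fun l _ => l.2⟩
    have hi := Nat.find_spec hex
    have hmin := fun m (hm : m < Nat.find hex) => Nat.find_min hex hm
    set i := Nat.find hex with hidef
    have hi0 : i ≠ 0 := by
      intro h0
      apply hW0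
      rw [eq_bot_iff]
      intro l hl
      rw [Submodule.mem_bot]
      apply Subtype.ext
      funext x
      have h1 := hi hl
      rw [h0] at h1
      exact h1 x (Subgroup.mem_top x)
    refine ⟨W ⊓ (P (⊤ : Subgroup N) (i - 1)).comap V.subtype, ?_, ?_⟩
    · refine lt_of_le_of_ne inf_le_left (fun e => ?_)
      apply hmin (i - 1) (by omega)
      rw [← e]
      exact inf_le_right
    · intro g w hw
      refine ⟨W.sub_mem (hW g w hw) hw, ?_⟩
      have h1 := hdl i _ (hi hw) g
      have e : (V.subtype (T g w - w)) = dl g (V.subtype w) := rfl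
      rw [SetLike.mem_coe, Submodule.mem_comap, e]
      exact h1
  obtain ⟨n, b, hb1, hb2, hb3⟩ := exists_adapted T hU ⊤ (fun g w _ => Submodule.mem_top)
  let B : Module.Basis (Fin n) ℚ V := Module.Basis.mk hb1 (by rw [hb2])
  have hB : ∀ i, B i = b i := fun i => by rw [Module.Basis.mk_apply]
  let ρ : N →* Matrix (Fin n) (Fin n) ℚ :=
    ((LinearMap.toMatrixAlgEquiv B : Module.End ℚ V ≃ₐ[ℚ] Matrix (Fin n) (Fin n) ℚ) :
      Module.End ℚ V →* Matrix (Fin n) (Fin n) ℚ).comp T
  have hρ : ∀ g i j, ρ g i j = B.repr (T g (B j)) i := fun g i j => LinearMap.toMatrixAlgEquiv_apply _ _ _ _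
  refine ⟨n, ρ, ?_, ?_⟩
  · intro g h hgh
    have h1 : T g = T h := (LinearMap.toMatrixAlgEquiv B).injective hgh
    by_contra hne
    have h2 : g * h⁻¹ ≠ 1 := fun e => hne (mul_inv_eq_one.1 e)
    obtain ⟨l, hl, hlne⟩ := hk (g * h⁻¹) (Subgroup.mem_top _) h2
    apply hlne
    have h3 : T (g * h⁻¹) = 1 := by
      rw [map_mul, h1, ← map_mul, mul_inv_cancel, map_one]
    have h4 := congrArg (fun t : Module.End ℚ V => (t ⟨l, hl⟩ : N → ℚ) 1) h3
    have h5 : (T (g * h⁻¹) ⟨l, hl⟩ : N → ℚ) 1 = l (1 * (g * h⁻¹)) := rfl
    rw [one_mul] at h5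
    rw [← h5]
    exact h4
  · intro g
    have key : ∀ i j, j ≤ i → ρ g i j = if i = j then 1 else 0 := by
      intro i j hij
      rw [hρ]
      have h1 : T g (B j) = (T g (b j) - b j) + B j := by rw [hB]; abel
      rw [h1, map_add, Finsupp.add_apply]
      have h2 : T g (b j) - b j ∈ Submodule.span ℚ (B '' {i | i < j}) := by
        have e : (B '' {i | i < j}) = b '' {i | i < j} := by
          ext v
          constructor
          · rintro ⟨i, hi, rfl⟩; exact ⟨i, hi, (hB i).symm⟩
          · rintro ⟨i, hi, rfl⟩; exact ⟨i, hi, hB i⟩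
        rw [e]
        exact hb3 g j
      rw [Module.Basis.mem_span_image] at h2
      have h3 : B.repr (T g (b j) - b j) i = 0 := by
        by_contra hne
        have h4 := h2 (Finsupp.mem_support_iff.mpr hne)
        exact absurd h4 (not_lt.mpr hij)
      rw [h3, zero_add, Module.Basis.repr_self, Finsupp.single_apply]
      by_cases h : i = j
      · rw [if_pos h, if_pos h.symm]
      · rw [if_neg h, if_neg (fun e => h e.symm)]
    refine ⟨fun i => ?_, fun i j hij => ?_⟩
    · rw [key i i le_rfl, if_pos rfl]
    · rw [key i j hij.le, if_neg hij.ne']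

end Pool.Agent.H675R3.Emb
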