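import Mathlib

/-!
# Truncated exponential and logarithm in an algebra with a nilpotent filtration
-/

set_option autoImplicit false
set_option linter.unusedVariables false

namespace Pool.Agent.H675R3

open Finset

/-- a filtration of an algebra by submodules, with `U N = 0` -/
structure NF (k A : Type*) [CommRing k] [Ring A] [Algebra k A] (N : ℕ) where
  U : ℕ → Submodule k A
  anti : ∀ {i j : ℕ}, i ≤ j → U j ≤ U i
  one : (1 : A) ∈ U 0
  mul : ∀ {i j : ℕ} {x y : A}, x ∈ U i → y ∈ U j → x * y ∈ U (i + j)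
  bot : ∀ x ∈ U N, x = 0
  pos : 0 < N

/-- small integers are invertible -/
def Good (k : Type*) [CommRing k] (N : ℕ) : Prop :=
  ∀ m : ℕ, 0 < m → m ≤ 4 * N * N + 4 → IsUnit (m : k)

/-- inverse of a natural number in `k` -/
noncomputable def inv (k : Type*) [CommRing k] (m : ℕ) : k := Ring.inverse (m : k)

/-- inverse factorial -/
noncomputable def ifac (k : Type*) [CommRing k] (m : ℕ) : k := Ring.inverse (m.factorial : k)

section basic
variable {k A : Type*} [CommRing k] [Ring A] [Algebra k A] {N : ℕ}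

lemma Good.fac (hk : Good k N) (m : ℕ) (hm : m ≤ 4 * N * N + 4) : IsUnit (m.factorial : k) := by
  induction m with
  | zero => simp
  | succ m ih =>
    rw [Nat.factorial_succ, Nat.cast_mul]
    exact (hk (m + 1) (by omega) hm).mul (ih (by omega))

lemma Good.inv_mul (hk : Good k N) (m : ℕ) (h0 : 0 < m) (hm : m ≤ 4 * N * N + 4) :
    inv k m * (m : k) = 1 := Ring.inverse_mul_cancel _ (hk m h0 hm)

lemma Good.ifac_mul (hk : Good k N) (m : ℕ) (hm : m ≤ 4 * N * N + 4) :
    ifac k m * (m.factorial : k) = 1 := Ring.inverse_mul_cancel _ (hk.fac m hm)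

lemma ifac_zero : ifac k 0 = 1 := by
  simp [ifac]

lemma ifac_one : ifac k 1 = 1 := by
  simp [ifac]

lemma Good.ifac_succ (hk : Good k N) (m : ℕ) (hm : m + 1 ≤ 4 * N * N + 4) :
    ifac k (m + 1) * ((m + 1 : ℕ) : k) = ifac k m := by
  have h1 := hk.ifac_mul (m + 1) hm
  have h2 := hk.ifac_mul m (by omega)
  rw [Nat.factorial_succ, Nat.cast_mul] at h1
  calc ifac k (m + 1) * ((m + 1 : ℕ) : k)
      = ifac k (m + 1) * ((m + 1 : ℕ) : k) * (ifac k m * (m.factorial : k)) := by rw [h2, mul_one]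
    _ = (ifac k (m + 1) * (((m + 1 : ℕ) : k) * (m.factorial : k))) * ifac k m := by ring
    _ = ifac k m := by rw [h1, one_mul]

variable (F : NF k A N)
include F

lemma NF.pow_mem {x : A} (hx : x ∈ F.U 1) (m : ℕ) : x ^ m ∈ F.U m := by
  induction m with
  | zero => simpa using F.one
  | succ m ih => rw [pow_succ]; exact F.mul ih hx

lemma NF.zero_of_le {x : A} {i : ℕ} (hx : x ∈ F.U i) (hi : N ≤ i) : x = 0 := F.bot x (F.anti hi hx)

lemma NF.pow_eq_zero {x : A} (hx : x ∈ F.U 1) {m : ℕ} (hm : N ≤ m) : x ^ m = 0 :=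
  F.zero_of_le (F.pow_mem hx m) hm

end basic

/-- truncated exponential -/
noncomputable def E (k : Type*) {A : Type*} [CommRing k] [Ring A] [Algebra k A] (N : ℕ) (z : A) : A :=
  ∑ m ∈ range N, ifac k m • z ^ m

/-- truncated logarithm -/
noncomputable def Lg (k : Type*) {A : Type*} [CommRing k] [Ring A] [Algebra k A] (N : ℕ) (u : A) : A :=
  ∑ m ∈ Ico 1 N, ((-1) ^ (m + 1) * inv k m) • (u - 1) ^ m

/-- adjoint action -/
def ad (k : Type*) {A : Type*} [CommRing k] [Ring A] [Algebra k A] (x : A) : A →ₗ[k] A :=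
  LinearMap.mulLeft k x - LinearMap.mulRight k x

section
variable {k A : Type*} [CommRing k] [Ring A] [Algebra k A] {N : ℕ}

@[simp] lemma ad_apply (x y : A) : ad k x y = x * y - y * x := rfl

lemma sum_anti {M : Type*} [AddCommMonoid M] (N : ℕ) (f : ℕ → ℕ → M)
    (hf : ∀ i j, N ≤ i + j → f i j = 0) :
    ∑ i ∈ range N, ∑ j ∈ range N, f i j =
      ∑ m ∈ range N, ∑ ij ∈ antidiagonal m, f ij.1 ij.2 := by
  rw [← Finset.sum_product']
  rw [← Finset.sum_filter_add_sum_filter_not _ (fun ij : ℕ × ℕ => ij.1 + ij.2 < N)]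
  rw [Finset.sum_eq_zero (s := (range N ×ˢ range N).filter (fun ij => ¬ ij.1 + ij.2 < N))
    (fun ij hij => hf _ _ (by simpa using (mem_filter.mp hij).2)), add_zero]
  rw [← Finset.sum_fiberwise_of_maps_to (s := (range N ×ˢ range N).filter
    (fun ij : ℕ × ℕ => ij.1 + ij.2 < N)) (t := range N) (g := fun ij => ij.1 + ij.2)
    (fun ij hij => by simpa using (mem_filter.mp hij).2)]
  refine sum_congr rfl fun m hm => sum_congr ?_ fun _ _ => rfl
  ext ⟨i, j⟩
  simp only [mem_filter, mem_product, mem_range, HasAntidiagonal.mem_antidiagonal] at hm ⊢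
  omega

lemma E_zero (hk : Good k N) (F : NF k A N) : E k N (0 : A) = 1 := by
  unfold E
  rw [Finset.sum_eq_single 0]
  · rw [ifac_zero]; simp
  · intro m _ hm; rw [zero_pow hm, smul_zero]
  · intro h; exact absurd (mem_range.mpr F.pos) h

lemma choose_fac (hk : Good k N) (m i j : ℕ) (h : i + j = m) (hm : m ≤ 4 * N * N + 4) :
    ifac k m * (m.choose i : k) = ifac k i * ifac k j := by
  have h1 := hk.ifac_mul m hm
  have h2 := hk.ifac_mul i (by omega)
  have h3 := hk.ifac_mul j (by omega)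
  have h4 : m.choose i * i.factorial * j.factorial = m.factorial := by
    have := Nat.choose_mul_factorial_mul_factorial (n := m) (k := i) (by omega)
    rwa [show m - i = j by omega] at this
  have h5 : (m.choose i : k) * i.factorial * j.factorial = m.factorial := by
    have := congrArg (Nat.cast : ℕ → k) h4
    push_cast at this
    exact this
  calc ifac k m * (m.choose i : k)
      = ifac k m * (m.choose i : k) * (ifac k i * i.factorial) * (ifac k j * j.factorial) := by
        rw [h2, h3]; ring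
    _ = ifac k m * ((m.choose i : k) * i.factorial * j.factorial) * (ifac k i * ifac k j) := by ring
    _ = ifac k i * ifac k j := by rw [h5, h1, one_mul]

lemma le_bd {m N : ℕ} (h : m ≤ 2 * N) : m ≤ 4 * N * N + 4 := by
  have h1 : N ≤ N * N := Nat.le_mul_self N
  have h2 : 4 * N * N = 4 * (N * N) := by ring
  omega

lemma E_add (hk : Good k N) (F : NF k A N) {a b : A} (ha : a ∈ F.U 1) (hb : b ∈ F.U 1)
    (hab : Commute a b) : E k N (a + b) = E k N a * E k N b := by
  have hz : ∀ i j, N ≤ i + j → a ^ i * b ^ j = 0 := fun i j h =>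
    F.zero_of_le (F.mul (F.pow_mem ha i) (F.pow_mem hb j)) h
  unfold E
  rw [Finset.sum_mul_sum]
  rw [sum_anti N (fun i j => (ifac k i • a ^ i) * (ifac k j • b ^ j))
    (fun i j h => by rw [smul_mul_smul_comm, hz i j h, smul_zero])]
  refine sum_congr rfl fun m hm => ?_
  rw [hab.add_pow', Finset.smul_sum]
  refine sum_congr rfl fun ij hij => ?_
  have h1 := HasAntidiagonal.mem_antidiagonal.mp hij
  have h2 := mem_range.mp hm
  rw [smul_mul_smul_comm, ← choose_fac hk m ij.1 ij.2 h1 (le_bd (by omega)), mul_smul,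
    Nat.cast_smul_eq_nsmul]

lemma E_neg_mul (hk : Good k N) (F : NF k A N) {a : A} (ha : a ∈ F.U 1) :
    E k N (-a) * E k N a = 1 := by
  rw [← E_add hk F (Submodule.neg_mem _ ha) ha ((Commute.refl a).neg_left), neg_add_cancel,
    E_zero hk F]

lemma E_mul_neg (hk : Good k N) (F : NF k A N) {a : A} (ha : a ∈ F.U 1) :
    E k N a * E k N (-a) = 1 := by
  rw [← E_add hk F ha (Submodule.neg_mem _ ha) ((Commute.refl a).neg_right), add_neg_cancel,
    E_zero hk F]

lemma E_nsmul (hk : Good k N) (F : NF k A N) {a : A} (ha : a ∈ F.U 1) (m : ℕ) :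
    E k N (m • a) = E k N a ^ m := by
  induction m with
  | zero => rw [zero_smul, E_zero hk F, pow_zero]
  | succ m ih =>
    rw [succ_nsmul, E_add hk F (Submodule.smul_of_tower_mem _ m ha) ha
      ((Commute.refl a).smul_left m), ih, pow_succ]

lemma E_sub_one_mem (hk : Good k N) (F : NF k A N) {a : A} {i : ℕ} (hi : 1 ≤ i) (ha : a ∈ F.U i) :
    E k N a - 1 ∈ F.U i := by
  have h0 : E k N a - 1 = ∑ m ∈ Ico 1 N, ifac k m • a ^ m := by
    unfold E
    rw [← Finset.sum_range_add_sum_Ico _ (show 1 ≤ N from F.pos)]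
    simp [ifac_zero]
  rw [h0]
  refine Submodule.sum_mem _ fun m hm => Submodule.smul_mem _ _ ?_
  have h1 := (mem_Ico.mp hm).1
  obtain ⟨m, rfl⟩ := Nat.exists_eq_add_of_le h1
  rw [add_comm, pow_succ]
  have h2 : a ^ m * a ∈ F.U (m + i) := F.mul (F.pow_mem (F.anti hi ha) m) ha
  exact F.anti (by omega) h2

/-- difference of the exponentials -/
lemma E_sub_sub_mem (hk : Good k N) (F : NF k A N) {a b : A} {i : ℕ}
    (ha : a ∈ F.U 1) (hb : b ∈ F.U 1) (h : a - b ∈ F.U i) :
    (E k N a - E k N b) - (a - b) ∈ F.U (i + 1) := by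
  have hp : ∀ m, a ^ (m + 1) - b ^ (m + 1) ∈ F.U (i + m) := by
    intro m
    induction m with
    | zero => simpa using h
    | succ m ih =>
      have : a ^ (m + 1 + 1) - b ^ (m + 1 + 1) =
          (a ^ (m + 1) - b ^ (m + 1)) * a + b ^ (m + 1) * (a - b) := by
        rw [pow_succ a (m + 1), pow_succ b (m + 1)]; noncomm_ring
      rw [this]
      refine Submodule.add_mem _ (F.anti (by omega) (F.mul ih ha)) ?_
      have := F.mul (F.pow_mem hb (m + 1)) h
      exact F.anti (by omega) this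
  have h0 : ∀ x : A, E k N x = ∑ m ∈ range (N + 1), ifac k m • x ^ m - ifac k N • x ^ N := by
    intro x; rw [Finset.sum_range_succ]; unfold E; abel
  have key : (E k N a - E k N b) - (a - b) =
      ∑ m ∈ Ico 2 (N + 1), ifac k m • (a ^ m - b ^ m) := by
    rw [h0 a, h0 b, F.pow_eq_zero ha le_rfl, F.pow_eq_zero hb le_rfl]
    rw [← Finset.sum_range_add_sum_Ico (fun m => ifac k m • a ^ m) (show 2 ≤ N + 1 by have := F.pos; omega),
      ← Finset.sum_range_add_sum_Ico (fun m => ifac k m • b ^ m) (show 2 ≤ N + 1 by have := F.pos; omega)]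
    simp only [smul_sub, Finset.sum_sub_distrib, Finset.sum_range_succ, Finset.sum_range_zero,
      ifac_zero, ifac_one, one_smul, pow_zero, pow_one]
    abel
  rw [key]
  refine Submodule.sum_mem _ fun m hm => Submodule.smul_mem _ _ ?_
  have h1 := (mem_Ico.mp hm).1
  obtain ⟨m, rfl⟩ := Nat.exists_eq_add_of_le h1
  have := hp (m + 1)
  rw [show 2 + m = m + 1 + 1 by omega]
  exact F.anti (by omega) this

lemma E_inj (hk : Good k N) (F : NF k A N) {a b : A} (ha : a ∈ F.U 1) (hb : b ∈ F.U 1)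
    (h : E k N a = E k N b) : a = b := by
  have : ∀ i, a - b ∈ F.U (i + 1) := by
    intro i
    induction i with
    | zero => exact Submodule.sub_mem _ ha hb
    | succ i ih =>
      have := E_sub_sub_mem hk F ha hb ih
      rw [h, sub_self, zero_sub] at this
      exact (Submodule.neg_mem_iff _).mp this
  have h1 := F.zero_of_le (this N) (by omega)
  exact sub_eq_zero.mp h1

lemma Lg_mem (F : NF k A N) {u : A} {i : ℕ} (hi : 1 ≤ i) (hu : u - 1 ∈ F.U i) :
    Lg k N u ∈ F.U i := by
  unfold Lg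
  refine Submodule.sum_mem _ fun m hm => Submodule.smul_mem _ _ ?_
  have h1 := (mem_Ico.mp hm).1
  obtain ⟨m, rfl⟩ := Nat.exists_eq_add_of_le h1
  rw [add_comm, pow_succ]
  have h2 := F.mul (F.pow_mem (F.anti hi hu) m) hu
  exact F.anti (by omega) h2

end

end Pool.Agent.H675R3
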