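import Pool.Agent.H675R3.LowerB
import Pool.Agent.H675R3.LieB

set_option autoImplicit false
set_option linter.unusedVariables false

namespace Pool.Agent.H675R3

open Finset TensorProduct

attribute [local instance 100] LieRing.ofAssociativeRing

/-- `f ≼ h` -/
def Dominated (f h : ℕ → ℕ) : Prop := ∃ C : ℕ, 0 < C ∧ ∀ n, f n ≤ C * h (C * n)

section compare
variable {G₁ G₂ : Type*} [Group G₁] [Group G₂]

lemma wordLen_zero {S : Set G₁} (hS : Subgroup.closure S = ⊤) {g : G₁} (h : wordLen S g ≤ 0) :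
    g = 1 := by
  obtain ⟨l, hl1, _, hl3⟩ := wordLen_spec hS g
  have h1 : l = [] := List.length_eq_zero_iff.mp (by omega)
  rw [← hl3, h1, List.prod_nil]

/-- the set of depths is bounded -/
lemma bdd_of_ub {S : Set G₁} {C : ℝ} {k : ℕ} (hC : 0 < C)
    (hub : ∀ g : G₁, g ≠ 1 → (depth g : ℝ) ≤ (C * (Real.log (wordLen S g + 1) + 1)) ^ k) (n : ℕ) :
    ∀ m ∈ {m | ∃ g : G₁, g ≠ 1 ∧ wordLen S g ≤ n ∧ depth g = m},
      m ≤ ⌊(C * (Real.log (n + 1) + 1)) ^ k⌋₊ := by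
  rintro m ⟨g, hg, hw, rfl⟩
  apply Nat.le_floor
  refine (hub g hg).trans ?_
  have h0 : (0 : ℝ) ≤ wordLen S g := Nat.cast_nonneg _
  have h1 : Real.log ((wordLen S g : ℝ) + 1) ≤ Real.log ((n : ℝ) + 1) := by
    apply Real.log_le_log (by linarith)
    have : (wordLen S g : ℝ) ≤ n := by exact_mod_cast hw
    linarith
  have h2 : 0 ≤ Real.log ((wordLen S g : ℝ) + 1) := Real.log_nonneg (by linarith)
  apply pow_le_pow_left₀ (by positivity)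
  exact mul_le_mul_of_nonneg_left (by linarith) hC.le

lemma RF_le {S : Set G₁} {C : ℝ} {k : ℕ} (hC : 0 < C)
    (hub : ∀ g : G₁, g ≠ 1 → (depth g : ℝ) ≤ (C * (Real.log (wordLen S g + 1) + 1)) ^ k) (n : ℕ) :
    (RF S n : ℝ) ≤ (C * (Real.log (n + 1) + 1)) ^ k := by
  have hL : 0 ≤ Real.log ((n : ℝ) + 1) := Real.log_nonneg (by
    have : (0 : ℝ) ≤ n := Nat.cast_nonneg _
    linarith)
  have h0 : 0 ≤ (C * (Real.log (n + 1) + 1)) ^ k := by positivity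
  have h1 : RF S n ≤ ⌊(C * (Real.log (n + 1) + 1)) ^ k⌋₊ := by
    unfold RF
    rcases Set.eq_empty_or_nonempty {m | ∃ g : G₁, g ≠ 1 ∧ wordLen S g ≤ n ∧ depth g = m} with h | h
    · rw [h]; simp
    · exact csSup_le h (bdd_of_ub hC hub n)
  exact (Nat.cast_le.mpr h1).trans (Nat.floor_le h0)

lemma le_RF {S : Set G₁} {C : ℝ} {k : ℕ} (hC : 0 < C)
    (hub : ∀ g : G₁, g ≠ 1 → (depth g : ℝ) ≤ (C * (Real.log (wordLen S g + 1) + 1)) ^ k) {n : ℕ}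
    {g : G₁} (hg : g ≠ 1) (hn : wordLen S g ≤ n) : depth g ≤ RF S n :=
  le_csSup ⟨_, fun m hm => bdd_of_ub hC hub n m hm⟩ ⟨g, hg, hn, rfl⟩

lemma RF_mono {S : Set G₁} {C : ℝ} {k : ℕ} (hC : 0 < C)
    (hub : ∀ g : G₁, g ≠ 1 → (depth g : ℝ) ≤ (C * (Real.log (wordLen S g + 1) + 1)) ^ k) {m n : ℕ}
    (h : m ≤ n) : RF S m ≤ RF S n := by
  unfold RF
  rcases Set.eq_empty_or_nonempty {m' | ∃ g : G₁, g ≠ 1 ∧ wordLen S g ≤ m ∧ depth g = m'} with h1 | h1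
  · rw [h1]; simp
  · apply csSup_le_csSup ⟨_, fun m hm => bdd_of_ub hC hub n m hm⟩ h1
    rintro _ ⟨g, hg, hw, rfl⟩
    exact ⟨g, hg, hw.trans h, rfl⟩

lemma RF_zero {S : Set G₁} (hS : Subgroup.closure S = ⊤) : RF S 0 = 0 := by
  unfold RF
  have : {m | ∃ g : G₁, g ≠ 1 ∧ wordLen S g ≤ 0 ∧ depth g = m} = ∅ := by
    ext m
    simp only [Set.mem_setOf_eq, Set.mem_empty_iff_false, iff_false]
    rintro ⟨g, hg, hw, _⟩
    exact hg (wordLen_zero hS hw)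
  rw [this]; simp

/-- comparison of the two bounds -/
theorem compare {S₁ : Set G₁} {S₂ : Set G₂} (hS₁ : Subgroup.closure S₁ = ⊤) {C₁ : ℝ} (hC₁ : 0 < C₁)
    {δ : ℕ} (hub₁ : ∀ g : G₁, g ≠ 1 → (depth g : ℝ) ≤ (C₁ * (Real.log (wordLen S₁ g + 1) + 1)) ^ δ)
    {C₂ : ℝ} (hC₂ : 0 < C₂) {k₂ : ℕ}
    (hub₂ : ∀ g : G₂, g ≠ 1 → (depth g : ℝ) ≤ (C₂ * (Real.log (wordLen S₂ g + 1) + 1)) ^ k₂)
    {A : ℝ} (hA : 0 < A) {m₁ : ℕ}
    (hlb : ∀ m ≥ m₁, ∃ g : G₂, g ≠ 1 ∧ Real.log (wordLen S₂ g + 1) ≤ A * m ∧ m ^ δ ≤ depth g) :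
    Dominated (RF S₁) (RF S₂) := by
  set C' : ℕ := ⌈Real.exp (A * (m₁ + 2))⌉₊ with hC'
  set K : ℕ := ⌈(C₁ * (A + 2)) ^ δ⌉₊ with hK
  have hC'pos : 0 < C' := Nat.ceil_pos.mpr (Real.exp_pos _)
  refine ⟨C' + K, by omega, fun n => ?_⟩
  rcases Nat.eq_zero_or_pos n with h0 | hn
  · subst h0
    rw [RF_zero hS₁]
    exact Nat.zero_le _
  have hn1 : (1 : ℝ) ≤ n := by exact_mod_cast hn
  have hlogn : 0 ≤ Real.log n := Real.log_nonneg hn1
  set N : ℕ := C' * n with hN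
  have hlogC' : A * (m₁ + 2) ≤ Real.log C' := by
    rw [Real.le_log_iff_exp_le (by exact_mod_cast hC'pos)]
    exact Nat.le_ceil _
  have hlogN : A * (m₁ + 2) + Real.log n ≤ Real.log (N + 1) := by
    have h1 : Real.log ((N : ℝ)) = Real.log C' + Real.log n := by
      rw [hN, Nat.cast_mul, Real.log_mul (by exact_mod_cast hC'pos.ne') (by exact_mod_cast hn.ne')]
    have h2 : Real.log (N : ℝ) ≤ Real.log (N + 1) := by
      apply Real.log_le_log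
      · have : 0 < N := Nat.mul_pos hC'pos hn
        exact_mod_cast this
      · linarith
    linarith
  have hlogN0 : 0 ≤ Real.log ((N : ℝ) + 1) := by
    have : 0 ≤ A * (m₁ + 2) := by positivity
    linarith
  set m : ℕ := ⌊Real.log (N + 1) / A⌋₊ with hm
  have hmA : A * m ≤ Real.log (N + 1) := by
    have h1 : (m : ℝ) ≤ Real.log (N + 1) / A := Nat.floor_le (by positivity)
    rw [le_div_iff₀ hA] at h1
    linarith
  have hmge : (m₁ : ℝ) + 1 + Real.log n / A ≤ m := by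
    have h1 : Real.log (N + 1) / A < m + 1 := Nat.lt_floor_add_one _
    have h2 : (m₁ : ℝ) + 2 + Real.log n / A ≤ Real.log (N + 1) / A := by
      rw [le_div_iff₀ hA]
      have : ((m₁ : ℝ) + 2 + Real.log n / A) * A = A * (m₁ + 2) + Real.log n := by
        field_simp
      linarith
    linarith
  have hdiv : 0 ≤ Real.log n / A := by positivity
  have hmm₁ : m₁ ≤ m := by
    have : (m₁ : ℝ) ≤ m := by linarith
    exact_mod_cast this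
  obtain ⟨g, hg, hgw, hgd⟩ := hlb m hmm₁
  have hgN : wordLen S₂ g ≤ N := by
    have h1 : Real.log ((wordLen S₂ g : ℝ) + 1) ≤ Real.log ((N : ℝ) + 1) := hgw.trans hmA
    have h2 : (wordLen S₂ g : ℝ) + 1 ≤ (N : ℝ) + 1 := by
      rwa [Real.log_le_log_iff (by positivity) (by positivity)] at h1
    have h3 : (wordLen S₂ g : ℝ) ≤ N := by linarith
    exact_mod_cast h3
  have h1 : depth g ≤ RF S₂ N := le_RF hC₂ hub₂ hg hgN
  have h2 := RF_le hC₁ hub₁ n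
  have h3 : Real.log ((n : ℝ) + 1) ≤ Real.log n + 1 := by
    have h4 : Real.log ((n : ℝ) + 1) ≤ Real.log (n * 2) :=
      Real.log_le_log (by positivity) (by linarith)
    rw [Real.log_mul (by positivity) (by norm_num)] at h4
    have h5 : Real.log 2 ≤ 1 := by
      have := Real.log_two_lt_d9
      linarith
    linarith
  have h4 : C₁ * (Real.log (n + 1) + 1) ≤ C₁ * (A + 2) * m := by
    rw [mul_assoc]
    apply mul_le_mul_of_nonneg_left _ hC₁.le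
    have h5 : (A + 2) * (1 + Real.log n / A) ≤ (A + 2) * m := by
      apply mul_le_mul_of_nonneg_left _ (by positivity)
      have : (0 : ℝ) ≤ m₁ := Nat.cast_nonneg _
      linarith
    have h6 : (A + 2) * (1 + Real.log n / A) = A + 2 + Real.log n + 2 * (Real.log n / A) := by
      field_simp
      ring
    linarith
  have hL0 : 0 ≤ Real.log ((n : ℝ) + 1) := Real.log_nonneg (by linarith)
  have h5 : (RF S₁ n : ℝ) ≤ (C₁ * (A + 2)) ^ δ * (m : ℝ) ^ δ := by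
    refine h2.trans ?_
    rw [← mul_pow]
    exact pow_le_pow_left₀ (by positivity) h4 δ
  have h6 : (RF S₁ n : ℝ) ≤ (K : ℝ) * (RF S₂ N : ℝ) := by
    refine h5.trans ?_
    apply mul_le_mul (Nat.le_ceil _) _ (by positivity) (Nat.cast_nonneg _)
    have : m ^ δ ≤ RF S₂ N := hgd.trans h1
    exact_mod_cast this
  have h7 : RF S₁ n ≤ K * RF S₂ N := by exact_mod_cast h6
  calc RF S₁ n ≤ K * RF S₂ N := h7
    _ ≤ (C' + K) * RF S₂ ((C' + K) * n) := by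
        apply Nat.mul_le_mul (by omega)
        apply RF_mono hC₂ hub₂
        rw [hN]
        exact Nat.mul_le_mul_right _ (by omega)

end compare

lemma sep_self {h : ℕ} (c : Fin h → Fin h → Fin h → ℤ) : Sep c h ℂ := by
  intro x hx
  have h1 := hx ⊥ (by
      intro x hx y
      have hx : x = 0 := hx
      have e : brk c y x = 0 := by
        funext r
        unfold brk
        refine sum_eq_zero fun i _ => sum_eq_zero fun j _ => ?_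
        rw [hx, Pi.zero_apply, mul_zero, zero_mul]
      rw [e]
      exact Submodule.zero_mem _) (by
      have := Submodule.finrank_quotient_le (⊥ : Submodule ℂ (Fin h → ℂ))
      rwa [Module.finrank_fin_fun] at this)
  exact h1

section
variable {G₁ G₂ : Type*} [Group G₁] [Group G₂] {n₁ n₂ : ℕ}
  {ρ₁ : G₁ →* Matrix (Fin n₁) (Fin n₁) ℤ} {ρ₂ : G₂ →* Matrix (Fin n₂) (Fin n₂) ℤ}

theorem dominated_of (hρ₁ : UniTri ρ₁) (hinj₁ : Function.Injective ρ₁) (d₁ : Dat ρ₁)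
    (hρ₂ : UniTri ρ₂) (hinj₂ : Function.Injective ρ₂) (d₂ : Dat ρ₂)
    (S₁ : Set G₁) (hS₁ : S₁.Finite) (hgen₁ : Subgroup.closure S₁ = ⊤)
    (S₂ : Set G₂) (hS₂ : S₂.Finite) (hgen₂ : Subgroup.closure S₂ = ⊤)
    (hSep : ∀ k, Sep d₂.c k ℂ → Sep d₁.c k ℂ) : Dominated (RF S₁) (RF S₂) := by
  classical
  have hex : ∃ k, Sep d₁.c k ℂ := ⟨_, sep_self d₁.c⟩
  have hδ := Nat.find_spec hex
  have hmin := fun m (hm : m < Nat.find hex) => Nat.find_min hex hm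
  obtain ⟨C₁, hC₁, hub₁⟩ := ub_depth hρ₁ hinj₁ d₁ _ hδ S₁ hS₁ hgen₁
  obtain ⟨C₂, hC₂, hub₂⟩ := ub_depth hρ₂ hinj₂ d₂ _ (sep_self d₂.c) S₂ hS₂ hgen₂
  rcases hfind : Nat.find hex with _ | k
  · -- the first group is trivial
    rw [hfind] at hub₁
    have htriv : ∀ g : G₁, g = 1 := by
      intro g
      by_contra hg
      have h1 := hub₁ g hg
      rw [pow_zero] at h1
      have h2 : depth g ≤ 1 := by exact_mod_cast h1
      obtain ⟨N, hN1, hN2, hN3, hN4⟩ := depth_spec (exists_normal hρ₁ hinj₁ d₁ hg)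
      have h3 : N.index = 1 := by omega
      rw [Subgroup.index_eq_one] at h3
      rw [h3] at hN3
      exact hN3 (Subgroup.mem_top g)
    refine ⟨1, one_pos, fun n => ?_⟩
    have : RF S₁ n = 0 := by
      unfold RF
      have h4 : {m | ∃ g : G₁, g ≠ 1 ∧ wordLen S₁ g ≤ n ∧ depth g = m} = ∅ := by
        ext m
        simp only [Set.mem_setOf_eq, Set.mem_empty_iff_false, iff_false]
        rintro ⟨g, hg, _⟩
        exact hg (htriv g)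
      rw [h4]; simp
    rw [this]
    exact Nat.zero_le _
  · rw [hfind] at hub₁
    have h1 : ¬ Sep d₂.c k ℂ := fun h => hmin k (by omega) (hSep k h)
    obtain ⟨A, hA, m₁, hlb⟩ := lb_depth hρ₂ hinj₂ d₂ k h1 S₂ hgen₂
    exact compare hgen₁ hC₁ hub₁ hC₂ hub₂ hA hlb

end

/-- **Main theorem** for rational unitriangular groups -/
theorem main {G₁ G₂ : Type*} [Group G₁] [Group G₂] {n₁ n₂ : ℕ}
    (ρ₁ : G₁ →* Matrix (Fin n₁) (Fin n₁) ℚ) (ρ₂ : G₂ →* Matrix (Fin n₂) (Fin n₂) ℚ)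
    (huni₁ : ∀ g, IsUnitri (ρ₁ g)) (huni₂ : ∀ g, IsUnitri (ρ₂ g))
    (hinj₁ : Function.Injective ρ₁) (hinj₂ : Function.Injective ρ₂)
    (e : Nonempty ((ℂ ⊗[ℚ] malcevLie ρ₁) ≃ₗ⁅ℂ⁆ (ℂ ⊗[ℚ] malcevLie ρ₂)))
    (S₁ : Set G₁) (hS₁ : S₁.Finite) (hgen₁ : Subgroup.closure S₁ = ⊤)
    (S₂ : Set G₂) (hS₂ : S₂.Finite) (hgen₂ : Subgroup.closure S₂ = ⊤) :
    Dominated (RF S₁) (RF S₂) ∧ Dominated (RF S₂) (RF S₁) := by
  obtain ⟨e⟩ := e
  obtain ⟨ρ₁', D₁, hD₁, hu₁, hi₁, he₁⟩ := exists_integral S₁ hS₁ hgen₁ ρ₁ huni₁ hinj₁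
  obtain ⟨ρ₂', D₂, hD₂, hu₂, hi₂, he₂⟩ := exists_integral S₂ hS₂ hgen₂ ρ₂ huni₂ hinj₂
  obtain ⟨d₁⟩ := exists_Dat hu₁
  obtain ⟨d₂⟩ := exists_Dat hu₂
  obtain ⟨b₁, hb₁⟩ := exists_basis ρ₁ ρ₁' D₁ hD₁ hu₁ he₁ d₁
  obtain ⟨b₂, hb₂⟩ := exists_basis ρ₂ ρ₂' D₂ hD₂ hu₂ he₂ d₂
  obtain ⟨Ψ₁, hΨ₁⟩ := exists_coord d₁.c b₁ hb₁
  obtain ⟨Ψ₂, hΨ₂⟩ := exists_coord d₂.c b₂ hb₂
  let Θ : (Fin d₁.h → ℂ) ≃ₗ[ℂ] (Fin d₂.h → ℂ) := (Ψ₁.trans e.toLinearEquiv).trans Ψ₂.symm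
  have hΘ : ∀ x y, Θ (brk d₁.c x y) = brk d₂.c (Θ x) (Θ y) := by
    intro x y
    have h1 : Ψ₂ (Θ (brk d₁.c x y)) = Ψ₂ (brk d₂.c (Θ x) (Θ y)) := by
      rw [hΨ₂]
      change Ψ₂ (Ψ₂.symm (e (Ψ₁ (brk d₁.c x y)))) =
        ⁅Ψ₂ (Ψ₂.symm (e (Ψ₁ x))), Ψ₂ (Ψ₂.symm (e (Ψ₁ y)))⁆
      rw [LinearEquiv.apply_symm_apply, LinearEquiv.apply_symm_apply, LinearEquiv.apply_symm_apply,
        hΨ₁, LieEquiv.map_lie]
    exact Ψ₂.injective h1
  have hΘ' : ∀ x y, Θ.symm (brk d₂.c x y) = brk d₁.c (Θ.symm x) (Θ.symm y) := by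
    intro x y
    rw [LinearEquiv.symm_apply_eq, hΘ, LinearEquiv.apply_symm_apply, LinearEquiv.apply_symm_apply]
  exact ⟨dominated_of hu₁ hi₁ d₁ hu₂ hi₂ d₂ S₁ hS₁ hgen₁ S₂ hS₂ hgen₂
      (fun k h => Sep.transport Θ.symm hΘ' h),
    dominated_of hu₂ hi₂ d₂ hu₁ hi₁ d₁ S₂ hS₂ hgen₂ S₁ hS₁ hgen₁
      (fun k h => Sep.transport Θ hΘ h)⟩

end Pool.Agent.H675R3
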