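import Pool.Agent.H675R3.Uniq
import Pool.Agent.H675R3.Emb

set_option autoImplicit false
set_option linter.unusedVariables false

namespace Pool.Agent.H675R3

open Finset TensorProduct

attribute [local instance 100] LieRing.ofAssociativeRing

/-- `L` is the rational Malcev Lie algebra of `G` -/
def IsMalcevLie (G : Type) [Group G] (L : Type) [LieRing L] [LieAlgebra ℚ L] : Prop :=
  ∃ (n : ℕ) (ρ : G →* Matrix (Fin n) (Fin n) ℚ), Function.Injective ρ ∧ (∀ g, IsUnitri (ρ g)) ∧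
    Nonempty (L ≃ₗ⁅ℚ⁆ malcevLie ρ)

theorem malcev_exists (G : Type) [Group G] (hfg : Group.FG G) (hnil : Group.IsNilpotent G)
    (htf : ∀ (g : G) (n : ℕ), 0 < n → g ^ n = 1 → g = 1) :
    ∃ (L : Type) (_ : LieRing L) (_ : LieAlgebra ℚ L), IsMalcevLie G L ∧
      ∀ (L' : Type) [LieRing L'] [LieAlgebra ℚ L'], IsMalcevLie G L' → Nonempty (L ≃ₗ⁅ℚ⁆ L') := by
  obtain ⟨n, ρ, hinj, huni⟩ := Emb.exists_unitri G hfg hnil htf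
  refine ⟨malcevLie ρ, inferInstance, inferInstance, ⟨n, ρ, hinj, huni, ⟨LieEquiv.refl⟩⟩, ?_⟩
  rintro L' _ _ ⟨n', ρ', hinj', huni', ⟨e⟩⟩
  obtain ⟨e'⟩ := malcev_unique ρ ρ' huni huni' hinj hinj'
  exact ⟨e'.trans e.symm⟩

/-- main theorem, with the Lie algebras given abstractly -/
theorem main' {G₁ G₂ : Type} [Group G₁] [Group G₂] {L₁ L₂ : Type} [LieRing L₁] [LieAlgebra ℚ L₁]
    [LieRing L₂] [LieAlgebra ℚ L₂] (h₁ : IsMalcevLie G₁ L₁) (h₂ : IsMalcevLie G₂ L₂)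
    (e : Nonempty ((ℂ ⊗[ℚ] L₁) ≃ₗ⁅ℂ⁆ (ℂ ⊗[ℚ] L₂)))
    (S₁ : Set G₁) (hS₁ : S₁.Finite) (hgen₁ : Subgroup.closure S₁ = ⊤)
    (S₂ : Set G₂) (hS₂ : S₂.Finite) (hgen₂ : Subgroup.closure S₂ = ⊤) :
    Dominated (RF S₁) (RF S₂) ∧ Dominated (RF S₂) (RF S₁) := by
  obtain ⟨e⟩ := e
  obtain ⟨n₁, ρ₁, hinj₁, huni₁, ⟨f₁⟩⟩ := h₁
  obtain ⟨n₂, ρ₂, hinj₂, huni₂, ⟨f₂⟩⟩ := h₂
  obtain ⟨ρ₁', D₁, hD₁, hu₁, hi₁, he₁⟩ := exists_integral S₁ hS₁ hgen₁ ρ₁ huni₁ hinj₁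
  obtain ⟨ρ₂', D₂, hD₂, hu₂, hi₂, he₂⟩ := exists_integral S₂ hS₂ hgen₂ ρ₂ huni₂ hinj₂
  obtain ⟨d₁⟩ := exists_Dat hu₁
  obtain ⟨d₂⟩ := exists_Dat hu₂
  obtain ⟨b₁, hb₁⟩ := exists_basis ρ₁ ρ₁' D₁ hD₁ hu₁ he₁ d₁
  obtain ⟨b₂, hb₂⟩ := exists_basis ρ₂ ρ₂' D₂ hD₂ hu₂ he₂ d₂
  have hb₁' : ∀ i j, ⁅(b₁.map f₁.symm.toLinearEquiv) i, (b₁.map f₁.symm.toLinearEquiv) j⁆ =
      ∑ r, (d₁.c i j r : ℚ) • (b₁.map f₁.symm.toLinearEquiv) r := by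
    intro i j
    have h1 := congrArg f₁.symm (hb₁ i j)
    rw [LieEquiv.map_lie] at h1
    have h2 : f₁.symm (∑ r, (d₁.c i j r : ℚ) • b₁ r) = ∑ r, (d₁.c i j r : ℚ) • f₁.symm (b₁ r) := by
      have := map_sum f₁.symm.toLinearEquiv (fun r => (d₁.c i j r : ℚ) • b₁ r) Finset.univ
      simp only [map_smul] at this
      exact this
    rw [h2] at h1
    exact h1
  have hb₂' : ∀ i j, ⁅(b₂.map f₂.symm.toLinearEquiv) i, (b₂.map f₂.symm.toLinearEquiv) j⁆ =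
      ∑ r, (d₂.c i j r : ℚ) • (b₂.map f₂.symm.toLinearEquiv) r := by
    intro i j
    have h1 := congrArg f₂.symm (hb₂ i j)
    rw [LieEquiv.map_lie] at h1
    have h2 : f₂.symm (∑ r, (d₂.c i j r : ℚ) • b₂ r) = ∑ r, (d₂.c i j r : ℚ) • f₂.symm (b₂ r) := by
      have := map_sum f₂.symm.toLinearEquiv (fun r => (d₂.c i j r : ℚ) • b₂ r) Finset.univ
      simp only [map_smul] at this
      exact this
    rw [h2] at h1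
    exact h1
  obtain ⟨Ψ₁, hΨ₁⟩ := exists_coord d₁.c _ hb₁'
  obtain ⟨Ψ₂, hΨ₂⟩ := exists_coord d₂.c _ hb₂'
  let Θ : (Fin d₁.h → ℂ) ≃ₗ[ℂ] (Fin d₂.h → ℂ) := (Ψ₁.trans e.toLinearEquiv).trans Ψ₂.symm
  have hΘ : ∀ x y, Θ (brk d₁.c x y) = brk d₂.c (Θ x) (Θ y) := by
    intro x y
    have h1 : Ψ₂ (Θ (brk d₁.c x y)) = Ψ₂ (brk d₂.c (Θ x) (Θ y)) := by
      rw [hΨ₂]
      change Ψ₂ (Ψ₂.symm (e (Ψ₁ (brk d₁.c x y)))) =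
        ⁅Ψ₂ (Ψ₂.symm (e (Ψ₁ x))), Ψ₂ (Ψ₂.symm (e (Ψ₁ y)))⁆
      rw [LinearEquiv.apply_symm_apply, LinearEquiv.apply_symm_apply, LinearEquiv.apply_symm_apply,
        hΨ₁, LieEquiv.map_lie]
    exact Ψ₂.injective h1
  have hΘ' : ∀ x y, Θ.symm (brk d₂.c x y) = brk d₁.c (Θ.symm x) (Θ.symm y) := by
    intro x y
    rw [LinearEquiv.symm_apply_eq, hΘ, LinearEquiv.apply_symm_apply, LinearEquiv.apply_symm_apply]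
  exact ⟨dominated_of hu₁ hi₁ d₁ hu₂ hi₂ d₂ S₁ hS₁ hgen₁ S₂ hS₂ hgen₂
      (fun k h => Sep.transport Θ.symm hΘ' h),
    dominated_of hu₂ hi₂ d₂ hu₁ hi₁ d₁ S₂ hS₂ hgen₂ S₁ hS₁ hgen₁
      (fun k h => Sep.transport Θ hΘ h)⟩

end Pool.Agent.H675R3
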