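import Pool.Agent.H675R3.BCH

set_option autoImplicit false
set_option linter.unusedVariables false

namespace Pool.Agent.H675R3

open Finset

section
variable {k A : Type*} [CommRing k] [Ring A] [Algebra k A] {N : ℕ}

lemma mem_U0 (F : NF k A N) {u : A} (hu : u - 1 ∈ F.U 1) : u ∈ F.U 0 := by
  have : u = (u - 1) + 1 := by abel
  rw [this]
  exact Submodule.add_mem _ (F.anti (by omega) hu) F.one

lemma E_mem_U0 (hk : Good k N) (F : NF k A N) {x : A} (hx : x ∈ F.U 1) : E k N x ∈ F.U 0 :=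
  mem_U0 F (E_sub_one_mem hk F le_rfl hx)

lemma conj_mem (hk : Good k N) (F : NF k A N) {x y : A} {i : ℕ} (hx : x ∈ F.U 1) (hy : y ∈ F.U i) :
    E k N x * y * E k N (-x) ∈ F.U i := by
  have h1 := F.mul (F.mul (E_mem_U0 hk F hx) hy) (E_mem_U0 hk F (Submodule.neg_mem _ hx))
  simpa using h1

lemma ad_pow_mem (F : NF k A N) {x y : A} {j : ℕ} (hx : x ∈ F.U 1) (hy : y ∈ F.U j) (m : ℕ) :
    ((ad k x) ^ m) y ∈ F.U (j + m) := by
  induction m with
  | zero => simpa using hy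
  | succ m ih =>
    rw [pow_succ', Module.End.mul_apply, ad_apply]
    exact Submodule.sub_mem _ (F.anti (by omega) (F.mul hx ih)) (F.anti (by omega) (F.mul ih hx))

lemma conj_sub (hk : Good k N) (F : NF k A N) {x : A} (hx : x ∈ F.U 1) (y : A) :
    E k N x * y * E k N (-x) - y =
      ((ad k x) ^ 1) y + ∑ r ∈ Ico 2 (2 * N), ifac k r • ((ad k x) ^ r) y := by
  rw [E_conj hk F hx]
  have := F.pos
  rw [← Finset.sum_range_add_sum_Ico _ (show 2 ≤ 2 * N by omega)]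
  simp only [Finset.sum_range_succ, Finset.sum_range_zero, ifac_zero, ifac_one, one_smul, pow_zero,
    Module.End.one_apply, zero_add]
  abel

/-- If the conjugation by `exp x` moves `W` inside `W'` then so does the bracket with `x`. -/
lemma ad_lemma (hk : Good k N) (F : NF k A N) {W W' : Submodule k A} (hW' : W' ≤ W)
    {x : A} (hx : x ∈ F.U 1) (hWU : W ≤ F.U 1)
    (h : ∀ y ∈ W, E k N x * y * E k N (-x) - y ∈ W') : ∀ y ∈ W, x * y - y * x ∈ W' := by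
  have key : ∀ d j : ℕ, N ≤ j + d → ∀ y ∈ W, y ∈ F.U j → ∀ m, ((ad k x) ^ (m + 1)) y ∈ W' := by
    intro d
    induction d with
    | zero =>
      intro j hj y _ hy m
      rw [F.zero_of_le hy (by omega), map_zero]
      exact W'.zero_mem
    | succ d ih =>
      intro j hj y hyW hyj
      set Δ := E k N x * y * E k N (-x) - y with hΔ
      have hΔW' : Δ ∈ W' := h y hyW
      have hΔ1 : Δ = ((ad k x) ^ 1) y + ∑ r ∈ Ico 2 (2 * N), ifac k r • ((ad k x) ^ r) y :=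
        conj_sub hk F hx y
      have hΔU : Δ ∈ F.U (j + 1) := by
        rw [hΔ1]
        refine Submodule.add_mem _ (ad_pow_mem F hx hyj 1) ?_
        refine Submodule.sum_mem _ fun r hr => Submodule.smul_mem _ _ ?_
        exact F.anti (by have := (mem_Ico.mp hr).1; omega) (ad_pow_mem F hx hyj r)
      have hΔm : ∀ m, ((ad k x) ^ m) Δ ∈ W' := by
        intro m
        rcases m with _ | m
        · simpa using hΔW'
        · exact ih (j + 1) (by omega) Δ (hW' hΔW') hΔU m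
      have hQ : ∀ e m : ℕ, N ≤ m + e → ((ad k x) ^ (m + 1)) y ∈ W' := by
        intro e
        induction e with
        | zero =>
          intro m hm
          rw [F.zero_of_le (ad_pow_mem F hx hyj (m + 1)) (by omega)]
          exact W'.zero_mem
        | succ e ihe =>
          intro m hm
          have h1 := hΔm m
          rw [hΔ1, map_add, map_sum, ← Module.End.mul_apply, ← pow_add] at h1
          have h2 : ∑ r ∈ Ico 2 (2 * N), ((ad k x) ^ m) (ifac k r • ((ad k x) ^ r) y) ∈ W' := by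
            refine Submodule.sum_mem _ fun r hr => ?_
            rw [map_smul, ← Module.End.mul_apply, ← pow_add]
            refine Submodule.smul_mem _ _ ?_
            have h3 := (mem_Ico.mp hr).1
            have h4 := ihe (m + r - 1) (by omega)
            rwa [show m + r - 1 + 1 = m + r by omega] at h4
          exact (Submodule.add_mem_iff_left _ h2).mp h1
      intro m
      exact hQ N m (by omega)
  intro y hy
  have := key N 1 (by omega) y hy (hWU hy) 0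
  simpa using this

end

section grp
variable {k A Γ : Type*} [CommRing k] [Ring A] [Algebra k A] [Group Γ] {N : ℕ}

/-- logarithm of a group element -/
noncomputable def lg (k : Type*) [CommRing k] [Algebra k A] (N : ℕ) (φ : Γ →* A) (g : Γ) : A :=
  Lg k N (φ g)

variable (F : NF k A N) {φ : Γ →* A}

lemma lg_mem (hφ : ∀ g, φ g - 1 ∈ F.U 1) (g : Γ) : lg k N φ g ∈ F.U 1 := Lg_mem F le_rfl (hφ g)

lemma lg_mem_i {i : ℕ} (hi : 1 ≤ i) {g : Γ} (hg : φ g - 1 ∈ F.U i) : lg k N φ g ∈ F.U i :=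
  Lg_mem F hi hg

lemma E_lg (hk : Good k N) (hφ : ∀ g, φ g - 1 ∈ F.U 1) (g : Γ) : E k N (lg k N φ g) = φ g :=
  E_Lg hk F (hφ g)

lemma lg_eq (hk : Good k N) (hφ : ∀ g, φ g - 1 ∈ F.U 1) {g : Γ} {x : A} (hx : x ∈ F.U 1)
    (h : φ g = E k N x) : lg k N φ g = x :=
  E_inj hk F (lg_mem F hφ g) hx (by rw [E_lg F hk hφ, h])

lemma lg_one (hk : Good k N) (hφ : ∀ g, φ g - 1 ∈ F.U 1) : lg k N φ 1 = 0 :=
  lg_eq F hk hφ (Submodule.zero_mem _) (by rw [map_one, E_zero hk F])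

lemma lg_pow (hk : Good k N) (hφ : ∀ g, φ g - 1 ∈ F.U 1) (g : Γ) (m : ℕ) :
    lg k N φ (g ^ m) = m • lg k N φ g :=
  lg_eq F hk hφ (Submodule.smul_of_tower_mem _ m (lg_mem F hφ g))
    (by rw [E_nsmul hk F (lg_mem F hφ g), E_lg F hk hφ, map_pow])

lemma phi_inv (hk : Good k N) (hφ : ∀ g, φ g - 1 ∈ F.U 1) (g : Γ) :
    φ g⁻¹ = E k N (- lg k N φ g) := by
  have h1 : φ g⁻¹ * φ g = 1 := by rw [← map_mul, inv_mul_cancel, map_one]
  have h2 := E_mul_neg hk F (lg_mem F hφ g)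
  rw [E_lg F hk hφ] at h2
  calc φ g⁻¹ = φ g⁻¹ * (φ g * E k N (- lg k N φ g)) := by rw [h2, mul_one]
    _ = E k N (- lg k N φ g) := by rw [← mul_assoc, h1, one_mul]

lemma lg_inv (hk : Good k N) (hφ : ∀ g, φ g - 1 ∈ F.U 1) (g : Γ) :
    lg k N φ g⁻¹ = - lg k N φ g :=
  lg_eq F hk hφ (Submodule.neg_mem _ (lg_mem F hφ g)) (phi_inv F hk hφ g)

lemma lg_conj (hk : Good k N) (hφ : ∀ g, φ g - 1 ∈ F.U 1) (q g : Γ) :
    lg k N φ (q * g * q⁻¹) = E k N (lg k N φ q) * lg k N φ g * E k N (- lg k N φ q) := by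
  refine lg_eq F hk hφ (conj_mem hk F (lg_mem F hφ q) (lg_mem F hφ g)) ?_
  rw [← E_conj_E hk F (lg_mem F hφ q), E_lg F hk hφ, E_lg F hk hφ, ← phi_inv F hk hφ, map_mul, map_mul]

/-- span of the logarithms of the elements of `P` of depth `i` -/
noncomputable def Wi (F : NF k A N) (φ : Γ →* A) (P : Subgroup Γ) (i : ℕ) : Submodule k A :=
  Submodule.span k {x | ∃ g ∈ P, φ g - 1 ∈ F.U i ∧ lg k N φ g = x}

lemma mem_Wi {P : Subgroup Γ} {i : ℕ} {g : Γ} (hg : g ∈ P) (h : φ g - 1 ∈ F.U i) :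
    lg k N φ g ∈ Wi F φ P i := Submodule.subset_span ⟨g, hg, h, rfl⟩

lemma Wi_anti {P : Subgroup Γ} {i j : ℕ} (h : i ≤ j) : Wi F φ P j ≤ Wi F φ P i :=
  Submodule.span_mono fun _ ⟨g, hg, h1, h2⟩ => ⟨g, hg, F.anti h h1, h2⟩

lemma Wi_le {P : Subgroup Γ} {i : ℕ} (hi : 1 ≤ i) : Wi F φ P i ≤ F.U i := by
  refine Submodule.span_le.mpr ?_
  rintro _ ⟨g, _, h1, rfl⟩
  exact lg_mem_i F hi h1

variable {P : Subgroup Γ}

lemma phi_conj_mem (hφ : ∀ g, φ g - 1 ∈ F.U 1) {q g : Γ} {i : ℕ} (h : φ g - 1 ∈ F.U i) :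
    φ (q * g * q⁻¹) - 1 ∈ F.U i := by
  have h1 : φ (q * g * q⁻¹) - 1 = φ q * (φ g - 1) * φ q⁻¹ := by
    have : φ q * φ q⁻¹ = 1 := by rw [← map_mul, mul_inv_cancel, map_one]
    rw [map_mul, map_mul, mul_sub, sub_mul, mul_one, this]
  rw [h1]
  have := F.mul (F.mul (mem_U0 F (hφ q)) h) (mem_U0 F (hφ q⁻¹))
  simpa using this

lemma conj_Wi (hk : Good k N) (hφ : ∀ g, φ g - 1 ∈ F.U 1) (hP : P.Normal) (q : Γ) {i : ℕ}
    {y : A} (hy : y ∈ Wi F φ P i) :
    E k N (lg k N φ q) * y * E k N (- lg k N φ q) ∈ Wi F φ P i := by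
  induction hy using Submodule.span_induction with
  | mem x hx =>
    obtain ⟨g, hg, h1, rfl⟩ := hx
    rw [← lg_conj F hk hφ]
    exact mem_Wi F (hP.conj_mem g hg q) (phi_conj_mem F hφ h1)
  | zero => simp
  | add x y _ _ hx hy => rw [mul_add, add_mul]; exact Submodule.add_mem _ hx hy
  | smul c x _ hx => rw [mul_smul_comm, smul_mul_assoc]; exact Submodule.smul_mem _ _ hx

lemma bracket_Wi (hk : Good k N) (hφ : ∀ g, φ g - 1 ∈ F.U 1) (hP : P.Normal) (q : Γ) {i : ℕ}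
    (hi : 1 ≤ i) : ∀ y ∈ Wi F φ P i, lg k N φ q * y - y * lg k N φ q ∈ Wi F φ P i :=
  ad_lemma hk F le_rfl (lg_mem F hφ q) ((Wi_le F hi).trans (F.anti hi))
    (fun y hy => Submodule.sub_mem _ (conj_Wi F hk hφ hP q hy) hy)

lemma bracket_left {V W : Submodule k A} {S : Set A} (h : ∀ x ∈ S, ∀ y ∈ V, x * y - y * x ∈ W)
    {x : A} (hx : x ∈ Submodule.span k S) : ∀ y ∈ V, x * y - y * x ∈ W := by
  induction hx using Submodule.span_induction with
  | mem x hx => exact h x hx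
  | zero => intro y _; simp
  | add x x' _ _ h1 h2 =>
    intro y hy
    have : (x + x') * y - y * (x + x') = (x * y - y * x) + (x' * y - y * x') := by noncomm_ring
    rw [this]
    exact Submodule.add_mem _ (h1 y hy) (h2 y hy)
  | smul c x _ h1 =>
    intro y hy
    have : (c • x) * y - y * (c • x) = c • (x * y - y * x) := by
      rw [smul_mul_assoc, mul_smul_comm, smul_sub]
    rw [this]
    exact Submodule.smul_mem _ _ (h1 y hy)

lemma bracket_WW (hk : Good k N) (hφ : ∀ g, φ g - 1 ∈ F.U 1) (hP : P.Normal) {i : ℕ}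
    (hi : 1 ≤ i) : ∀ x ∈ Wi F φ P 1, ∀ y ∈ Wi F φ P i, x * y - y * x ∈ Wi F φ P i := by
  intro x hx
  refine bracket_left ?_ hx
  rintro _ ⟨g, _, _, rfl⟩
  exact bracket_Wi F hk hφ hP g hi

lemma comm_mem_U (hφ : ∀ g, φ g - 1 ∈ F.U 1) {q h : Γ} {i : ℕ} (hh : φ h - 1 ∈ F.U i) :
    φ (q * h * q⁻¹ * h⁻¹) - 1 ∈ F.U (i + 1) := by
  have h1 : φ q * φ q⁻¹ = 1 := by rw [← map_mul, mul_inv_cancel, map_one]
  have h2 : φ h * φ h⁻¹ = 1 := by rw [← map_mul, mul_inv_cancel, map_one]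
  have e : φ (q * h * q⁻¹ * h⁻¹) - 1 =
      ((φ q - 1) * (φ h - 1) - (φ h - 1) * (φ q - 1)) * φ q⁻¹ * φ h⁻¹ := by
    rw [map_mul, map_mul, map_mul]
    have e1 : (φ q - 1) * (φ h - 1) - (φ h - 1) * (φ q - 1) = φ q * φ h - φ h * φ q := by noncomm_ring
    rw [e1, sub_mul, sub_mul, mul_assoc (φ h) (φ q) (φ q⁻¹), h1, mul_one, h2]
  rw [e]
  have h3 : (φ q - 1) * (φ h - 1) - (φ h - 1) * (φ q - 1) ∈ F.U (i + 1) :=
    Submodule.sub_mem _ (F.anti (by omega) (F.mul (hφ q) hh)) (F.mul hh (hφ q))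
  have := F.mul (F.mul h3 (mem_U0 F (hφ q⁻¹))) (mem_U0 F (hφ h⁻¹))
  simpa using this

/-- product formula modulo the next layer -/
lemma lg_mul_sub (hk : Good k N) (hφ : ∀ g, φ g - 1 ∈ F.U 1) (hP : P.Normal) {i : ℕ} (hi : 1 ≤ i)
    {g h : Γ} (hg : g ∈ P) (hh : h ∈ P)
    (hgh : lg k N φ g * lg k N φ h - lg k N φ h * lg k N φ g ∈ Wi F φ P i) :
    lg k N φ (g * h) - lg k N φ g - lg k N φ h ∈ Wi F φ P i := by
  have := bch hk F (Wi F φ P 1) (Wi F φ P i) (Wi_le F le_rfl) (bracket_WW F hk hφ hP le_rfl)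
    (Wi_anti F hi) (bracket_WW F hk hφ hP hi) (mem_Wi F hg (hφ g)) (mem_Wi F hh (hφ h)) hgh
  rw [E_lg F hk hφ, E_lg F hk hφ, ← map_mul] at this
  exact this

lemma conj_sub_Wi (hk : Good k N) (hφ : ∀ g, φ g - 1 ∈ F.U 1) (hP : P.Normal) (q : Γ) {i : ℕ}
    (hi : 1 ≤ i) {y : A} (hy : y ∈ Wi F φ P i) :
    E k N (lg k N φ q) * y * E k N (- lg k N φ q) - y ∈ Wi F φ P (i + 1) := by
  induction hy using Submodule.span_induction with
  | mem x hx =>
    obtain ⟨h, hh, h1, rfl⟩ := hx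
    rw [← lg_conj F hk hφ]
    have hc : q * h * q⁻¹ * h⁻¹ ∈ P := P.mul_mem (hP.conj_mem h hh q) (P.inv_mem hh)
    have hcU := comm_mem_U F hφ (q := q) h1
    have hcW := mem_Wi F hc hcU
    have h2 := lg_mul_sub F hk hφ hP (show 1 ≤ i + 1 by omega) hc hh (by
      have := bracket_WW F hk hφ hP (show 1 ≤ i + 1 by omega) (lg k N φ h) (mem_Wi F hh (hφ h)) _ hcW
      have h3 := Submodule.neg_mem _ this
      rwa [neg_sub] at h3)
    rw [inv_mul_cancel_right] at h2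
    have h4 := Submodule.add_mem _ h2 hcW
    have e : lg k N φ (q * h * q⁻¹) - lg k N φ h =
      lg k N φ (q * h * q⁻¹) - lg k N φ (q * h * q⁻¹ * h⁻¹) - lg k N φ h +
        lg k N φ (q * h * q⁻¹ * h⁻¹) := by abel
    rw [e]
    exact h4
  | zero => simp
  | add x y _ _ hx hy =>
    have e : E k N (lg k N φ q) * (x + y) * E k N (- lg k N φ q) - (x + y) =
      (E k N (lg k N φ q) * x * E k N (- lg k N φ q) - x) +
      (E k N (lg k N φ q) * y * E k N (- lg k N φ q) - y) := by rw [mul_add, add_mul]; abel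
    rw [e]
    exact Submodule.add_mem _ hx hy
  | smul c x _ hx =>
    rw [mul_smul_comm, smul_mul_assoc, ← smul_sub]
    exact Submodule.smul_mem _ _ hx

lemma bracket_Wi' (hk : Good k N) (hφ : ∀ g, φ g - 1 ∈ F.U 1) (hP : P.Normal) (q : Γ) {i : ℕ}
    (hi : 1 ≤ i) : ∀ y ∈ Wi F φ P i, lg k N φ q * y - y * lg k N φ q ∈ Wi F φ P (i + 1) :=
  ad_lemma hk F (Wi_anti F (by omega)) (lg_mem F hφ q) ((Wi_le F hi).trans (F.anti hi))
    (fun y hy => conj_sub_Wi F hk hφ hP q hi hy)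

lemma phi_mul_mem {g h : Γ} {i : ℕ} (hφ : ∀ g, φ g - 1 ∈ F.U 1) (hg : φ g - 1 ∈ F.U i)
    (hh : φ h - 1 ∈ F.U i) : φ (g * h) - 1 ∈ F.U i := by
  have e : φ (g * h) - 1 = (φ g - 1) * φ h + (φ h - 1) := by rw [map_mul]; noncomm_ring
  rw [e]
  refine Submodule.add_mem _ ?_ hh
  simpa using F.mul hg (mem_U0 F (hφ h))

lemma phi_inv_mem {g : Γ} {i : ℕ} (hφ : ∀ g, φ g - 1 ∈ F.U 1) (hg : φ g - 1 ∈ F.U i) :
    φ g⁻¹ - 1 ∈ F.U i := by
  have h1 : φ g * φ g⁻¹ = 1 := by rw [← map_mul, mul_inv_cancel, map_one]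
  have e : φ g⁻¹ - 1 = - ((φ g - 1) * φ g⁻¹) := by rw [sub_mul, h1]; noncomm_ring
  rw [e]
  refine Submodule.neg_mem _ ?_
  simpa using F.mul hg (mem_U0 F (hφ g⁻¹))

lemma phi_pow_mem {g : Γ} {i : ℕ} (hφ : ∀ g, φ g - 1 ∈ F.U 1) (hg : φ g - 1 ∈ F.U i) (m : ℕ) :
    φ (g ^ m) - 1 ∈ F.U i := by
  induction m with
  | zero => simp
  | succ m ih => rw [pow_succ]; exact phi_mul_mem F hφ ih hg

/-- additivity modulo the next layer -/
lemma lg_mul_sub' (hk : Good k N) (hφ : ∀ g, φ g - 1 ∈ F.U 1) (hP : P.Normal) {i : ℕ} (hi : 1 ≤ i)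
    {g h : Γ} (hg : g ∈ P) (hh : h ∈ P) (hgU : φ g - 1 ∈ F.U i) (hhU : φ h - 1 ∈ F.U i) :
    lg k N φ (g * h) - lg k N φ g - lg k N φ h ∈ Wi F φ P (i + 1) :=
  lg_mul_sub F hk hφ hP (by omega) hg hh
    (bracket_Wi' F hk hφ hP g hi _ (mem_Wi F hh hhU))

/-- if all scalars are integers then layers are hit exactly modulo the next layer -/
lemma hit_layer (hk : Good k N) (hφ : ∀ g, φ g - 1 ∈ F.U 1) (hP : P.Normal)
    (hnat : ∀ c : k, ∃ m : ℕ, (m : k) = c) {i : ℕ} (hi : 1 ≤ i) {w : A} (hw : w ∈ Wi F φ P i) :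
    ∃ g ∈ P, φ g - 1 ∈ F.U i ∧ lg k N φ g - w ∈ Wi F φ P (i + 1) := by
  induction hw using Submodule.span_induction with
  | mem x hx =>
    obtain ⟨g, hg, h1, rfl⟩ := hx
    exact ⟨g, hg, h1, by rw [sub_self]; exact Submodule.zero_mem _⟩
  | zero => exact ⟨1, P.one_mem, by simp, by rw [lg_one F hk hφ, sub_zero]; exact Submodule.zero_mem _⟩
  | add x y _ _ hx hy =>
    obtain ⟨g, hg, h1, h2⟩ := hx
    obtain ⟨h, hh, h3, h4⟩ := hy
    refine ⟨g * h, P.mul_mem hg hh, phi_mul_mem F hφ h1 h3, ?_⟩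
    have h5 := lg_mul_sub' F hk hφ hP hi hg hh h1 h3
    have e : lg k N φ (g * h) - (x + y) = (lg k N φ (g * h) - lg k N φ g - lg k N φ h) +
      (lg k N φ g - x) + (lg k N φ h - y) := by abel
    rw [e]
    exact Submodule.add_mem _ (Submodule.add_mem _ h5 h2) h4
  | smul c x _ hx =>
    obtain ⟨g, hg, h1, h2⟩ := hx
    obtain ⟨m, rfl⟩ := hnat c
    refine ⟨g ^ m, P.pow_mem hg m, phi_pow_mem F hφ h1 m, ?_⟩
    rw [lg_pow F hk hφ, Nat.cast_smul_eq_nsmul, ← smul_sub]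
    exact Submodule.smul_of_tower_mem _ m h2

/-- the logarithms of a normal subgroup form a submodule -/
lemma hit_exact (hk : Good k N) (hφ : ∀ g, φ g - 1 ∈ F.U 1) (hP : P.Normal)
    (hnat : ∀ c : k, ∃ m : ℕ, (m : k) = c) :
    ∀ d i : ℕ, 1 ≤ i → N ≤ i + d → ∀ w ∈ Wi F φ P i, ∃ g ∈ P, lg k N φ g = w := by
  intro d
  induction d with
  | zero =>
    intro i hi hd w hw
    refine ⟨1, P.one_mem, ?_⟩
    rw [lg_one F hk hφ, F.zero_of_le (Wi_le F hi hw) (by omega)]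
  | succ d ih =>
    intro i hi hd w hw
    obtain ⟨g, hg, hgU, h1⟩ := hit_layer F hk hφ hP hnat hi hw
    set y := lg k N φ g with hy
    have hy1 : y ∈ F.U 1 := lg_mem F hφ g
    have hw1 : w ∈ F.U 1 := F.anti hi (Wi_le F hi hw)
    have hyW : y ∈ Wi F φ P 1 := mem_Wi F hg (hφ g)
    have hwW : w ∈ Wi F φ P 1 := Wi_anti F hi hw
    have h2 := bch hk F (Wi F φ P 1) (Wi F φ P (i + 1)) (Wi_le F le_rfl)
      (bracket_WW F hk hφ hP le_rfl) (Wi_anti F (by omega)) (bracket_WW F hk hφ hP (by omega))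
      (Submodule.neg_mem _ hyW) hwW (by
        have h3 := bracket_WW F hk hφ hP (show 1 ≤ i + 1 by omega) w hwW _ h1
        have e : -y * w - w * -y = w * (y - w) - (y - w) * w := by noncomm_ring
        rw [e]; exact h3)
    set w' := Lg k N (E k N (-y) * E k N w) with hw'
    have hw'W : w' ∈ Wi F φ P (i + 1) := by
      have h4 := Submodule.sub_mem _ h2 h1
      have e : w' = w' - -y - w - (y - w) := by abel
      rw [e]; exact h4
    obtain ⟨g', hg', h5⟩ := ih (i + 1) (by omega) (by omega) w' hw'W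
    refine ⟨g * g', P.mul_mem hg hg', ?_⟩
    refine lg_eq F hk hφ hw1 ?_
    have h6 : E k N (-y) * E k N w - 1 ∈ F.U 1 := by
      have e : E k N (-y) * E k N w - 1 = (E k N (-y) - 1) * E k N w + (E k N w - 1) := by
        noncomm_ring
      rw [e]
      refine Submodule.add_mem _ ?_ (E_sub_one_mem hk F le_rfl hw1)
      simpa using F.mul (E_sub_one_mem hk F le_rfl (Submodule.neg_mem _ hy1)) (E_mem_U0 hk F hw1)
    rw [map_mul, ← E_lg F hk hφ g, ← E_lg F hk hφ g', h5, hw', E_Lg hk F h6, ← mul_assoc,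
      E_mul_neg hk F hy1, one_mul]

/-- Summary: the logarithms of the elements of a normal subgroup form a submodule which is stable
under brackets with logarithms. -/
theorem log_normal (hk : Good k N) (hφ : ∀ g, φ g - 1 ∈ F.U 1) (hP : P.Normal)
    (hnat : ∀ c : k, ∃ m : ℕ, (m : k) = c) :
    (∀ w, w ∈ Wi F φ P 1 ↔ ∃ g ∈ P, lg k N φ g = w) ∧
    (∀ q : Γ, ∀ y ∈ Wi F φ P 1, lg k N φ q * y - y * lg k N φ q ∈ Wi F φ P 1) := by
  refine ⟨fun w => ⟨fun hw => hit_exact F hk hφ hP hnat N 1 le_rfl (by omega) w hw, ?_⟩,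
    fun q => bracket_Wi F hk hφ hP q le_rfl⟩
  rintro ⟨g, hg, rfl⟩
  exact mem_Wi F hg (hφ g)

end grp

end Pool.Agent.H675R3
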