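import Pool.Agent.H675R3.GrpUB

set_option autoImplicit false
set_option linter.unusedVariables false

namespace Pool.Agent.H675R3

open Finset

section
variable {Γ : Type*} [Group Γ] {n : ℕ} {ρ : Γ →* Matrix (Fin n) (Fin n) ℤ} {d : Dat ρ}

/-- Artin-Rees for a single prime -/
lemma artin_rees {V : Type*} [AddCommGroup V] [Module.Finite ℤ V] (p : ℤ) (L : Submodule ℤ V) :
    ∃ e : ℕ, ∀ J : ℕ, e ≤ J → ∀ x ∈ L, (∃ y : V, x = p ^ J • y) → ∃ y ∈ L, x = p ^ (J - e) • y := by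
  obtain ⟨e, he⟩ := Ideal.exists_pow_inf_eq_pow_smul (R := ℤ) (M := V) (Ideal.span {p}) L
  refine ⟨e, fun J hJ x hx hy => ?_⟩
  have h1 := he J hJ
  have h2 : x ∈ (Ideal.span {p} ^ J • ⊤ : Submodule ℤ V) ⊓ L := by
    refine ⟨?_, hx⟩
    obtain ⟨y, rfl⟩ := hy
    exact Submodule.smul_mem_smul (Ideal.pow_mem_pow (Ideal.mem_span_singleton_self p) J) Submodule.mem_top
  rw [h1, Ideal.span_singleton_pow, Submodule.ideal_span_singleton_smul] at h2
  obtain ⟨y, hy, e⟩ := Submodule.mem_smul_pointwise_iff_exists _ _ _ |>.mp h2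
  exact ⟨y, hy.2, e.symm⟩

/-- congruence condition -/
lemma rk_eq_one_iff (J : ℕ) (g : Γ) :
    rk ρ (ZMod J) g = 1 ↔ ∃ y : Matrix (Fin n) (Fin n) ℤ, ρ g - 1 = (J : ℤ) • y := by
  have e : ∀ a b : Fin n, (1 : Matrix (Fin n) (Fin n) (ZMod J)) a b =
      (((1 : Matrix (Fin n) (Fin n) ℤ) a b : ℤ) : ZMod J) := by
    intro a b
    rw [Matrix.one_apply, Matrix.one_apply]; split_ifs <;> simp
  constructor
  · intro h
    have h1 : ∀ a b, ∃ y : ℤ, (ρ g - 1) a b = J * y := by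
      intro a b
      have h2 := congrFun (congrFun h a) b
      rw [rk_apply, e] at h2
      have h3 := (ZMod.intCast_eq_intCast_iff_dvd_sub _ _ _).mp h2.symm
      rw [Matrix.sub_apply]
      exact h3
    choose y hy using h1
    refine ⟨Matrix.of fun a b => y a b, ?_⟩
    ext a b
    rw [hy, Matrix.smul_apply, Matrix.of_apply, smul_eq_mul]
  · rintro ⟨y, hy⟩
    ext a b
    rw [rk_apply, e]
    apply ((ZMod.intCast_eq_intCast_iff_dvd_sub _ _ _).mpr _).symm
    have := congrFun (congrFun hy a) b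
    rw [Matrix.sub_apply] at this
    rw [this]
    exact ⟨y a b, by simp⟩

lemma rho_pow_mem (hρ : UniTri ρ) {i : ℕ} (hi : 1 ≤ i) {g : Γ} (hg : ρ g - 1 ∈ (matNF ℤ n).U i) (m : ℕ) :
    ρ (g ^ m) - 1 - (m : ℤ) • (ρ g - 1) ∈ (matNF ℤ n).U (i + 1) := by
  induction m with
  | zero => simp
  | succ m ih =>
    have h1 : ρ (g ^ m) - 1 ∈ (matNF ℤ n).U i := phi_pow_mem (matNF ℤ n) hρ hg m
    have e : ρ (g ^ (m + 1)) - 1 - ((m + 1 : ℕ) : ℤ) • (ρ g - 1) =
        (ρ (g ^ m) - 1 - (m : ℤ) • (ρ g - 1)) + (ρ (g ^ m) - 1) * (ρ g - 1) := by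
      rw [pow_succ, map_mul]
      push_cast
      rw [add_smul, one_smul]
      noncomm_ring
    rw [e]
    exact Submodule.add_mem _ ih ((matNF ℤ n).anti (by omega) ((matNF ℤ n).mul h1 hg))

lemma cong (hρ : UniTri ρ) (hinj : Function.Injective ρ) (p : ℕ)
    (hp : ∀ a : ℕ, Good (ZMod (p ^ a)) (n + 1)) (P : Subgroup Γ) (ℓ : ℕ) (hP : ∀ g, g ^ (p ^ ℓ) ∈ P) :
    ∀ dd i : ℕ, 1 ≤ i → n + 1 ≤ i + dd → ∃ J : ℕ, ∀ g, ρ g - 1 ∈ (matNF ℤ n).U i →
      rk ρ (ZMod (p ^ J)) g = 1 → g ∈ P := by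
  intro dd
  induction dd with
  | zero =>
    intro i hi hdd
    refine ⟨0, fun g hg _ => ?_⟩
    have h1 := (matNF ℤ n).zero_of_le hg (by omega)
    have h2 : ρ g = ρ 1 := by rw [map_one]; exact sub_eq_zero.mp h1
    rw [hinj h2]
    exact P.one_mem
  | succ dd ih =>
    intro i hi hdd
    obtain ⟨J', hJ'⟩ := ih (i + 1) (by omega) (by omega)
    -- the lattice
    let L : AddSubgroup (Matrix (Fin n) (Fin n) ℤ) :=
      { carrier := {M | ∃ g, ρ g - 1 ∈ (matNF ℤ n).U i ∧ M - (ρ g - 1) ∈ (matNF ℤ n).U (i + 1)}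
        zero_mem' := ⟨1, by simp, by simp⟩
        add_mem' := by
          rintro M M' ⟨g, h1, h2⟩ ⟨g', h1', h2'⟩
          refine ⟨g * g', phi_mul_mem (matNF ℤ n) hρ h1 h1', ?_⟩
          have e : M + M' - (ρ (g * g') - 1) = (M - (ρ g - 1)) + (M' - (ρ g' - 1)) -
            (ρ g - 1) * (ρ g' - 1) := by rw [map_mul]; noncomm_ring
          rw [e]
          exact Submodule.sub_mem _ (Submodule.add_mem _ h2 h2')
            ((matNF ℤ n).anti (by omega) ((matNF ℤ n).mul h1 h1'))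
        neg_mem' := by
          rintro M ⟨g, h1, h2⟩
          have h3 := phi_inv_mem (matNF ℤ n) hρ h1
          refine ⟨g⁻¹, h3, ?_⟩
          have h4 : ρ g * ρ g⁻¹ = 1 := by rw [← map_mul, mul_inv_cancel, map_one]
          have e : -M - (ρ g⁻¹ - 1) = -(M - (ρ g - 1)) + (ρ g - 1) * (ρ g⁻¹ - 1) := by
            rw [sub_mul, mul_sub, h4]; noncomm_ring
          rw [e]
          exact Submodule.add_mem _ (Submodule.neg_mem _ h2)
            ((matNF ℤ n).anti (by omega) ((matNF ℤ n).mul h1 h3)) }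
    obtain ⟨e, he⟩ := artin_rees (p : ℤ) (AddSubgroup.toIntSubmodule L)
    refine ⟨e + (J' + ℓ), fun g hg hg1 => ?_⟩
    obtain ⟨y, hy⟩ := (rk_eq_one_iff _ g).mp hg1
    obtain ⟨M', hM', hM'e⟩ := he (e + (J' + ℓ)) (by omega) (ρ g - 1)
      ⟨g, hg, by simp⟩ ⟨y, by rw [hy]; push_cast; rfl⟩
    rw [show e + (J' + ℓ) - e = J' + ℓ by omega] at hM'e
    obtain ⟨h, h1, h2⟩ := hM'
    set u := h ^ (p ^ (J' + ℓ)) with hu
    have huP : u ∈ P := by
      rw [hu, pow_add, mul_comm, pow_mul]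
      exact P.pow_mem (hP h) _
    have h3 := rho_pow_mem hρ hi h1 (p ^ (J' + ℓ))
    rw [← hu] at h3
    have h4 : ρ g - ρ u ∈ (matNF ℤ n).U (i + 1) := by
      have e1 : ρ g - ρ u = (ρ g - 1) - (p : ℤ) ^ (J' + ℓ) • (ρ h - 1) -
          (ρ u - 1 - ((p ^ (J' + ℓ) : ℕ) : ℤ) • (ρ h - 1)) := by push_cast; abel
      rw [e1]
      refine Submodule.sub_mem _ ?_ h3
      rw [hM'e, ← smul_sub]
      exact Submodule.smul_mem _ _ h2
    have h5 : g * u⁻¹ ∈ P := by
      apply hJ'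
      · have h6 : ρ u * ρ u⁻¹ = 1 := by rw [← map_mul, mul_inv_cancel, map_one]
        have e1 : ρ (g * u⁻¹) - 1 = (ρ g - ρ u) * ρ u⁻¹ := by rw [sub_mul, h6, map_mul]
        rw [e1]
        have := (matNF ℤ n).mul h4 (mem_U0 (matNF ℤ n) (hρ u⁻¹))
        simpa using this
      · have hk := hp J'
        have hku : rk ρ (ZMod (p ^ J')) u = 1 := by
          rw [← E_lg (matNF (ZMod (p ^ J')) n) hk (hρ.rk _) u, hu,
            lg_pow (matNF (ZMod (p ^ J')) n) hk (hρ.rk _)]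
          have e1 : (p ^ (J' + ℓ)) • lg (ZMod (p ^ J')) (n + 1) (rk ρ (ZMod (p ^ J'))) h = 0 := by
            rw [← Nat.cast_smul_eq_nsmul (ZMod (p ^ J')), pow_add, Nat.cast_mul, ZMod.natCast_self,
              zero_mul, zero_smul]
          rw [e1, E_zero hk (matNF (ZMod (p ^ J')) n)]
        have hkg : rk ρ (ZMod (p ^ J')) g = 1 := by
          rw [rk_eq_one_iff]
          refine ⟨(p : ℤ) ^ ℓ • M', ?_⟩
          rw [hM'e, smul_smul]
          push_cast
          rw [← pow_add]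
        have hku' : rk ρ (ZMod (p ^ J')) u⁻¹ = 1 := by
          have h6 : rk ρ (ZMod (p ^ J')) u * rk ρ (ZMod (p ^ J')) u⁻¹ = 1 := by
            rw [← map_mul, mul_inv_cancel, map_one]
          rwa [hku, one_mul] at h6
        rw [map_mul, hkg, hku', one_mul]
    have h7 := P.mul_mem h5 huP
    rwa [inv_mul_cancel_right] at h7

lemma brk_cast {h : ℕ} (c : Fin h → Fin h → Fin h → ℤ) {k k' : Type*} [CommRing k] [CommRing k']
    (f : k →+* k') (x y : Fin h → k) : (fun i => f (brk c x y i)) = brk c (fun i => f (x i)) (fun i => f (y i)) := by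
  funext r
  unfold brk
  rw [map_sum]
  refine sum_congr rfl fun i _ => ?_
  rw [map_sum]
  refine sum_congr rfl fun j _ => ?_
  rw [map_mul, map_mul, map_intCast]

/-- **Lower bound, group part** -/
theorem lb_group (hρ : UniTri ρ) (hinj : Function.Injective ρ) (p : ℕ) (hp : p.Prime)
    (hpQ : ¬ p ∣ d.Q) (P : Subgroup Γ) (hPn : P.Normal) (hP0 : P.index ≠ 0) (ℓ : ℕ)
    (hP : ∀ g, g ^ (p ^ ℓ) ∈ P) :
    ∃ b : AddSubgroup (Fin d.h → ℤ), (∀ x ∈ b, ∀ y, brk d.c y x ∈ b) ∧ b.index ≤ P.index ∧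
      b.index ≠ 0 ∧ (∃ J : ℕ, ∀ x : Fin d.h → ℤ, (p ^ J) • x ∈ b) ∧
      ∀ z, z ∉ P → ∀ (m : ℤ) (z0 : Fin d.h → ℤ), (∀ i, d.zeta ℚ z i = m * z0 i) → z0 ∉ b := by
  have hok : ∀ a : ℕ, d.Ok (ZMod (p ^ a)) := by
    intro a
    unfold Dat.Ok
    rw [ZMod.isUnit_iff_coprime]
    exact Nat.Coprime.pow_right a (((Nat.Prime.coprime_iff_not_dvd hp).mpr hpQ).symm)
  obtain ⟨J, hJ⟩ := cong hρ hinj p (fun a => (hok a).good) P ℓ hP (n + 1) 1 le_rfl (by omega)
  have hJ' : ∀ g, rk ρ (ZMod (p ^ J)) g = 1 → g ∈ P := fun g hg => hJ g (hρ g) hg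
  have h := hok J
  have hpJ : NeZero (p ^ J) := ⟨(Nat.pow_pos hp.pos).ne'⟩
  set k := ZMod (p ^ J) with hkdef
  have hnat : ∀ c : k, ∃ m : ℕ, (m : k) = c := fun c => ⟨c.val, ZMod.natCast_zmod_val c⟩
  set F := matNF k n with hF
  set φ := rk ρ k with hφ
  have hφ1 : ∀ g, φ g - 1 ∈ F.U 1 := hρ.rk k
  obtain ⟨hW1, hW2⟩ := log_normal F h.good hφ1 hPn hnat
  obtain ⟨hT1, hT2⟩ := log_normal F h.good hφ1 (P := (⊤ : Subgroup Γ)) inferInstance hnat
  have hmatT : ∀ x : Fin d.h → k, d.mat k x ∈ Wi F φ ⊤ 1 := by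
    intro x
    rw [Dat.mat_apply]
    exact Submodule.sum_mem _ fun i _ => Submodule.smul_mem _ _ (mem_Wi F (Subgroup.mem_top _) (hφ1 _))
  have hmatlg : ∀ x : Fin d.h → k, ∃ q : Γ, lg k (n + 1) φ q = d.mat k x := by
    intro x
    obtain ⟨q, _, hq⟩ := (hT1 _).mp (hmatT x)
    exact ⟨q, hq⟩
  let cast : (Fin d.h → ℤ) →+ (Fin d.h → k) :=
    { toFun := fun x i => (x i : k)
      map_zero' := by funext i; simp
      map_add' := fun x y => by funext i; simp }
  have hcast : ∀ x, cast x = fun i => (x i : k) := fun _ => rfl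
  let b : AddSubgroup (Fin d.h → ℤ) :=
    (Wi F φ P 1).toAddSubgroup.comap (((d.mat k).toAddMonoidHom).comp cast)
  have hb : ∀ x, x ∈ b ↔ d.mat k (cast x) ∈ Wi F φ P 1 := fun x => Iff.rfl
  refine ⟨b, ?_, ?_⟩
  · intro x hx y
    rw [hb] at hx ⊢
    have e : cast (brk d.c y x) = brk d.c (cast y) (cast x) := by
      have := brk_cast d.c (Int.castRingHom k) y x
      exact this
    rw [e, Dat.mat_brk h]
    obtain ⟨q, hq⟩ := hmatlg (cast y)
    rw [← hq]
    exact hW2 q _ hx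
  · choose qq hqq using fun x : (Fin d.h → ℤ) ⧸ b => hmatlg (cast x.out)
    have hinj' : Function.Injective (fun x : (Fin d.h → ℤ) ⧸ b => (QuotientGroup.mk (qq x) : Γ ⧸ P)) := by
      intro x y hxy
      have h1 : (qq x)⁻¹ * qq y ∈ P := QuotientGroup.eq.mp hxy
      set u := (qq x)⁻¹ * qq y with hu
      have hqy : qq y = qq x * u := by rw [hu, mul_inv_cancel_left]
      have huW : lg k (n + 1) φ u ∈ Wi F φ P 1 := mem_Wi F h1 (hφ1 u)
      have h2 := bch h.good F (Wi F φ ⊤ 1) (Wi F φ P 1) (Wi_le F le_rfl)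
        (bracket_WW F h.good hφ1 inferInstance le_rfl)
        (by
          refine Submodule.span_mono ?_
          rintro _ ⟨g, hg, h3, h4⟩
          exact ⟨g, Subgroup.mem_top g, h3, h4⟩)
        (by
          intro x hx y hy
          obtain ⟨q, _, hq⟩ := (hT1 _).mp hx
          rw [← hq]
          exact hW2 q _ hy)
        (x := lg k (n + 1) φ (qq x)) (y := lg k (n + 1) φ u)
        (mem_Wi F (Subgroup.mem_top _) (hφ1 _)) (mem_Wi F (Subgroup.mem_top _) (hφ1 _))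
        (hW2 _ _ huW)
      rw [E_lg F h.good hφ1, E_lg F h.good hφ1, ← map_mul, ← hqy] at h2
      have e3 : Lg k (n + 1) (φ (qq y)) = lg k (n + 1) φ (qq y) := rfl
      rw [e3, hqq, hqq] at h2
      have h3 := Submodule.add_mem _ h2 huW
      rw [sub_add_cancel, ← map_sub] at h3
      have h4 : y.out - x.out ∈ b := by
        rw [hb, map_sub]
        exact h3
      have h5 : (QuotientAddGroup.mk x.out : (Fin d.h → ℤ) ⧸ b) = QuotientAddGroup.mk y.out := by
        rw [QuotientAddGroup.eq, neg_add_eq_sub]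
        exact h4
      rwa [QuotientAddGroup.out_eq', QuotientAddGroup.out_eq'] at h5
    have hfin : Finite (Γ ⧸ P) := by
      rw [Subgroup.index] at hP0
      exact (Nat.card_ne_zero.mp hP0).2
    have hfin' : Finite ((Fin d.h → ℤ) ⧸ b) := Finite.of_injective _ hinj'
    refine ⟨?_, ?_, ⟨J, ?_⟩, ?_⟩
    · exact Nat.card_le_card_of_injective _ hinj'
    · rw [AddSubgroup.index]
      exact Nat.card_pos.ne'
    · intro x
      have hz : ((p ^ J : ℕ) : k) = 0 := ZMod.natCast_self (p ^ J)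
      rw [hb, map_nsmul, map_nsmul, ← Nat.cast_smul_eq_nsmul k, hz, zero_smul]
      exact Submodule.zero_mem _
    · intro z hz m z0 hz0 hmem
      apply hz
      rw [hb] at hmem
      have h1 : ∀ i, d.zeta k z i = m * z0 i := by
        intro i
        have h2 : d.zeta d.LL z i = m * z0 i := by
          apply Dat.toQ_inj (d := d)
          rw [Dat.zeta_map d.ok_LL, map_mul, map_intCast, map_intCast]
          exact hz0 i
        have h3 := congrArg (Dat.toK h) h2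
        rwa [Dat.zeta_map d.ok_LL, map_mul, map_intCast, map_intCast] at h3
      have h2 : lg k (n + 1) φ z = (m : k) • d.mat k (cast z0) := by
        have h3 := Dat.lg_mat h z
        rw [← map_smul]
        have h4 : d.zeta k z = (m : k) • cast z0 := by
          funext i
          rw [h1 i]; rfl
        rw [← h4]
        exact h3
      have h3 : lg k (n + 1) φ z ∈ Wi F φ P 1 := by
        rw [h2]; exact Submodule.smul_mem _ _ hmem
      obtain ⟨g, hg, hgz⟩ := (hW1 _).mp h3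
      have h4 : φ g = φ z := by
        rw [← E_lg F h.good hφ1 g, ← E_lg F h.good hφ1 z, hgz]
      have h5 : g⁻¹ * z ∈ P := by
        apply hJ'
        change φ (g⁻¹ * z) = 1
        rw [map_mul, ← h4, ← map_mul, inv_mul_cancel, map_one]
      have h6 := P.mul_mem hg h5
      rwa [mul_inv_cancel_left] at h6

end

end Pool.Agent.H675R3
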