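import Pool.Agent.H675R3.Transfer

set_option autoImplicit false
set_option linter.unusedVariables false

namespace Pool.Agent.H675R3

open Finset

section
variable {Γ : Type*} [Group Γ] {n : ℕ} {ρ : Γ →* Matrix (Fin n) (Fin n) ℤ} {d : Dat ρ}
  {k : Type*} [CommRing k]

lemma Dat.mat_mem (hρ : UniTri ρ) (x : Fin d.h → k) : d.mat k x ∈ (matNF k n).U 1 := by
  rw [Dat.mat_apply]
  refine Submodule.sum_mem _ fun i _ => Submodule.smul_mem _ _ ?_
  exact lg_mem (matNF k n) (hρ.rk k) (d.g i)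

lemma Dat.zeta_eq (h : d.Ok k) {g : Γ} {x : Fin d.h → k} (hx : lgk ρ k g = d.mat k x) :
    d.zeta k g = x := by
  apply Dat.mat_inj h
  rw [← Dat.lg_mat h, hx]

lemma Dat.zeta_one (h : d.Ok k) (hρ : UniTri ρ) : d.zeta k 1 = 0 := by
  refine Dat.zeta_eq h ?_
  rw [map_zero]
  exact lg_one (matNF k n) h.good (hρ.rk k)

lemma Dat.zeta_inv (h : d.Ok k) (hρ : UniTri ρ) (g : Γ) : d.zeta k g⁻¹ = - d.zeta k g := by
  refine Dat.zeta_eq h ?_
  rw [map_neg, ← Dat.lg_mat h]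
  exact lg_inv (matNF k n) h.good (hρ.rk k) g

lemma Dat.zeta_pow (h : d.Ok k) (hρ : UniTri ρ) (g : Γ) (m : ℕ) : d.zeta k (g ^ m) = m • d.zeta k g := by
  refine Dat.zeta_eq h ?_
  rw [map_nsmul, ← Dat.lg_mat h]
  exact lg_pow (matNF k n) h.good (hρ.rk k) g m

lemma brk_anti (h : d.Ok k) (x y : Fin d.h → k) : brk d.c x y = - brk d.c y x := by
  apply Dat.mat_inj h
  rw [map_neg, Dat.mat_brk h, Dat.mat_brk h, neg_sub]

variable {I : Submodule k (Fin d.h → k)}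

lemma IM_mem (h : d.Ok k) (x : Fin d.h → k) : d.mat k x ∈ I.map (d.mat k) ↔ x ∈ I := by
  constructor
  · rintro ⟨y, hy, e⟩
    rwa [← Dat.mat_inj h e]
  · intro hx; exact ⟨x, hx, rfl⟩

lemma LM_br (h : d.Ok k) : ∀ x ∈ LinearMap.range (d.mat k), ∀ y ∈ LinearMap.range (d.mat k),
    x * y - y * x ∈ LinearMap.range (d.mat k) := by
  rintro _ ⟨x, rfl⟩ _ ⟨y, rfl⟩
  exact ⟨brk d.c x y, Dat.mat_brk h x y⟩

lemma LI_br (h : d.Ok k) (hI : IsCI d.c (I : Set (Fin d.h → k))) :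
    ∀ x ∈ LinearMap.range (d.mat k), ∀ y ∈ I.map (d.mat k), x * y - y * x ∈ I.map (d.mat k) := by
  rintro _ ⟨x, rfl⟩ _ ⟨y, hy, rfl⟩
  exact ⟨brk d.c x y, hI y hy x, Dat.mat_brk h x y⟩

/-- additivity of the coordinates modulo an ideal -/
lemma zeta_mul (h : d.Ok k) (hρ : UniTri ρ) (hI : IsCI d.c (I : Set (Fin d.h → k))) (g g' : Γ)
    (hb : brk d.c (d.zeta k g) (d.zeta k g') ∈ I) :
    d.zeta k (g * g') - d.zeta k g - d.zeta k g' ∈ I := by
  have h1 := bch h.good (matNF k n) (LinearMap.range (d.mat k)) (I.map (d.mat k))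
    (by rintro _ ⟨x, rfl⟩; exact Dat.mat_mem hρ x) (LM_br h)
    (by rintro _ ⟨x, _, rfl⟩; exact ⟨x, rfl⟩) (LI_br h hI)
    (x := lgk ρ k g) (y := lgk ρ k g') (by rw [Dat.lg_mat h]; exact ⟨_, rfl⟩)
    (by rw [Dat.lg_mat h]; exact ⟨_, rfl⟩)
    (by rw [Dat.lg_mat h, Dat.lg_mat h, ← Dat.mat_brk h]; exact (IM_mem h _).mpr hb)
  have e1 : E k (n + 1) (lgk ρ k g) = rk ρ k g := E_lg (matNF k n) h.good (hρ.rk k) g
  have e2 : E k (n + 1) (lgk ρ k g') = rk ρ k g' := E_lg (matNF k n) h.good (hρ.rk k) g'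
  rw [e1, e2, ← map_mul] at h1
  have e3 : Lg k (n + 1) (rk ρ k (g * g')) = lgk ρ k (g * g') := rfl
  rw [e3, Dat.lg_mat h, Dat.lg_mat h, Dat.lg_mat h, ← map_sub, ← map_sub] at h1
  exact (IM_mem h _).mp h1

lemma zeta_conj (h : d.Ok k) (hρ : UniTri ρ) (hI : IsCI d.c (I : Set (Fin d.h → k))) (q g : Γ)
    (hg : d.zeta k g ∈ I) : d.zeta k (q * g * q⁻¹) ∈ I := by
  have h1 : lgk ρ k (q * g * q⁻¹) ∈ I.map (d.mat k) := by
    have e : lgk ρ k (q * g * q⁻¹) = E k (n + 1) (lgk ρ k q) * lgk ρ k g * E k (n + 1) (- lgk ρ k q) :=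
      lg_conj (matNF k n) h.good (hρ.rk k) q g
    have hq : lgk ρ k q ∈ (matNF k n).U 1 := lg_mem (matNF k n) (hρ.rk k) q
    rw [e, E_conj h.good (matNF k n) hq]
    refine Submodule.sum_mem _ fun m hm => Submodule.smul_mem _ _ ?_
    clear hm
    induction m with
    | zero =>
      rw [pow_zero, Module.End.one_apply, Dat.lg_mat h]
      exact (IM_mem h _).mpr hg
    | succ m ih =>
      rw [pow_succ', Module.End.mul_apply, ad_apply]
      exact LI_br h hI _ (by rw [Dat.lg_mat h]; exact ⟨_, rfl⟩) _ ih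
  rw [Dat.lg_mat h] at h1
  exact (IM_mem h _).mp h1

/-- the normal subgroup attached to an ideal -/
noncomputable def nsub (h : d.Ok k) (hρ : UniTri ρ) (hI : IsCI d.c (I : Set (Fin d.h → k))) :
    Subgroup Γ where
  carrier := {g | d.zeta k g ∈ I}
  one_mem' := by
    change d.zeta k 1 ∈ I
    rw [Dat.zeta_one h hρ]
    exact I.zero_mem
  mul_mem' := fun {g g'} hg hg' => by
    have hg : d.zeta k g ∈ I := hg
    have hg' : d.zeta k g' ∈ I := hg'
    have h1 := zeta_mul h hρ hI g g' (hI _ hg' _)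
    change d.zeta k (g * g') ∈ I
    have h2 := I.add_mem (I.add_mem h1 hg') hg
    have e : d.zeta k (g * g') - d.zeta k g - d.zeta k g' + d.zeta k g' + d.zeta k g =
      d.zeta k (g * g') := by abel
    rwa [e] at h2
  inv_mem' := fun {g} hg => by
    change d.zeta k g⁻¹ ∈ I
    rw [Dat.zeta_inv h hρ]
    exact I.neg_mem hg

lemma mem_nsub (h : d.Ok k) (hρ : UniTri ρ) (hI : IsCI d.c (I : Set (Fin d.h → k))) (g : Γ) :
    g ∈ nsub h hρ hI ↔ d.zeta k g ∈ I := Iff.rfl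

/-- **Upper bound, group part** -/
theorem ub_group (h : d.Ok k) (hρ : UniTri ρ) (hI : IsCI d.c (I : Set (Fin d.h → k)))
    [Finite ((Fin d.h → k) ⧸ I)] (g : Γ) (hg : d.zeta k g ∉ I) :
    ∃ P : Subgroup Γ, P.Normal ∧ P.index ≠ 0 ∧ P.index ≤ Nat.card ((Fin d.h → k) ⧸ I) ∧ g ∉ P := by
  have hN : (nsub h hρ hI).Normal := ⟨fun g hg q => zeta_conj h hρ hI q g hg⟩
  have hinj : Function.Injective (fun x : Γ ⧸ nsub h hρ hI =>
      (Submodule.Quotient.mk (d.zeta k x.out) : (Fin d.h → k) ⧸ I)) := by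
    intro x y hxy
    have h1 : d.zeta k x.out - d.zeta k y.out ∈ I := (Submodule.Quotient.eq I).mp hxy
    have h2 : x.out⁻¹ * y.out ∈ nsub h hρ hI := by
      rw [mem_nsub]
      have h3 : brk d.c (d.zeta k x.out⁻¹) (d.zeta k y.out) ∈ I := by
        have h4 : brk d.c (d.zeta k x.out⁻¹) (d.zeta k y.out) =
            brk d.c (d.zeta k x.out) (d.zeta k x.out - d.zeta k y.out) := by
          apply Dat.mat_inj h
          rw [Dat.zeta_inv h hρ, Dat.mat_brk h, Dat.mat_brk h, map_neg, map_sub]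
          noncomm_ring
        rw [h4]
        exact hI _ h1 _
      have h5 := zeta_mul h hρ hI x.out⁻¹ y.out h3
      rw [Dat.zeta_inv h hρ] at h5
      have h6 := I.sub_mem h5 h1
      have e : d.zeta k (x.out⁻¹ * y.out) - - d.zeta k x.out - d.zeta k y.out -
        (d.zeta k x.out - d.zeta k y.out) = d.zeta k (x.out⁻¹ * y.out) := by abel
      rwa [e] at h6
    have h3 := QuotientGroup.eq.mpr h2
    rwa [QuotientGroup.out_eq', QuotientGroup.out_eq'] at h3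
  have hfin : Finite (Γ ⧸ nsub h hρ hI) := Finite.of_injective _ hinj
  refine ⟨nsub h hρ hI, hN, ?_, ?_, hg⟩
  · rw [Subgroup.index]
    exact Nat.card_pos.ne'
  · exact Nat.card_le_card_of_injective _ hinj

end

end Pool.Agent.H675R3
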