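import Pool.Agent.H675R3.AlgD

set_option autoImplicit false
set_option linter.unusedVariables false

namespace Pool.Agent.H675R3

open Finset TensorProduct

lemma brk_lin {h : ℕ} (c : Fin h → Fin h → Fin h → ℤ) {k : Type*} [CommRing k] (x y : Fin h → k) :
    brk c x y = ∑ i, ∑ j, (x i * y j) • (fun r => (c i j r : k)) := by
  funext r
  unfold brk
  rw [Finset.sum_apply]
  refine sum_congr rfl fun i _ => ?_
  rw [Finset.sum_apply]
  refine sum_congr rfl fun j _ => ?_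
  rfl

/-- transport of separation along an isomorphism -/
theorem Sep.transport {h₁ h₂ : ℕ} {c₁ : Fin h₁ → Fin h₁ → Fin h₁ → ℤ}
    {c₂ : Fin h₂ → Fin h₂ → Fin h₂ → ℤ} {k : ℕ} (Θ : (Fin h₁ → ℂ) ≃ₗ[ℂ] (Fin h₂ → ℂ))
    (hΘ : ∀ x y, Θ (brk c₁ x y) = brk c₂ (Θ x) (Θ y)) (h : Sep c₁ k ℂ) : Sep c₂ k ℂ := by
  intro x₂ hx₂
  have h1 : Θ.symm x₂ = 0 := by
    apply h
    intro I hI hk
    have h2 : x₂ ∈ I.map (Θ : (Fin h₁ → ℂ) →ₗ[ℂ] (Fin h₂ → ℂ)) := by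
      apply hx₂
      · rintro _ ⟨x, hx, rfl⟩ y
        refine ⟨brk c₁ (Θ.symm y) x, hI x hx _, ?_⟩
        change Θ _ = brk c₂ y (Θ x)
        rw [hΘ, Θ.apply_symm_apply]
      · rw [← LinearEquiv.finrank_eq (Submodule.Quotient.equiv I _ Θ rfl)]
        exact hk
    obtain ⟨x, hx, rfl⟩ := h2
    change Θ.symm (Θ x) ∈ I
    rw [Θ.symm_apply_apply]
    exact hx
  rw [← Θ.apply_symm_apply x₂, h1, map_zero]

/-- coordinates on the complexification of a rational Lie algebra -/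
theorem exists_coord {L : Type*} [LieRing L] [LieAlgebra ℚ L] {h : ℕ}
    (c : Fin h → Fin h → Fin h → ℤ) (b : Module.Basis (Fin h) ℚ L)
    (hb : ∀ i j, ⁅b i, b j⁆ = ∑ r, (c i j r : ℚ) • b r) :
    ∃ Ψ : (Fin h → ℂ) ≃ₗ[ℂ] (ℂ ⊗[ℚ] L), ∀ x y, Ψ (brk c x y) = ⁅Ψ x, Ψ y⁆ := by
  let B := Algebra.TensorProduct.basis ℂ b
  let Ψ := B.equivFun.symm
  have hΨ : ∀ x, Ψ x = ∑ i, x i • ((1 : ℂ) ⊗ₜ[ℚ] b i) := by
    intro x
    rw [Module.Basis.equivFun_symm_apply]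
    refine sum_congr rfl fun i _ => ?_
    rw [Algebra.TensorProduct.basis_apply]
  refine ⟨Ψ, fun x y => ?_⟩
  have h1 : ∀ i j, ⁅((1 : ℂ) ⊗ₜ[ℚ] b i), ((1 : ℂ) ⊗ₜ[ℚ] b j)⁆ = Ψ (fun r => (c i j r : ℂ)) := by
    intro i j
    rw [LieAlgebra.ExtendScalars.bracket_tmul, hb, hΨ, TensorProduct.tmul_sum]
    refine sum_congr rfl fun r _ => ?_
    rw [TensorProduct.tmul_smul, TensorProduct.smul_tmul', mul_one, TensorProduct.smul_tmul']
    congr 1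
  rw [brk_lin, map_sum, hΨ x, hΨ y, sum_lie]
  refine sum_congr rfl fun i _ => ?_
  rw [map_sum, lie_sum]
  refine sum_congr rfl fun j _ => ?_
  rw [map_smul, smul_lie, lie_smul, h1, smul_smul]

end Pool.Agent.H675R3
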