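import Pool.Agent.H675R3.Exp

set_option autoImplicit false
set_option linter.unusedVariables false

namespace Pool.Agent.H675R3

open Finset Polynomial

section poly
variable (k : Type*) [CommRing k] (M : ℕ)

noncomputable def PP : k[X] := ∑ m ∈ range M, C ((-1) ^ m * inv k (m + 1)) * X ^ (m + 1)

noncomputable def QQ : k[X] := ∑ j ∈ range (M + 1), C (ifac k j) * PP k M ^ j

variable {k M}

lemma X_dvd_PP : (X : k[X]) ∣ PP k M := by
  unfold PP
  refine dvd_sum fun m _ => ?_
  rw [pow_succ']
  exact (dvd_mul_right _ _).mul_left _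

lemma PP_deriv (hk : Good k (M + 1)) : (1 + X) * derivative (PP k M) = 1 - (-X) ^ M := by
  have h1 : derivative (PP k M) = ∑ m ∈ range M, (-X : k[X]) ^ m := by
    unfold PP
    rw [derivative_sum]
    refine sum_congr rfl fun m hm => ?_
    rw [derivative_C_mul_X_pow]
    have h2 := hk.inv_mul (m + 1) (by omega) (by
      have := mem_range.mp hm
      exact le_bd (by omega))
    rw [mul_assoc, h2, mul_one, add_tsub_cancel_right, neg_pow (X : k[X]) m, C_pow, C_neg, C_1]
  rw [h1]
  have := mul_neg_geom_sum (-X : k[X]) M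
  rwa [sub_neg_eq_add] at this

lemma QQ_deriv (hk : Good k (M + 1)) :
    derivative (QQ k M) = (QQ k M - C (ifac k M) * PP k M ^ M) * derivative (PP k M) := by
  unfold QQ
  rw [derivative_sum, Finset.sum_range_succ', Finset.sum_range_succ (n := M)]
  simp only [pow_zero, mul_one, derivative_C, add_zero, add_sub_cancel_right]
  rw [Finset.sum_mul]
  refine sum_congr rfl fun j hj => ?_
  have h2 := hk.ifac_succ j (by
      have := mem_range.mp hj
      exact le_bd (by omega))
  rw [derivative_C_mul, derivative_pow, add_tsub_cancel_right, ← h2, C_mul]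
  push_cast
  simp only [C_add, C_1, map_natCast]
  ring

lemma QQ_coeff_rec (hk : Good k (M + 1)) (d : ℕ) (hd : d < M) :
    (QQ k M).coeff (d + 1) * ((d : k) + 1) = (1 - (d : k)) * (QQ k M).coeff d := by
  have h1 : (1 + X) * derivative (QQ k M) =
      (QQ k M - C (ifac k M) * PP k M ^ M) * (1 - (-X) ^ M) := by
    rw [QQ_deriv hk, ← PP_deriv hk]; ring
  have h2 : (X : k[X]) ^ M ∣ (1 + X) * derivative (QQ k M) - QQ k M := by
    rw [h1]
    have h3 : (QQ k M - C (ifac k M) * PP k M ^ M) * (1 - (-X) ^ M) - QQ k M =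
        - (C (ifac k M) * PP k M ^ M) * (1 - (-X) ^ M) - QQ k M * ((-1) ^ M * X ^ M) := by
      rw [neg_pow (X : k[X]) M]; ring
    rw [h3]
    refine dvd_sub ?_ ?_
    · exact (Dvd.dvd.mul_left (pow_dvd_pow_of_dvd X_dvd_PP M) _).neg_right.mul_right _
    · exact (dvd_mul_left _ _).mul_left _
  have h4 := (X_pow_dvd_iff.mp h2) d hd
  rw [coeff_sub, add_mul, one_mul, coeff_add, coeff_derivative, sub_eq_zero] at h4
  rcases d with _ | d
  · rw [coeff_X_mul_zero] at h4
    simpa using h4
  · rw [coeff_X_mul, coeff_derivative] at h4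
    push_cast at h4 ⊢
    linear_combination h4

lemma QQ_eq (hk : Good k (M + 1)) : (X : k[X]) ^ (M + 1) ∣ QQ k M - (1 + X) := by
  rw [X_pow_dvd_iff]
  have h0 : (QQ k M).coeff 0 = 1 := by
    unfold QQ
    rw [finsetSum_coeff, Finset.sum_eq_single 0]
    · simp [ifac_zero]
    · intro j _ hj
      obtain ⟨R, hR⟩ : (X : k[X]) ∣ PP k M ^ j := (X_dvd_PP).pow hj
      rw [hR, coeff_C_mul, mul_comm X R, coeff_mul_X_zero, mul_zero]
    · intro h; simp at h
  have key : ∀ d, d < M + 1 → (QQ k M).coeff d = (1 + X : k[X]).coeff d := by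
    intro d
    induction d with
    | zero => intro _; rw [h0]; simp
    | succ d ih =>
      intro hd
      have h1 := QQ_coeff_rec hk d (by omega)
      rw [ih (by omega)] at h1
      have hu : IsUnit ((d : k) + 1) := by
        have := hk (d + 1) (by omega) (le_bd (by omega))
        push_cast at this
        exact this
      apply hu.mul_right_cancel
      rw [h1]
      rcases d with _ | _ | d
      · simp [coeff_one, coeff_X]
      · simp [coeff_one, coeff_X]
      · simp [coeff_one, coeff_X]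
  intro d hd
  rw [coeff_sub, key d hd, sub_self]

end poly

section
variable {k A : Type*} [CommRing k] [Ring A] [Algebra k A] {N : ℕ}

lemma E_Lg (hk : Good k N) (F : NF k A N) {u : A} (hu : u - 1 ∈ F.U 1) : E k N (Lg k N u) = u := by
  obtain ⟨M, rfl⟩ : ∃ M, N = M + 1 := ⟨N - 1, by have := F.pos; omega⟩
  obtain ⟨R, hR⟩ := QQ_eq hk
  have h1 : aeval (u - 1) (PP k M) = Lg k (M + 1) u := by
    unfold PP Lg
    rw [map_sum, Finset.sum_Ico_eq_sum_range]
    refine sum_congr (by simp) fun m hm => ?_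
    rw [map_mul, map_pow, aeval_X, aeval_C, ← Algebra.smul_def, add_comm 1 m, pow_add (-1 : k) (m+1) 1,
      pow_add (-1 : k) m 1]
    congr 1
    ring
  have h2 : aeval (u - 1) (QQ k M) = E k (M + 1) (Lg k (M + 1) u) := by
    unfold QQ E
    rw [map_sum]
    refine sum_congr rfl fun m hm => ?_
    rw [map_mul, map_pow, h1, aeval_C, ← Algebra.smul_def]
  have h3 := congrArg (aeval (u - 1)) hR
  rw [map_sub, h2, map_mul, map_pow, aeval_X, F.pow_eq_zero hu le_rfl, zero_mul, map_add, map_one,
    aeval_X, sub_eq_zero] at h3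
  rw [h3]
  abel

lemma Lg_E (hk : Good k N) (F : NF k A N) {a : A} (ha : a ∈ F.U 1) : Lg k N (E k N a) = a := by
  have h1 := E_sub_one_mem hk F le_rfl ha
  exact E_inj hk F (Lg_mem F le_rfl h1) ha (E_Lg hk F h1)

lemma Lg_inj (hk : Good k N) (F : NF k A N) {u v : A} (hu : u - 1 ∈ F.U 1) (hv : v - 1 ∈ F.U 1)
    (h : Lg k N u = Lg k N v) : u = v := by
  rw [← E_Lg hk F hu, ← E_Lg hk F hv, h]

lemma mem_of_Lg_mem (hk : Good k N) (F : NF k A N) {u : A} {i : ℕ} (hi : 1 ≤ i)
    (hu : u - 1 ∈ F.U 1) (h : Lg k N u ∈ F.U i) : u - 1 ∈ F.U i := by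
  have := E_sub_one_mem hk F hi h
  rwa [E_Lg hk F hu] at this

end

section nat
variable {k A k' A' : Type*} [CommRing k] [Ring A] [Algebra k A] [CommRing k'] [Ring A']
  [Algebra k' A'] {N : ℕ}

lemma map_inv' (hk : Good k N) (f : k →+* k') (m : ℕ) (h0 : 0 < m) (hm : m ≤ 4 * N * N + 4) :
    f (inv k m) = inv k' m := by
  have h1 := hk.inv_mul m h0 hm
  have h2 := congrArg f h1
  rw [map_mul, map_natCast, map_one] at h2
  have hu : IsUnit (m : k') := IsUnit.of_mul_eq_one _ (by rw [mul_comm]; exact h2)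
  exact hu.mul_right_cancel (h2.trans (Ring.inverse_mul_cancel _ hu).symm)

lemma map_ifac (hk : Good k N) (f : k →+* k') (m : ℕ) (hm : m ≤ 4 * N * N + 4) :
    f (ifac k m) = ifac k' m := by
  have h1 := hk.ifac_mul m hm
  have h2 := congrArg f h1
  rw [map_mul, map_natCast, map_one] at h2
  have hu : IsUnit (m.factorial : k') := IsUnit.of_mul_eq_one _ (by rw [mul_comm]; exact h2)
  exact hu.mul_right_cancel (h2.trans (Ring.inverse_mul_cancel _ hu).symm)

lemma Good.map (hk : Good k N) (f : k →+* k') : Good k' N := fun m h0 hm => by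
  have := (hk m h0 hm).map f
  rwa [map_natCast] at this

/-- naturality of the logarithm under a semilinear ring homomorphism -/
lemma map_Lg (hk : Good k N) (f : k →+* k') (g : A →+* A')
    (hfg : ∀ (c : k) (a : A), g (c • a) = f c • g a) (u : A) :
    g (Lg k N u) = Lg k' N (g u) := by
  unfold Lg
  rw [map_sum]
  refine sum_congr rfl fun m hm => ?_
  have h := mem_Ico.mp hm
  rw [hfg, map_mul, map_pow, map_neg, map_one, map_inv' hk f m (by omega) (le_bd (by omega)),
    map_pow, map_sub, map_one]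

lemma map_E (hk : Good k N) (f : k →+* k') (g : A →+* A')
    (hfg : ∀ (c : k) (a : A), g (c • a) = f c • g a) (u : A) :
    g (E k N u) = E k' N (g u) := by
  unfold E
  rw [map_sum]
  refine sum_congr rfl fun m hm => ?_
  have h := mem_range.mp hm
  rw [hfg, map_ifac hk f m (le_bd (by omega)), map_pow]

end nat

end Pool.Agent.H675R3
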