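import Pool.Agent.H675R3.GrpLB

set_option autoImplicit false
set_option linter.unusedVariables false

namespace Pool.Agent.H675R3

open Finset

section
variable {Γ : Type*} [Group Γ] {n : ℕ} {ρ : Γ →* Matrix (Fin n) (Fin n) ℤ}

/-- the congruence filtration of the group by depth of the unipotent part -/
def depthSub (hρ : UniTri ρ) (i : ℕ) : Subgroup Γ where
  carrier := {g | ρ g - 1 ∈ (matNF ℤ n).U (i + 1)}
  one_mem' := by
    change ρ 1 - 1 ∈ (matNF ℤ n).U (i + 1)
    rw [map_one, sub_self]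
    exact Submodule.zero_mem _
  mul_mem' := fun {a b} ha hb => phi_mul_mem (matNF ℤ n) hρ ha hb
  inv_mem' := fun {a} ha => phi_inv_mem (matNF ℤ n) hρ ha

/-- groups of integral unitriangular matrices are nilpotent -/
theorem isNilpotent_of_uniTri (hρ : UniTri ρ) (hinj : Function.Injective ρ) : Group.IsNilpotent Γ := by
  rw [Subgroup.nilpotent_iff_finite_descending_central_series]
  refine ⟨n + 1, depthSub hρ, ⟨?_, ?_⟩, ?_⟩
  · rw [eq_top_iff]
    rintro g -
    exact hρ g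
  · intro x i hx g
    have h1 : ρ (g * x * g⁻¹ * x⁻¹) - 1 ∈ (matNF ℤ n).U (i + 1 + 1) := comm_mem_U (matNF ℤ n) hρ hx
    have h2 := phi_inv_mem (matNF ℤ n) hρ h1
    have e : (g * x * g⁻¹ * x⁻¹)⁻¹ = x * g * x⁻¹ * g⁻¹ := by group
    rw [e] at h2
    exact h2
  · rw [eq_bot_iff]
    intro g hg
    have hg : ρ g - 1 ∈ (matNF ℤ n).U (n + 1 + 1) := hg
    have h1 := (matNF ℤ n).zero_of_le hg (by omega)
    have h2 : ρ g = ρ 1 := by rw [map_one]; exact sub_eq_zero.mp h1
    exact Subgroup.mem_bot.mpr (hinj h2)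

end

/-- separation in `p`-quotients of finite nilpotent quotients -/
theorem exists_p_quotient {Γ : Type*} [Group Γ] (hnil : Group.IsNilpotent Γ) (N : Subgroup Γ)
    (hN : N.Normal) (hN0 : N.index ≠ 0) (x : Γ) (hx : x ∉ N) :
    ∃ (p : ℕ) (t : ℕ) (P : Subgroup Γ), p.Prime ∧ P.Normal ∧ P.index = p ^ t ∧ P.index ≤ N.index ∧ x ∉ P := by
  classical
  have hfin : Finite (Γ ⧸ N) := by
    rw [Subgroup.index] at hN0
    exact (Nat.card_ne_zero.mp hN0).2
  have hnilQ : Group.IsNilpotent (Γ ⧸ N) := inferInstance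
  obtain ⟨e⟩ := (Group.isNilpotent_of_finite_tfae (G := Γ ⧸ N)).out 0 4 |>.mp hnilQ
  set y : Γ ⧸ N := QuotientGroup.mk x with hy
  have hy1 : y ≠ 1 := by
    intro h
    exact hx ((QuotientGroup.eq_one_iff x).mp h)
  have hy2 : e.symm y ≠ 1 := by
    intro h
    apply hy1
    rw [← e.apply_symm_apply y, h, map_one]
  obtain ⟨p, hp⟩ : ∃ p, e.symm y p ≠ 1 := by
    by_contra hc
    push Not at hc
    exact hy2 (funext hc)
  obtain ⟨P, hP⟩ : ∃ P, e.symm y p P ≠ 1 := by
    by_contra hc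
    push Not at hc
    exact hp (funext hc)
  have hpp : (p : ℕ).Prime := Nat.prime_of_mem_primeFactors p.2
  let f : Γ →* (P : Subgroup (Γ ⧸ N)) :=
    ((Pi.evalMonoidHom _ P).comp ((Pi.evalMonoidHom _ p).comp e.symm.toMonoidHom)).comp
      (QuotientGroup.mk' N)
  have hNf : N ≤ f.ker := by
    intro g hg
    rw [MonoidHom.mem_ker]
    have h1 : QuotientGroup.mk' N g = 1 := (QuotientGroup.eq_one_iff g).mpr hg
    change _ = _
    simp only [f, MonoidHom.comp_apply, h1, map_one]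
  have hindex : f.ker.index = Nat.card f.range := Subgroup.index_ker f
  have hpg : IsPGroup (p : ℕ) f.range := by
    have h1 : IsPGroup (p : ℕ) (P : Subgroup (Γ ⧸ N)) := P.isPGroup'
    exact h1.to_subgroup f.range
  have : Fact (p : ℕ).Prime := ⟨hpp⟩
  obtain ⟨t, ht⟩ := hpg.exists_card_eq
  refine ⟨p, t, f.ker, hpp, inferInstance, by rw [hindex, ht], ?_, ?_⟩
  · exact Nat.le_of_dvd (Nat.pos_of_ne_zero hN0) (Subgroup.index_dvd_of_le hNf)
  · intro h
    exact hP h

end Pool.Agent.H675R3
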