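import Pool.Agent.H675R3.UltraB
import Pool.Agent.H675R3.GrpLB

set_option autoImplicit false
set_option linter.unusedVariables false

namespace Pool.Agent.H675R3

open Finset

section
variable {T : Type} [Infinite T] (pr : T → ℕ)

/-- the ultrafilter -/
noncomputable abbrev UU (T : Type) [Infinite T] : Ultrafilter T := Filter.hyperfilter T

/-- families divisible by the `j`-th power of the prime -/
noncomputable def aa (j : ℕ) : Ideal (T → ℤ) where
  carrier := {a | ∀ᶠ t in UU T, (pr t : ℤ) ^ j ∣ a t}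
  zero_mem' := by
    change ∀ᶠ t in UU T, (pr t : ℤ) ^ j ∣ (0 : T → ℤ) t
    exact Filter.Eventually.of_forall fun t => dvd_zero _
  add_mem' := fun {a b} ha hb => by
    have ha : ∀ᶠ t in UU T, (pr t : ℤ) ^ j ∣ a t := ha
    have hb : ∀ᶠ t in UU T, (pr t : ℤ) ^ j ∣ b t := hb
    change ∀ᶠ t in UU T, (pr t : ℤ) ^ j ∣ (a + b) t
    filter_upwards [ha, hb] with t h1 h2
    exact dvd_add h1 h2
  smul_mem' := fun c a ha => by
    have ha : ∀ᶠ t in UU T, (pr t : ℤ) ^ j ∣ a t := ha
    change ∀ᶠ t in UU T, (pr t : ℤ) ^ j ∣ (c • a) t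
    filter_upwards [ha] with t h1
    exact h1.mul_left _

lemma mem_aa {j : ℕ} {a : T → ℤ} : a ∈ aa pr j ↔ ∀ᶠ t in UU T, (pr t : ℤ) ^ j ∣ a t := Iff.rfl

lemma aa_anti {i j : ℕ} (h : i ≤ j) : aa pr j ≤ aa pr i := by
  intro a ha
  rw [mem_aa] at ha ⊢
  filter_upwards [ha] with t h1
  exact (pow_dvd_pow _ h).trans h1

lemma aa_pow (j : ℕ) : aa pr 1 ^ j ≤ aa pr j := by
  induction j with
  | zero =>
    intro a _
    rw [mem_aa]
    exact Filter.Eventually.of_forall fun t => by rw [pow_zero]; exact one_dvd _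
  | succ j ih =>
    rw [pow_succ]
    refine Ideal.mul_le.mpr fun a ha b hb => ?_
    have h1 := ih ha
    rw [mem_aa] at h1 hb ⊢
    filter_upwards [h1, hb] with t h1 h2
    rw [pow_succ]
    rw [pow_one] at h2
    exact mul_dvd_mul h1 h2

variable (hpr : ∀ t, (pr t).Prime) (hinj : Function.Injective pr)

include hpr in
lemma aa_inv (K : ℕ) {a : T → ℤ} (ha : a ∉ aa pr 1) : ∃ b : T → ℤ, b * a - 1 ∈ aa pr K := by
  rw [mem_aa, ← Ultrafilter.eventually_not] at ha
  have h1 : ∀ t, ∃ b : ℤ, ¬ (pr t : ℤ) ^ 1 ∣ a t → (pr t : ℤ) ^ K ∣ b * a t - 1 := by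
    intro t
    by_cases h : (pr t : ℤ) ^ 1 ∣ a t
    · exact ⟨0, fun h' => absurd h h'⟩
    · rw [pow_one] at h
      have h2 : IsCoprime ((pr t : ℤ) ^ K) (a t) :=
        ((Nat.prime_iff_prime_int.mp (hpr t)).coprime_iff_not_dvd.mpr h).pow_left
      obtain ⟨u, v, huv⟩ := h2
      refine ⟨v, fun _ => ⟨-u, ?_⟩⟩
      rw [← huv]; ring
  choose b hb using h1
  refine ⟨b, ?_⟩
  rw [mem_aa]
  filter_upwards [ha] with t h
  exact hb t h

include hpr in
lemma one_not_mem : (1 : T → ℤ) ∉ aa pr 1 := by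
  rw [mem_aa, ← Ultrafilter.eventually_not]
  refine Filter.Eventually.of_forall fun t h => ?_
  rw [pow_one] at h
  have := (Nat.prime_iff_prime_int.mp (hpr t)).not_isUnit
  exact this (isUnit_of_dvd_one h)

include hinj in
lemma int_not_mem (hpr : ∀ t, (pr t).Prime) (m : ℤ) (hm : m ≠ 0) : (fun _ => m : T → ℤ) ∉ aa pr 1 := by
  rw [mem_aa, ← Ultrafilter.eventually_not]
  have h1 : ∀ᶠ t in Filter.cofinite, m.natAbs < pr t := by
    have h2 : (pr ⁻¹' (Set.Iic m.natAbs)).Finite := (Set.finite_Iic _).preimage hinj.injOn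
    have h3 := h2.compl_mem_cofinite
    filter_upwards [h3] with t ht
    simp only [Set.mem_compl_iff, Set.mem_preimage, Set.mem_Iic, not_le] at ht
    exact ht
  have h4 : ∀ᶠ t in UU T, m.natAbs < pr t := Filter.hyperfilter_le_cofinite h1
  filter_upwards [h4] with t ht h
  rw [pow_one] at h
  have h5 : pr t ∣ m.natAbs := Int.natCast_dvd.mp h
  have := Nat.le_of_dvd (Int.natAbs_pos.mpr hm) h5
  omega

end

/-- **The ultraproduct step** -/
theorem ultra {hh : ℕ} (c : Fin hh → Fin hh → Fin hh → ℤ) (k : ℕ) (z0 : Fin hh → ℤ)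
    (H : ∀ (F₀ : Type) [Field F₀] [CharZero F₀] (I : Submodule F₀ (Fin hh → F₀)),
      IsCI c (I : Set (Fin hh → F₀)) → Module.finrank F₀ ((Fin hh → F₀) ⧸ I) ≤ k →
      (fun i => (z0 i : F₀)) ∈ I) :
    ∃ p₀ : ℕ, ∀ p : ℕ, p.Prime → p₀ < p → ∀ b : AddSubgroup (Fin hh → ℤ),
      (∀ x ∈ b, ∀ y, brk c y x ∈ b) → b.index ≠ 0 → b.index ≤ p ^ k →
      (∃ J : ℕ, ∀ x : Fin hh → ℤ, (p ^ J) • x ∈ b) → z0 ∈ b := by
  classical
  by_contra hcon
  push Not at hcon
  -- the set of bad primes
  let bad : Set ℕ := {p | p.Prime ∧ ∃ b : AddSubgroup (Fin hh → ℤ),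
      (∀ x ∈ b, ∀ y, brk c y x ∈ b) ∧ b.index ≠ 0 ∧ b.index ≤ p ^ k ∧
      (∃ J : ℕ, ∀ x : Fin hh → ℤ, (p ^ J) • x ∈ b) ∧ z0 ∉ b}
  have hbad : bad.Infinite := by
    rw [Set.infinite_iff_exists_gt]
    intro a
    obtain ⟨p, hp, hap, b, h1, h2, h3, h4, h5⟩ := hcon a
    exact ⟨p, ⟨hp, b, h1, h2, h3, h4, h5⟩, hap⟩
  let T : Type := bad
  have hT : Infinite T := hbad.to_subtype
  let pr : T → ℕ := fun t => t.1
  have hinj : Function.Injective pr := Subtype.val_injective
  have hpr : ∀ t, (pr t).Prime := fun t => t.2.1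
  choose b hb1 hb2 hb3 hb4 hb5 using fun t : T => t.2.2
  choose W C hC0 hCk hC using fun t : T => exists_chain (pr t) (hpr t) k (b t) (hb2 t) (hb3 t) (hb4 t)
  have hCmono : ∀ t, ∀ j ≤ k, b t ≤ C t j := by
    intro t j
    induction j with
    | zero => intro _; rw [hC0]
    | succ j ih => intro hj; exact (ih (by omega)).trans (hC t j (by omega)).1
  have hpk : ∀ t, ∀ x, (pr t ^ k) • x ∈ b t := by
    intro t
    have key : ∀ j ≤ k, ∀ x ∈ C t j, (pr t ^ j) • x ∈ b t := by
      intro j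
      induction j with
      | zero => intro _ x hx; rw [hC0] at hx; simpa using hx
      | succ j ih =>
        intro hj x hx
        obtain ⟨_, h1, h2⟩ := hC t j (by omega)
        obtain ⟨m, hm⟩ := h2 x hx
        have h3 : pr t • x ∈ C t j := by
          have e : pr t • x = pr t • (x - m • W t j) + m • (pr t • W t j) := by
            rw [smul_sub, smul_comm (pr t) m, sub_add_cancel]
          rw [e]
          exact (C t j).add_mem ((C t j).nsmul_mem hm _) ((C t j).zsmul_mem h1 m)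
        have h4 := ih (by omega) _ h3
        rwa [smul_smul, ← pow_succ] at h4
    intro x
    exact key k le_rfl x (by rw [hCk]; trivial)
  set K := k + 1 with hK
  let A := T → ℤ
  let R := A ⧸ aa pr K
  let mk : A →+* R := Ideal.Quotient.mk (aa pr K)
  have hmks : Function.Surjective mk := Ideal.Quotient.mk_surjective
  have hmk0 : ∀ a a' : A, mk a = mk a' ↔ a - a' ∈ aa pr K := fun a a' => Ideal.Quotient.eq
  let J : Ideal R := (aa pr 1).map mk
  have hJ : ∀ a : A, mk a ∈ J ↔ a ∈ aa pr 1 := by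
    intro a
    constructor
    · intro ha
      obtain ⟨a', ha', e⟩ := (Ideal.mem_map_iff_of_surjective mk hmks).mp ha
      have h1 := aa_anti pr (show 1 ≤ K by omega) ((hmk0 _ _).mp e.symm)
      have h2 := (aa pr 1).add_mem h1 ha'
      rwa [sub_add_cancel] at h2
    · intro ha; exact Ideal.mem_map_of_mem mk ha
  have hunit : ∀ a : A, a ∉ aa pr 1 → ∃ b : A, mk b * mk a = 1 := by
    intro a ha
    obtain ⟨b, hb⟩ := aa_inv pr hpr K ha
    refine ⟨b, ?_⟩
    rw [← map_mul, ← map_one mk]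
    exact (hmk0 _ _).mpr hb
  have hJmax : J.IsMaximal := by
    rw [Ideal.isMaximal_iff]
    constructor
    · rw [← map_one mk, hJ]
      exact one_not_mem pr hpr
    · intro J' x hJJ' hx hx'
      obtain ⟨a, rfl⟩ := hmks x
      rw [hJ] at hx
      obtain ⟨b, hb⟩ := hunit a hx
      rw [← hb]
      exact J'.mul_mem_left _ hx'
  have hJnil : IsNilpotent J := by
    refine ⟨K, ?_⟩
    change (aa pr 1).map mk ^ K = ⊥
    rw [← Ideal.map_pow]
    rw [eq_bot_iff]
    refine (Ideal.map_mono (aa_pow pr K)).trans ?_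
    rw [Ideal.map_quotient_self]
  have hQ : ∀ y : nonZeroDivisors ℤ, IsUnit ((Int.castRingHom R) y) := by
    intro y
    have hy : (y : ℤ) ≠ 0 := nonZeroDivisors.ne_zero y.2
    obtain ⟨b, hb⟩ := hunit _ (int_not_mem pr hinj hpr (y : ℤ) hy)
    have e : mk (fun _ => (y : ℤ)) = (Int.castRingHom R) y := by
      have : (fun _ => (y : ℤ) : A) = ((y : ℤ) : A) := rfl
      rw [this, map_intCast]
      rfl
    rw [e] at hb
    exact IsUnit.of_mul_eq_one _ (by rw [mul_comm]; exact hb)
  letI algR : Algebra ℚ R := (IsLocalization.lift (M := nonZeroDivisors ℤ) (S := ℚ) hQ).toAlgebra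
  obtain ⟨σ, hσ⟩ := exists_section R J hJnil
  letI fld : Field (R ⧸ J) := Ideal.Quotient.field J
  let F₀ := R ⧸ J
  letI algF : Algebra F₀ R := σ.toAlgebra
  have hchar : CharZero F₀ := by
    have f : ℚ →+* F₀ := (Ideal.Quotient.mk J).comp (algebraMap ℚ R)
    exact charZero_of_injective_ringHom f.injective
  let B : ℕ → Submodule R (Fin hh → R) := fun j =>
    { carrier := {x | ∃ a : Fin hh → A, (∀ i, mk (a i) = x i) ∧
        ∀ᶠ t in UU T, (fun i => a i t) ∈ C t j}
      zero_mem' := ⟨0, fun i => map_zero mk, Filter.Eventually.of_forall fun t => (C t j).zero_mem⟩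
      add_mem' := by
        rintro x y ⟨a, ha1, ha2⟩ ⟨a', ha1', ha2'⟩
        refine ⟨a + a', fun i => ?_, ?_⟩
        · rw [Pi.add_apply, map_add, ha1, ha1']; rfl
        · filter_upwards [ha2, ha2'] with t h1 h2
          exact (C t j).add_mem h1 h2
      smul_mem' := by
        rintro r x ⟨a, ha1, ha2⟩
        obtain ⟨s, rfl⟩ := hmks r
        refine ⟨fun i => s * a i, fun i => ?_, ?_⟩
        · rw [map_mul, ha1]; rfl
        · filter_upwards [ha2] with t h1
          exact (C t j).zsmul_mem h1 (s t) }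
  have hBmem : ∀ j x, x ∈ B j ↔ ∃ a : Fin hh → A, (∀ i, mk (a i) = x i) ∧
        ∀ᶠ t in UU T, (fun i => a i t) ∈ C t j := fun j x => Iff.rfl
  have hBlift : ∀ j ≤ k, ∀ x ∈ B j, ∀ a : Fin hh → A, (∀ i, mk (a i) = x i) →
      ∀ᶠ t in UU T, (fun i => a i t) ∈ C t j := by
    rintro j hj x ⟨a', ha1', ha2'⟩ a ha
    have h1 : ∀ i, ∀ᶠ t in UU T, (pr t : ℤ) ^ K ∣ (a i - a' i) t := by
      intro i
      have := (hmk0 (a i) (a' i)).mp ((ha i).trans (ha1' i).symm)
      exact this
    have h2 : ∀ᶠ t in UU T, ∀ i, (pr t : ℤ) ^ K ∣ (a i - a' i) t := Filter.eventually_all.mpr h1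
    filter_upwards [ha2', h2] with t h3 h4
    choose q hq using h4
    have h5 : (fun i => a i t) = (fun i => a' i t) + (pr t ^ k) • (fun i => (pr t : ℤ) * q i) := by
      funext i
      have := hq i
      rw [Pi.sub_apply, hK, pow_succ] at this
      change a i t = a' i t + (pr t ^ k) • ((pr t : ℤ) * q i)
      rw [nsmul_eq_mul]
      push_cast
      linarith
    rw [h5]
    exact (C t j).add_mem h3 (hCmono t j hj (hpk t _))
  let w : Fin k → Fin hh → R := fun j i => mk (fun t => W t j i)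
  let I : Submodule F₀ (Fin hh → F₀) :=
    { carrier := {x | (fun i => σ (x i)) ∈ B 0}
      zero_mem' := by
        change (fun i => σ ((0 : Fin hh → F₀) i)) ∈ B 0
        have : (fun i => σ ((0 : Fin hh → F₀) i)) = 0 := by funext i; simp
        rw [this]; exact (B 0).zero_mem
      add_mem' := fun {x y} hx hy => by
        change (fun i => σ ((x + y) i)) ∈ B 0
        have : (fun i => σ ((x + y) i)) = (fun i => σ (x i)) + (fun i => σ (y i)) := by funext i; simp
        rw [this]; exact (B 0).add_mem hx hy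
      smul_mem' := fun r x hx => by
        change (fun i => σ ((r • x) i)) ∈ B 0
        have : (fun i => σ ((r • x) i)) = σ r • (fun i => σ (x i)) := by funext i; simp
        rw [this]; exact (B 0).smul_mem _ hx }
  have hImem : ∀ x, x ∈ I ↔ (fun i => algebraMap F₀ R (x i)) ∈ B 0 := fun x => Iff.rfl
  have hcodim := codim_le F₀ R (Ideal.Quotient.mk J) hσ k B w (by
      intro j r hr
      obtain ⟨s, rfl⟩ := hmks r
      have hs : s ∈ aa pr 1 := (hJ s).mp (Ideal.Quotient.eq_zero_iff_mem.mp hr)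
      refine ⟨fun i => s * (fun t => W t j i), fun i => by rw [map_mul]; rfl, ?_⟩
      rw [mem_aa] at hs
      filter_upwards [hs] with t ht
      rw [pow_one] at ht
      obtain ⟨q, hq⟩ := ht
      have e : (fun i => (s * (fun t => W t j i)) t) = q • (pr t • W t j) := by
        funext i
        change s t * W t j i = q * (pr t • W t j i)
        rw [nsmul_eq_mul, hq]; ring
      rw [e]
      exact (C t j).zsmul_mem (hC t j j.2).2.1 q) (by
      rintro j x ⟨a, ha1, ha2⟩
      have hm : ∀ t, ∃ m : ℤ, (fun i => a i t) ∈ C t (j + 1) → (fun i => a i t) - m • W t j ∈ C t j := by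
        intro t
        by_cases h : (fun i => a i t) ∈ C t (j + 1)
        · obtain ⟨m, hm⟩ := (hC t j j.2).2.2 _ h
          exact ⟨m, fun _ => hm⟩
        · exact ⟨0, fun h' => absurd h' h⟩
      choose m hm using hm
      refine ⟨mk m, fun i => a i - m * (fun t => W t j i), fun i => ?_, ?_⟩
      · rw [map_sub, map_mul, ha1]; rfl
      · filter_upwards [ha2] with t ht
        exact hm t ht) (by
      rw [eq_top_iff]
      rintro x -
      choose a ha using fun i => hmks (x i)
      exact ⟨a, ha, Filter.Eventually.of_forall fun t => by rw [hCk]; trivial⟩) I hImem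
  have hIci : IsCI c (I : Set (Fin hh → F₀)) := by
    intro x hx y
    have hx : (fun i => σ (x i)) ∈ B 0 := hx
    change (fun i => σ (brk c y x i)) ∈ B 0
    rw [brk_cast c σ y x]
    obtain ⟨a, ha1, ha2⟩ := hx
    choose a' ha' using fun i => hmks (σ (y i))
    refine ⟨brk c a' a, fun i => ?_, ?_⟩
    · have e := congrFun (brk_cast c mk a' a) i
      rw [e]
      congr 1
      · funext i; exact ha' i
      · funext i; exact ha1 i
    · filter_upwards [ha2] with t ht
      have e := brk_cast c (Pi.evalRingHom (fun _ : T => ℤ) t) a' a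
      change (fun i => (Pi.evalRingHom (fun _ : T => ℤ) t) (brk c a' a i)) ∈ C t 0
      rw [e, hC0]
      rw [hC0] at ht
      exact hb1 t _ ht _
  have hz := H F₀ I hIci hcodim
  have hz1 : (fun i => σ ((z0 i : ℤ) : F₀)) ∈ B 0 := hz
  have hz2 := hBlift 0 (by omega) _ hz1 (fun i => ((z0 i : ℤ) : A)) (fun i => by
    rw [map_intCast, map_intCast])
  obtain ⟨t, ht⟩ := hz2.exists
  rw [hC0] at ht
  exact hb5 t ht

end Pool.Agent.H675R3
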