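import Pool.Agent.H675R3.LowerA
import Pool.Agent.H675R3.Ultra
import Pool.Agent.H675R3.Depth

set_option autoImplicit false
set_option linter.unusedVariables false

namespace Pool.Agent.H675R3

open Finset

/-- a variant of the least common multiple of `1, …, m` -/
def eM (m : ℕ) : ℕ := ∏ q ∈ (range (m + 1)).filter Nat.Prime, q ^ (Nat.log q m)

lemma eM_pos (m : ℕ) : 0 < eM m :=
  Finset.prod_pos fun q hq => Nat.pow_pos (mem_filter.mp hq).2.pos

lemma eM_le (m : ℕ) (hm : m ≠ 0) : eM m ≤ m ^ (Nat.primeCounting m) := by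
  unfold eM
  refine (Finset.prod_le_prod' (fun q _ => Nat.pow_log_le_self q hm)).trans ?_
  rw [prod_const]
  refine le_of_eq ?_
  congr 1
  unfold Nat.primeCounting Nat.primeCounting'
  rw [Nat.count_eq_card_filter_range]

lemma log_eM_le (m : ℕ) (hm : 2 ≤ m) : Real.log (eM m) ≤ (2 * Real.log 4 + 2) * m := by
  have hm1 : (1 : ℝ) < m := by exact_mod_cast hm
  have hm0 : (0 : ℝ) < m := by linarith
  have h1 : Real.log (eM m) ≤ (Nat.primeCounting m : ℝ) * Real.log m := by
    have h2 : (eM m : ℝ) ≤ (m : ℝ) ^ (Nat.primeCounting m) := by exact_mod_cast eM_le m (by omega)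
    have h3 : (0 : ℝ) < eM m := by exact_mod_cast eM_pos m
    have h4 := Real.log_le_log h3 h2
    rwa [Real.log_pow] at h4
  have h2 := Chebyshev.pi_le_log4_mul_div (x := (m : ℝ)) hm1
  rw [Nat.floor_natCast] at h2
  have hlog : 0 < Real.log m := Real.log_pos hm1
  have hsq : Real.log (Real.sqrt m) = Real.log m / 2 := Real.log_sqrt hm0.le
  rw [hsq] at h2
  have h3 : (Nat.primeCounting m : ℝ) * Real.log m ≤
      (Real.log 4 * m / (Real.log m / 2) + Real.sqrt m) * Real.log m :=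
    mul_le_mul_of_nonneg_right h2 hlog.le
  have h4 : (Real.log 4 * m / (Real.log m / 2) + Real.sqrt m) * Real.log m =
      2 * Real.log 4 * m + Real.sqrt m * Real.log m := by
    field_simp
  have h5 : Real.log m ≤ 2 * Real.sqrt m := by
    have h6 := Real.log_le_sub_one_of_pos (Real.sqrt_pos.mpr hm0)
    rw [hsq] at h6
    linarith
  have h6 : Real.sqrt m * Real.log m ≤ 2 * m := by
    have h7 := mul_le_mul_of_nonneg_left h5 (Real.sqrt_nonneg m)
    have h8 : Real.sqrt m * (2 * Real.sqrt m) = 2 * m := by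
      have := Real.mul_self_sqrt hm0.le
      linarith
    linarith
  rw [h4] at h3
  linarith

lemma pow_dvd_eM {p m : ℕ} (hp : p.Prime) (hpm : p ≤ m) : p ^ (Nat.log p m) ∣ eM m :=
  Finset.dvd_prod_of_mem (fun q => q ^ (Nat.log q m)) (mem_filter.mpr ⟨mem_range.mpr (by omega), hp⟩)

lemma le_pow_log {p m : ℕ} (hp : p.Prime) (hpm : p ≤ m) : m ≤ p ^ (2 * Nat.log p m) := by
  have h1 : 1 ≤ Nat.log p m := Nat.log_pos hp.one_lt hpm
  have h2 : m < p ^ (Nat.log p m + 1) := Nat.lt_pow_succ_log_self hp.one_lt m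
  exact h2.le.trans (Nat.pow_le_pow_right hp.pos (by omega))

/-- orders of elements in `p`-quotients -/
lemma order_bound {Γ : Type*} [Group Γ] (p t : ℕ) (hp : p.Prime) (P : Subgroup Γ) (hP : P.Normal)
    (hidx : P.index = p ^ t) (z : Γ) (m k : ℕ) (hpm : p ≤ m) (hz : z ^ (eM m ^ (2 * (k + 1))) ∉ P) :
    m ^ (k + 1) ≤ P.index := by
  have hfin : Finite (Γ ⧸ P) := by
    have h0 : P.index ≠ 0 := by rw [hidx]; exact (Nat.pow_pos hp.pos).ne'
    rw [Subgroup.index] at h0
    exact (Nat.card_ne_zero.mp h0).2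
  set u : Γ ⧸ P := QuotientGroup.mk z with hu
  have h1 : u ^ (eM m ^ (2 * (k + 1))) ≠ 1 := by
    intro h
    apply hz
    rw [← QuotientGroup.eq_one_iff, QuotientGroup.mk_pow]
    exact h
  have h2 : orderOf u ∣ p ^ t := by
    have := orderOf_dvd_natCard u
    rw [← Subgroup.index, hidx] at this
    exact this
  obtain ⟨s, hs, hus⟩ := (Nat.dvd_prime_pow hp).mp h2
  have h3 : p ^ (Nat.log p m * (2 * (k + 1))) ∣ eM m ^ (2 * (k + 1)) := by
    rw [pow_mul]
    exact pow_dvd_pow_of_dvd (pow_dvd_eM hp hpm) _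
  have h4 : Nat.log p m * (2 * (k + 1)) < s := by
    by_contra hc
    push Not at hc
    apply h1
    apply orderOf_dvd_iff_pow_eq_one.mp
    rw [hus]
    exact (pow_dvd_pow p hc).trans h3
  calc m ^ (k + 1) ≤ (p ^ (2 * Nat.log p m)) ^ (k + 1) := Nat.pow_le_pow_left (le_pow_log hp hpm) _
    _ = p ^ (Nat.log p m * (2 * (k + 1))) := by rw [← pow_mul]; congr 1; ring
    _ ≤ p ^ t := Nat.pow_le_pow_right hp.pos (by omega)
    _ = P.index := hidx.symm

lemma wordLen_pow {G : Type*} [Group G] {S : Set G} (hS : Subgroup.closure S = ⊤) (g : G) (m : ℕ) :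
    wordLen S (g ^ m) ≤ m * wordLen S g := by
  obtain ⟨l, hl1, hl2, hl3⟩ := wordLen_spec hS g
  have h1 : ((List.replicate m l).flatten).prod = g ^ m := by
    rw [List.prod_flatten, List.map_replicate, List.prod_replicate, hl3]
  have h2 : ((List.replicate m l).flatten).length = m * wordLen S g := by
    rw [List.length_flatten, List.map_replicate, List.sum_replicate, hl1, smul_eq_mul]
  rw [← h2]
  refine wordLen_le _ (fun x hx => ?_) h1
  rw [List.mem_flatten] at hx
  obtain ⟨l', hl', hx⟩ := hx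
  rw [List.eq_of_mem_replicate hl'] at hx
  exact hl2 x hx

section
variable {Γ : Type*} [Group Γ] {n : ℕ} {ρ : Γ →* Matrix (Fin n) (Fin n) ℤ}

/-- **Lower bound for the depth** -/
theorem lb_depth (hρ : UniTri ρ) (hinj : Function.Injective ρ) (d : Dat ρ) (k : ℕ)
    (hSep : ¬ Sep d.c k ℂ) (S : Set Γ) (hgen : Subgroup.closure S = ⊤) :
    ∃ A : ℝ, 0 < A ∧ ∃ m₁ : ℕ, ∀ m ≥ m₁, ∃ g : Γ, g ≠ 1 ∧
      Real.log (wordLen S g + 1) ≤ A * m ∧ m ^ (k + 1) ≤ depth g := by
  obtain ⟨z0, hz0, hH⟩ := rational_vector hSep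
  obtain ⟨p₀, hp₀⟩ := ultra d.c k z0 hH
  -- the element `z`
  obtain ⟨mz, hmz, z, hz⟩ := exists_multiple (matNF ℚ n) (φ := rk ρ ℚ) (hρ.rk ℚ)
    (x := d.mat ℚ (fun i => (z0 i : ℚ))) (by
      rw [Dat.mat_apply]
      exact Submodule.sum_mem _ fun i _ => Submodule.smul_mem _ _
        (mem_Wi _ (Subgroup.mem_top _) (hρ.rk ℚ _)))
  have hzeta : ∀ i, d.zeta ℚ z i = ((mz : ℤ) : ℚ) * z0 i := by
    have h1 : d.zeta ℚ z = mz • (fun i => (z0 i : ℚ)) := by
      refine Dat.zeta_eq d.ok_rat ?_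
      rw [map_nsmul]
      exact hz
    intro i
    rw [h1, Pi.smul_apply, nsmul_eq_mul]
    push_cast
    rfl
  have hzpow : ∀ e : ℕ, 0 < e → z ^ e ≠ 1 := by
    intro e he h
    apply hz0
    have h1 := Dat.zeta_pow d.ok_rat hρ z e
    rw [h, Dat.zeta_one d.ok_rat hρ] at h1
    funext i
    have h2 := congrFun h1 i
    rw [Pi.zero_apply, Pi.smul_apply, nsmul_eq_mul, hzeta] at h2
    have h3 : (e : ℚ) ≠ 0 := by exact_mod_cast he.ne'
    have h4 : ((mz : ℤ) : ℚ) ≠ 0 := by exact_mod_cast hmz.ne'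
    have h5 := h2.symm
    rw [mul_eq_zero, mul_eq_zero] at h5
    have h6 := (h5.resolve_left h3).resolve_left h4
    rw [Pi.zero_apply]
    exact_mod_cast h6
  have hnil := isNilpotent_of_uniTri hρ hinj
  -- large primes need index at least `p ^ (k + 1)`
  have hlarge : ∀ (p t : ℕ) (P : Subgroup Γ), p.Prime → p₀ + d.Q < p → P.Normal → P.index = p ^ t →
      t ≤ k → z ∈ P := by
    intro p t P hp hpl hPn hidx htk
    have hpQ : ¬ p ∣ d.Q := fun h => by
      have := Nat.le_of_dvd d.Q_pos h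
      omega
    have hP0 : P.index ≠ 0 := by rw [hidx]; exact (Nat.pow_pos hp.pos).ne'
    obtain ⟨b, hb1, hb2, hb3, hb4, hb5⟩ := lb_group hρ hinj p hp hpQ P hPn hP0 t (fun g => by
      rw [← hidx]; exact P.pow_index_mem g)
    by_contra hzP
    apply hb5 z hzP mz z0 hzeta
    refine hp₀ p hp (by omega) b hb1 hb3 (hb2.trans ?_) hb4
    rw [hidx]
    exact Nat.pow_le_pow_right hp.pos htk
  set w := wordLen S z with hw
  refine ⟨2 * (k + 1) * (2 * Real.log 4 + 2) + Real.log (w + 1) + 1, ?_, p₀ + d.Q + 2, fun m hm => ?_⟩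
  · have h1 : 0 ≤ Real.log ((w : ℝ) + 1) := Real.log_nonneg (by
      have : (0 : ℝ) ≤ w := Nat.cast_nonneg _
      linarith)
    have h2 : 0 ≤ Real.log 4 := Real.log_nonneg (by norm_num)
    positivity
  set e := eM m ^ (2 * (k + 1)) with he
  have he0 : 0 < e := Nat.pow_pos (eM_pos m)
  refine ⟨z ^ e, hzpow e he0, ?_, ?_⟩
  · have h1 := wordLen_pow hgen z e
    rw [← hw] at h1
    have h2 : ((wordLen S (z ^ e) : ℝ) + 1) ≤ e * (w + 1) := by
      have h3 : wordLen S (z ^ e) + 1 ≤ e * (w + 1) := by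
        rw [mul_add, mul_one]; omega
      exact_mod_cast h3
    have h3 : Real.log (wordLen S (z ^ e) + 1) ≤ Real.log (e * (w + 1)) :=
      Real.log_le_log (by positivity) h2
    have h4 : (e : ℝ) ≠ 0 := by exact_mod_cast he0.ne'
    rw [Real.log_mul h4 (by positivity)] at h3
    have h5 : Real.log (e : ℝ) = 2 * (k + 1) * Real.log (eM m) := by
      rw [he, Nat.cast_pow, Real.log_pow]
      push_cast
      ring
    have h6 := log_eM_le m (by omega)
    have h7 : 0 ≤ Real.log ((w : ℝ) + 1) := Real.log_nonneg (by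
      have : (0 : ℝ) ≤ w := Nat.cast_nonneg _
      linarith)
    have h8 : (1 : ℝ) ≤ m := by exact_mod_cast (by omega : 1 ≤ m)
    have h9 : 2 * ((k : ℝ) + 1) * Real.log (eM m) ≤ 2 * (k + 1) * ((2 * Real.log 4 + 2) * m) :=
      mul_le_mul_of_nonneg_left h6 (by positivity)
    have h10 : Real.log ((w : ℝ) + 1) ≤ Real.log (w + 1) * m := by nlinarith
    rw [h5] at h3
    nlinarith
  · obtain ⟨N, hN1, hN2, hN3, hN4⟩ := depth_spec (exists_normal hρ hinj d (hzpow e he0))
    rw [← hN4]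
    obtain ⟨p, t, P, hp, hPn, hPidx, hPle, hPz⟩ := exists_p_quotient hnil N hN1 hN2 _ hN3
    refine le_trans ?_ hPle
    by_cases hpm : p ≤ m
    · exact order_bound p t hp P hPn hPidx z m k hpm hPz
    · push Not at hpm
      have htk : k + 1 ≤ t := by
        by_contra hc
        push Not at hc
        apply hPz
        exact P.pow_mem (hlarge p t P hp (by omega) hPn hPidx (by omega)) e
      rw [hPidx]
      exact (Nat.pow_le_pow_left hpm.le _).trans (Nat.pow_le_pow_right hp.pos htk)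

end

end Pool.Agent.H675R3
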