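import Pool.Agent.H675R3.RatG

set_option autoImplicit false
set_option linter.unusedVariables false

namespace Pool.Agent.H675R3

open Finset

/-- the filtration of the matrix algebra by diagonals -/
def matNF (k : Type*) [CommRing k] (n : ℕ) : NF k (Matrix (Fin n) (Fin n) k) (n + 1) where
  U i :=
    { carrier := {M | ∀ a b : Fin n, (b : ℕ) < a + i → M a b = 0}
      add_mem' := fun {x y} hx hy a b h => by
        rw [Matrix.add_apply, hx a b h, hy a b h, add_zero]
      zero_mem' := fun a b _ => rfl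
      smul_mem' := fun c x hx a b h => by
        rw [Matrix.smul_apply, hx a b h, smul_zero] }
  anti := fun {i j} hij M hM a b h => hM a b (by omega)
  one := fun a b h => by
    rw [Matrix.one_apply_ne]
    intro e
    rw [e] at h
    omega
  mul := fun {i j x y} hx hy a b h => by
    rw [Matrix.mul_apply]
    refine Finset.sum_eq_zero fun l _ => ?_
    by_cases hl : (l : ℕ) < a + i
    · rw [hx a l hl, zero_mul]
    · rw [hy l b (by omega), mul_zero]
  bot := fun x hx => by
    ext a b
    exact hx a b (by have := b.2; omega)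
  pos := by omega

lemma mem_matNF {k : Type*} [CommRing k] {n : ℕ} {i : ℕ} {M : Matrix (Fin n) (Fin n) k} :
    M ∈ (matNF k n).U i ↔ ∀ a b : Fin n, (b : ℕ) < a + i → M a b = 0 := Iff.rfl

section
variable {Γ : Type*} [Group Γ] {n : ℕ} (ρ : Γ →* Matrix (Fin n) (Fin n) ℤ)

/-- the representation with coefficients in `k` -/
def rk (k : Type*) [CommRing k] : Γ →* Matrix (Fin n) (Fin n) k :=
  ((Int.castRingHom k).mapMatrix : Matrix (Fin n) (Fin n) ℤ →+* Matrix (Fin n) (Fin n) k).toMonoidHom.comp ρ

lemma rk_apply (k : Type*) [CommRing k] (g : Γ) (a b : Fin n) : rk ρ k g a b = ((ρ g a b : ℤ) : k) := rfl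

lemma rk_map {k k' : Type*} [CommRing k] [CommRing k'] (f : k →+* k') (g : Γ) :
    f.mapMatrix (rk ρ k g) = rk ρ k' g := by
  ext a b
  rw [RingHom.mapMatrix_apply, Matrix.map_apply, rk_apply, rk_apply, map_intCast]

/-- unitriangularity -/
def UniTri : Prop := ∀ g, ρ g - 1 ∈ (matNF ℤ n).U 1

variable {ρ}

lemma UniTri.rk (h : UniTri ρ) (k : Type*) [CommRing k] (g : Γ) :
    rk ρ k g - 1 ∈ (matNF k n).U 1 := by
  intro a b hab
  have h1 := h g a b hab
  rw [Matrix.sub_apply] at h1 ⊢
  rw [rk_apply]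
  have e : (1 : Matrix (Fin n) (Fin n) k) a b = (((1 : Matrix (Fin n) (Fin n) ℤ) a b : ℤ) : k) := by
    rw [Matrix.one_apply, Matrix.one_apply]; split_ifs <;> simp
  rw [e, ← Int.cast_sub, h1, Int.cast_zero]

/-- logarithm of a group element, with coefficients in `k` -/
noncomputable def lgk (ρ : Γ →* Matrix (Fin n) (Fin n) ℤ) (k : Type*) [CommRing k] (g : Γ) :
    Matrix (Fin n) (Fin n) k := lg k (n + 1) (rk ρ k) g

lemma lgk_map {k k' : Type*} [CommRing k] [CommRing k'] (hk : Good k (n + 1)) (f : k →+* k') (g : Γ) :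
    f.mapMatrix (lgk ρ k g) = lgk ρ k' g := by
  unfold lgk lg
  have := map_Lg (N := n + 1) hk f (f.mapMatrix : Matrix (Fin n) (Fin n) k →+* Matrix (Fin n) (Fin n) k')
    (by
      intro c a
      ext i j
      simp [Matrix.map_apply]) (rk ρ k g)
  rw [this, rk_map]

end

end Pool.Agent.H675R3
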