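import Pool.Agent.H675R3.GL

set_option autoImplicit false
set_option linter.unusedVariables false

namespace Pool.Agent.H675R3

open Finset

section
variable {A Γ : Type*} [Ring A] [Algebra ℚ A] [Group Γ] {N : ℕ}

lemma good_rat (N : ℕ) : Good ℚ N := fun m h0 _ => by
  rw [isUnit_iff_ne_zero]
  exact_mod_cast h0.ne'

variable (F : NF ℚ A N) {φ : Γ →* A}

lemma hit_rat (hφ : ∀ g, φ g - 1 ∈ F.U 1) {i : ℕ} (hi : 1 ≤ i) {w : A}
    (hw : w ∈ Wi F φ ⊤ i) :
    ∃ M : ℕ, 0 < M ∧ ∃ g, φ g - 1 ∈ F.U i ∧ lg ℚ N φ g - M • w ∈ Wi F φ ⊤ (i + 1) := by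
  have hk := good_rat N
  have hP : (⊤ : Subgroup Γ).Normal := inferInstance
  have hmul : ∀ {g h : Γ} {x y : A}, φ g - 1 ∈ F.U i → φ h - 1 ∈ F.U i →
      lg ℚ N φ g - x ∈ Wi F φ ⊤ (i + 1) → lg ℚ N φ h - y ∈ Wi F φ ⊤ (i + 1) →
      lg ℚ N φ (g * h) - (x + y) ∈ Wi F φ ⊤ (i + 1) := by
    intro g h x y h1 h3 h2 h4
    have h5 := lg_mul_sub' F hk hφ hP hi (Subgroup.mem_top g) (Subgroup.mem_top h) h1 h3
    have e : lg ℚ N φ (g * h) - (x + y) = (lg ℚ N φ (g * h) - lg ℚ N φ g - lg ℚ N φ h) +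
      (lg ℚ N φ g - x) + (lg ℚ N φ h - y) := by abel
    rw [e]
    exact Submodule.add_mem _ (Submodule.add_mem _ h5 h2) h4
  have hpow : ∀ {g : Γ} {x : A} (m : ℕ), lg ℚ N φ g - x ∈ Wi F φ ⊤ (i + 1) →
      lg ℚ N φ (g ^ m) - m • x ∈ Wi F φ ⊤ (i + 1) := by
    intro g x m h2
    rw [lg_pow F hk hφ, ← smul_sub]
    exact Submodule.smul_of_tower_mem _ m h2
  induction hw using Submodule.span_induction with
  | mem x hx =>
    obtain ⟨g, hg, h1, rfl⟩ := hx
    exact ⟨1, one_pos, g, h1, by rw [one_smul, sub_self]; exact Submodule.zero_mem _⟩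
  | zero => exact ⟨1, one_pos, 1, by simp, by
      rw [lg_one F hk hφ, smul_zero, sub_zero]; exact Submodule.zero_mem _⟩
  | add x y _ _ hx hy =>
    obtain ⟨M, hM, g, h1, h2⟩ := hx
    obtain ⟨M', hM', h, h3, h4⟩ := hy
    refine ⟨M * M', Nat.mul_pos hM hM', g ^ M' * h ^ M,
      phi_mul_mem F hφ (phi_pow_mem F hφ h1 M') (phi_pow_mem F hφ h3 M), ?_⟩
    have := hmul (phi_pow_mem F hφ h1 M') (phi_pow_mem F hφ h3 M) (hpow M' h2) (hpow M h4)
    rw [smul_add]
    rwa [smul_smul, smul_smul, mul_comm M' M] at this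
  | smul c x _ hx =>
    obtain ⟨M, hM, g, h1, h2⟩ := hx
    have hc : ((c.den : ℕ) : ℚ) * c = (c.num : ℚ) := by
      rw [mul_comm]; exact Rat.mul_den_eq_num c
    rcases Int.nonneg_or_nonpos_of_mul_nonneg (a := c.num) (b := c.num) (mul_self_nonneg _) with h | h
    · obtain ⟨h0, _⟩ := h
      obtain ⟨a, ha⟩ := Int.eq_ofNat_of_zero_le h0
      refine ⟨c.den * M, Nat.mul_pos c.den_pos hM, g ^ a, phi_pow_mem F hφ h1 a, ?_⟩
      have h5 := hpow a h2
      have e : (c.den * M) • c • x = a • M • x := by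
        rw [← Nat.cast_smul_eq_nsmul ℚ, ← Nat.cast_smul_eq_nsmul ℚ a, ← Nat.cast_smul_eq_nsmul ℚ M,
          smul_smul, smul_smul]
        congr 1
        rw [ha] at hc
        push_cast at hc ⊢
        rw [← hc]; ring
      rwa [e]
    · obtain ⟨h0, _⟩ := h
      obtain ⟨a, ha⟩ := Int.eq_ofNat_of_zero_le (show 0 ≤ -c.num by omega)
      refine ⟨c.den * M, Nat.mul_pos c.den_pos hM, (g ^ a)⁻¹,
        phi_inv_mem F hφ (phi_pow_mem F hφ h1 a), ?_⟩
      have h5 := hpow a h2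
      have e : (c.den * M) • c • x = - (a • M • x) := by
        rw [← Nat.cast_smul_eq_nsmul ℚ, ← Nat.cast_smul_eq_nsmul ℚ a, ← Nat.cast_smul_eq_nsmul ℚ M,
          smul_smul, smul_smul, ← neg_smul]
        congr 1
        have ha' : (c.num : ℚ) = - (a : ℚ) := by
          have : c.num = - (a : ℤ) := by omega
          rw [this]; push_cast; rfl
        rw [ha'] at hc
        push_cast at hc ⊢
        have : (c.den : ℚ) * M * c = (c.den : ℚ) * c * M := by ring
        rw [this, hc]; ring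
      rw [e, lg_inv F hk hφ]
      have := Submodule.neg_mem _ h5
      have e' : - lg ℚ N φ (g ^ a) - - (a • M • x) = - (lg ℚ N φ (g ^ a) - a • M • x) := by abel
      rw [e']
      exact this

lemma Wi_inf (hφ : ∀ g, φ g - 1 ∈ F.U 1) (i : ℕ) :
    ∀ w ∈ Wi F φ ⊤ 1, w ∈ F.U (i + 1) → w ∈ Wi F φ ⊤ (i + 1) := by
  have hk := good_rat N
  induction i with
  | zero => intro w hw _; exact hw
  | succ i ih =>
    intro w hw hwU
    have h1 := ih w hw (F.anti (by omega) hwU)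
    obtain ⟨M, hM, g, hg, h2⟩ := hit_rat F hφ (by omega) h1
    have h3 : lg ℚ N φ g ∈ F.U (i + 1 + 1) := by
      have h4 := Submodule.add_mem _ (Wi_le F (by omega) h2)
        (Submodule.smul_of_tower_mem (F.U (i + 1 + 1)) M hwU)
      rwa [sub_add_cancel] at h4
    have h5 : φ g - 1 ∈ F.U (i + 1 + 1) := mem_of_Lg_mem hk F (by omega) (hφ g) h3
    have h6 := mem_Wi F (Subgroup.mem_top g) h5
    have h7 := Submodule.sub_mem _ h6 h2
    rw [sub_sub_cancel] at h7
    have h8 := Submodule.smul_mem _ ((M : ℚ)⁻¹) h7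
    rw [← Nat.cast_smul_eq_nsmul ℚ, smul_smul, inv_mul_cancel₀ (by exact_mod_cast hM.ne'), one_smul] at h8
    exact h8

lemma pow_congr (hφ : ∀ g, φ g - 1 ∈ F.U 1) {a w : A} {i : ℕ} (hi : 1 ≤ i) (ha : a - 1 ∈ F.U 1)
    (hw : w - 1 ∈ F.U i) (M : ℕ) : (a * w) ^ M - a ^ M * w ^ M ∈ F.U (i + 1) := by
  have ha0 := mem_U0 F ha
  have hw0 := mem_U0 F (F.anti hi hw)
  have hpow0 : ∀ {b : A}, b ∈ F.U 0 → ∀ m : ℕ, b ^ m ∈ F.U 0 := by
    intro b hb m
    induction m with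
    | zero => simpa using F.one
    | succ m ih => rw [pow_succ]; simpa using F.mul ih hb
  have hw1 : ∀ m : ℕ, w ^ m - 1 ∈ F.U i := by
    intro m
    induction m with
    | zero => simp
    | succ m ih =>
      have e : w ^ (m + 1) - 1 = (w ^ m - 1) * w + (w - 1) := by rw [pow_succ]; noncomm_ring
      rw [e]
      refine Submodule.add_mem _ ?_ hw
      simpa using F.mul ih hw0
  induction M with
  | zero => simp
  | succ M ih =>
    have e : (a * w) ^ (M + 1) - a ^ (M + 1) * w ^ (M + 1) =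
        ((a * w) ^ M - a ^ M * w ^ M) * (a * w) +
          a ^ M * (((w ^ M - 1) * (a - 1) - (a - 1) * (w ^ M - 1)) * w) := by
      rw [pow_succ, pow_succ a, pow_succ w]; noncomm_ring
    rw [e]
    refine Submodule.add_mem _ ?_ ?_
    · simpa using F.mul ih (F.mul ha0 hw0)
    · have h1 : (w ^ M - 1) * (a - 1) - (a - 1) * (w ^ M - 1) ∈ F.U (i + 1) :=
        Submodule.sub_mem _ (F.mul (hw1 M) ha) (F.anti (by omega) (F.mul ha (hw1 M)))
      have := F.mul (hpow0 ha0 M) (F.mul h1 hw0)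
      simpa using this

/-- every element of the rational span has a multiple which is a logarithm -/
theorem exists_multiple (hφ : ∀ g, φ g - 1 ∈ F.U 1) {x : A} (hx : x ∈ Wi F φ ⊤ 1) :
    ∃ m : ℕ, 0 < m ∧ ∃ g, lg ℚ N φ g = m • x := by
  have hk := good_rat N
  have hP : (⊤ : Subgroup Γ).Normal := inferInstance
  have hx1 : x ∈ F.U 1 := Wi_le F le_rfl hx
  have key : ∀ i : ℕ, ∃ m : ℕ, 0 < m ∧ ∃ g, φ g⁻¹ * E ℚ N x ^ m - 1 ∈ F.U (i + 1) := by
    intro i
    induction i with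
    | zero =>
      refine ⟨1, one_pos, 1, ?_⟩
      rw [inv_one, map_one, one_mul, pow_one]
      exact E_sub_one_mem hk F le_rfl hx1
    | succ i ih =>
      obtain ⟨m, hm, g, hw⟩ := ih
      set w := φ g⁻¹ * E ℚ N x ^ m with hwdef
      set ω := Lg ℚ N w with hω
      have hw1 : w - 1 ∈ F.U 1 := F.anti (by omega) hw
      have hωU : ω ∈ F.U (i + 1) := Lg_mem F (by omega) hw
      have hωW : ω ∈ Wi F φ ⊤ 1 := by
        have h1 := bch hk F (Wi F φ ⊤ 1) (Wi F φ ⊤ 1) (Wi_le F le_rfl)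
          (bracket_WW F hk hφ hP le_rfl) le_rfl (bracket_WW F hk hφ hP le_rfl)
          (Submodule.neg_mem _ (mem_Wi F (Subgroup.mem_top g) (hφ g)))
          (Submodule.smul_of_tower_mem _ m hx) (bracket_WW F hk hφ hP le_rfl _
            (Submodule.neg_mem _ (mem_Wi F (Subgroup.mem_top g) (hφ g))) _
            (Submodule.smul_of_tower_mem _ m hx))
        rw [← phi_inv F hk hφ, E_nsmul hk F hx1, ← hwdef] at h1
        have h2 := Submodule.add_mem _ (Submodule.add_mem _ h1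
          (Submodule.smul_of_tower_mem (Wi F φ ⊤ 1) m hx))
          (Submodule.neg_mem _ (mem_Wi F (Subgroup.mem_top g) (hφ g)))
        have e : Lg ℚ N w - - lg ℚ N φ g - m • x + m • x + - lg ℚ N φ g = ω := by rw [hω]; abel
        rwa [e] at h2
      have hωi := Wi_inf F hφ i ω hωW hωU
      obtain ⟨M, hM, h, hhU, h3⟩ := hit_rat F hφ (by omega) hωi
      refine ⟨m * M, Nat.mul_pos hm hM, g ^ M * h, ?_⟩
      have hEω : E ℚ N ω = w := E_Lg hk F hw1
      have hω1 : ω ∈ F.U 1 := F.anti (by omega) hωU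
      -- `φ h` is close to `w ^ M`
      have h4 : φ h - w ^ M ∈ F.U (i + 1 + 1) := by
        have h5 := Wi_le F (show 1 ≤ i + 1 + 1 by omega) h3
        have h6 := E_sub_sub_mem hk F (lg_mem F hφ h) (Submodule.smul_of_tower_mem _ M hω1) h5
        rw [E_lg F hk hφ, E_nsmul hk F hω1, hEω] at h6
        have h7 := Submodule.add_mem _ (F.anti (by omega) h6) h5
        rwa [sub_add_cancel] at h7
      have h8 : E ℚ N x ^ (m * M) = (φ g * w) ^ M := by
        rw [hwdef, ← mul_assoc, ← map_mul, mul_inv_cancel, map_one, one_mul, pow_mul]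
      have h9 := pow_congr F hφ (show 1 ≤ i + 1 by omega) (hφ g) hw M
      have h10 : (φ g * w) ^ M - φ (g ^ M * h) ∈ F.U (i + 1 + 1) := by
        have e : (φ g * w) ^ M - φ (g ^ M * h) = ((φ g * w) ^ M - φ g ^ M * w ^ M) -
          φ (g ^ M) * (φ h - w ^ M) := by rw [map_mul, map_pow]; noncomm_ring
        rw [e]
        refine Submodule.sub_mem _ h9 ?_
        have := F.mul (mem_U0 F (hφ (g ^ M))) h4
        simpa using this
      have e : φ (g ^ M * h)⁻¹ * E ℚ N x ^ (m * M) - 1 =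
          φ (g ^ M * h)⁻¹ * ((φ g * w) ^ M - φ (g ^ M * h)) := by
        rw [h8, mul_sub, ← map_mul, inv_mul_cancel, map_one]
      rw [e]
      have := F.mul (mem_U0 F (hφ (g ^ M * h)⁻¹)) h10
      simpa using this
  obtain ⟨m, hm, g, hw⟩ := key N
  have h1 := F.zero_of_le hw (by omega)
  refine ⟨m, hm, g, ?_⟩
  refine lg_eq F hk hφ (Submodule.smul_of_tower_mem _ m hx1) ?_
  rw [E_nsmul hk F hx1]
  have h2 : φ g⁻¹ * E ℚ N x ^ m = 1 := sub_eq_zero.mp h1
  calc φ g = φ g * (φ g⁻¹ * E ℚ N x ^ m) := by rw [h2, mul_one]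
    _ = E ℚ N x ^ m := by rw [← mul_assoc, ← map_mul, mul_inv_cancel, map_one, one_mul]

end

end Pool.Agent.H675R3
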