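import Pool.Agent.H675R3.Coord

set_option autoImplicit false
set_option linter.unusedVariables false

namespace Pool.Agent.H675R3

open Finset

section
variable {Γ : Type*} [Group Γ] {n : ℕ} {ρ : Γ →* Matrix (Fin n) (Fin n) ℤ} (d : Dat ρ)

/-- the bad integer -/
def Dat.Q : ℕ := d.M * (4 * (n + 1) * (n + 1) + 4).factorial

/-- the bad integer is invertible -/
def Dat.Ok (k : Type*) [CommRing k] : Prop := IsUnit ((d.Q : ℕ) : k)

lemma Dat.Q_pos : 0 < d.Q := Nat.mul_pos d.hM (Nat.factorial_pos _)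

variable {d}

lemma Dat.Ok.good {k : Type*} [CommRing k] (h : d.Ok k) : Good k (n + 1) := fun m h0 hm => by
  have h1 : (m : ℕ) ∣ d.Q := (Nat.dvd_factorial h0 hm).trans (dvd_mul_left _ _)
  exact isUnit_of_dvd_unit (Nat.cast_dvd_cast (α := k) h1) h

lemma Dat.Ok.M {k : Type*} [CommRing k] (h : d.Ok k) : IsUnit ((d.M : ℕ) : k) := by
  have h1 : (d.M : ℕ) ∣ d.Q := dvd_mul_right _ _
  exact isUnit_of_dvd_unit (Nat.cast_dvd_cast (α := k) h1) h

lemma Dat.Ok.map {k k' : Type*} [CommRing k] [CommRing k'] (h : d.Ok k) (f : k →+* k') : d.Ok k' := by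
  have := IsUnit.map f h
  rwa [map_natCast] at this

lemma Dat.ok_rat : d.Ok ℚ := by
  unfold Dat.Ok
  rw [isUnit_iff_ne_zero]
  exact_mod_cast d.Q_pos.ne'

variable (d)

/-- the coordinates -/
noncomputable def Dat.zeta (k : Type*) [CommRing k] (g : Γ) (i : Fin d.h) : k :=
  Ring.inverse ((d.M : ℕ) : k) * ∑ a, ∑ b, (d.lam i a b : k) * lgk ρ k g a b

/-- the basis -/
noncomputable def Dat.X (k : Type*) [CommRing k] (i : Fin d.h) : Matrix (Fin n) (Fin n) k :=
  lgk ρ k (d.g i)

variable {d}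

lemma Dat.zeta_map {k k' : Type*} [CommRing k] [CommRing k'] (h : d.Ok k) (f : k →+* k') (g : Γ)
    (i : Fin d.h) : f (d.zeta k g i) = d.zeta k' g i := by
  unfold Dat.zeta
  have h1 : f (Ring.inverse ((d.M : ℕ) : k)) = Ring.inverse ((d.M : ℕ) : k') := by
    have h2 := congrArg f (Ring.inverse_mul_cancel _ h.M)
    rw [map_mul, map_natCast, map_one] at h2
    have hu : IsUnit ((d.M : ℕ) : k') := (h.map f).M
    exact hu.mul_right_cancel (h2.trans (Ring.inverse_mul_cancel _ hu).symm)
  rw [map_mul, h1, map_sum]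
  congr 1
  refine sum_congr rfl fun a _ => ?_
  rw [map_sum]
  refine sum_congr rfl fun b _ => ?_
  rw [map_mul, map_intCast, ← lgk_map h.good f g, RingHom.mapMatrix_apply, Matrix.map_apply]

lemma Dat.X_map {k k' : Type*} [CommRing k] [CommRing k'] (h : d.Ok k) (f : k →+* k') 
    (i : Fin d.h) : f.mapMatrix (d.X k i) = d.X k' i := lgk_map h.good f _

lemma Dat.lg_sum_rat (g : Γ) : lgk ρ ℚ g = ∑ i, d.zeta ℚ g i • d.X ℚ i := by
  have h1 : lgk ρ ℚ g ∈ Submodule.span ℚ (Set.range fun i => lgk ρ ℚ (d.g i)) := by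
    rw [d.span_eq]; exact Submodule.subset_span ⟨g, rfl⟩
  obtain ⟨q, hq⟩ := (Submodule.mem_span_range_iff_exists_fun ℚ).mp h1
  have h2 : ∀ i, d.zeta ℚ g i = q i := by
    intro i
    unfold Dat.zeta
    have h3 : ∑ a, ∑ b, (d.lam i a b : ℚ) * lgk ρ ℚ g a b = d.M * q i := by
      rw [← hq]
      have h4 : ∀ a b, (∑ j, q j • lgk ρ ℚ (d.g j)) a b = ∑ j, q j * lgk ρ ℚ (d.g j) a b := by
        intro a b
        rw [Matrix.sum_apply]
        rfl
      simp only [h4, Finset.mul_sum]
      have h5 : ∑ a, ∑ b, ∑ j, (d.lam i a b : ℚ) * (q j * lgk ρ ℚ (d.g j) a b) =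
          ∑ j, q j * ∑ a, ∑ b, (d.lam i a b : ℚ) * lgk ρ ℚ (d.g j) a b := by
        simp only [Finset.mul_sum]
        rw [Finset.sum_comm (γ := Fin d.h) (s := (univ : Finset (Fin d.h)))]
        refine sum_congr rfl fun a _ => ?_
        rw [Finset.sum_comm]
        refine sum_congr rfl fun b _ => sum_congr rfl fun j _ => ?_
        ring
      rw [h5]
      simp only [d.lam_x]
      simp [mul_comm]
    rw [h3, ← mul_assoc, Ring.inverse_mul_cancel _ d.ok_rat.M, one_mul]
  rw [← hq]
  refine sum_congr rfl fun i _ => ?_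
  rw [h2]; rfl

/-- the ring of fractions -/
abbrev Dat.LL (d : Dat ρ) : Type := Localization.Away ((d.Q : ℕ) : ℤ)

lemma Dat.ok_LL : d.Ok d.LL := by
  unfold Dat.Ok
  have := IsLocalization.Away.algebraMap_isUnit (S := d.LL) ((d.Q : ℕ) : ℤ)
  simpa using this

/-- the map to a ring in which the bad integer is invertible -/
noncomputable def Dat.toK {k : Type*} [CommRing k] (h : d.Ok k) : d.LL →+* k :=
  IsLocalization.Away.lift (S := d.LL) ((d.Q : ℕ) : ℤ) (g := Int.castRingHom k) (by
    have : IsUnit ((d.Q : ℕ) : k) := h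
    simpa using this)

lemma Dat.toQ_inj : Function.Injective (Dat.toK (d := d) d.ok_rat) := by
  rw [injective_iff_map_eq_zero]
  intro x hx
  obtain ⟨a, s, rfl⟩ := IsLocalization.exists_mk'_eq (Submonoid.powers ((d.Q : ℕ) : ℤ)) x
  have h1 := IsLocalization.mk'_spec d.LL a s
  have h2 := congrArg (Dat.toK (d := d) d.ok_rat) h1
  rw [map_mul, hx, zero_mul] at h2
  have h3 : (Dat.toK (d := d) d.ok_rat) (algebraMap ℤ d.LL a) = (a : ℚ) := by
    rw [eq_intCast, map_intCast]
  rw [h3] at h2
  have h4 : a = 0 := by exact_mod_cast h2.symm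
  rw [h4, IsLocalization.mk'_zero]

lemma mapMatrix_smul {k k' : Type*} [CommRing k] [CommRing k'] (f : k →+* k') (c : k)
    (A : Matrix (Fin n) (Fin n) k) : f.mapMatrix (c • A) = f c • f.mapMatrix A := by
  ext a b
  simp [Matrix.map_apply]

lemma mapMatrix_inj {k k' : Type*} [CommRing k] [CommRing k'] {f : k →+* k'}
    (hf : Function.Injective f) {A B : Matrix (Fin n) (Fin n) k}
    (h : f.mapMatrix A = f.mapMatrix B) : A = B := by
  ext a b
  have := congrFun (congrFun h a) b
  simp only [RingHom.mapMatrix_apply, Matrix.map_apply] at this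
  exact hf this

/-- the expansion of the logarithm in the basis -/
theorem Dat.lg_sum {k : Type*} [CommRing k] (h : d.Ok k) (g : Γ) :
    lgk ρ k g = ∑ i, d.zeta k g i • d.X k i := by
  have key : lgk ρ d.LL g = ∑ i, d.zeta d.LL g i • d.X d.LL i := by
    apply mapMatrix_inj (Dat.toQ_inj (d := d))
    rw [lgk_map d.ok_LL.good, map_sum]
    simp only [mapMatrix_smul, Dat.zeta_map d.ok_LL, Dat.X_map d.ok_LL]
    exact d.lg_sum_rat g
  have := congrArg (Dat.toK h).mapMatrix key
  rw [lgk_map d.ok_LL.good, map_sum] at this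
  simp only [mapMatrix_smul, Dat.zeta_map d.ok_LL, Dat.X_map d.ok_LL] at this
  exact this

theorem Dat.X_br {k : Type*} [CommRing k] (h : d.Ok k) (i j : Fin d.h) :
    d.X k i * d.X k j - d.X k j * d.X k i = ∑ r, (d.c i j r : k) • d.X k r := by
  have key : d.X d.LL i * d.X d.LL j - d.X d.LL j * d.X d.LL i =
      ∑ r, (d.c i j r : d.LL) • d.X d.LL r := by
    apply mapMatrix_inj (Dat.toQ_inj (d := d))
    rw [map_sub, map_mul, map_mul, map_sum]
    simp only [mapMatrix_smul, Dat.X_map d.ok_LL, map_intCast]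
    exact d.br i j
  have := congrArg (Dat.toK h).mapMatrix key
  rw [map_sub, map_mul, map_mul, map_sum] at this
  simp only [mapMatrix_smul, Dat.X_map d.ok_LL, map_intCast] at this
  exact this

lemma Dat.X_map_apply {k k' : Type*} [CommRing k] [CommRing k'] (h : d.Ok k) (f : k →+* k')
    (i : Fin d.h) (a b : Fin n) : f (d.X k i a b) = d.X k' i a b := by
  rw [← Dat.X_map h f i, RingHom.mapMatrix_apply, Matrix.map_apply]

theorem Dat.lam_X {k : Type*} [CommRing k] (h : d.Ok k) (i j : Fin d.h) :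
    ∑ a, ∑ b, (d.lam i a b : k) * d.X k j a b = if i = j then (d.M : k) else 0 := by
  have key : ∑ a, ∑ b, (d.lam i a b : d.LL) * d.X d.LL j a b = if i = j then (d.M : d.LL) else 0 := by
    apply Dat.toQ_inj (d := d)
    rw [map_sum]
    simp only [map_sum, map_mul, map_intCast]
    have e : Dat.toK (d := d) d.ok_rat (if i = j then (d.M : d.LL) else 0) = if i = j then (d.M : ℚ) else 0 := by
      split_ifs <;> simp
    rw [e, ← d.lam_x i j]
    refine sum_congr rfl fun a _ => sum_congr rfl fun b _ => ?_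
    rw [Dat.X_map_apply d.ok_LL (Dat.toK d.ok_rat)]
    rfl
  have := congrArg (Dat.toK h) key
  rw [map_sum] at this
  simp only [map_sum, map_mul, map_intCast] at this
  have e : Dat.toK h (if i = j then (d.M : d.LL) else 0) = if i = j then (d.M : k) else 0 := by
    split_ifs <;> simp
  rw [e] at this
  rw [← this]
  refine sum_congr rfl fun a _ => sum_congr rfl fun b _ => ?_
  rw [Dat.X_map_apply d.ok_LL (Dat.toK h)]

/-! ### coordinates -/

/-- the bracket in coordinates -/
def brk {h : ℕ} (c : Fin h → Fin h → Fin h → ℤ) {k : Type*} [CommRing k] (x y : Fin h → k) :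
    Fin h → k := fun r => ∑ i, ∑ j, x i * y j * (c i j r : k)

variable (d)

/-- the matrix with given coordinates -/
noncomputable def Dat.mat (k : Type*) [CommRing k] : (Fin d.h → k) →ₗ[k] Matrix (Fin n) (Fin n) k :=
  Fintype.linearCombination k (d.X k)

variable {d}

lemma Dat.mat_apply {k : Type*} [CommRing k] (x : Fin d.h → k) :
    d.mat k x = ∑ i, x i • d.X k i := rfl

lemma Dat.lg_mat {k : Type*} [CommRing k] (h : d.Ok k) (g : Γ) :
    lgk ρ k g = d.mat k (d.zeta k g) := d.lg_sum h g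

lemma Dat.mat_inj {k : Type*} [CommRing k] (h : d.Ok k) : Function.Injective (d.mat k) := by
  rw [← LinearMap.ker_eq_bot, LinearMap.ker_eq_bot']
  intro x hx
  funext i
  have h1 : (d.M : k) * x i = 0 := by
    have h2 : ∑ a, ∑ b, (d.lam i a b : k) * d.mat k x a b = d.M * x i := by
      have h4 : ∀ a b, d.mat k x a b = ∑ j, x j * d.X k j a b := by
        intro a b
        rw [Dat.mat_apply, Matrix.sum_apply]
        rfl
      simp only [h4, Finset.mul_sum]
      have h5 : ∑ a, ∑ b, ∑ j, (d.lam i a b : k) * (x j * d.X k j a b) =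
          ∑ j, x j * ∑ a, ∑ b, (d.lam i a b : k) * d.X k j a b := by
        simp only [Finset.mul_sum]
        rw [Finset.sum_comm (γ := Fin d.h) (s := (univ : Finset (Fin d.h)))]
        refine sum_congr rfl fun a _ => ?_
        rw [Finset.sum_comm]
        refine sum_congr rfl fun b _ => sum_congr rfl fun j _ => ?_
        ring
      rw [h5]
      simp only [d.lam_X h]
      simp [mul_comm]
    rw [← h2, hx]
    simp
  exact (h.M.mul_right_eq_zero).mp h1

lemma Dat.mat_brk {k : Type*} [CommRing k] (h : d.Ok k) (x y : Fin d.h → k) :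
    d.mat k (brk d.c x y) = d.mat k x * d.mat k y - d.mat k y * d.mat k x := by
  simp only [Dat.mat_apply]
  rw [Finset.sum_mul_sum, Finset.sum_mul_sum]
  rw [Finset.sum_comm (s := (univ : Finset (Fin d.h))) (t := univ)
    (f := fun i j => (y i • d.X k i) * (x j • d.X k j))]
  rw [← Finset.sum_sub_distrib]
  have h1 : ∀ i, ∑ j, x i • d.X k i * y j • d.X k j - ∑ j, y j • d.X k j * x i • d.X k i =
      ∑ j, ∑ r, (x i * y j * (d.c i j r : k)) • d.X k r := by
    intro i
    rw [← Finset.sum_sub_distrib]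
    refine sum_congr rfl fun j _ => ?_
    rw [smul_mul_smul_comm, smul_mul_smul_comm, mul_comm (y j) (x i), ← smul_sub, d.X_br h,
      Finset.smul_sum]
    refine sum_congr rfl fun r _ => ?_
    rw [smul_smul]
  rw [Finset.sum_congr rfl fun i _ => h1 i]
  unfold brk
  simp only [Finset.sum_smul]
  rw [Finset.sum_comm]
  refine sum_congr rfl fun i _ => ?_
  rw [Finset.sum_comm]

/-- ideals -/
def IsCI {h : ℕ} (c : Fin h → Fin h → Fin h → ℤ) {k : Type*} [CommRing k]
    (I : Set (Fin h → k)) : Prop := ∀ x ∈ I, ∀ y, brk c y x ∈ I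

end

end Pool.Agent.H675R3
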