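import Pool.Agent.H675R3.Final2
import Pool.Agent.H798R2.EP.H

set_option autoImplicit false
set_option linter.unusedVariables false

namespace Pool.Agent.H675R3

open Finset TensorProduct

section lift
variable {G Q : Type*} [Group G] [Group Q]

lemma image_closure (π : G →* Q) (hπ : Function.Surjective π) {S : Set G}
    (hS : Subgroup.closure S = ⊤) : Subgroup.closure (π '' S) = ⊤ := by
  rw [← MonoidHom.map_closure, hS, Subgroup.map_top_of_surjective π hπ]

lemma wordLen_map (π : G →* Q) {S : Set G} (hS : Subgroup.closure S = ⊤) (g : G) :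
    wordLen (π '' S) (π g) ≤ wordLen S g := by
  obtain ⟨l, hl1, hl2, hl3⟩ := wordLen_spec hS g
  rw [← hl1, ← List.length_map (f := π)]
  refine wordLen_le (l.map π) ?_ ?_
  · intro x hx
    rw [List.mem_map] at hx
    obtain ⟨y, hy, rfl⟩ := hx
    rcases hl2 y hy with h | h
    · exact Or.inl ⟨y, h, rfl⟩
    · exact Or.inr ⟨y⁻¹, h, map_inv π y⟩
  · rw [← hl3, map_list_prod]

lemma wordLen_lift (π : G →* Q) (hπ : Function.Surjective π) {S : Set G}
    (hS : Subgroup.closure S = ⊤) (q : Q) : ∃ g, π g = q ∧ wordLen S g ≤ wordLen (π '' S) q := by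
  have key : ∀ l : List Q, (∀ x ∈ l, x ∈ π '' S ∨ x⁻¹ ∈ π '' S) →
      ∃ l' : List G, l'.length = l.length ∧ (∀ x ∈ l', x ∈ S ∨ x⁻¹ ∈ S) ∧ π l'.prod = l.prod := by
    intro l
    induction l with
    | nil => exact fun _ => ⟨[], rfl, by simp, by simp⟩
    | cons a l ih =>
      intro h
      obtain ⟨l', h1, h2, h3⟩ := ih (fun x hx => h x (List.mem_cons_of_mem _ hx))
      obtain ⟨b, hb, hba⟩ : ∃ b : G, (b ∈ S ∨ b⁻¹ ∈ S) ∧ π b = a := by
        rcases h a List.mem_cons_self with ⟨b, hb, hba⟩ | ⟨b, hb, hba⟩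
        · exact ⟨b, Or.inl hb, hba⟩
        · refine ⟨b⁻¹, Or.inr (by rwa [inv_inv]), ?_⟩
          rw [map_inv, hba, inv_inv]
      refine ⟨b :: l', by simp [h1], ?_, ?_⟩
      · intro x hx
        rcases List.mem_cons.mp hx with rfl | hx
        · exact hb
        · exact h2 x hx
      · rw [List.prod_cons, List.prod_cons, map_mul, hba, h3]
  obtain ⟨l, hl1, hl2, hl3⟩ := wordLen_spec (image_closure π hπ hS) q
  obtain ⟨l', h1, h2, h3⟩ := key l hl2
  refine ⟨l'.prod, by rw [h3, hl3], ?_⟩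
  rw [← hl1, ← h1]
  exact wordLen_le l' h2 rfl

lemma depth_le_map (π : G →* Q) (hπ : Function.Surjective π) {g : G}
    (h : ∃ N : Subgroup Q, N.Normal ∧ N.index ≠ 0 ∧ π g ∉ N) : depth g ≤ depth (π g) := by
  obtain ⟨N, h1, h2, h3, h4⟩ := depth_spec h
  have h5 : (N.comap π).index = N.index := Subgroup.index_comap_of_surjective N hπ
  rw [← h4, ← h5]
  exact depth_le (N.comap π) (h1.comap π) (by rw [h5]; exact h2) h3

lemma depth_map_le (π : G →* Q) (hπ : Function.Surjective π) (t : ℕ)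
    (ht : ∀ x, π x = 1 → x ^ t = 1) {g : G}
    (h : ∃ N : Subgroup G, N.Normal ∧ N.index ≠ 0 ∧ g ^ t ∉ N) : depth (π g) ≤ depth (g ^ t) := by
  obtain ⟨N, h1, h2, h3, h4⟩ := depth_spec h
  have h5 : π g ∉ N.map π := by
    rintro ⟨n, hn, hng⟩
    have h6 : (n⁻¹ * g) ^ t = 1 := ht _ (by rw [map_mul, map_inv, hng, inv_mul_cancel])
    apply h3
    have hn' : (QuotientGroup.mk' N) n = 1 := (QuotientGroup.eq_one_iff n).mpr hn
    have h7 : (QuotientGroup.mk' N) (g ^ t) = (QuotientGroup.mk' N) ((n⁻¹ * g) ^ t) := by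
      rw [map_pow, map_pow, map_mul, map_inv, hn', inv_one, one_mul]
    rw [h6, map_one] at h7
    exact (QuotientGroup.eq_one_iff _).mp h7
  have h6 : (N.map π).index ∣ N.index := N.index_map_dvd hπ
  have h7 : (N.map π).index ≠ 0 := fun h => h2 (by rw [h, zero_dvd_iff] at h6; exact h6)
  rw [← h4]
  exact (depth_le _ (h1.map π hπ) h7 h5).trans (Nat.le_of_dvd (Nat.pos_of_ne_zero h2) h6)

/-- two-sided bounds for the depth -/
structure GB (S : Set G) (δ : ℕ) : Prop where
  ub : ∃ C : ℝ, 0 < C ∧ ∀ g : G, g ≠ 1 → (depth g : ℝ) ≤ (C * (Real.log (wordLen S g + 1) + 1)) ^ δ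
  lb : ∃ A : ℝ, 0 < A ∧ ∃ m₁ : ℕ, ∀ m ≥ m₁, ∃ g : G, g ≠ 1 ∧
    Real.log (wordLen S g + 1) ≤ A * m ∧ m ^ δ ≤ depth g

lemma log_nn (x : ℕ) : 0 ≤ Real.log ((x : ℝ) + 1) := Real.log_nonneg (by
  have : (0 : ℝ) ≤ x := Nat.cast_nonneg _
  linarith)

/-- the growth of a finite extension -/
theorem GB.lift (π : G →* Q) (hπ : Function.Surjective π) [Finite π.ker] {S : Set G}
    (hS : Subgroup.closure S = ⊤) {δ : ℕ} (hδ : 1 ≤ δ)
    (hrf : ∀ q : Q, q ≠ 1 → ∃ N : Subgroup Q, N.Normal ∧ N.index ≠ 0 ∧ q ∉ N)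
    (htf : ∀ (q : Q) (n : ℕ), 0 < n → q ^ n = 1 → q = 1)
    (h : GB (π '' S) δ) : GB S δ := by
  constructor
  · obtain ⟨C, hC, hub⟩ := h.ub
    have hfin : {x : G | π x = 1}.Finite := Set.toFinite (π.ker : Set G)
    obtain ⟨B, hB⟩ : ∃ B : ℕ, ∀ x : G, π x = 1 → depth x ≤ B := by
      refine ⟨∑ x ∈ hfin.toFinset, depth x, fun x hx => ?_⟩
      exact Finset.single_le_sum (f := depth) (fun _ _ => Nat.zero_le _) (hfin.mem_toFinset.mpr hx)
    refine ⟨C + B + 1, by positivity, fun g hg => ?_⟩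
    have hl := log_nn (wordLen S g)
    have hB0 : (0 : ℝ) ≤ B := Nat.cast_nonneg _
    by_cases hg1 : π g = 1
    · have h1 : (depth g : ℝ) ≤ B := by exact_mod_cast hB g hg1
      have h2 : (C + B + 1) * 1 ≤ (C + B + 1) * (Real.log (wordLen S g + 1) + 1) :=
        mul_le_mul_of_nonneg_left (by linarith) (by positivity)
      have h3 : (C + B + 1) * (Real.log (wordLen S g + 1) + 1) ≤
          ((C + B + 1) * (Real.log (wordLen S g + 1) + 1)) ^ δ :=
        le_self_pow₀ (by linarith) (by omega)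
      linarith
    · have h1 := depth_le_map π hπ (hrf _ hg1)
      have h2 := hub _ hg1
      have h3 : (depth g : ℝ) ≤ depth (π g) := by exact_mod_cast h1
      refine (h3.trans h2).trans ?_
      have h4 : Real.log ((wordLen (π '' S) (π g) : ℝ) + 1) ≤ Real.log ((wordLen S g : ℝ) + 1) := by
        apply Real.log_le_log (by positivity)
        have : (wordLen (π '' S) (π g) : ℝ) ≤ wordLen S g := by exact_mod_cast wordLen_map π hS g
        linarith
      have h5 := log_nn (wordLen (π '' S) (π g))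
      apply pow_le_pow_left₀ (by positivity)
      apply mul_le_mul (by linarith) (by linarith) (by positivity) (by positivity)
  · obtain ⟨A, hA, m₁, hlb⟩ := h.lb
    set t := Nat.card π.ker with ht
    have ht0 : 0 < t := Nat.card_pos
    have ht1 : ∀ x, π x = 1 → x ^ t = 1 := by
      intro x hx
      have h1 : (⟨x, hx⟩ : π.ker) ^ t = 1 := pow_card_eq_one'
      exact congrArg Subtype.val h1
    have hlt : 0 ≤ Real.log (t : ℝ) := Real.log_natCast_nonneg t
    refine ⟨A + Real.log t, by positivity, m₁ + 1, fun m hm => ?_⟩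
    obtain ⟨q, hq, hq1, hq2⟩ := hlb m (by omega)
    obtain ⟨g, hg, hgl⟩ := wordLen_lift π hπ hS q
    have h1 : π (g ^ t) ≠ 1 := by
      rw [map_pow, hg]
      exact fun h => hq (htf q t ht0 h)
    have h2 : ∃ N : Subgroup G, N.Normal ∧ N.index ≠ 0 ∧ g ^ t ∉ N := by
      obtain ⟨N, hN1, hN2, hN3⟩ := hrf _ h1
      exact ⟨N.comap π, hN1.comap π, by rw [Subgroup.index_comap_of_surjective N hπ]; exact hN2, hN3⟩
    refine ⟨g ^ t, fun h => h1 (by rw [h, map_one]), ?_, ?_⟩
    · have h3 := wordLen_pow hS g t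
      have h4 : (wordLen S (g ^ t) : ℝ) + 1 ≤ t * ((wordLen (π '' S) q : ℝ) + 1) := by
        have : wordLen S (g ^ t) + 1 ≤ t * (wordLen (π '' S) q + 1) := by
          have h5 := Nat.mul_le_mul_left t hgl
          rw [mul_add, mul_one]
          omega
        exact_mod_cast this
      have h5 := Real.log_le_log (by positivity) h4
      rw [Real.log_mul (by exact_mod_cast ht0.ne') (by positivity)] at h5
      have h6 : (1 : ℝ) ≤ m := by exact_mod_cast (by omega : 1 ≤ m)
      nlinarith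
    · rw [← hg] at hq2
      exact hq2.trans (depth_map_le π hπ t ht1 h2)

/-- explicit two-sided bounds for the growth function -/
theorem GB.explicit {S : Set G} (hS : Subgroup.closure S = ⊤) {δ : ℕ} (h : GB S δ)
    (hpos : 1 ≤ RF S 1) :
    ∃ C : ℝ, 0 < C ∧ ∀ n : ℕ, 2 ≤ n → (Real.log n) ^ δ ≤ C * RF S n ∧ (RF S n : ℝ) ≤ C * (Real.log n) ^ δ := by
  obtain ⟨C, hC, hub⟩ := h.ub
  obtain ⟨A, hA, m₁, hlb⟩ := h.lb
  have hmono : ∀ {m n : ℕ}, m ≤ n → RF S m ≤ RF S n := fun hmn => RF_mono hC hub hmn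
  -- the constants
  set n₀ : ℕ := ⌈Real.exp (A * (m₁ + 1))⌉₊ + 2 with hn₀
  set C1 : ℝ := (4 * C) ^ δ with hC1
  set C2 : ℝ := (2 * A) ^ δ with hC2
  set C3 : ℝ := (Real.log n₀) ^ δ with hC3
  have hlogn₀ : 0 < Real.log n₀ := Real.log_pos (by
    rw [hn₀]; push_cast
    have : (0 : ℝ) ≤ (⌈Real.exp (A * (m₁ + 1))⌉₊ : ℝ) := Nat.cast_nonneg _
    linarith)
  have hC1p : 0 < C1 := by positivity
  have hC2p : 0 < C2 := by positivity
  have hC3p : 0 < C3 := by positivity
  refine ⟨C1 + C2 + C3, by positivity, fun n hn => ?_⟩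
  have hn2 : (2 : ℝ) ≤ n := by exact_mod_cast hn
  have hlog2 : (1 : ℝ) / 2 ≤ Real.log n := by
    have h1 : Real.log 2 ≤ Real.log n := Real.log_le_log (by norm_num) hn2
    have h2 := Real.log_two_gt_d9
    linarith
  have hlogn1 : Real.log ((n : ℝ) + 1) ≤ 2 * Real.log n := by
    rw [← Real.log_rpow (by positivity), show ((2 : ℝ)) = ((2 : ℕ) : ℝ) by norm_num, Real.rpow_natCast]
    apply Real.log_le_log (by positivity)
    nlinarith
  have hRF0 : (0 : ℝ) ≤ RF S n := Nat.cast_nonneg _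
  have hlogp : 0 ≤ (Real.log n) ^ δ := pow_nonneg (by linarith) _
  constructor
  · by_cases hnn : n ≤ n₀
    · have h1 : (Real.log n) ^ δ ≤ C3 := by
        apply pow_le_pow_left₀ (by linarith)
        exact Real.log_le_log (by positivity) (by exact_mod_cast hnn)
      have h2 : (1 : ℝ) ≤ RF S n := by
        have : 1 ≤ RF S n := hpos.trans (hmono (by omega))
        exact_mod_cast this
      nlinarith
    · push Not at hnn
      set m : ℕ := ⌊Real.log n / A⌋₊ with hm
      have hmA : A * m ≤ Real.log n := by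
        have h1 : (m : ℝ) ≤ Real.log n / A := Nat.floor_le (by positivity)
        rw [le_div_iff₀ hA] at h1
        linarith
      have hbig : A * (m₁ + 1) ≤ Real.log n := by
        rw [Real.le_log_iff_exp_le (by positivity)]
        have h1 := Nat.le_ceil (Real.exp (A * (m₁ + 1)))
        have h2 : ((⌈Real.exp (A * ((m₁ : ℝ) + 1))⌉₊ : ℕ) : ℝ) ≤ n := by
          have : ⌈Real.exp (A * ((m₁ : ℝ) + 1))⌉₊ ≤ n := by omega
          exact_mod_cast this
        linarith
      have hmge : Real.log n / A < m + 1 := Nat.lt_floor_add_one _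
      have hm1 : (m₁ : ℝ) + 1 ≤ Real.log n / A := by
        rw [le_div_iff₀ hA]; linarith
      have hmm : m₁ ≤ m := by
        have : (m₁ : ℝ) < m + 1 := by linarith
        have : m₁ < m + 1 := by exact_mod_cast this
        omega
      have hm1' : (1 : ℝ) ≤ m := by
        have h1 : (0 : ℝ) ≤ m₁ := Nat.cast_nonneg _
        have h2 : (0 : ℝ) < m := by linarith
        have h3 : 0 < m := by exact_mod_cast h2
        exact_mod_cast h3
      obtain ⟨g, hg, hgw, hgd⟩ := hlb m hmm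
      have hgn : wordLen S g ≤ n := by
        have h1 : Real.log ((wordLen S g : ℝ) + 1) ≤ Real.log (n : ℝ) := hgw.trans hmA
        have h2 : (wordLen S g : ℝ) + 1 ≤ n := by
          rwa [Real.log_le_log_iff (by positivity) (by positivity)] at h1
        have h3 : (wordLen S g : ℝ) ≤ n := by linarith
        exact_mod_cast h3
      have h1 : m ^ δ ≤ RF S n := hgd.trans (le_RF hC hub hg hgn)
      have h2 : Real.log n ≤ 2 * A * m := by
        rw [div_lt_iff₀ hA] at hmge
        nlinarith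
      have h3 : (Real.log n) ^ δ ≤ C2 * (m : ℝ) ^ δ := by
        rw [hC2, ← mul_pow]
        exact pow_le_pow_left₀ (by linarith) h2 δ
      have h4 : ((m : ℝ)) ^ δ ≤ RF S n := by exact_mod_cast h1
      nlinarith
  · have h1 := RF_le hC hub n
    have h2 : C * (Real.log (n + 1) + 1) ≤ 4 * C * Real.log n := by nlinarith
    have h3 : (RF S n : ℝ) ≤ C1 * (Real.log n) ^ δ := by
      rw [hC1, ← mul_pow]
      exact h1.trans (pow_le_pow_left₀ (by have := log_nn n; positivity) h2 δ)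
    nlinarith

end lift

end Pool.Agent.H675R3
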