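import Pool.Agent.H44R2.WrN.SepTop

/-!
Polynomial functions of one fixed degree separate the points of a finitely generated torsion-free
nilpotent group. This is the argument of `Pool.Agent.H44R2.WrN.SepTop` with a uniform degree.
-/

set_option autoImplicit false

namespace Pool.Agent.H675R3.Emb

open Subgroup Pool.Agent.H44R2.WrN

theorem P_mono_succ {N : Type} [Group N] (M : Subgroup N) : ∀ k, P M k ≤ P M (k + 1) := by
  intro k
  induction k with
  | zero =>
    intro l hl
    rw [mem_P_succ]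
    intro m hm x hx
    rw [dl_apply, hl _ (M.mul_mem hx hm), hl x hx, sub_zero]
  | succ k ih =>
    intro l hl
    rw [mem_P_succ] at hl ⊢
    intro m hm
    exact ih (hl m hm)

theorem P_mono {N : Type} [Group N] (M : Subgroup N) {a b : ℕ} (h : a ≤ b) : P M a ≤ P M b :=
  monotone_nat_of_le_succ (P_mono_succ M) h

/-- polynomial functions of bounded degree separate the elements of `M` from `1` -/
def USep {N : Type} [Group N] (M : Subgroup N) : Prop :=
  ∃ k, ∀ g ∈ M, g ≠ 1 → ∃ l ∈ P M k, l g ≠ l 1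

theorem USep.bot {N : Type} [Group N] : USep (⊥ : Subgroup N) :=
  ⟨0, fun g hg h1 => absurd (Subgroup.mem_bot.1 hg) h1⟩

theorem USep.step {N : Type} [Group N] [hN : Group.IsNilpotent N] (M M' : Subgroup N)
    [hMn : M.Normal] (x : N) (hx : ∀ j : ℤ, x ^ j ∈ M → j = 0)
    (hM' : ∀ y, y ∈ M' ↔ ∃ j : ℤ, x ^ (-j) * y ∈ M) (h : USep M) : USep M' := by
  classical
  obtain ⟨c, hc⟩ := Subgroup.nilpotent_iff_lowerCentralSeries.1 hN
  let J : N → ℤ := fun y => if h : ∃ j : ℤ, x ^ (-j) * y ∈ M then h.choose else 0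
  have hJ : ∀ y ∈ M', x ^ (-(J y)) * y ∈ M := by
    intro y hy
    have h1 := (hM' y).1 hy
    have h2 : J y = h1.choose := dif_pos h1
    rw [h2]
    exact h1.choose_spec
  have hJu : ∀ y ∈ M', ∀ j : ℤ, x ^ (-j) * y ∈ M → J y = j := by
    intro y hy j hj
    have h1 := M.mul_mem (hJ y hy) (M.inv_mem hj)
    have h2 : x ^ (-(J y)) * y * (x ^ (-j) * y)⁻¹ = x ^ (j - J y) := by
      rw [mul_inv_rev, ← zpow_neg, neg_neg, mul_assoc, mul_inv_cancel_left, ← zpow_add]
      congr 1; ring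
    rw [h2] at h1
    have := hx _ h1
    omega
  have hJmul : ∀ y ∈ M', ∀ z ∈ M', J (y * z) = J y + J z := by
    intro y hy z hz
    apply hJu _ (M'.mul_mem hy hz)
    have h1 := hMn.conj_mem _ (hJ y hy) (x ^ (-(J z)))
    have h2 := M.mul_mem h1 (hJ z hz)
    have h3 : x ^ (-(J y + J z)) * (y * z) =
        x ^ (-(J z)) * (x ^ (-(J y)) * y) * (x ^ (-(J z)))⁻¹ * (x ^ (-(J z)) * z) := by
      have e : x ^ (-(J y + J z)) = x ^ (-(J z)) * x ^ (-(J y)) := by
        rw [← zpow_add]; congr 1; ring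
      rw [e]; group
    rw [h3]
    exact h2
  have hJone : J 1 = 0 := by
    have := hJmul 1 M'.one_mem 1 M'.one_mem
    rw [mul_one] at this
    omega
  obtain ⟨k, h⟩ := h
  let Mi : ℕ → Subgroup N := fun i => M ⊓ (⊤ : Subgroup N).lowerCentralSeries i
  have hMi0 : Mi 0 = M := by
    show M ⊓ (⊤ : Subgroup N).lowerCentralSeries 0 = M
    rw [Subgroup.lowerCentralSeries_zero, inf_top_eq]
  have hG : Good Mi := good_chain M
  have hMc : ∀ i, c + 1 ≤ i → Mi i = ⊥ := by
    intro i hi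
    have h1 := Subgroup.lowerCentralSeries_antitone (S := (⊤ : Subgroup N))
      (show c ≤ i by omega)
    rw [hc, le_bot_iff] at h1
    show M ⊓ (⊤ : Subgroup N).lowerCentralSeries i = ⊥
    rw [h1, inf_bot_eq]
  have key : ∀ w, ∀ μ ∈ W Mi w, (fun y => μ (x ^ (-(J y)) * y)) ∈ P M' w := by
    intro w
    induction w with
    | zero =>
      intro μ hμ
      rw [mem_W_zero, hMi0] at hμ
      intro y hy
      exact hμ _ (hJ y hy)
    | succ w ih =>
      intro μ hμ
      rw [mem_P_succ]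
      intro n hn
      set i := J n with hi
      set u := x ^ (-i) * n with hu
      have huM : u ∈ M := hJ n hn
      have hμ1 : cj (x ^ i) (rt u μ) - μ ∈ W Mi w := by
        have e : cj (x ^ i) (rt u μ) - μ = (cj (x ^ i) (rt u μ) - rt u μ) + dl u μ := by
          rw [dl_eq]; abel
        rw [e]
        have hu0 : u ∈ Mi 0 := by rw [hMi0]; exact huM
        have h1 : rt u μ ∈ W Mi (w + 1) := rt_mem_W hG hμ hu0
        have h2 := cj_sub_mem hG (x ^ i) (w + 1) _ h1
        have h3 := dl_mem_W hG hμ hu0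
        exact (W Mi w).add_mem h2 h3
      refine P_congr ?_ (ih _ hμ1)
      intro y hy
      rw [dl_apply, Pi.sub_apply, cj_apply, rt_apply, hJmul y hy n hn]
      congr 2
      rw [hu, neg_add, zpow_add, ← hi]
      have e : (x ^ i)⁻¹ = x ^ (-i) := (zpow_neg x i).symm
      rw [e]
      have e2 : x ^ (-(J y)) * x ^ (-i) = x ^ (-i) * x ^ (-(J y)) := by
        rw [← zpow_add, ← zpow_add, add_comm]
      rw [e2]
      have e3 : x ^ i * (x ^ (-i) * n) = n := by
        rw [← mul_assoc, ← zpow_add, add_neg_cancel, zpow_zero, one_mul]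
      rw [mul_assoc _ (x ^ i), e3]
      group
  refine ⟨(c + 1) * k + 2, ?_⟩
  intro g hg hg1
  by_cases hJg : J g = 0
  · have hgM : g ∈ M := by
      have := hJ g hg
      rwa [hJg, neg_zero, zpow_zero, one_mul] at this
    obtain ⟨l, hl, hlg⟩ := h g hgM hg1
    have hlW : l ∈ W Mi ((c + 1) * k) := P_le_W hG (Nat.succ_pos c) hMc k (by rw [hMi0]; exact hl)
    refine ⟨_, P_mono M' (by omega) (key _ l hlW), ?_⟩
    show l (x ^ (-(J g)) * g) ≠ l (x ^ (-(J 1)) * 1)
    rw [hJg, hJone, neg_zero, zpow_zero, one_mul, mul_one]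
    exact hlg
  · refine ⟨fun y => (J y : ℚ), P_mono M' (show 2 ≤ (c + 1) * k + 2 by omega) ?_, ?_⟩
    · rw [mem_P_succ]
      intro m hm
      rw [mem_P_succ]
      intro n hn y hy
      rw [dl_apply, dl_apply, dl_apply, hJmul _ (M'.mul_mem hy hn) _ hm, hJmul _ hy _ hm]
      push_cast
      ring
    · show (J g : ℚ) ≠ (J 1 : ℚ)
      rw [hJone]
      exact_mod_cast hJg

theorem usep_top {N : Type} [Group N] [hfg : Group.FG N] (hn : Group.IsNilpotent N)
    (htf : OD.TF N) : USep (⊤ : Subgroup N) := by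
  have hwf : WellFoundedGT (Subgroup N) := by
    apply wf_of_fg
    have h1 := Pool.Agent.Helper111.EN.NSc.NS_of_nilpotent_fg (⊤ : Subgroup N)
      (inferInstance) hfg.1
    exact fun K => h1 K le_top
  let s : Set (Subgroup N) := {M | M.Normal ∧ (∀ y : N, ∀ k : ℕ, 0 < k → y ^ k ∈ M → y ∈ M) ∧
    USep M}
  have hs : s.Nonempty := by
    refine ⟨⊥, inferInstance, ?_, USep.bot⟩
    intro y k hk hy
    exact Subgroup.mem_bot.2 (htf y k hk (Subgroup.mem_bot.1 hy))
  obtain ⟨M, ⟨hMn, hMi, hMs⟩, hmax⟩ := hwf.wf.has_min s hs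
  by_cases hM : M = ⊤
  · rw [← hM]; exact hMs
  exfalso
  have := hMn
  have : Nontrivial (N ⧸ M) := by
    rw [QuotientGroup.nontrivial_iff]; exact hM
  have hnQ : Group.IsNilpotent (N ⧸ M) := inferInstance
  have htfQ : OD.TF (N ⧸ M) := by
    intro q k hk hq
    obtain ⟨y, rfl⟩ := QuotientGroup.mk_surjective q
    rw [← QuotientGroup.mk_pow, QuotientGroup.eq_one_iff] at hq
    rw [QuotientGroup.eq_one_iff]
    exact hMi y k hk hq
  have hwfQ : WellFoundedGT (Subgroup (N ⧸ M)) := by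
    apply wf_of_fg
    have : Group.FG (N ⧸ M) := inferInstance
    have h1 := Pool.Agent.Helper111.EN.NSc.NS_of_nilpotent_fg (⊤ : Subgroup (N ⧸ M))
      (inferInstance) this.1
    exact fun K => h1 K le_top
  obtain ⟨xb, hxc, hx1, hiso⟩ := exists_isolated hnQ htfQ hwfQ
  obtain ⟨x, rfl⟩ := QuotientGroup.mk_surjective xb
  let M' : Subgroup N := (zpowers (x : N ⧸ M)).comap (QuotientGroup.mk' M)
  have hMn' : M'.Normal := by
    have : (zpowers (x : N ⧸ M)).Normal := by
      constructor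
      intro n hn g
      have hnc : n ∈ center (N ⧸ M) := (zpowers_le.2 hxc) hn
      rw [Subgroup.mem_center_iff.1 hnc g, mul_inv_cancel_right]
      exact hn
    exact this.comap _
  have hM' : ∀ y, y ∈ M' ↔ ∃ j : ℤ, x ^ (-j) * y ∈ M := by
    intro y
    show ((y : N ⧸ M) ∈ zpowers (x : N ⧸ M)) ↔ _
    rw [mem_zpowers_iff]
    refine exists_congr fun j => ?_
    rw [← QuotientGroup.mk_zpow, QuotientGroup.eq, ← zpow_neg]
  have hxj : ∀ j : ℤ, x ^ j ∈ M → j = 0 := by
    intro j hj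
    by_contra hj0
    have h1 : x ^ j.natAbs ∈ M := by
      rcases Int.natAbs_eq j with h | h
      · rw [h, zpow_natCast] at hj; exact hj
      · rw [h, zpow_neg, inv_mem_iff, zpow_natCast] at hj; exact hj
    have h2 := hMi x _ (Int.natAbs_pos.2 hj0) h1
    exact hx1 ((QuotientGroup.eq_one_iff x).2 h2)
  have hsep' : USep M' := USep.step M M' x hxj hM' hMs
  have hMem : M' ∈ s := by
    refine ⟨hMn', ?_, hsep'⟩
    intro y k hk hy
    refine hiso _ k hk ?_
    have : ((y ^ k : N) : N ⧸ M) ∈ zpowers (x : N ⧸ M) := hy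
    rwa [QuotientGroup.mk_pow] at this
  refine hmax M' hMem ?_
  refine lt_of_le_of_ne ?_ ?_
  · intro y hy
    rw [hM']
    exact ⟨0, by rwa [neg_zero, zpow_zero, one_mul]⟩
  · intro h
    have : x ∈ M' := by
      rw [hM']
      refine ⟨1, ?_⟩
      rw [zpow_neg, zpow_one, inv_mul_cancel]
      exact M.one_mem
    rw [← h] at this
    exact hx1 ((QuotientGroup.eq_one_iff x).2 this)

end Pool.Agent.H675R3.Emb
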