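import Pool.Agent.H675R3.Transfer

set_option autoImplicit false
set_option linter.unusedVariables false

namespace Pool.Agent.H675R3

open Finset

/-- the dimension count -/
theorem codim_le {hh : ℕ} (F₀ R : Type) [Field F₀] [CommRing R] [Algebra F₀ R]
    (τ : R →+* F₀) (hτ : ∀ x, τ (algebraMap F₀ R x) = x) (k : ℕ)
    (B : ℕ → Submodule R (Fin hh → R)) (w : Fin k → Fin hh → R)
    (h1 : ∀ j : Fin k, ∀ r : R, τ r = 0 → r • w j ∈ B j)
    (h2 : ∀ j : Fin k, ∀ x ∈ B (j + 1), ∃ s : R, x - s • w j ∈ B j)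
    (h3 : B k = ⊤) (I : Submodule F₀ (Fin hh → F₀))
    (hI : ∀ x, x ∈ I ↔ (fun i => algebraMap F₀ R (x i)) ∈ B 0) :
    Module.finrank F₀ ((Fin hh → F₀) ⧸ I) ≤ k := by
  let Q := (Fin hh → R) ⧸ B 0
  let mkQ : (Fin hh → R) →ₗ[R] Q := (B 0).mkQ
  let v : Fin k → Q := fun j => mkQ (w j)
  have hspan : ∀ j : ℕ, j ≤ k → ∀ x ∈ B j, mkQ x ∈ Submodule.span F₀ (Set.range v) := by
    intro j
    induction j with
    | zero =>
      intro _ x hx
      have : mkQ x = 0 := (Submodule.Quotient.mk_eq_zero _).mpr hx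
      rw [this]
      exact Submodule.zero_mem _
    | succ j ih =>
      intro hj x hx
      obtain ⟨s, hs⟩ := h2 ⟨j, by omega⟩ x hx
      set c := τ s with hc
      have h4 : x - algebraMap F₀ R c • w ⟨j, by omega⟩ ∈ B j := by
        have h5 : (s - algebraMap F₀ R c) • w ⟨j, by omega⟩ ∈ B j :=
          h1 ⟨j, by omega⟩ _ (by rw [map_sub, hτ, hc, sub_self])
        have e : x - algebraMap F₀ R c • w ⟨j, by omega⟩ =
            (x - s • w ⟨j, by omega⟩) + (s - algebraMap F₀ R c) • w ⟨j, by omega⟩ := by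
          rw [sub_smul]; abel
        rw [e]
        exact (B j).add_mem hs h5
      have h6 := ih (by omega) _ h4
      rw [map_sub, map_smul, algebraMap_smul] at h6
      have h7 : c • mkQ (w ⟨j, by omega⟩) ∈ Submodule.span F₀ (Set.range v) :=
        Submodule.smul_mem _ _ (Submodule.subset_span ⟨⟨j, by omega⟩, rfl⟩)
      have h8 := Submodule.add_mem _ h6 h7
      rwa [sub_add_cancel] at h8
  have htop : Submodule.span F₀ (Set.range v) = ⊤ := by
    rw [eq_top_iff]
    rintro q -
    obtain ⟨x, rfl⟩ := (B 0).mkQ_surjective q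
    exact hspan k le_rfl x (by rw [h3]; trivial)
  have hfin : Module.Finite F₀ Q := by
    classical
    refine ⟨⟨Finset.univ.image v, ?_⟩⟩
    rw [Finset.coe_image, Finset.coe_univ, Set.image_univ]
    exact htop
  have hQ : Module.finrank F₀ Q ≤ k := by
    have h4 := finrank_range_le_card (R := F₀) v
    rw [Set.finrank, htop, finrank_top, Fintype.card_fin] at h4
    exact h4
  -- the linear map
  let f : (Fin hh → F₀) →ₗ[F₀] Q :=
    { toFun := fun x => mkQ (fun i => algebraMap F₀ R (x i))
      map_add' := fun x y => by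
        rw [← map_add]
        congr 1
        funext i
        simp
      map_smul' := fun c x => by
        have e : (fun i => algebraMap F₀ R ((c • x) i)) = algebraMap F₀ R c • (fun i => algebraMap F₀ R (x i)) := by
          funext i
          simp
        rw [e, map_smul, algebraMap_smul]
        rfl }
  have hker : LinearMap.ker f = I := by
    ext x
    rw [LinearMap.mem_ker, hI]
    exact Submodule.Quotient.mk_eq_zero _
  rw [← hker, LinearEquiv.finrank_eq (f.quotKerEquivRange)]
  exact (Submodule.finrank_le _).trans hQ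

/-- coefficient fields in characteristic zero -/
theorem exists_section (R : Type) [CommRing R] [Algebra ℚ R] (J : Ideal R) [hm : J.IsMaximal]
    (hJ : IsNilpotent J) : ∃ σ : R ⧸ J →+* R, ∀ x, Ideal.Quotient.mk J (σ x) = x := by
  letI : Field (R ⧸ J) := Ideal.Quotient.field J
  have hfs : Algebra.FormallySmooth ℚ (R ⧸ J) := by
    obtain ⟨ι, v, hv⟩ := exists_isTranscendenceBasis' ℚ (R ⧸ J)
    have : Algebra.IsAlgebraic (IntermediateField.adjoin ℚ (Set.range v)) (R ⧸ J) :=
      hv.isAlgebraic_field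
    exact Algebra.FormallySmooth.of_algebraicIndependent_of_isSeparable hv.1
  refine ⟨(Algebra.FormallySmooth.lift J hJ (AlgHom.id ℚ (R ⧸ J))).toRingHom, fun x => ?_⟩
  exact Algebra.FormallySmooth.mk_lift J hJ (AlgHom.id ℚ (R ⧸ J)) x

end Pool.Agent.H675R3
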