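import Pool.Agent.H675R3.UltraA

set_option autoImplicit false
set_option linter.unusedVariables false

namespace Pool.Agent.H675R3

open Finset

/-- a composition series -/
lemma exists_chain {V : Type*} [AddCommGroup V] (p : ℕ) (hp : p.Prime) :
    ∀ (k : ℕ) (b : AddSubgroup V), b.index ≠ 0 → b.index ≤ p ^ k →
    (∃ J : ℕ, ∀ x : V, (p ^ J) • x ∈ b) →
    ∃ (w : ℕ → V) (C : ℕ → AddSubgroup V), C 0 = b ∧ C k = ⊤ ∧
      ∀ j < k, C j ≤ C (j + 1) ∧ p • w j ∈ C j ∧ ∀ x ∈ C (j + 1), ∃ m : ℤ, x - m • w j ∈ C j := by
  intro k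
  induction k with
  | zero =>
    intro b h0 h1 _
    refine ⟨fun _ => 0, fun _ => b, rfl, ?_, fun j hj => absurd hj (by omega)⟩
    rw [pow_zero] at h1
    exact AddSubgroup.index_eq_one.mp (le_antisymm h1 (Nat.one_le_iff_ne_zero.mpr h0))
  | succ k ih =>
    intro b h0 h1 ⟨J, hJ⟩
    by_cases hb : b = ⊤
    · subst hb
      exact ⟨fun _ => 0, fun _ => ⊤, rfl, rfl, fun j hj => ⟨le_rfl, AddSubgroup.mem_top _, fun x _ =>
        ⟨0, AddSubgroup.mem_top _⟩⟩⟩
    · -- find `w`
      obtain ⟨w, hw, hpw⟩ : ∃ w, w ∉ b ∧ p • w ∈ b := by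
        by_contra hcon
        push Not at hcon
        apply hb
        rw [eq_top_iff]
        rintro x -
        have : ∀ i ≤ J, (p ^ (J - i)) • x ∈ b := by
          intro i
          induction i with
          | zero => intro _; exact hJ x
          | succ i ih' =>
            intro hi
            by_contra hx
            apply hcon _ hx
            rw [smul_smul, ← pow_succ', show J - (i + 1) + 1 = J - i by omega]
            exact ih' (by omega)
        have := this J le_rfl
        simpa using this
      set b' := b ⊔ AddSubgroup.zmultiples w with hb'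
      have hbb' : b ≤ b' := le_sup_left
      have hmem : ∀ x ∈ b', ∃ m : ℤ, x - m • w ∈ b := by
        intro x hx
        obtain ⟨y, hy, z, hz, e⟩ := AddSubgroup.mem_sup.mp hx
        obtain ⟨m, rfl⟩ := AddSubgroup.mem_zmultiples_iff.mp hz
        exact ⟨m, by rw [← e, add_sub_cancel_right]; exact hy⟩
      have hdvd : ∀ m : ℤ, m • w ∈ b → (p : ℤ) ∣ m := by
        intro m hm
        by_contra hpm
        have hcop : IsCoprime m (p : ℤ) :=
          ((Nat.prime_iff_prime_int.mp hp).coprime_iff_not_dvd.mpr hpm).symm
        obtain ⟨u, v, huv⟩ := hcop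
        apply hw
        have e : w = u • (m • w) + v • ((p : ℕ) • w) := by
          rw [← natCast_zsmul, smul_smul, smul_smul, ← add_smul, huv, one_smul]
        rw [e]
        exact b.add_mem (b.zsmul_mem hm u) (b.zsmul_mem hpw v)
      have hfin : Finite (V ⧸ b) := by
        rw [AddSubgroup.index] at h0
        exact (Nat.card_ne_zero.mp h0).2
      have hinj : Function.Injective (fun t : Fin p × (V ⧸ b') =>
          (QuotientAddGroup.mk ((t.1 : ℕ) • w + t.2.out) : V ⧸ b)) := by
        rintro ⟨i, y⟩ ⟨i', y'⟩ e
        have e1 : -((i : ℕ) • w + y.out) + ((i' : ℕ) • w + y'.out) ∈ b := QuotientAddGroup.eq.mp e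
        have hy : y = y' := by
          have e2 : -y.out + y'.out ∈ b' := by
            have hwm : ∀ m : ℕ, m • w ∈ b' := fun m =>
              b'.nsmul_mem ((le_sup_right : AddSubgroup.zmultiples w ≤ b') (AddSubgroup.mem_zmultiples w)) m
            have h5 := b'.add_mem (b'.add_mem (hbb' e1) (hwm i)) (b'.neg_mem (hwm i'))
            have e3 : -((i : ℕ) • w + y.out) + ((i' : ℕ) • w + y'.out) + (i : ℕ) • w + -((i' : ℕ) • w) =
              -y.out + y'.out := by abel
            rwa [e3] at h5
          have h6 : (QuotientAddGroup.mk y.out : V ⧸ b') = QuotientAddGroup.mk y'.out :=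
            QuotientAddGroup.eq.mpr e2
          rwa [QuotientAddGroup.out_eq', QuotientAddGroup.out_eq'] at h6
        subst hy
        have e2 : ((i' : ℤ) - (i : ℤ)) • w ∈ b := by
          have e3 : -((i : ℕ) • w + y.out) + ((i' : ℕ) • w + y.out) = ((i' : ℤ) - (i : ℤ)) • w := by
            rw [sub_smul, natCast_zsmul, natCast_zsmul]; abel
          rwa [e3] at e1
        have h7 := hdvd _ e2
        have h8 : (i' : ℤ) - (i : ℤ) = 0 := by
          have h9 := i.2
          have h10 := i'.2
          apply Int.eq_zero_of_abs_lt_dvd h7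
          rw [abs_lt]
          constructor <;> omega
        have h9 : i = i' := by
          apply Fin.ext
          omega
        rw [h9]
      have hfin' : Finite (V ⧸ b') := by
        have hp1 : Nonempty (Fin p) := ⟨⟨0, hp.pos⟩⟩
        have := Finite.of_injective _ hinj
        exact Finite.of_surjective (Prod.snd : Fin p × (V ⧸ b') → _) Prod.snd_surjective
      have hcard : p * b'.index ≤ b.index := by
        have := Nat.card_le_card_of_injective _ hinj
        rw [Nat.card_prod, Nat.card_fin] at this
        exact this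
      have hb'0 : b'.index ≠ 0 := by
        rw [AddSubgroup.index]
        exact Nat.card_pos.ne'
      have hb'1 : b'.index ≤ p ^ k := by
        have h5 : p * b'.index ≤ p * p ^ k := by
          rw [← pow_succ']; exact hcard.trans h1
        exact Nat.le_of_mul_le_mul_left h5 hp.pos
      obtain ⟨w', C, hC0, hCk, hC⟩ := ih b' hb'0 hb'1 ⟨J, fun x => hbb' (hJ x)⟩
      refine ⟨fun j => match j with | 0 => w | j + 1 => w' j,
        fun j => match j with | 0 => b | j + 1 => C j, rfl, hCk, ?_⟩
      intro j hj
      match j, hj with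
      | 0, _ =>
        change b ≤ C 0 ∧ p • w ∈ b ∧ ∀ x ∈ C 0, ∃ m : ℤ, x - m • w ∈ b
        rw [hC0]
        exact ⟨hbb', hpw, hmem⟩
      | j + 1, hj => exact hC j (by omega)

end Pool.Agent.H675R3
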