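import Pool.Agent.H675R3.Final

set_option autoImplicit false
set_option linter.unusedVariables false

namespace Pool.Agent.H675R3

open Finset

attribute [local instance 100] LieRing.ofAssociativeRing

/-- product filtration -/
def prodNF {k A B : Type*} [CommRing k] [Ring A] [Algebra k A] [Ring B] [Algebra k B] {N₁ N₂ N : ℕ}
    (F₁ : NF k A N₁) (F₂ : NF k B N₂) (h₁ : N₁ ≤ N) (h₂ : N₂ ≤ N) : NF k (A × B) N where
  U i := (F₁.U i).prod (F₂.U i)
  anti := fun h x hx => ⟨F₁.anti h hx.1, F₂.anti h hx.2⟩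
  one := ⟨F₁.one, F₂.one⟩
  mul := fun hx hy => ⟨F₁.mul hx.1 hy.1, F₂.mul hx.2 hy.2⟩
  bot := fun x hx => by
    ext1
    · exact F₁.zero_of_le hx.1 h₁
    · exact F₂.zero_of_le hx.2 h₂
  pos := lt_of_lt_of_le F₁.pos h₁

/-- the truncation order does not matter -/
lemma Lg_trunc {A : Type*} [Ring A] [Algebra ℚ A] {N N' : ℕ} (F : NF ℚ A N) (h : N ≤ N') {u : A}
    (hu : u - 1 ∈ F.U 1) : Lg ℚ N' u = Lg ℚ N u := by
  unfold Lg
  rw [← Finset.sum_Ico_consecutive _ (show 1 ≤ N from F.pos) h, Finset.sum_eq_zero (s := Ico N N'),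
    add_zero]
  intro m hm
  rw [F.pow_eq_zero hu (mem_Ico.mp hm).1, smul_zero]

lemma matNF_mem_of_unitri {n : ℕ} {A : Matrix (Fin n) (Fin n) ℚ} (h : IsUnitri A) :
    A - 1 ∈ (matNF ℚ n).U 1 := by
  intro a b hab
  rw [Matrix.sub_apply]
  by_cases e : a = b
  · subst e
    rw [h.1, Matrix.one_apply_eq, sub_self]
  · have hlt : b < a := by
      have : (b : ℕ) ≠ a := fun e' => e (Fin.ext e'.symm)
      exact Fin.lt_def.mpr (by omega)
    rw [h.2 a b hlt, Matrix.one_apply_ne e, sub_zero]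

/-- **Uniqueness of the Malcev Lie algebra** -/
theorem malcev_unique {G : Type*} [Group G] {n₁ n₂ : ℕ}
    (ρ₁ : G →* Matrix (Fin n₁) (Fin n₁) ℚ) (ρ₂ : G →* Matrix (Fin n₂) (Fin n₂) ℚ)
    (huni₁ : ∀ g, IsUnitri (ρ₁ g)) (huni₂ : ∀ g, IsUnitri (ρ₂ g))
    (hinj₁ : Function.Injective ρ₁) (hinj₂ : Function.Injective ρ₂) :
    Nonempty (malcevLie ρ₁ ≃ₗ⁅ℚ⁆ malcevLie ρ₂) := by
  let A := Matrix (Fin n₁) (Fin n₁) ℚ × Matrix (Fin n₂) (Fin n₂) ℚ
  let N := n₁ + n₂ + 1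
  let F : NF ℚ A N := prodNF (matNF ℚ n₁) (matNF ℚ n₂) (by omega) (by omega)
  let φ : G →* A := ρ₁.prod ρ₂
  have hφ : ∀ g, φ g - 1 ∈ F.U 1 := fun g =>
    ⟨matNF_mem_of_unitri (huni₁ g), matNF_mem_of_unitri (huni₂ g)⟩
  have hk := good_rat N
  have hfst : ∀ g, (lg ℚ N φ g).1 = matLog (ρ₁ g) := by
    intro g
    have h1 := map_Lg hk (RingHom.id ℚ) (RingHom.fst (Matrix (Fin n₁) (Fin n₁) ℚ)
      (Matrix (Fin n₂) (Fin n₂) ℚ)) (fun c a => rfl) (φ g)
    rw [matLog_eq, ← Lg_trunc (matNF ℚ n₁) (show n₁ + 1 ≤ N by omega) (matNF_mem_of_unitri (huni₁ g))]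
    exact h1
  have hsnd : ∀ g, (lg ℚ N φ g).2 = matLog (ρ₂ g) := by
    intro g
    have h1 := map_Lg hk (RingHom.id ℚ) (RingHom.snd (Matrix (Fin n₁) (Fin n₁) ℚ)
      (Matrix (Fin n₂) (Fin n₂) ℚ)) (fun c a => rfl) (φ g)
    rw [matLog_eq, ← Lg_trunc (matNF ℚ n₂) (show n₂ + 1 ≤ N by omega) (matNF_mem_of_unitri (huni₂ g))]
    exact h1
  let W := Wi F φ ⊤ 1
  have hWbr : ∀ x ∈ W, ∀ y ∈ W, x * y - y * x ∈ W := bracket_WW F hk hφ inferInstance le_rfl
  let L : LieSubalgebra ℚ A := { W with lie_mem' := fun {x y} hx hy => hWbr x hx y hy }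
  have hL : ∀ x, x ∈ L ↔ x ∈ W := fun x => Iff.rfl
  have hmem1 : ∀ x ∈ W, x.1 ∈ malcevLie ρ₁ := by
    intro x hx
    induction hx using Submodule.span_induction with
    | mem x hx =>
      obtain ⟨g, _, _, rfl⟩ := hx
      rw [hfst]
      exact LieSubalgebra.subset_lieSpan ⟨g, rfl⟩
    | zero => exact (malcevLie ρ₁).zero_mem
    | add x y _ _ hx hy => exact (malcevLie ρ₁).add_mem hx hy
    | smul c x _ hx => exact (malcevLie ρ₁).smul_mem c hx
  have hmem2 : ∀ x ∈ W, x.2 ∈ malcevLie ρ₂ := by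
    intro x hx
    induction hx using Submodule.span_induction with
    | mem x hx =>
      obtain ⟨g, _, _, rfl⟩ := hx
      rw [hsnd]
      exact LieSubalgebra.subset_lieSpan ⟨g, rfl⟩
    | zero => exact (malcevLie ρ₂).zero_mem
    | add x y _ _ hx hy => exact (malcevLie ρ₂).add_mem hx hy
    | smul c x _ hx => exact (malcevLie ρ₂).smul_mem c hx
  -- injectivity of both projections
  have hzero : ∀ x ∈ W, (x.1 = 0 ∨ x.2 = 0) → x = 0 := by
    intro x hx h
    obtain ⟨m, hm, g, hg⟩ := exists_multiple F hφ hx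
    have hg1 : g = 1 := by
      rcases h with h | h
      · have h1 : lg ℚ (n₁ + 1) ρ₁ g = 0 := by
          have h2 := hfst g
          rw [hg] at h2
          have h3 : (m • x).1 = m • x.1 := rfl
          rw [h3, h, smul_zero, matLog_eq] at h2
          exact h2.symm
        have h2 := E_lg (matNF ℚ n₁) (good_rat _) (φ := ρ₁) (fun g => matNF_mem_of_unitri (huni₁ g)) g
        rw [show lg ℚ (n₁ + 1) ρ₁ g = 0 from h1, E_zero (good_rat _) (matNF ℚ n₁)] at h2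
        apply hinj₁
        rw [← h2, map_one]
      · have h1 : lg ℚ (n₂ + 1) ρ₂ g = 0 := by
          have h2 := hsnd g
          rw [hg] at h2
          have h3 : (m • x).2 = m • x.2 := rfl
          rw [h3, h, smul_zero, matLog_eq] at h2
          exact h2.symm
        have h2 := E_lg (matNF ℚ n₂) (good_rat _) (φ := ρ₂) (fun g => matNF_mem_of_unitri (huni₂ g)) g
        rw [show lg ℚ (n₂ + 1) ρ₂ g = 0 from h1, E_zero (good_rat _) (matNF ℚ n₂)] at h2
        apply hinj₂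
        rw [← h2, map_one]
    rw [hg1, lg_one F hk hφ] at hg
    have h1 : (m : ℚ) • x = 0 := by rw [Nat.cast_smul_eq_nsmul]; exact hg.symm
    exact (smul_eq_zero.mp h1).resolve_left (by exact_mod_cast hm.ne')
  let p₁ : L →ₗ⁅ℚ⁆ malcevLie ρ₁ :=
    { toFun := fun x => ⟨x.1.1, hmem1 x.1 x.2⟩
      map_add' := fun x y => rfl
      map_smul' := fun c x => rfl
      map_lie' := fun {x y} => rfl }
  let p₂ : L →ₗ⁅ℚ⁆ malcevLie ρ₂ :=
    { toFun := fun x => ⟨x.1.2, hmem2 x.1 x.2⟩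
      map_add' := fun x y => rfl
      map_smul' := fun c x => rfl
      map_lie' := fun {x y} => rfl }
  have hp₁ : Function.Bijective p₁ := by
    constructor
    · intro x y hxy
      have h1 : (x.1 - y.1).1 = 0 := by
        have := congrArg Subtype.val hxy
        rw [Prod.fst_sub]
        exact sub_eq_zero.mpr this
      have h2 := hzero (x.1 - y.1) (W.sub_mem x.2 y.2) (Or.inl h1)
      exact Subtype.ext (sub_eq_zero.mp h2)
    · let I : LieSubalgebra ℚ (Matrix (Fin n₁) (Fin n₁) ℚ) :=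
        { W.map (LinearMap.fst ℚ (Matrix (Fin n₁) (Fin n₁) ℚ) (Matrix (Fin n₂) (Fin n₂) ℚ)) with
          lie_mem' := by
            rintro _ _ ⟨x, hx, rfl⟩ ⟨y, hy, rfl⟩
            exact ⟨x * y - y * x, hWbr x hx y hy, rfl⟩ }
      have hle : malcevLie ρ₁ ≤ I := by
        unfold malcevLie
        rw [LieSubalgebra.lieSpan_le]
        rintro _ ⟨g, rfl⟩
        exact ⟨lg ℚ N φ g, mem_Wi F (Subgroup.mem_top g) (hφ g), hfst g⟩
      rintro ⟨y, hy⟩
      obtain ⟨x, hx, hxy⟩ := hle hy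
      exact ⟨⟨x, hx⟩, Subtype.ext hxy⟩
  have hp₂ : Function.Bijective p₂ := by
    constructor
    · intro x y hxy
      have h1 : (x.1 - y.1).2 = 0 := by
        have := congrArg Subtype.val hxy
        rw [Prod.snd_sub]
        exact sub_eq_zero.mpr this
      have h2 := hzero (x.1 - y.1) (W.sub_mem x.2 y.2) (Or.inr h1)
      exact Subtype.ext (sub_eq_zero.mp h2)
    · let I : LieSubalgebra ℚ (Matrix (Fin n₂) (Fin n₂) ℚ) :=
        { W.map (LinearMap.snd ℚ (Matrix (Fin n₁) (Fin n₁) ℚ) (Matrix (Fin n₂) (Fin n₂) ℚ)) with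
          lie_mem' := by
            rintro _ _ ⟨x, hx, rfl⟩ ⟨y, hy, rfl⟩
            exact ⟨x * y - y * x, hWbr x hx y hy, rfl⟩ }
      have hle : malcevLie ρ₂ ≤ I := by
        unfold malcevLie
        rw [LieSubalgebra.lieSpan_le]
        rintro _ ⟨g, rfl⟩
        exact ⟨lg ℚ N φ g, mem_Wi F (Subgroup.mem_top g) (hφ g), hsnd g⟩
      rintro ⟨y, hy⟩
      obtain ⟨x, hx, hxy⟩ := hle hy
      exact ⟨⟨x, hx⟩, Subtype.ext hxy⟩
  exact ⟨(LieEquiv.ofBijective p₁ hp₁).symm.trans (LieEquiv.ofBijective p₂ hp₂)⟩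

end Pool.Agent.H675R3
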